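import Pool.Agent.Lib.MP_262b4d_al.NAll

/-!
# The action of the vertex groups on the classes of reduced words
-/

namespace GIG

variable {V M : Type*} [AddCommGroup M] [Module (ZMod 2) M]

namespace Sys

variable {S : Sys V M}

/-- `s` is reduced and minimal in its coset at `v` -/
def Min (S : Sys V M) (v : V) (s : List (V × M)) : Prop := S.Red s ∧ ¬ S.D s v

/-- `c s = ζ r` -/
def On (S : Sys V M) (v : V) (s : List (V × M)) (c : M) (r : List (V × M)) (ζ : M) : Prop :=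
  ζ ∈ S.Z ∧ S.Red r ∧ (S.H v s r (c + ζ) ∨ S.R ((v, c) :: s) r ζ)

theorem On.exists_base (v : V) {r : List (V × M)} (hr : S.Red r) :
    ∃ s a, S.Min v s ∧ S.On v s a r 0 := by
  by_cases hd : S.D r v
  · obtain ⟨a, s, hs⟩ := hd
    have h := hr.of_R hs
    exact ⟨s, a, ⟨h.1, h.2.1⟩, S.Z.zero_mem, hr, Or.inr hs.symm⟩
  · exact ⟨r, 0, ⟨hr, hd⟩, S.Z.zero_mem, hr, Or.inl (H.refl _ _ (by exact ch2_aux (by match_scalars <;> rfl)))⟩

theorem On.exists {v : V} {s : List (V × M)} (hs : S.Min v s) (c : M) :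
    ∃ r ζ, S.On v s c r ζ := by
  by_cases h1 : S.triv v c
  · obtain ⟨ζ, hz, hk⟩ := h1
    exact ⟨s, ζ, hz, hs.1, Or.inl (H.of_R (R.refl s) (by exact kmem_aux hk (by match_scalars <;> rfl)))⟩
  by_cases h2 : ∃ w d, d ∈ S.C v w ∧ S.D s w ∧ c + d ∈ S.K v
  · obtain ⟨w, d, hd, ⟨α, t, ht⟩, hk⟩ := h2
    have hH : S.H v s ((w, α + d) :: t) (c + 0) :=
      Or.inr ⟨w, d, α, t, hd, ht, R.refl _, by exact kmem_aux hk (by match_scalars <;> rfl)⟩
    exact ⟨(w, α + d) :: t, 0, S.Z.zero_mem, hs.1.of_H hs.2 hH, Or.inl hH⟩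
  · refine ⟨(v, c) :: s, 0, S.Z.zero_mem, ⟨hs.1, hs.2, h1, ?_⟩, Or.inr (R.refl _)⟩
    intro w d hd hw hk
    exact h2 ⟨w, d, hd, hw, hk⟩

theorem On.memZ {v : V} {s r : List (V × M)} {c ζ : M} (h : S.On v s c r ζ) : ζ ∈ S.Z := h.1

theorem On.red {v : V} {s r : List (V × M)} {c ζ : M} (h : S.On v s c r ζ) : S.Red r := h.2.1

/-- the mixed case is impossible -/
theorem On.mixed {v : V} {s r r' : List (V × M)} {c ζ ζ' : M}
    (hz : ζ ∈ S.Z) (h : S.H v s r (c + ζ)) (hr' : S.Red r')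
    (h' : S.R ((v, c) :: s) r' ζ') : False := by
  obtain ⟨-, -, h3, h4⟩ := hr'.of_R h'.symm
  rcases h with ⟨ζ1, h1, h2⟩ | ⟨w, d, α, t, hc, h1, h2, hk⟩
  · exact h3 ⟨ζ + ζ1, S.Z.add_mem hz h1.memZ, by exact kmem_aux h2 (by match_scalars <;> rfl)⟩
  · exact h4 w (d + ζ) (S.addZ hc hz) (D.of_R' h1) (by exact kmem_aux hk (by match_scalars <;> rfl))

theorem On.unique {v : V} {s r r' : List (V × M)} {c ζ ζ' : M} (hs : S.Min v s)
    (h : S.On v s c r ζ) (h' : S.On v s c r' ζ') : S.R r r' (ζ + ζ') := by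
  obtain ⟨hz, hr, h⟩ := h
  obtain ⟨hz', hr', h'⟩ := h'
  rcases h with h | h
  · rcases h' with h' | h'
    · have A : S.H v r r' (ζ + ζ') := (H.comp hs.1 hs.2 h.symm h').congr' (by exact ch2_aux (by match_scalars <;> rfl))
      exact A.central (S.Z.add_mem hz hz')
    · exact (On.mixed hz h hr' h').elim
  · rcases h' with h' | h'
    · exact (On.mixed hz' h' hr h).elim
    · exact h.symm.trans h'

theorem On.base {v : V} {s s' r : List (V × M)} {a a' ζ ζ' : M} (hs : S.Min v s)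
    (hs' : S.Min v s') (h : S.On v s a r ζ) (h' : S.On v s' a' r ζ') :
    S.H v s s' (a + a' + ζ + ζ') := by
  obtain ⟨hz, hr, h⟩ := h
  obtain ⟨hz', hr', h'⟩ := h'
  rcases h with h | h
  · have hd : ¬ S.D r v := h.not_D hs.1 hs.2
    rcases h' with h' | h'
    · exact (H.comp hr hd h h'.symm).congr' (by exact ch2_aux (by match_scalars <;> rfl))
    · exact absurd (D.of_R h' (D.cons v a' s')) hd
  · rcases h' with h' | h'
    · have hd : ¬ S.D r v := h'.not_D hs'.1 hs'.2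
      exact absurd (D.of_R h (D.cons v a s)) hd
    · have hred : S.Red ((v, a) :: s) := hr.of_R h.symm
      exact (hred.same (h.trans h'.symm)).congr' (by exact ch2_aux (by match_scalars <;> rfl))

theorem On.transfer {v : V} {s s' r : List (V × M)} {c ζ δ : M} (hs : S.Min v s)
    (hH : S.H v s s' δ) (h : S.On v s c r ζ) : S.On v s' (c + δ) r ζ := by
  obtain ⟨hz, hr, h⟩ := h
  refine ⟨hz, hr, ?_⟩
  rcases h with h | h
  · exact Or.inl ((H.comp hs.1 hs.2 hH.symm h).congr' (by exact ch2_aux (by match_scalars <;> rfl)))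
  · refine Or.inr (((hH.symm.toR S.Z.zero_mem (a := c + δ) (b := c) ?_).trans h).congr (by exact ch2_aux (by match_scalars <;> rfl)))
    exact kmem_aux (S.K v).zero_mem (by match_scalars <;> rfl)

theorem On.shift {v : V} {s r : List (V × M)} {c c' ζ ζ0 : M} (h : S.On v s c r ζ)
    (hz0 : ζ0 ∈ S.Z) (hk : c + c' + ζ0 ∈ S.K v) : S.On v s c' r (ζ + ζ0) := by
  obtain ⟨hz, hr, h⟩ := h
  refine ⟨S.Z.add_mem hz hz0, hr, ?_⟩
  rcases h with h | h
  · exact Or.inl (h.congr (by exact kmem_aux hk (by match_scalars <;> rfl)))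
  · have A : S.R ((v, c') :: s) ((v, c) :: s) ζ0 := R.cons (R.refl s) hz0 (by exact kmem_aux hk (by match_scalars <;> rfl))
    exact Or.inr ((A.trans h).congr (by exact ch2_aux (by match_scalars <;> rfl)))

theorem On.of_R {v : V} {s r r' : List (V × M)} {c ζ ζ' : M} (h : S.On v s c r ζ)
    (hR : S.R r r' ζ') : S.On v s c r' (ζ + ζ') := by
  obtain ⟨hz, hr, h⟩ := h
  refine ⟨S.Z.add_mem hz hR.memZ, hr.of_R hR, ?_⟩
  rcases h with h | h
  · exact Or.inl ((h.trans_R hR).congr' (by exact ch2_aux (by match_scalars <;> rfl)))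
  · exact Or.inr (h.trans hR)

/-- `c r = ζ r'`, computed at the vertex `v` -/
def Act (S : Sys V M) (v : V) (c : M) (r r' : List (V × M)) (ζ : M) : Prop :=
  ∃ s a, S.Min v s ∧ S.On v s a r 0 ∧ S.On v s (a + c) r' ζ

theorem Act.memZ {v : V} {c : M} {r r' : List (V × M)} {ζ : M} (h : S.Act v c r r' ζ) :
    ζ ∈ S.Z := by
  obtain ⟨s, a, -, -, h⟩ := h
  exact h.1

theorem Act.red {v : V} {c : M} {r r' : List (V × M)} {ζ : M} (h : S.Act v c r r' ζ) :
    S.Red r' := by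
  obtain ⟨s, a, -, -, h⟩ := h
  exact h.2.1

theorem Act.exists (v : V) (c : M) {r : List (V × M)} (hr : S.Red r) :
    ∃ r' ζ, S.Act v c r r' ζ := by
  obtain ⟨s, a, hs, h⟩ := On.exists_base v hr
  obtain ⟨r', ζ, h'⟩ := On.exists hs (a + c)
  exact ⟨r', ζ, s, a, hs, h, h'⟩

theorem Act.add {v : V} {c c' : M} {r r' r'' : List (V × M)} {ζ ζ' : M}
    (h : S.Act v c r r' ζ) (h' : S.Act v c' r' r'' ζ') : S.Act v (c + c') r r'' (ζ + ζ') := by
  obtain ⟨s, a, hs, h1, h2⟩ := h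
  obtain ⟨s', a', hs', h1', h2'⟩ := h'
  have hH := On.base hs hs' h2 h1'
  have A := h2'.transfer hs' hH.symm
  refine ⟨s, a, hs, h1, ?_⟩
  have B := A.shift (c' := a + (c + c')) h2.1 (by
    exact kmem_aux (S.K v).zero_mem (by match_scalars <;> rfl))
  rw [add_comm ζ ζ']
  exact B

theorem Act.zero (v : V) {r : List (V × M)} (hr : S.Red r) : S.Act v 0 r r 0 := by
  obtain ⟨s, a, hs, h⟩ := On.exists_base v hr
  exact ⟨s, a, hs, h, by rw [add_zero]; exact h⟩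

theorem Act.shift {v : V} {c c' : M} {r r' : List (V × M)} {ζ ζ0 : M}
    (h : S.Act v c r r' ζ) (hz : ζ0 ∈ S.Z) (hk : c + c' + ζ0 ∈ S.K v) :
    S.Act v c' r r' (ζ + ζ0) := by
  obtain ⟨s, a, hs, h1, h2⟩ := h
  exact ⟨s, a, hs, h1, h2.shift hz (by exact kmem_aux hk (by match_scalars <;> rfl))⟩

theorem Act.of_R_right {v : V} {c : M} {r r' r'' : List (V × M)} {ζ ζ' : M}
    (h : S.Act v c r r' ζ) (hR : S.R r' r'' ζ') : S.Act v c r r'' (ζ + ζ') := by
  obtain ⟨s, a, hs, h1, h2⟩ := h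
  exact ⟨s, a, hs, h1, h2.of_R hR⟩

theorem Act.of_R_left {v : V} {c : M} {r r' q : List (V × M)} {ζ ζ' : M}
    (h : S.Act v c r r' ζ) (hR : S.R r q ζ') : S.Act v c q r' (ζ + ζ') := by
  obtain ⟨s, a, hs, h1, h2⟩ := h
  refine ⟨s, a + ζ', hs, ?_, ?_⟩
  · have A := h1.of_R hR
    have B := A.shift (c' := a + ζ') hR.memZ (by
      exact kmem_aux (S.K v).zero_mem (by match_scalars <;> rfl))
    have e : 0 + ζ' + ζ' = 0 := by exact ch2_aux (by match_scalars <;> rfl)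
    rw [e] at B
    exact B
  · exact h2.shift hR.memZ (by exact kmem_aux (S.K v).zero_mem (by match_scalars <;> rfl))

theorem Act.unique {v : V} {c : M} {r r' r'' : List (V × M)} {ζ ζ' : M}
    (h : S.Act v c r r' ζ) (h' : S.Act v c r r'' ζ') : S.R r' r'' (ζ + ζ') := by
  obtain ⟨s, a, hs, h1, h2⟩ := h
  obtain ⟨s', a', hs', h1', h2'⟩ := h'
  have hH := On.base hs hs' h1 h1'
  have A := h2'.transfer hs' hH.symm
  have B := A.shift (c' := a + c) (ζ0 := 0) S.Z.zero_mem (by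
    exact kmem_aux (S.K v).zero_mem (by match_scalars <;> rfl))
  rw [add_zero] at B
  exact On.unique hs h2 B

theorem Act.cons {v : V} {a : M} {r : List (V × M)} (h : S.Red ((v, a) :: r)) :
    S.Act v a r ((v, a) :: r) 0 :=
  ⟨r, 0, ⟨h.1, h.2.1⟩, ⟨S.Z.zero_mem, h.1, Or.inl (H.refl _ _ (by exact ch2_aux (by match_scalars <;> rfl)))⟩,
    ⟨S.Z.zero_mem, h, Or.inr (by rw [zero_add]; exact R.refl _)⟩⟩

/-- a common element of two vertex groups multiplies a word minimal at both -/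
theorem red_cons_C {v w : V} {c : M} {r : List (V × M)} (hc : c ∈ S.C v w) (hr : S.Red r)
    (hv : ¬ S.D r v) (hw : ¬ S.D r w) : S.Red ((v, c) :: r) := by
  refine ⟨hr, hv, not_triv_C hc, ?_⟩
  intro u d hd hu hk
  have := S.Cb hc hd hk
  subst this
  exact hw hu

theorem Act.compat_aux {v w : V} {c : M} (hc : c ∈ S.C v w) {r : List (V × M)} (hr : S.Red r)
    (hv : ¬ S.D r v) (hw : S.D r w) : ∃ r' ζ, S.Act v c r r' ζ ∧ S.Act w c r r' ζ := by
  obtain ⟨b, t, ht⟩ := hw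
  have hred := hr.of_R ht
  have hH : S.H v r ((w, b + c) :: t) c :=
    Or.inr ⟨w, c, b, t, hc, ht, R.refl _, by exact kmem_aux (S.K v).zero_mem (by match_scalars <;> rfl)⟩
  have hred' := hr.of_H hv hH
  refine ⟨(w, b + c) :: t, 0, ⟨r, 0, ⟨hr, hv⟩, ⟨S.Z.zero_mem, hr, Or.inl (H.refl _ _ (by exact ch2_aux (by match_scalars <;> rfl)))⟩,
    ⟨S.Z.zero_mem, hred', Or.inl (hH.congr' (by exact ch2_aux (by match_scalars <;> rfl)))⟩⟩, ⟨t, b, ⟨hred.1, hred.2.1⟩,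
    ⟨S.Z.zero_mem, hr, Or.inr ht.symm⟩, ⟨S.Z.zero_mem, hred', Or.inr (R.refl _)⟩⟩⟩

theorem Act.compat {v w : V} {c : M} (hc : c ∈ S.C v w) {r : List (V × M)} (hr : S.Red r) :
    ∃ r' ζ, S.Act v c r r' ζ ∧ S.Act w c r r' ζ := by
  by_cases hv : S.D r v
  · by_cases hw : S.D r w
    · obtain ⟨a, s, hs⟩ := hv
      obtain ⟨b, s', hs'⟩ := hw
      obtain ⟨d, q, hd, hq⟩ := (hr.of_R hs).adj (hs.symm.trans hs') hc
      have A : S.R ((v, a) :: s) ((v, d) :: q) 0 :=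
        hq.toR S.Z.zero_mem (by exact kmem_aux (S.K v).zero_mem (by match_scalars <;> rfl))
      have h1 : S.R r ((v, d) :: q) 0 := (hs.trans A).congr (by exact ch2_aux (by match_scalars <;> rfl))
      have h2 : S.R r ((w, d) :: q) 0 := (h1.trans (R.F1 hd)).congr (by exact ch2_aux (by match_scalars <;> rfl))
      have r1 := hr.of_R h1
      have r2 := hr.of_R h2
      rcases S.addC hd hc with hdc | hdc
      · have r3 := red_cons_C hdc r1.1 r1.2.1 r2.2.1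
        refine ⟨(v, d + c) :: q, 0, ⟨q, d, ⟨r1.1, r1.2.1⟩, ⟨S.Z.zero_mem, hr, Or.inr h1.symm⟩,
          ⟨S.Z.zero_mem, r3, Or.inr (R.refl _)⟩⟩, ⟨q, d, ⟨r1.1, r2.2.1⟩,
          ⟨S.Z.zero_mem, hr, Or.inr h2.symm⟩, ⟨S.Z.zero_mem, r3, Or.inr ?_⟩⟩⟩
        exact R.F1 (S.symm hdc)
      · exact ⟨q, d + c, ⟨q, d, ⟨r1.1, r1.2.1⟩, ⟨S.Z.zero_mem, hr, Or.inr h1.symm⟩,
          ⟨hdc, r1.1, Or.inl (H.refl _ _ (by exact ch2_aux (by match_scalars <;> rfl)))⟩⟩, ⟨q, d, ⟨r1.1, r2.2.1⟩,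
          ⟨S.Z.zero_mem, hr, Or.inr h2.symm⟩, ⟨hdc, r1.1, Or.inl (H.refl _ _ (by exact ch2_aux (by match_scalars <;> rfl)))⟩⟩⟩
    · obtain ⟨r', ζ, h1, h2⟩ := Act.compat_aux (S.symm hc) hr hw hv
      exact ⟨r', ζ, h2, h1⟩
  · by_cases hw : S.D r w
    · exact Act.compat_aux hc hr hv hw
    · have r1 := red_cons_C hc hr hv hw
      have r2 := red_cons_C (S.symm hc) hr hw hv
      refine ⟨(v, c) :: r, 0, Act.cons r1, ?_⟩
      have A := (Act.cons r2).of_R_right (R.F1 (S.symm hc))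
      rwa [add_zero] at A

end Sys

end GIG
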