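import Pool.Agent.Lib.MP_262b4d_al.Val

/-!
# The rewriting algorithm: definitions and soundness
-/

namespace GIG

/-- concrete words: letters are pairs (vertex, bit vector) -/
abbrev CWord : Type := List (ℕ × List Bool)

def incB (v : ℕ) (e : ℕ × ℕ) : Bool := decide (e.1 = v) || decide (e.2 = v)

theorem incB_iff {v : ℕ} {e : ℕ × ℕ} : incB v e = true ↔ Inc v e := by
  unfold incB Inc
  rw [Bool.or_eq_true, decide_eq_true_iff, decide_eq_true_iff]

def xr (k : ℕ) (a b : List Bool) : List Bool :=
  (List.range k).map fun i => xor (a.getD i false) (b.getD i false)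

def kvec (c : Code) (v : ℕ) : List Bool :=
  (List.range (c.2.1.length + 1)).map fun i =>
    decide (v < c.1) &&
      (if i < c.2.1.length then incB v (c.2.1.getD i (0, 0)) else decide (v ∈ c.2.2))

def uvec (c : Code) (e : ℕ) : List Bool :=
  (List.range (c.2.1.length + 1)).map fun i => decide (i = e)

def suppB (c : Code) (a : List Bool) (v w : ℕ) : Bool :=
  decide (∀ i ∈ List.range c.2.1.length, a.getD i false = true →
    incB v (c.2.1.getD i (0, 0)) = true ∧ incB w (c.2.1.getD i (0, 0)) = true)

def zeroB (k : ℕ) (a : List Bool) : Bool :=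
  decide (∀ i ∈ List.range k, a.getD i false = false)

def allvecs : ℕ → List (List Bool)
  | 0 => [[]]
  | k + 1 => (allvecs k).flatMap fun l => [false :: l, true :: l]

theorem mem_allvecs : ∀ (k : ℕ) (l : List Bool), l.length = k → l ∈ allvecs k
  | 0, l, h => by
    rw [List.length_eq_zero_iff] at h
    subst h
    exact List.mem_singleton.2 rfl
  | k + 1, [], h => by simp at h
  | k + 1, b :: l, h => by
    have := mem_allvecs k l (by simpa using h)
    rw [allvecs, List.mem_flatMap]
    refine ⟨l, this, ?_⟩
    cases b <;> simp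

/-- moves on the first letter -/
def hd1 (c : Code) (l : ℕ × List Bool) (W : CWord) : List (Bool × CWord) :=
  [(false, (l.1, xr (c.2.1.length + 1) l.2 (kvec c l.1)) :: W),
    (true, (l.1, xr (c.2.1.length + 1) l.2 (uvec c c.2.1.length)) :: W)]

def hd2 (c : Code) (l : ℕ × List Bool) (W : CWord) : List (Bool × CWord) :=
  (List.range c.1).flatMap fun w => if suppB c l.2 l.1 w then [(false, (w, l.2) :: W)] else []

def hd3 (c : Code) (l : ℕ × List Bool) (W : CWord) : List (Bool × CWord) :=
  if zeroB (c.2.1.length + 1) l.2 then [(false, W)] else []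

/-- moves on the first two letters -/
def hd4 (c : Code) (l l' : ℕ × List Bool) (W : CWord) : List (Bool × CWord) :=
  if l.1 = l'.1 then [(false, (l.1, xr (c.2.1.length + 1) l.2 l'.2) :: W)] else []

def hd5 (c : Code) (l l' : ℕ × List Bool) (W : CWord) : List (Bool × CWord) :=
  (allvecs (c.2.1.length + 1)).flatMap fun u => if suppB c u l.1 l'.1 then
    [(false, (l.1, xr (c.2.1.length + 1) l.2 u) :: (l'.1, xr (c.2.1.length + 1) l'.2 u) :: W)]
    else []

def hd45 (c : Code) (l : ℕ × List Bool) : CWord → List (Bool × CWord)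
  | [] => []
  | l' :: W => hd4 c l l' W ++ hd5 c l l' W

/-- all moves -/
def mv (c : Code) : CWord → List (Bool × CWord)
  | [] => []
  | l :: W => (hd1 c l W ++ hd2 c l W ++ (hd3 c l W ++ hd45 c l W)) ++
      (mv c W).map fun p => (p.1, l :: p.2)

/-- reachability with the sign -/
inductive RR (c : Code) : CWord → CWord → Bool → Prop
  | refl (W) : RR c W W false
  | step {W W' W'' y y'} : RR c W W' y → (y', W'') ∈ mv c W' → RR c W W'' (xor y y')

theorem RR.trans {c : Code} {W W' W'' : CWord} {y y' : Bool} (h : RR c W W' y)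
    (h' : RR c W' W'' y') : RR c W W'' (xor y y') := by
  induction h' with
  | refl => simpa using h
  | step _ h2 ih => rw [← Bool.xor_assoc]; exact RR.step ih h2

theorem RR.one {c : Code} {W W' : CWord} {y : Bool} (h : (y, W') ∈ mv c W) : RR c W W' y := by
  have := RR.step (RR.refl (c := c) W) h
  simpa using this

theorem RR.cons {c : Code} {W W' : CWord} {y : Bool} (l : ℕ × List Bool) (h : RR c W W' y) :
    RR c (l :: W) (l :: W') y := by
  induction h with
  | refl => exact RR.refl _
  | @step W1 W2 y y' _ h2 ih =>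
    refine RR.step ih ?_
    rw [mv]
    exact List.mem_append_right _ (List.mem_map.2 ⟨_, h2, rfl⟩)

section Sem

variable {n : ℕ} {E : List (ℕ × ℕ)} {B : List ℕ}

def bit (b : Bool) : ZMod 2 := if b then 1 else 0

theorem bit_xor (a b : Bool) : bit (xor a b) = bit a + bit b := by
  revert a b; decide

theorem bit_eq_zero {b : Bool} : bit b = 0 ↔ b = false := by
  revert b; decide

/-- the vector of a bit list -/
def toM (E : List (ℕ × ℕ)) (a : List Bool) : Vec E
  | none => bit (a.getD E.length false)
  | some i => bit (a.getD i false)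

theorem getD_map_range {k i : ℕ} (f : ℕ → Bool) (h : i < k) :
    ((List.range k).map f).getD i false = f i := by
  rw [List.getD_eq_getElem?_getD, List.getElem?_map, List.getElem?_range h]
  rfl

theorem toM_xr (a b : List Bool) : toM E (xr (E.length + 1) a b) = toM E a + toM E b := by
  funext o
  rw [Pi.add_apply]
  rcases o with _ | i
  · show bit _ = bit _ + bit _
    unfold xr
    rw [getD_map_range _ (Nat.lt_succ_self _), bit_xor]
  · show bit _ = bit _ + bit _
    unfold xr
    rw [getD_map_range _ (Nat.lt_succ_of_lt i.2), bit_xor]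

theorem getD_get (i : Fin E.length) : E.getD i (0, 0) = E.get i := by
  rw [List.getD_eq_getElem?_getD, List.getElem?_eq_getElem i.2]
  rfl

theorem toM_kvec (v : ℕ) : toM E (kvec (n, E, B) v) = kk n E B v := by
  funext o
  rcases o with _ | i
  · show bit _ = _
    unfold kvec kk col
    rw [getD_map_range _ (Nat.lt_succ_self _)]
    by_cases hv : v < n
    · by_cases hb : v ∈ B
      · simp [hv, hb, bit]
      · simp [hv, hb, bit]
    · simp [hv, bit]
  · show bit _ = _
    unfold kvec kk
    rw [getD_map_range _ (Nat.lt_succ_of_lt i.2)]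
    by_cases hv : v < n
    · by_cases hb : Inc v (E.get i)
      · have h1 := incB_iff.2 hb
        rw [← getD_get] at h1
        simp only [hv, i.2, if_true, h1, decide_true, Bool.true_and]
        rw [if_pos hb]; rfl
      · have h1 : incB v (E.getD i (0, 0)) = false := by
          rw [getD_get, ← Bool.not_eq_true, incB_iff]; exact hb
        simp only [hv, i.2, if_true, h1, decide_true, Bool.true_and]
        rw [if_neg hb]; rfl
    · simp [hv, bit]

theorem toM_uvec_some (i : Fin E.length) : toM E (uvec (n, E, B) i) = xe i := by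
  funext o
  unfold xe
  rcases o with _ | k
  · show bit _ = _
    unfold uvec
    rw [getD_map_range _ (Nat.lt_succ_self _), Pi.single_apply, if_neg (by simp), bit_eq_zero,
      decide_eq_false_iff_not]
    exact (Nat.ne_of_lt i.2).symm
  · show bit _ = _
    unfold uvec
    rw [getD_map_range _ (Nat.lt_succ_of_lt k.2), Pi.single_apply]
    by_cases hk : k = i
    · subst hk; simp [bit]
    · have h2 : ¬ ((k : ℕ) = (i : ℕ)) := fun h => hk (Fin.ext h)
      rw [if_neg (by simpa using hk), decide_eq_false h2]; rfl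

theorem toM_uvec_none : toM E (uvec (n, E, B) E.length) = je E := by
  funext o
  unfold je
  rcases o with _ | k
  · show bit _ = _
    unfold uvec
    rw [getD_map_range _ (Nat.lt_succ_self _), Pi.single_eq_same]
    simp [bit]
  · show bit _ = _
    unfold uvec
    rw [getD_map_range _ (Nat.lt_succ_of_lt k.2), Pi.single_apply, if_neg (by simp), bit_eq_zero,
      decide_eq_false_iff_not]
    exact Nat.ne_of_lt k.2

theorem suppB_iff {a : List Bool} {v w : ℕ} : suppB (n, E, B) a v w = true ↔
    ∀ i : Fin E.length, toM E a (some i) ≠ 0 → Inc v (E.get i) ∧ Inc w (E.get i) := by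
  unfold suppB
  rw [decide_eq_true_iff]
  constructor
  · intro h i hi
    have h1 := h i (List.mem_range.2 i.2) (by
      by_contra h0
      rw [Bool.not_eq_true] at h0
      exact hi (bit_eq_zero.2 h0))
    rw [incB_iff, incB_iff] at h1
    simp only [getD_get] at h1
    exact h1
  · intro h i hi hb
    have hi' : i < E.length := List.mem_range.1 hi
    have h1 := h ⟨i, hi'⟩ (by
      show bit _ ≠ 0
      rw [Ne, bit_eq_zero]
      simp only at hb ⊢
      rw [hb]; decide)
    rw [incB_iff, incB_iff]
    have h2 := getD_get (E := E) ⟨i, hi'⟩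
    simp only at h2 ⊢
    rw [h2]; exact h1

theorem zeroB_iff {a : List Bool} : zeroB (E.length + 1) a = true ↔ toM E a = 0 := by
  unfold zeroB
  rw [decide_eq_true_iff]
  constructor
  · intro h
    funext o
    rcases o with _ | i
    · exact bit_eq_zero.2 (h _ (List.mem_range.2 (Nat.lt_succ_self _)))
    · exact bit_eq_zero.2 (h _ (List.mem_range.2 (Nat.lt_succ_of_lt i.2)))
  · intro h i hi
    have hi' : i < E.length + 1 := List.mem_range.1 hi
    rcases Nat.lt_or_ge i E.length with h1 | h1
    · exact bit_eq_zero.1 (congrFun h (some ⟨i, h1⟩))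
    · have : i = E.length := by omega
      subst this
      exact bit_eq_zero.1 (congrFun h none)

/-- abstraction of a concrete word -/
def absW (E : List (ℕ × ℕ)) (W : CWord) : List (ℕ × Vec E) := W.map fun l => (l.1, toM E l.2)

/-- power of `J` -/
def Jp (n : ℕ) (E : List (ℕ × ℕ)) (B : List ℕ) (y : Bool) : Grp n E B :=
  if y then gJ n E B else 1

theorem Jp_xor (y y' : Bool) : Jp n E B (xor y y') = Jp n E B y * Jp n E B y' := by
  cases y <;> cases y' <;> simp [Jp, gJ_sq]

theorem J_comm_phi (v : ℕ) (a : Vec E) : Commute (gJ n E B) (phi n E B v a) := by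
  have h := facJ_comm_prod (n := n) (B := B) v a (je E) (List.finRange E.length)
  have h1 : facJ n E B (je E) = gJ n E B := by
    unfold facJ je
    rw [Pi.single_eq_same, if_pos (by decide)]
  rw [h1] at h
  unfold phi
  refine Commute.mul_right h.symm ?_
  unfold facJ
  split_ifs
  · exact Commute.refl _
  · exact Commute.one_right _

theorem Jp_comm_phi (y : Bool) (v : ℕ) (a : Vec E) : Commute (Jp n E B y) (phi n E B v a) := by
  unfold Jp
  split_ifs
  · exact J_comm_phi v a
  · exact Commute.one_left _

theorem phi_je (v : ℕ) : phi n E B v (je E) = gJ n E B := by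
  unfold phi
  have h1 : ∀ l : List (Fin E.length), (l.map (fac n E B v (je E))).prod = 1 := by
    intro l
    induction l with
    | nil => rfl
    | cons i l ih =>
      rw [List.map_cons, List.prod_cons, ih, mul_one]
      unfold fac
      rw [if_neg (fun h => h.2 (je_mem i))]
  rw [h1, one_mul]
  unfold facJ je
  rw [Pi.single_eq_same, if_pos (by decide)]

theorem phi_congr {v w : ℕ} {a : Vec E} (h : ∀ i, a (some i) ≠ 0 → Inc v (E.get i) ∧ Inc w (E.get i)) :
    phi n E B v a = phi n E B w a := by
  unfold phi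
  congr 2
  apply List.map_congr_left
  intro i _
  unfold fac
  by_cases hi : a (some i) = 0
  · rw [if_neg (fun h' => h'.2 hi), if_neg (fun h' => h'.2 hi)]
  · rw [if_pos ⟨(h i hi).1, hi⟩, if_pos ⟨(h i hi).2, hi⟩]

theorem lval_cons (v : ℕ) (a : Vec E) (r : List (ℕ × Vec E)) :
    lval n E B ((v, a) :: r) = phi n E B v a * lval n E B r := by
  unfold lval
  rw [List.map_cons, List.prod_cons]

theorem absW_cons (l : ℕ × List Bool) (W : CWord) :
    absW E (l :: W) = (l.1, toM E l.2) :: absW E W := rfl

theorem SuppL.add {v : ℕ} {a b : Vec E} (ha : SuppL n E v a) (hb : ∀ i, b (some i) ≠ 0 → Inc v (E.get i)) :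
    SuppL n E v (a + b) := by
  refine ⟨ha.1, fun i hi => ?_⟩
  rw [Pi.add_apply] at hi
  rcases zmod2_add hi with hi | hi
  · exact ha.2 i hi
  · exact hb i hi

theorem Supp.cons {v : ℕ} {a : Vec E} {r : List (ℕ × Vec E)} (ha : SuppL n E v a)
    (hr : Supp n E r) : Supp n E ((v, a) :: r) := by
  intro l hl
  rcases List.mem_cons.1 hl with rfl | hl
  · exact ha
  · exact hr l hl

/-- what a move does -/
def Snd (n : ℕ) (E : List (ℕ × ℕ)) (B : List ℕ) (W : CWord) (p : Bool × CWord) : Prop :=
  Supp n E (absW E W) → Supp n E (absW E p.2) ∧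
    lval n E B (absW E W) = Jp n E B p.1 * lval n E B (absW E p.2)

theorem phi_self (v : ℕ) (u : Vec E) : phi n E B v u * phi n E B v u = 1 := by
  rw [← phi_add, show u + u = 0 by exact ch2_aux (by match_scalars <;> rfl), phi_zero]

theorem snd_hd1 (l : ℕ × List Bool) (W : CWord) : ∀ p ∈ hd1 (n, E, B) l W, Snd n E B (l :: W) p := by
  intro p hp hs
  unfold hd1 at hp
  rw [absW_cons] at hs ⊢
  rcases List.mem_cons.1 hp with rfl | hp
  · simp only [absW_cons, toM_xr, toM_kvec, lval_cons, phi_add, phi_kk, mul_one]
    refine ⟨Supp.cons (hs.head.add fun i hi => ?_) hs.tail, by simp [Jp]⟩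
    rw [kk_some hs.head.1] at hi
    by_contra h
    rw [if_neg h] at hi
    exact hi rfl
  · rw [List.mem_singleton] at hp
    subst hp
    have e := toM_uvec_none (n := n) (E := E) (B := B)
    simp only [absW_cons, toM_xr, lval_cons, phi_add]
    rw [e]
    refine ⟨Supp.cons (hs.head.add fun i hi => ?_) hs.tail, ?_⟩
    · exact absurd (je_mem i) hi
    · rw [phi_je]
      show _ = gJ n E B * _
      rw [← (J_comm_phi l.1 (toM E l.2)).eq, mul_assoc, ← mul_assoc (gJ n E B) (gJ n E B), gJ_sq,
        one_mul]

theorem snd_hd2 (l : ℕ × List Bool) (W : CWord) : ∀ p ∈ hd2 (n, E, B) l W, Snd n E B (l :: W) p := by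
  intro p hp hs
  unfold hd2 at hp
  rw [List.mem_flatMap] at hp
  obtain ⟨w, hw, hp⟩ := hp
  rw [List.mem_range] at hw
  split_ifs at hp with h
  · rw [List.mem_singleton] at hp
    subst hp
    rw [suppB_iff] at h
    rw [absW_cons] at hs ⊢
    simp only [absW_cons, lval_cons]
    refine ⟨Supp.cons ⟨hw, fun i hi => (h i hi).2⟩ hs.tail, ?_⟩
    rw [phi_congr h]
    simp [Jp]
  · exact absurd hp List.not_mem_nil

theorem snd_hd3 (l : ℕ × List Bool) (W : CWord) : ∀ p ∈ hd3 (n, E, B) l W, Snd n E B (l :: W) p := by
  intro p hp hs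
  unfold hd3 at hp
  split_ifs at hp with h
  · rw [List.mem_singleton] at hp
    subst hp
    rw [zeroB_iff] at h
    rw [absW_cons] at hs ⊢
    refine ⟨hs.tail, ?_⟩
    rw [lval_cons, h, phi_zero]
    simp [Jp]
  · exact absurd hp List.not_mem_nil

theorem snd_hd4 (l l' : ℕ × List Bool) (W : CWord) :
    ∀ p ∈ hd4 (n, E, B) l l' W, Snd n E B (l :: l' :: W) p := by
  intro p hp hs
  unfold hd4 at hp
  split_ifs at hp with h
  · rw [List.mem_singleton] at hp
    subst hp
    rw [absW_cons, absW_cons] at hs ⊢
    simp only [absW_cons, toM_xr, lval_cons, phi_add]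
    have h1 := hs.head
    have h2 := hs.tail.head
    refine ⟨Supp.cons (h1.add fun i hi => ?_) hs.tail.tail, ?_⟩
    · simp only at h2
      rw [h]
      exact h2.2 i hi
    · rw [h, mul_assoc]
      simp [Jp]
  · exact absurd hp List.not_mem_nil

theorem snd_hd5 (l l' : ℕ × List Bool) (W : CWord) :
    ∀ p ∈ hd5 (n, E, B) l l' W, Snd n E B (l :: l' :: W) p := by
  intro p hp hs
  unfold hd5 at hp
  rw [List.mem_flatMap] at hp
  obtain ⟨u, -, hp⟩ := hp
  split_ifs at hp with h
  · rw [List.mem_singleton] at hp
    subst hp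
    rw [suppB_iff] at h
    rw [absW_cons, absW_cons] at hs ⊢
    simp only [absW_cons, toM_xr, lval_cons, phi_add]
    refine ⟨Supp.cons (hs.head.add fun i hi => (h i hi).1)
      (Supp.cons (hs.tail.head.add fun i hi => (h i hi).2) hs.tail.tail), ?_⟩
    have h3 : phi n E B l'.1 (toM E u) = phi n E B l.1 (toM E u) := (phi_congr h).symm
    have h4 : phi n E B l'.1 (toM E l'.2) * phi n E B l'.1 (toM E u) =
        phi n E B l'.1 (toM E u) * phi n E B l'.1 (toM E l'.2) := by
      rw [← phi_add, ← phi_add, add_comm]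
    rw [h4, h3]
    have h5 := phi_self (n := n) (B := B) l.1 (toM E u)
    calc phi n E B l.1 (toM E l.2) * (phi n E B l'.1 (toM E l'.2) * lval n E B (absW E W))
        = phi n E B l.1 (toM E l.2) * (phi n E B l.1 (toM E u) * phi n E B l.1 (toM E u)) *
          (phi n E B l'.1 (toM E l'.2) * lval n E B (absW E W)) := by rw [h5, mul_one]
      _ = _ := by simp only [Jp, mul_assoc]; simp
  · exact absurd hp List.not_mem_nil

theorem snd_mv : ∀ (W : CWord), ∀ p ∈ mv (n, E, B) W, Snd n E B W p
  | [], p, hp => by simp [mv] at hp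
  | l :: W, p, hp => by
    rw [mv] at hp
    rcases List.mem_append.1 hp with hp | hp
    · rcases List.mem_append.1 hp with hp | hp
      · rcases List.mem_append.1 hp with hp | hp
        · exact snd_hd1 l W p hp
        · exact snd_hd2 l W p hp
      · rcases List.mem_append.1 hp with hp | hp
        · exact snd_hd3 l W p hp
        · rcases W with _ | ⟨l', W⟩
          · simp [hd45] at hp
          · rw [hd45] at hp
            rcases List.mem_append.1 hp with hp | hp
            · exact snd_hd4 l l' W p hp
            · exact snd_hd5 l l' W p hp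
    · obtain ⟨q, hq, rfl⟩ := List.mem_map.1 hp
      intro hs
      rw [absW_cons] at hs ⊢
      obtain ⟨h1, h2⟩ := snd_mv W q hq hs.tail
      refine ⟨Supp.cons hs.head h1, ?_⟩
      simp only [absW_cons, lval_cons]
      rw [h2, ← mul_assoc, ← mul_assoc, (Jp_comm_phi q.1 l.1 (toM E l.2)).eq]

theorem snd_RR {W W' : CWord} {y : Bool} (h : RR (n, E, B) W W' y) (hs : Supp n E (absW E W)) :
    Supp n E (absW E W') ∧ lval n E B (absW E W) = Jp n E B y * lval n E B (absW E W') := by
  induction h with
  | refl => exact ⟨hs, by simp [Jp]⟩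
  | step _ h2 ih =>
    obtain ⟨h3, h4⟩ := snd_mv _ _ h2 ih.1
    refine ⟨h3, ?_⟩
    rw [ih.2, h4, Jp_xor, mul_assoc]

end Sem

end GIG
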