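import Pool.Agent.Lib.MP_262b4d_al.Alg

/-!
# The rewriting algorithm: completeness
-/

namespace GIG

section Sem

variable {n : ℕ} {E : List (ℕ × ℕ)} {B : List ℕ}

/-- the bit list of a vector -/
def ofM (a : Vec E) : List Bool :=
  (List.range (E.length + 1)).map fun i =>
    if h : i < E.length then decide (a (some ⟨i, h⟩) ≠ 0) else decide (a none ≠ 0)

theorem ofM_length (a : Vec E) : (ofM a).length = E.length + 1 := by
  unfold ofM
  rw [List.length_map, List.length_range]

theorem bit_decide (x : ZMod 2) : bit (decide (x ≠ 0)) = x := by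
  revert x; decide

theorem toM_ofM (a : Vec E) : toM E (ofM a) = a := by
  funext o
  rcases o with _ | i
  · show bit _ = _
    unfold ofM
    rw [getD_map_range _ (Nat.lt_succ_self _), dif_neg (lt_irrefl _), bit_decide]
  · show bit _ = _
    unfold ofM
    rw [getD_map_range _ (Nat.lt_succ_of_lt i.2), dif_pos i.2, bit_decide]

theorem bit_inj {a b : Bool} (h : bit a = bit b) : a = b := by
  revert a b; decide

theorem toM_inj {x y : List Bool} (hx : x.length = E.length + 1) (hy : y.length = E.length + 1)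
    (h : toM E x = toM E y) : x = y := by
  apply List.ext_getElem (by rw [hx, hy])
  intro i h1 h2
  have e1 : x.getD i false = x[i] := by
    rw [List.getD_eq_getElem?_getD, List.getElem?_eq_getElem h1]; rfl
  have e2 : y.getD i false = y[i] := by
    rw [List.getD_eq_getElem?_getD, List.getElem?_eq_getElem h2]; rfl
  rw [← e1, ← e2]
  rcases Nat.lt_or_ge i E.length with hi | hi
  · exact bit_inj (congrFun h (some ⟨i, hi⟩))
  · have : i = E.length := by omega
    subst this
    exact bit_inj (congrFun h none)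

theorem xr_length (k : ℕ) (a b : List Bool) : (xr k a b).length = k := by
  unfold xr
  rw [List.length_map, List.length_range]

theorem xr_ofM (a b : Vec E) (x : List Bool) (hx : toM E x = b) :
    xr (E.length + 1) (ofM a) x = ofM (a + b) := by
  apply toM_inj (xr_length _ _ _) (ofM_length _)
  rw [toM_xr, toM_ofM, toM_ofM, hx]

/-- the concrete word of an abstract word -/
def conc (r : List (ℕ × Vec E)) : CWord := r.map fun l => (l.1, ofM l.2)

theorem conc_cons (v : ℕ) (a : Vec E) (r : List (ℕ × Vec E)) :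
    conc ((v, a) :: r) = (v, ofM a) :: conc r := rfl

theorem absW_conc : ∀ (r : List (ℕ × Vec E)), absW E (conc r) = r
  | [] => rfl
  | (v, a) :: r => by
    rw [conc_cons, absW_cons, absW_conc r, toM_ofM]

theorem mv_k (v : ℕ) (a : Vec E) (r : List (ℕ × Vec E)) :
    (false, conc ((v, a + kk n E B v) :: r)) ∈ mv (n, E, B) (conc ((v, a) :: r)) := by
  rw [conc_cons, conc_cons, mv]
  refine List.mem_append_left _ (List.mem_append_left _ (List.mem_append_left _ ?_))
  unfold hd1
  refine List.mem_cons.2 (Or.inl ?_)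
  rw [← xr_ofM a (kk n E B v) (kvec (n, E, B) v) (toM_kvec v)]

theorem mv_j (v : ℕ) (a : Vec E) (r : List (ℕ × Vec E)) :
    (true, conc ((v, a + je E) :: r)) ∈ mv (n, E, B) (conc ((v, a) :: r)) := by
  rw [conc_cons, conc_cons, mv]
  refine List.mem_append_left _ (List.mem_append_left _ (List.mem_append_left _ ?_))
  unfold hd1
  refine List.mem_cons.2 (Or.inr (List.mem_singleton.2 ?_))
  rw [← xr_ofM a (je E) (uvec (n, E, B) E.length) toM_uvec_none]

theorem mv_F1 {v w : ℕ} {a : Vec E} (r : List (ℕ × Vec E)) (hw : w < n)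
    (h : ∀ i, a (some i) ≠ 0 → Inc v (E.get i) ∧ Inc w (E.get i)) :
    (false, conc ((w, a) :: r)) ∈ mv (n, E, B) (conc ((v, a) :: r)) := by
  rw [conc_cons, conc_cons, mv]
  refine List.mem_append_left _ (List.mem_append_left _ (List.mem_append_right _ ?_))
  unfold hd2
  rw [List.mem_flatMap]
  refine ⟨w, List.mem_range.2 hw, ?_⟩
  rw [if_pos]
  · exact List.mem_singleton.2 rfl
  · rw [suppB_iff]
    intro i hi
    rw [toM_ofM] at hi
    exact h i hi

theorem mv_del (v : ℕ) (r : List (ℕ × Vec E)) :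
    (false, conc r) ∈ mv (n, E, B) (conc ((v, 0) :: r)) := by
  rw [conc_cons, mv]
  refine List.mem_append_left _ (List.mem_append_right _ (List.mem_append_left _ ?_))
  unfold hd3
  rw [if_pos]
  · exact List.mem_singleton.2 rfl
  · show zeroB (E.length + 1) (ofM 0) = true
    rw [zeroB_iff, toM_ofM]

theorem mv_merge (v : ℕ) (a b : Vec E) (r : List (ℕ × Vec E)) :
    (false, conc ((v, a + b) :: r)) ∈ mv (n, E, B) (conc ((v, a) :: (v, b) :: r)) := by
  rw [conc_cons, conc_cons, conc_cons, mv]
  refine List.mem_append_left _ (List.mem_append_right _ (List.mem_append_right _ ?_))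
  rw [hd45]
  refine List.mem_append_left _ ?_
  unfold hd4
  rw [if_pos rfl]
  refine List.mem_singleton.2 ?_
  rw [← xr_ofM a b (ofM b) (toM_ofM b)]

theorem mv_F2 {v w : ℕ} (a b : Vec E) {c : Vec E} (r : List (ℕ × Vec E))
    (h : ∀ i, c (some i) ≠ 0 → Inc v (E.get i) ∧ Inc w (E.get i)) :
    (false, conc ((v, a + c) :: (w, b + c) :: r)) ∈
      mv (n, E, B) (conc ((v, a) :: (w, b) :: r)) := by
  rw [conc_cons, conc_cons, conc_cons, conc_cons, mv]
  refine List.mem_append_left _ (List.mem_append_right _ (List.mem_append_right _ ?_))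
  rw [hd45]
  refine List.mem_append_right _ ?_
  unfold hd5
  rw [List.mem_flatMap]
  refine ⟨ofM c, mem_allvecs _ _ (ofM_length c), ?_⟩
  rw [if_pos]
  · refine List.mem_singleton.2 ?_
    rw [← xr_ofM a c (ofM c) (toM_ofM c), ← xr_ofM b c (ofM c) (toM_ofM c)]
  · rw [suppB_iff]
    intro i hi
    rw [toM_ofM] at hi
    exact h i hi

/-- the sign of a central vector -/
def sg (ζ : Vec E) : Bool := decide (ζ none ≠ 0)

theorem sg_zero : sg (0 : Vec E) = false := by
  unfold sg; simp

theorem sg_add (a b : Vec E) : sg (a + b) = xor (sg a) (sg b) := by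
  unfold sg
  rw [Pi.add_apply]
  generalize a none = x
  generalize b none = y
  revert x y; decide

theorem ZZ_cases {ζ : Vec E} (h : ζ ∈ ZZ E) : ζ = 0 ∨ ζ = je E := by
  rcases zmod2_cases (ζ none) with hz | hz
  · left
    funext o
    rcases o with _ | i
    · exact hz
    · exact h i
  · right
    funext o
    rcases o with _ | i
    · rw [hz]; unfold je; rw [Pi.single_eq_same]
    · rw [h i]; exact (je_mem i).symm

theorem sg_je : sg (je E) = true := by
  unfold sg je
  rw [Pi.single_eq_same]; decide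

/-- change of the first letter -/
theorem RR_letter {v : ℕ} {a a' η : Vec E} (r : List (ℕ × Vec E)) (hη : η ∈ ZZ E)
    (h : a + a' + η ∈ KK n E B v) :
    RR (n, E, B) (conc ((v, a) :: r)) (conc ((v, a') :: r)) (sg η) := by
  have h1 : RR (n, E, B) (conc ((v, a) :: r)) (conc ((v, a + η) :: r)) (sg η) := by
    rcases ZZ_cases hη with rfl | rfl
    · rw [add_zero, sg_zero]; exact RR.refl _
    · rw [sg_je]; exact RR.one (mv_j v a r)
  have h2 : RR (n, E, B) (conc ((v, a + η) :: r)) (conc ((v, a') :: r)) false := by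
    rcases mem_KK.1 h with h | h
    · have : a' = a + η := by
        have e : a' = a + a' + η + (a + η) := by exact ch2_aux (by match_scalars <;> rfl)
        rw [e, h, zero_add]
      rw [this]; exact RR.refl _
    · have : a' = a + η + kk n E B v := by
        rw [← h]; exact ch2_aux (by match_scalars <;> rfl)
      rw [this]; exact RR.one (mv_k v _ r)
  have := h1.trans h2
  rwa [Bool.xor_false] at this

variable (hG : Good n E)

theorem RR_of_R {r r' : List (ℕ × Vec E)} {ζ : Vec E} (h : (sysOf n E B hG).R r r' ζ) :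
    RR (n, E, B) (conc r) (conc r') (sg ζ) ∧ RR (n, E, B) (conc r') (conc r) (sg ζ) := by
  induction h with
  | nil => rw [sg_zero]; exact ⟨RR.refl _, RR.refl _⟩
  | symm _ ih => exact ih.symm
  | trans _ _ ih1 ih2 =>
    rw [sg_add]
    refine ⟨ih1.1.trans ih2.1, ?_⟩
    rw [Bool.xor_comm]
    exact ih2.2.trans ih1.2
  | @cons v a a' r r' ζ ζ' h hz hk ih =>
    have hz' : ζ + ζ' ∈ ZZ E := (ZZ E).add_mem h.memZ hz
    constructor
    · have h1 : RR (n, E, B) (conc ((v, a) :: r)) (conc ((v, a) :: r')) (sg ζ) :=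
        RR.cons _ ih.1
      have h2 : RR (n, E, B) (conc ((v, a) :: r')) (conc ((v, a') :: r')) (sg (ζ + ζ')) :=
        RR_letter r' hz' (by rw [← add_assoc]; exact hk)
      have h3 := h1.trans h2
      rw [← sg_add, show ζ + (ζ + ζ') = ζ' by exact ch2_aux (by match_scalars <;> rfl)] at h3
      exact h3
    · have h1 : RR (n, E, B) (conc ((v, a') :: r')) (conc ((v, a') :: r)) (sg ζ) :=
        RR.cons _ ih.2
      have h2 : RR (n, E, B) (conc ((v, a') :: r)) (conc ((v, a) :: r)) (sg (ζ + ζ')) :=
        RR_letter r hz' (by rw [add_comm a' a, ← add_assoc]; exact hk)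
      have h3 := h1.trans h2
      rw [← sg_add, show ζ + (ζ + ζ') = ζ' by exact ch2_aux (by match_scalars <;> rfl)] at h3
      exact h3
  | @F1 v w c r hc =>
    have ha := hG.adj_lt (adj_of_C hc)
    rw [sg_zero]
    exact ⟨RR.one (mv_F1 r ha.2.1 hc.2.2), RR.one (mv_F1 r ha.1 (fun i hi => (hc.2.2 i hi).symm))⟩
  | @F2 v w a b c r hc =>
    rw [sg_zero]
    refine ⟨RR.one (mv_F2 b a r (fun i hi => (hc.2.2 i hi).symm)), ?_⟩
    have := RR.one (mv_F2 (n := n) (B := B) (b + c) (a + c) r (fun i hi => (hc.2.2 i hi).symm))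
    rw [show b + c + c = b by exact ch2_aux (by match_scalars <;> rfl), show a + c + c = a by exact ch2_aux (by match_scalars <;> rfl)] at this
    exact this

theorem RR_of_T {r r' : List (ℕ × Vec E)} {ζ : Vec E} (h : (sysOf n E B hG).T r r' ζ) :
    RR (n, E, B) (conc r) (conc r') (sg ζ) := by
  induction h with
  | ofR h => exact (RR_of_R hG h).1
  | del => rw [sg_zero]; exact RR.one (mv_del _ _)
  | merge => rw [sg_zero]; exact RR.one (mv_merge _ _ _ _)
  | cons _ ih => exact RR.cons _ ih
  | trans _ _ ih1 ih2 => rw [sg_add]; exact ih1.trans ih2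

theorem Jp_sg {ζ : Vec E} : Jp n E B (sg ζ) = facJ n E B ζ := by
  unfold Jp sg facJ
  by_cases h : ζ none = 0
  · simp [h]
  · simp [h]

include hG in
/-- The word problem for words of letters. -/
theorem lval_iff {r : List (ℕ × Vec E)} (hs : Supp n E r) (y : Bool) :
    Jp n E B y * lval n E B r = 1 ↔ RR (n, E, B) (conc r) [] y := by
  have hs' : Supp n E (absW E (conc r)) := by rw [absW_conc]; exact hs
  constructor
  · intro h
    obtain ⟨s, ζ, hred, hT⟩ := Sys.exists_red (S := sysOf n E B hG) r
    have h1 := RR_of_T hG hT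
    obtain ⟨h2, h3⟩ := snd_RR h1 hs'
    rw [absW_conc] at h2 h3
    rw [absW_conc] at h3
    -- `J^y * J^(sg ζ) * lval s = 1`
    obtain ⟨η, hη, hy⟩ : ∃ η ∈ ZZ E, sg η = y := by
      cases y
      · exact ⟨0, (ZZ E).zero_mem, sg_zero⟩
      · exact ⟨je E, je_mem, sg_je⟩
    have h4 : facJ n E B (η + ζ) * lval n E B s = 1 := by
      rw [facJ_add, ← Jp_sg, ← Jp_sg, hy, mul_assoc, ← h3, h]
    obtain ⟨h5, h6⟩ := red_value hG h2 hred ((ZZ E).add_mem hη hT.memZ) h4
    subst h5
    have h7 : ζ = η := by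
      have e : ζ = η + ζ + η := by exact ch2_aux (by match_scalars <;> rfl)
      rw [e, h6, zero_add]
    rw [← hy, ← h7]
    exact h1
  · intro h
    obtain ⟨h2, h3⟩ := snd_RR h hs'
    rw [absW_conc] at h3
    rw [h3]
    have h4 : lval n E B (absW E ([] : CWord)) = 1 := rfl
    rw [h4, mul_one, ← Jp_xor, Bool.xor_self]
    rfl

end Sem

end GIG
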