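import Mathlib

/-!
# Graph incidence groups of finite graphs given by a code

A finite graph with a `ℤ₂`-colouring of its vertices is given by `(n, E, B)`: its vertices are
`0, …, n - 1`, its edges are the entries of the list `E` (the two ends of the edge; an entry may be
repeated: parallel edges), and `B` is the list of the vertices of colour `1`.
-/

namespace GIG

/-- Raw data of a coloured finite graph: the number of vertices, the list of edges, the list of the
vertices of colour `1`. -/
abbrev Code : Type := ℕ × List (ℕ × ℕ) × List ℕ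

/-- `v` is an end of the edge `e` -/
def Inc (v : ℕ) (e : ℕ × ℕ) : Prop := e.1 = v ∨ e.2 = v

instance (v : ℕ) (e : ℕ × ℕ) : Decidable (Inc v e) := by unfold Inc; infer_instance

/-- the colour of the vertex `v` -/
def col (B : List ℕ) (v : ℕ) : ℕ := if v ∈ B then 1 else 0

open FreeGroup in
/-- The relations of the graph incidence group; the generator `some i` is the edge number `i`, the
generator `none` is `J`. -/
def Rels (n : ℕ) (E : List (ℕ × ℕ)) (B : List ℕ) : Set (FreeGroup (Option (Fin E.length))) :=
  {r | r = of none * of none} ∪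
  {r | ∃ i, r = of (some i) * of (some i)} ∪
  {r | ∃ i, r = of (some i) * of none * (of (some i))⁻¹ * (of none)⁻¹} ∪
  {r | ∃ v i k, Inc v (E.get i) ∧ Inc v (E.get k) ∧
    r = of (some i) * of (some k) * (of (some i))⁻¹ * (of (some k))⁻¹} ∪
  {r | ∃ v, v < n ∧ r = (((List.finRange E.length).filter (fun i => Inc v (E.get i))).map
    (fun i => of (some i))).prod * (of none ^ col B v)⁻¹}

/-- the graph incidence group `Γ(G, b)` of the coloured graph `(n, E, B)` -/
abbrev Grp (n : ℕ) (E : List (ℕ × ℕ)) (B : List ℕ) : Type := PresentedGroup (Rels n E B)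

/-- the generator `J` -/
def gJ (n : ℕ) (E : List (ℕ × ℕ)) (B : List ℕ) : Grp n E B := PresentedGroup.of none

/-- the generator of the edge number `i` -/
def gx (n : ℕ) (E : List (ℕ × ℕ)) (B : List ℕ) (i : Fin E.length) : Grp n E B :=
  PresentedGroup.of (some i)

/-- The generator named by a letter: `none` is `J`, `some i` is the edge number `i` (the identity if
there is no such edge). -/
def gen (n : ℕ) (E : List (ℕ × ℕ)) (B : List ℕ) : Option ℕ → Grp n E B
  | none => gJ n E B
  | some i => if h : i < E.length then gx n E B ⟨i, h⟩ else 1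

/-- a word in the generators and their inverses (`(s, true)` is `s`, `(s, false)` is `s⁻¹`) -/
abbrev Wd : Type := List (Option ℕ × Bool)

/-- the element of the group given by a word -/
def wval (n : ℕ) (E : List (ℕ × ℕ)) (B : List ℕ) (w : Wd) : Grp n E B :=
  (w.map (fun s => if s.2 then gen n E B s.1 else (gen n E B s.1)⁻¹)).prod

/-- adjacent vertices -/
def Adj (E : List (ℕ × ℕ)) (v w : ℕ) : Prop := (v, w) ∈ E ∨ (w, v) ∈ E

instance (E : List (ℕ × ℕ)) (v w : ℕ) : Decidable (Adj E v w) := by unfold Adj; infer_instance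

/-- the neighbours of `v` -/
def nbrs (n : ℕ) (E : List (ℕ × ℕ)) (v : ℕ) : Finset ℕ := (Finset.range n).filter (Adj E v)

/-- `v a p b` is a cycle of length 4 (in a graph without loops) -/
def Cycle4 (E : List (ℕ × ℕ)) (v a p b : ℕ) : Prop :=
  Adj E v a ∧ Adj E a p ∧ Adj E p b ∧ Adj E b v ∧ v ≠ p ∧ a ≠ b

/-- `v a p q b` is a cycle of length 5 (in a graph without loops) -/
def Cycle5 (E : List (ℕ × ℕ)) (v a p q b : ℕ) : Prop :=
  Adj E v a ∧ Adj E a p ∧ Adj E p q ∧ Adj E q b ∧ Adj E b v ∧
    v ≠ p ∧ v ≠ q ∧ a ≠ q ∧ a ≠ b ∧ p ≠ b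

/-- The class of graphs: every vertex has at least three neighbours, there is no triangle, no vertex
with exactly three neighbours lies on a cycle of length 4, and there is no cycle `v a p q b` of
length 5 in which `v`, `a` and the opposite vertex `q` have exactly three neighbours. -/
structure Good (n : ℕ) (E : List (ℕ × ℕ)) : Prop where
  ends : ∀ e ∈ E, e.1 < n ∧ e.2 < n ∧ e.1 ≠ e.2
  deg : ∀ v < n, 3 ≤ (nbrs n E v).card
  tri : ∀ u v w, ¬ (Adj E u v ∧ Adj E v w ∧ Adj E w u)
  four : ∀ v, (nbrs n E v).card = 3 → ∀ a p b, ¬ Cycle4 E v a p b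
  five : ∀ v a p q b, (nbrs n E v).card = 3 → (nbrs n E a).card = 3 → (nbrs n E q).card = 3 →
    ¬ Cycle5 E v a p q b

end GIG
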