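import Pool.Agent.Lib.MP_262b4d_al.Omega

/-!
# Every word reduces, without increasing its length, to a reduced word
-/

namespace GIG

variable {V M : Type*} [AddCommGroup M] [Module (ZMod 2) M]

namespace Sys

variable (S : Sys V M)

/-- moves that do not increase the length: `T r r' ζ` means `r = ζ r'` -/
inductive T : List (V × M) → List (V × M) → M → Prop
  | ofR {r r' ζ} : S.R r r' ζ → T r r' ζ
  | del {v r} : T ((v, 0) :: r) r 0
  | merge {v a b r} : T ((v, a) :: (v, b) :: r) ((v, a + b) :: r) 0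
  | cons {v a r r' ζ} : T r r' ζ → T ((v, a) :: r) ((v, a) :: r') ζ
  | trans {r r' r'' ζ ζ'} : T r r' ζ → T r' r'' ζ' → T r r'' (ζ + ζ')

variable {S}

theorem T.memZ {r r' : List (V × M)} {ζ : M} (h : S.T r r' ζ) : ζ ∈ S.Z := by
  induction h with
  | ofR h => exact h.memZ
  | del => exact S.Z.zero_mem
  | merge => exact S.Z.zero_mem
  | cons _ ih => exact ih
  | trans _ _ ih1 ih2 => exact S.Z.add_mem ih1 ih2

theorem not_red : ∀ r : List (V × M), ¬ S.Red r → ∃ s ζ, s.length < r.length ∧ S.T r s ζ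
  | [], h => absurd trivial h
  | (v, a) :: r, h => by
    by_cases hr : S.Red r
    · by_cases h1 : S.D r v
      · obtain ⟨b, t, ht⟩ := h1
        refine ⟨(v, a + b) :: t, 0 + 0, ?_, T.trans (T.ofR ht.cons') T.merge⟩
        have := ht.length
        simp only [List.length_cons] at this ⊢
        omega
      by_cases h2 : S.triv v a
      · obtain ⟨ζ, hz, hk⟩ := h2
        have A : S.R ((v, a) :: r) ((v, 0) :: r) ζ := R.cons (R.refl r) hz (by exact kmem_aux hk (by match_scalars <;> rfl))
        exact ⟨r, ζ + 0, by simp, T.trans (T.ofR A) T.del⟩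
      by_cases h3 : ∃ w c, c ∈ S.C v w ∧ S.D r w ∧ a + c ∈ S.K v
      · obtain ⟨w, c, hc, ⟨α, t, ht⟩, hk⟩ := h3
        have A : S.R ((v, a) :: r) ((v, c) :: r) 0 := R.letter hk
        have B : S.R ((v, c) :: r) ((v, c) :: (w, α) :: t) 0 := ht.cons'
        have C : S.R ((v, c) :: (w, α) :: t) ((v, c + c) :: (w, α + c) :: t) 0 := R.F2 (S.symm hc)
        have e : c + c = 0 := by exact ch2_aux (by match_scalars <;> rfl)
        rw [e] at C
        refine ⟨(w, α + c) :: t, _, ?_, T.trans (T.ofR ((A.trans B).trans C)) T.del⟩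
        have := ht.length
        simp only [List.length_cons] at this ⊢
        omega
      · exfalso
        refine h ⟨hr, h1, h2, ?_⟩
        intro w c hc hw hk
        exact h3 ⟨w, c, hc, hw, hk⟩
    · obtain ⟨s, ζ, hs, hT⟩ := not_red r hr
      exact ⟨(v, a) :: s, ζ, by simpa using hs, T.cons hT⟩

theorem reduces : ∀ (k : ℕ) (r : List (V × M)), r.length ≤ k → ∃ s ζ, S.Red s ∧ S.T r s ζ := by
  intro k
  induction k with
  | zero =>
    intro r hr
    have h0 : r = [] := List.length_eq_zero_iff.1 (by omega)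
    subst h0
    exact ⟨[], 0, trivial, T.ofR R.nil⟩
  | succ k ih =>
    intro r hr
    by_cases h : S.Red r
    · exact ⟨r, 0, h, T.ofR (R.refl r)⟩
    · obtain ⟨s, ζ, hs, hT⟩ := not_red r h
      obtain ⟨s', ζ', hs', hT'⟩ := ih s (by omega)
      exact ⟨s', ζ + ζ', hs', T.trans hT hT'⟩

theorem exists_red (r : List (V × M)) : ∃ s ζ, S.Red s ∧ S.T r s ζ := reduces _ r le_rfl

end Sys

end GIG
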