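import Pool.Agent.Lib.MP_262b4d_al.Inst
import Pool.Agent.Lib.MP_262b4d_al.Steps

/-!
# Vertex groups inside the graph incidence group, and the permutation representation
-/

namespace GIG

variable {n : ℕ} {E : List (ℕ × ℕ)} {B : List ℕ}

section Basic

theorem gJ_sq : gJ n E B * gJ n E B = 1 := by
  have h : FreeGroup.of none * FreeGroup.of none ∈ Rels n E B := by
    unfold Rels
    exact Or.inl (Or.inl (Or.inl (Or.inl rfl)))
  have := PresentedGroup.one_of_mem h
  simpa [gJ, PresentedGroup.of] using this

theorem gx_sq (i : Fin E.length) : gx n E B i * gx n E B i = 1 := by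
  have h : FreeGroup.of (some i) * FreeGroup.of (some i) ∈ Rels n E B := by
    unfold Rels
    exact Or.inl (Or.inl (Or.inl (Or.inr ⟨i, rfl⟩)))
  have := PresentedGroup.one_of_mem h
  simpa [gx, PresentedGroup.of] using this

theorem gx_comm_J (i : Fin E.length) : Commute (gx n E B i) (gJ n E B) := by
  have h : FreeGroup.of (some i) * FreeGroup.of none * (FreeGroup.of (some i))⁻¹ *
      (FreeGroup.of none)⁻¹ ∈ Rels n E B := by
    unfold Rels
    exact Or.inl (Or.inl (Or.inr ⟨i, rfl⟩))
  have h2 := PresentedGroup.one_of_mem h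
  have h3 : gx n E B i * gJ n E B * (gx n E B i)⁻¹ * (gJ n E B)⁻¹ = 1 := by
    simpa [gx, gJ, PresentedGroup.of] using h2
  have h4 := mul_inv_eq_one.1 h3
  exact (mul_inv_eq_iff_eq_mul.1 h4)

theorem gx_comm {v : ℕ} {i k : Fin E.length} (hi : Inc v (E.get i)) (hk : Inc v (E.get k)) :
    Commute (gx n E B i) (gx n E B k) := by
  have h : FreeGroup.of (some i) * FreeGroup.of (some k) * (FreeGroup.of (some i))⁻¹ *
      (FreeGroup.of (some k))⁻¹ ∈ Rels n E B := by
    unfold Rels
    exact Or.inl (Or.inr ⟨v, i, k, hi, hk, rfl⟩)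
  have h2 := PresentedGroup.one_of_mem h
  have h3 : gx n E B i * gx n E B k * (gx n E B i)⁻¹ * (gx n E B k)⁻¹ = 1 := by
    simpa [gx, PresentedGroup.of] using h2
  have h4 := mul_inv_eq_one.1 h3
  exact (mul_inv_eq_iff_eq_mul.1 h4)

theorem gx_prod {v : ℕ} (hv : v < n) :
    (((List.finRange E.length).filter (fun i => Inc v (E.get i))).map (gx n E B)).prod =
      gJ n E B ^ col B v := by
  have h : (((List.finRange E.length).filter (fun i => Inc v (E.get i))).map
      (fun i => FreeGroup.of (some i))).prod * (FreeGroup.of none ^ col B v)⁻¹ ∈ Rels n E B := by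
    unfold Rels
    exact Or.inr ⟨v, hv, rfl⟩
  have h2 := PresentedGroup.one_of_mem h
  rw [map_mul, map_inv, map_pow, map_list_prod, List.map_map] at h2
  exact mul_inv_eq_one.1 h2

end Basic

/-- the factor of the edge `i` of a vector at the vertex `v` -/
def fac (n : ℕ) (E : List (ℕ × ℕ)) (B : List ℕ) (v : ℕ) (a : Vec E) (i : Fin E.length) :
    Grp n E B := if Inc v (E.get i) ∧ a (some i) ≠ 0 then gx n E B i else 1

/-- the central factor -/
def facJ (n : ℕ) (E : List (ℕ × ℕ)) (B : List ℕ) (a : Vec E) : Grp n E B :=
  if a none ≠ 0 then gJ n E B else 1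

/-- the element of the vertex group at `v` given by a vector -/
def phi (n : ℕ) (E : List (ℕ × ℕ)) (B : List ℕ) (v : ℕ) (a : Vec E) : Grp n E B :=
  ((List.finRange E.length).map (fac n E B v a)).prod * facJ n E B a

theorem fac_comm (v : ℕ) (a b : Vec E) (i k : Fin E.length) :
    Commute (fac n E B v a i) (fac n E B v b k) := by
  unfold fac
  split_ifs with h1 h2 h2
  · exact gx_comm h1.1 h2.1
  · exact Commute.one_right _
  · exact Commute.one_left _
  · exact Commute.one_left _

theorem fac_comm_J (v : ℕ) (a b : Vec E) (i : Fin E.length) :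
    Commute (fac n E B v a i) (facJ n E B b) := by
  unfold fac facJ
  split_ifs with h1 h2 h2
  · exact gx_comm_J i
  · exact Commute.one_right _
  · exact Commute.one_left _
  · exact Commute.one_left _

theorem zmod2_cases (a : ZMod 2) : a = 0 ∨ a = 1 := by
  revert a; decide

theorem fac_pos {v : ℕ} {i : Fin E.length} (hi : Inc v (E.get i)) (a : Vec E) :
    fac n E B v a i = if a (some i) ≠ 0 then gx n E B i else 1 := by
  unfold fac
  by_cases h : a (some i) ≠ 0
  · rw [if_pos ⟨hi, h⟩, if_pos h]
  · rw [if_neg (fun h' => h h'.2), if_neg h]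

theorem fac_neg {v : ℕ} {i : Fin E.length} (hi : ¬ Inc v (E.get i)) (a : Vec E) :
    fac n E B v a i = 1 := by
  unfold fac
  rw [if_neg (fun h' => hi h'.1)]

theorem fac_add (v : ℕ) (a b : Vec E) (i : Fin E.length) :
    fac n E B v (a + b) i = fac n E B v a i * fac n E B v b i := by
  by_cases hi : Inc v (E.get i)
  · rw [fac_pos hi, fac_pos hi, fac_pos hi, Pi.add_apply]
    rcases zmod2_cases (a (some i)) with ha | ha <;> rcases zmod2_cases (b (some i)) with hb | hb
    · simp [ha, hb]
    · simp [ha, hb]
    · simp [ha, hb]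
    · have e : (1 : ZMod 2) + 1 = 0 := by decide
      simp [ha, hb, e, gx_sq]
  · rw [fac_neg hi, fac_neg hi, fac_neg hi, one_mul]

theorem facJ_add (a b : Vec E) :
    facJ n E B (a + b) = facJ n E B a * facJ n E B b := by
  unfold facJ
  rcases zmod2_cases (a none) with ha | ha <;> rcases zmod2_cases (b none) with hb | hb
  · simp [ha, hb]
  · simp [ha, hb]
  · simp [ha, hb]
  · have e : (1 : ZMod 2) + 1 = 0 := by decide
    simp [ha, hb, e, gJ_sq]

theorem prod_mul_comm {ι G : Type*} [Group G] (f g : ι → G)
    (h : ∀ i k, Commute (f i) (g k)) : ∀ l : List ι,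
    (l.map (fun i => f i * g i)).prod = (l.map f).prod * (l.map g).prod
  | [] => by simp
  | i :: l => by
    have hc : Commute ((l.map f).prod) (g i) := by
      apply Commute.list_prod_left
      intro x hx
      obtain ⟨k, -, rfl⟩ := List.mem_map.1 hx
      exact h k i
    rw [List.map_cons, List.map_cons, List.map_cons, List.prod_cons, List.prod_cons,
      List.prod_cons, prod_mul_comm f g h l, mul_assoc, mul_assoc, ← mul_assoc (g i),
      ← hc.eq, mul_assoc]

theorem facJ_comm_prod (v : ℕ) (a b : Vec E) (l : List (Fin E.length)) :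
    Commute ((l.map (fac n E B v a)).prod) (facJ n E B b) := by
  apply Commute.list_prod_left
  intro x hx
  obtain ⟨k, -, rfl⟩ := List.mem_map.1 hx
  exact fac_comm_J v a b k

theorem phi_add (v : ℕ) (a b : Vec E) :
    phi n E B v (a + b) = phi n E B v a * phi n E B v b := by
  unfold phi
  have h1 : (fac n E B v (a + b)) = fun i => fac n E B v a i * fac n E B v b i := by
    funext i; exact fac_add v a b i
  rw [h1, prod_mul_comm _ _ (fun i k => fac_comm v a b i k), facJ_add]
  have h2 := facJ_comm_prod (n := n) (B := B) v b a (List.finRange E.length)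
  rw [mul_assoc, mul_assoc, ← mul_assoc _ (facJ n E B a), h2.eq, mul_assoc]

theorem phi_zero (v : ℕ) : phi n E B v 0 = 1 := by
  unfold phi fac facJ
  simp

theorem phi_kk (v : ℕ) : phi n E B v (kk n E B v) = 1 := by
  by_cases hv : v < n
  · have h1 := gx_prod (n := n) (B := B) (E := E) hv
    have h2 : ∀ l : List (Fin E.length),
        (l.map (fac n E B v (kk n E B v))).prod =
          ((l.filter (fun i => Inc v (E.get i))).map (gx n E B)).prod := by
      intro l
      induction l with
      | nil => rfl
      | cons i l ih =>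
        rw [List.map_cons, List.prod_cons, ih]
        by_cases hi : Inc v (E.get i)
        · rw [List.filter_cons_of_pos (by simpa using hi), List.map_cons, List.prod_cons]
          congr 1
          unfold fac
          rw [kk_some hv, if_pos hi, if_pos ⟨hi, one_ne_zero⟩]
        · rw [List.filter_cons_of_neg (by simpa using hi)]
          unfold fac
          rw [if_neg (by rintro ⟨h, -⟩; exact hi h), one_mul]
    unfold phi
    rw [h2, h1]
    unfold facJ
    have h3 : kk n E B v none = (col B v : ZMod 2) := by unfold kk; rw [if_pos hv]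
    rw [h3]
    unfold col
    split_ifs with h4 h5 h5
    · rw [pow_one, gJ_sq]
    · exact absurd (by norm_num) h5
    · exact absurd (by norm_num) h5
    · simp
  · have : kk n E B v = 0 := by funext o; unfold kk; rw [if_neg hv]; rfl
    rw [this, phi_zero]

/-- value of a word of letters -/
def lval (n : ℕ) (E : List (ℕ × ℕ)) (B : List ℕ) (r : List (ℕ × Vec E)) : Grp n E B :=
  (r.map (fun l => phi n E B l.1 l.2)).prod

/-- the letter is supported at its vertex -/
def SuppL (n : ℕ) (E : List (ℕ × ℕ)) (v : ℕ) (a : Vec E) : Prop :=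
  v < n ∧ ∀ i, a (some i) ≠ 0 → Inc v (E.get i)

/-- unit vectors -/
def xe (i : Fin E.length) : Vec E := Pi.single (some i) 1

def je (E : List (ℕ × ℕ)) : Vec E := Pi.single none 1

theorem je_mem : je E ∈ ZZ E := by
  intro i
  unfold je
  rw [Pi.single_apply, if_neg (by simp)]

theorem xe_mem_C (hG : Good n E) (i : Fin E.length) :
    xe i ∈ CC E (E.get i).1 (E.get i).2 := by
  refine ⟨(hG.ends _ (List.get_mem E i)).2.2, ⟨i, by unfold xe; rw [Pi.single_eq_same]; decide⟩, ?_⟩
  intro k hk
  unfold xe at hk
  rw [Pi.single_apply] at hk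
  by_cases h : k = i
  · subst h; exact ⟨Or.inl rfl, Or.inr rfl⟩
  · rw [if_neg (by simpa using h)] at hk
    exact absurd rfl hk

section Rep

variable (hG : Good n E)

/-- images of the generators -/
noncomputable def genP : Option (Fin E.length) → Equiv.Perm (sysOf n E B hG).Om
  | none => Sys.actP (S := sysOf n E B hG) 0 (je E)
  | some i => Sys.actP (S := sysOf n E B hG) (E.get i).1 (xe i)

theorem genP_none (v : ℕ) :
    genP (B := B) hG none = Sys.actP (S := sysOf n E B hG) v (je E) := by
  show Sys.actP (S := sysOf n E B hG) 0 (je E) = _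
  exact Sys.actP_Z (S := sysOf n E B hG) je_mem

theorem genP_some {v : ℕ} {i : Fin E.length} (hi : Inc v (E.get i)) :
    genP (B := B) hG (some i) = Sys.actP (S := sysOf n E B hG) v (xe i) := by
  show Sys.actP (S := sysOf n E B hG) (E.get i).1 (xe i) = _
  rcases hi with hi | hi
  · rw [hi]
  · rw [← hi]
    exact Sys.actP_C (S := sysOf n E B hG) (xe_mem_C hG i)

theorem actP_comm (v : ℕ) (a b : Vec E) :
    Sys.actP (S := sysOf n E B hG) v a * Sys.actP (S := sysOf n E B hG) v b =
      Sys.actP (S := sysOf n E B hG) v b * Sys.actP (S := sysOf n E B hG) v a := by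
  rw [← Sys.actP_add, ← Sys.actP_add, add_comm]

theorem actP_sq (v : ℕ) (a : Vec E) :
    Sys.actP (S := sysOf n E B hG) v a * Sys.actP (S := sysOf n E B hG) v a = 1 := by
  rw [← Sys.actP_add, show a + a = 0 by exact ch2_aux (by match_scalars <;> rfl), Sys.actP_zero]

theorem actP_list (v : ℕ) {ι : Type*} (f : ι → Vec E) : ∀ l : List ι,
    (l.map (fun i => Sys.actP (S := sysOf n E B hG) v (f i))).prod =
      Sys.actP (S := sysOf n E B hG) v ((l.map f).sum)
  | [] => by simp [Sys.actP_zero]
  | i :: l => by
    rw [List.map_cons, List.prod_cons, actP_list v f l, List.map_cons, List.sum_cons,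
      Sys.actP_add]

theorem sum_xe_apply_none (l : List (Fin E.length)) : ((l.map xe).sum : Vec E) none = 0 := by
  induction l with
  | nil => rfl
  | cons i l ih =>
    rw [List.map_cons, List.sum_cons, Pi.add_apply, ih, add_zero]
    unfold xe
    rw [Pi.single_apply, if_neg (by simp)]

theorem sum_xe_apply_some (k : Fin E.length) : ∀ (l : List (Fin E.length)), l.Nodup →
    ((l.map xe).sum : Vec E) (some k) = if k ∈ l then 1 else 0
  | [], _ => by simp
  | i :: l, h => by
    rw [List.nodup_cons] at h
    rw [List.map_cons, List.sum_cons, Pi.add_apply, sum_xe_apply_some k l h.2]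
    unfold xe
    rw [Pi.single_apply]
    by_cases hk : k = i
    · subst hk
      simp [h.1]
    · simp [hk]

theorem genP_rels : ∀ r ∈ Rels n E B, FreeGroup.lift (genP (B := B) hG) r = 1 := by
  intro r hr
  unfold Rels at hr
  rcases hr with (((hr | ⟨i, rfl⟩) | ⟨i, rfl⟩) | ⟨v, i, k, hi, hk, rfl⟩) | ⟨v, hv, rfl⟩
  · rw [Set.mem_ofPred_eq] at hr
    subst hr
    rw [map_mul, FreeGroup.lift_apply_of]
    exact actP_sq hG _ _
  · rw [map_mul, FreeGroup.lift_apply_of]
    exact actP_sq hG _ _
  · rw [map_mul, map_mul, map_mul, map_inv, map_inv, FreeGroup.lift_apply_of, FreeGroup.lift_apply_of,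
      genP_none hG (E.get i).1, genP_some hG (Or.inl rfl : Inc (E.get i).1 (E.get i)),
      actP_comm, mul_inv_cancel_right, mul_inv_cancel]
  · rw [map_mul, map_mul, map_mul, map_inv, map_inv, FreeGroup.lift_apply_of, FreeGroup.lift_apply_of,
      genP_some hG hi, genP_some hG hk, actP_comm, mul_inv_cancel_right, mul_inv_cancel]
  · rw [map_mul, map_inv, map_pow, map_list_prod, List.map_map, FreeGroup.lift_apply_of,
      genP_none hG v, mul_inv_eq_one]
    have h1 : ((List.finRange E.length).filter (fun i => Inc v (E.get i))).map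
        ((FreeGroup.lift (genP (B := B) hG)) ∘ fun i => FreeGroup.of (some i)) =
        ((List.finRange E.length).filter (fun i => Inc v (E.get i))).map
          (fun i => Sys.actP (S := sysOf n E B hG) v (xe i)) := by
      apply List.map_congr_left
      intro i hi
      rw [List.mem_filter] at hi
      rw [Function.comp_apply, FreeGroup.lift_apply_of]
      exact genP_some hG (by simpa using hi.2)
    rw [h1, actP_list]
    have h2 : (((List.finRange E.length).filter (fun i => Inc v (E.get i))).map xe).sum +
        (if v ∈ B then je E else 0) = kk n E B v := by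
      funext o
      rw [Pi.add_apply]
      rcases o with _ | k
      · rw [sum_xe_apply_none, zero_add]
        unfold kk col je
        rw [if_pos hv]
        by_cases hb : v ∈ B
        · simp [hb]
        · simp [hb]
      · rw [sum_xe_apply_some k _ (List.Nodup.filter _ (List.nodup_finRange _)), kk_some hv]
        have h3 : (if v ∈ B then je E else 0 : Vec E) (some k) = 0 := by
          split_ifs
          · exact je_mem k
          · rfl
        rw [h3, add_zero]
        by_cases hk : Inc v (E.get k)
        · rw [if_pos hk, if_pos]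
          rw [List.mem_filter]
          exact ⟨List.mem_finRange k, by simpa using hk⟩
        · rw [if_neg hk, if_neg]
          rw [List.mem_filter]
          rintro ⟨-, h⟩
          exact hk (by simpa using h)
    have h4 : Sys.actP (S := sysOf n E B hG) v (kk n E B v) = 1 :=
      Sys.actP_K (S := sysOf n E B hG) (mem_KK.2 (Or.inr rfl))
    rw [← h2, Sys.actP_add, mul_eq_one_iff_eq_inv] at h4
    have h5 := actP_sq (B := B) hG v (if v ∈ B then je E else 0)
    rw [mul_eq_one_iff_eq_inv] at h5
    rw [h4, ← h5]
    unfold col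
    split_ifs
    · rw [pow_one]
    · rw [pow_zero, Sys.actP_zero]

/-- the permutation representation of the graph incidence group -/
noncomputable def rep : Grp n E B →* Equiv.Perm (sysOf n E B hG).Om :=
  PresentedGroup.toGroup (genP_rels hG)

theorem rep_J (v : ℕ) : rep (B := B) hG (gJ n E B) = Sys.actP (S := sysOf n E B hG) v (je E) := by
  unfold rep gJ
  rw [PresentedGroup.toGroup.of]
  exact genP_none hG v

theorem rep_x {v : ℕ} {i : Fin E.length} (hi : Inc v (E.get i)) :
    rep (B := B) hG (gx n E B i) = Sys.actP (S := sysOf n E B hG) v (xe i) := by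
  unfold rep gx
  rw [PresentedGroup.toGroup.of]
  exact genP_some hG hi

end Rep

end GIG
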