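import Pool.Agent.Lib.MP_262b4d_al.Omega
import Pool.Agent.Lib.MP_262b4d_al.Defs

/-!
# The abstract system of a coloured graph
-/

namespace GIG

variable {n : ℕ} {E : List (ℕ × ℕ)} {B : List ℕ}

/-- formal vectors -/
abbrev Vec (E : List (ℕ × ℕ)) : Type := Option (Fin E.length) → ZMod 2

/-- the vector of the relation at `v` -/
def kk (n : ℕ) (E : List (ℕ × ℕ)) (B : List ℕ) (v : ℕ) : Vec E := fun o =>
  if v < n then (match o with
    | none => (col B v : ZMod 2)
    | some i => if Inc v (E.get i) then 1 else 0) else 0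

/-- central vectors -/
def ZZ (E : List (ℕ × ℕ)) : AddSubgroup (Vec E) where
  carrier := {c | ∀ i, c (some i) = 0}
  zero_mem' := fun _ => rfl
  add_mem' := fun {a b} ha hb i => by rw [Pi.add_apply, ha i, hb i, add_zero]
  neg_mem' := fun {a} ha i => by rw [Pi.neg_apply, ha i, neg_zero]

theorem mem_ZZ {c : Vec E} : c ∈ ZZ E ↔ ∀ i, c (some i) = 0 := Iff.rfl

def KK (n : ℕ) (E : List (ℕ × ℕ)) (B : List ℕ) (v : ℕ) : AddSubgroup (Vec E) :=
  AddSubgroup.zmultiples (kk n E B v)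

theorem mem_KK {v : ℕ} {a : Vec E} : a ∈ KK n E B v ↔ a = 0 ∨ a = kk n E B v := by
  unfold KK
  rw [AddSubgroup.mem_zmultiples_iff]
  constructor
  · rintro ⟨k, rfl⟩
    rcases Int.even_or_odd k with ⟨l, hl⟩ | ⟨l, hl⟩
    · left
      rw [hl, add_zsmul]
      generalize l • kk n E B v = x
      exact ch2_aux (by match_scalars <;> rfl)
    · right
      rw [hl, add_zsmul, two_mul, add_zsmul, one_zsmul]
      generalize kk n E B v = y
      generalize l • y = x
      exact ch2_aux (by match_scalars <;> rfl)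
  · rintro (rfl | rfl)
    · exact ⟨0, zero_zsmul _⟩
    · exact ⟨1, one_zsmul _⟩

/-- nontrivial common vectors of `v` and `w` -/
def CC (E : List (ℕ × ℕ)) (v w : ℕ) : Set (Vec E) :=
  {c | v ≠ w ∧ (∃ i, c (some i) ≠ 0) ∧
    ∀ i, c (some i) ≠ 0 → Inc v (E.get i) ∧ Inc w (E.get i)}

theorem zmod2_add {a b : ZMod 2} (h : a + b ≠ 0) : a ≠ 0 ∨ b ≠ 0 := by
  revert a b; decide

theorem zmod2_add3 {a b c : ZMod 2} (h : a + b + c ≠ 0) : a ≠ 0 ∨ b ≠ 0 ∨ c ≠ 0 := by
  revert a b c; decide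

theorem inc_three {v w u : ℕ} {e : ℕ × ℕ} (h1 : Inc v e) (h2 : Inc w e) (h3 : Inc u e)
    (a : v ≠ w) (b : v ≠ u) (c : w ≠ u) : False := by
  unfold Inc at *
  omega

theorem Adj.symm {v w : ℕ} (h : Adj E v w) : Adj E w v := Or.symm h

theorem adj_of_inc {v w : ℕ} {i : Fin E.length} (h1 : Inc v (E.get i)) (h2 : Inc w (E.get i))
    (h : v ≠ w) : Adj E v w := by
  have hm : E.get i ∈ E := List.get_mem E i
  generalize E.get i = e at *
  obtain ⟨a, b⟩ := e
  rcases h1 with h1 | h1 <;> rcases h2 with h2 | h2 <;> simp only at h1 h2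
  · exact absurd (h1.symm.trans h2) h
  · left; rw [← h1, ← h2]; exact hm
  · right; rw [← h1, ← h2]; exact hm
  · exact absurd (h1.symm.trans h2) h

theorem inc_of_adj {v w : ℕ} (h : Adj E v w) :
    ∃ i : Fin E.length, Inc v (E.get i) ∧ Inc w (E.get i) := by
  rcases h with h | h
  · obtain ⟨i, hi⟩ := List.mem_iff_get.1 h
    exact ⟨i, by rw [hi]; exact Or.inl rfl, by rw [hi]; exact Or.inr rfl⟩
  · obtain ⟨i, hi⟩ := List.mem_iff_get.1 h
    exact ⟨i, by rw [hi]; exact Or.inr rfl, by rw [hi]; exact Or.inl rfl⟩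

theorem adj_of_C {v w : ℕ} {c : Vec E} (h : c ∈ CC E v w) : Adj E v w := by
  obtain ⟨hne, ⟨i, hi⟩, hs⟩ := h
  exact adj_of_inc (hs i hi).1 (hs i hi).2 hne

theorem Good.adj_lt (hG : Good n E) {v w : ℕ} (h : Adj E v w) : v < n ∧ w < n ∧ v ≠ w := by
  rcases h with h | h
  · exact hG.ends _ h
  · have := hG.ends _ h
    exact ⟨this.2.1, this.1, this.2.2.symm⟩

theorem mem_nbrs (hG : Good n E) {v w : ℕ} : w ∈ nbrs n E v ↔ Adj E v w := by
  unfold nbrs
  rw [Finset.mem_filter, Finset.mem_range]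
  exact ⟨fun h => h.2, fun h => ⟨(hG.adj_lt h).2.1, h⟩⟩

theorem Good.third (hG : Good n E) {v : ℕ} (hv : v < n) (w u : ℕ) :
    ∃ y, Adj E v y ∧ y ≠ w ∧ y ≠ u := by
  by_contra hcon
  push Not at hcon
  have h1 : nbrs n E v ⊆ {w, u} := by
    intro y hy
    rw [mem_nbrs hG] at hy
    rw [Finset.mem_insert, Finset.mem_singleton]
    by_cases h : y = w
    · exact Or.inl h
    · exact Or.inr (hcon y hy h)
  have h2 := Finset.card_le_card h1
  have h3 : ({w, u} : Finset ℕ).card ≤ 2 := Finset.card_le_two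
  have h4 := hG.deg v hv
  omega

theorem Good.card3 (hG : Good n E) {v : ℕ} (hv : v < n) {w u y : ℕ}
    (h : ∀ z, Adj E v z → z = w ∨ z = u ∨ z = y) : (nbrs n E v).card = 3 := by
  have h1 : nbrs n E v ⊆ {w, u, y} := by
    intro z hz
    rw [mem_nbrs hG] at hz
    rw [Finset.mem_insert, Finset.mem_insert, Finset.mem_singleton]
    exact h z hz
  have h2 := Finset.card_le_card h1
  have h3 : ({w, u, y} : Finset ℕ).card ≤ 3 := Finset.card_le_three
  have h4 := hG.deg v hv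
  omega

theorem kk_some {v : ℕ} (hv : v < n) (i : Fin E.length) :
    kk n E B v (some i) = if Inc v (E.get i) then 1 else 0 := by
  unfold kk; rw [if_pos hv]

/-- a common vector vanishes at the edges to other vertices -/
theorem CC_zero {v w y : ℕ} {c : Vec E} (h : c ∈ CC E v w) {i : Fin E.length}
    (h1 : Inc v (E.get i)) (h2 : Inc y (E.get i)) (hvy : v ≠ y) (hwy : w ≠ y) :
    c (some i) = 0 := by
  by_contra h0
  exact inc_three h1 (h.2.2 i h0).2 h2 h.1 hvy hwy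

theorem CC_symm {v w : ℕ} {c : Vec E} (h : c ∈ CC E v w) : c ∈ CC E w v :=
  ⟨h.1.symm, h.2.1, fun i hi => (h.2.2 i hi).symm⟩

theorem CC_Ca (hG : Good n E) {v w : ℕ} {c : Vec E} (h : c ∈ CC E v w) : c ∉ KK n E B v := by
  intro hk
  rw [mem_KK] at hk
  have hv := (hG.adj_lt (adj_of_C h)).1
  rcases hk with rfl | rfl
  · obtain ⟨i, hi⟩ := h.2.1
    exact hi rfl
  · obtain ⟨y, hy, hyw, -⟩ := hG.third hv w w
    obtain ⟨i, hi1, hi2⟩ := inc_of_adj hy
    have := CC_zero h hi1 hi2 (hG.adj_lt hy).2.2 (Ne.symm hyw)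
    rw [kk_some hv, if_pos hi1] at this
    exact one_ne_zero this

theorem CC_Cb (hG : Good n E) {v w u : ℕ} {c d : Vec E} (hc : c ∈ CC E v w) (hd : d ∈ CC E v u)
    (hk : c + d ∈ KK n E B v) : w = u := by
  by_contra hwu
  rw [mem_KK] at hk
  have hv := (hG.adj_lt (adj_of_C hc)).1
  rcases hk with hk | hk
  · obtain ⟨i, hi⟩ := hc.2.1
    have h1 := hc.2.2 i hi
    have h2 := CC_zero hd h1.1 h1.2 hc.1 (Ne.symm hwu)
    have h3 := congrFun hk (some i)
    rw [Pi.add_apply, h2, add_zero] at h3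
    exact hi h3
  · obtain ⟨y, hy, hyw, hyu⟩ := hG.third hv w u
    obtain ⟨i, hi1, hi2⟩ := inc_of_adj hy
    have h1 := CC_zero hc hi1 hi2 (hG.adj_lt hy).2.2 (Ne.symm hyw)
    have h2 := CC_zero hd hi1 hi2 (hG.adj_lt hy).2.2 (Ne.symm hyu)
    have h3 := congrFun hk (some i)
    rw [Pi.add_apply, h1, h2, add_zero, kk_some hv, if_pos hi1] at h3
    exact zero_ne_one h3

theorem CC_cub (hG : Good n E) {v w u y : ℕ} {c d e : Vec E} (hc : c ∈ CC E v w)
    (hd : d ∈ CC E v u) (he : e ∈ CC E v y) (hwu : w ≠ u) (hk : c + d + e ∈ KK n E B v) :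
    v < n ∧ (nbrs n E v).card = 3 := by
  have hv := (hG.adj_lt (adj_of_C hc)).1
  rw [mem_KK] at hk
  refine ⟨hv, ?_⟩
  rcases hk with hk | hk
  · exfalso
    have h1 : w = y := by
      by_contra hwy
      obtain ⟨i, hi⟩ := hc.2.1
      have h1 := hc.2.2 i hi
      have h2 := CC_zero hd h1.1 h1.2 hc.1 (Ne.symm hwu)
      have h2' := CC_zero he h1.1 h1.2 hc.1 (Ne.symm hwy)
      have h3 := congrFun hk (some i)
      rw [Pi.add_apply, Pi.add_apply, h2, h2', add_zero, add_zero] at h3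
      exact hi h3
    have h2 : u = y := by
      by_contra huy
      obtain ⟨i, hi⟩ := hd.2.1
      have h1 := hd.2.2 i hi
      have h2 := CC_zero hc h1.1 h1.2 hd.1 hwu
      have h2' := CC_zero he h1.1 h1.2 hd.1 (Ne.symm huy)
      have h3 := congrFun hk (some i)
      rw [Pi.add_apply, Pi.add_apply, h2, h2', add_zero, zero_add] at h3
      exact hi h3
    exact hwu (h1.trans h2.symm)
  · refine hG.card3 hv (w := w) (u := u) (y := y) ?_
    intro z hz
    by_contra hcon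
    push Not at hcon
    obtain ⟨i, hi1, hi2⟩ := inc_of_adj hz
    have h1 := CC_zero hc hi1 hi2 (hG.adj_lt hz).2.2 (Ne.symm hcon.1)
    have h2 := CC_zero hd hi1 hi2 (hG.adj_lt hz).2.2 (Ne.symm hcon.2.1)
    have h2' := CC_zero he hi1 hi2 (hG.adj_lt hz).2.2 (Ne.symm hcon.2.2)
    have h3 := congrFun hk (some i)
    rw [Pi.add_apply, Pi.add_apply, h1, h2, h2', add_zero, add_zero, kk_some hv, if_pos hi1] at h3
    exact zero_ne_one h3

/-- the system of a good graph -/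
def sysOf (n : ℕ) (E : List (ℕ × ℕ)) (B : List ℕ) (hG : Good n E) : Sys ℕ (Vec E) where
  Z := ZZ E
  K := KK n E B
  C := CC E
  symm := CC_symm
  irr := fun h => h.1 rfl
  addZ := by
    intro v w c ζ hc hz
    refine ⟨hc.1, ?_, ?_⟩
    · obtain ⟨i, hi⟩ := hc.2.1
      exact ⟨i, by rw [Pi.add_apply, hz i, add_zero]; exact hi⟩
    · intro i hi
      rw [Pi.add_apply, hz i, add_zero] at hi
      exact hc.2.2 i hi
  addC := by
    intro v w c d hc hd
    by_cases h : c + d ∈ ZZ E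
    · exact Or.inr h
    · rw [mem_ZZ] at h
      push Not at h
      refine Or.inl ⟨hc.1, h, ?_⟩
      intro i hi
      rw [Pi.add_apply] at hi
      rcases zmod2_add hi with hi | hi
      · exact hc.2.2 i hi
      · exact hd.2.2 i hi
  ZK := by
    intro v ζ hz hk
    rw [mem_KK] at hk
    rcases hk with hk | hk
    · exact hk
    · by_cases hv : v < n
      · exfalso
        obtain ⟨y, hy, -, -⟩ := hG.third hv v v
        obtain ⟨i, hi1, -⟩ := inc_of_adj hy
        have := hz i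
        rw [hk, kk_some hv, if_pos hi1] at this
        exact one_ne_zero this
      · rw [hk]; funext o; unfold kk; rw [if_neg hv]; rfl
  Ca := CC_Ca hG
  Cb := CC_Cb hG
  tri := fun hc hd he => hG.tri _ _ _ ⟨adj_of_C hc, adj_of_C hd, adj_of_C he⟩
  Cd4 := by
    rintro v w u p c d c' d' ⟨w0, u0, y0, c0, d0, e0, hc0, hd0, he0, hwu0, hk⟩ hc hd hwu hc' hd'
    have h3 := CC_cub hG hc0 hd0 he0 hwu0 hk
    by_contra hpv
    exact hG.four v h3.2 w p u ⟨adj_of_C hc, adj_of_C hc', adj_of_C hd', (adj_of_C hd).symm,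
      Ne.symm hpv, hwu⟩
  Cd5 := by
    rintro v w u p q c d c' d' e' ⟨w0, u0, y0, c0, d0, e0, hc0, hd0, he0, hwu0, hk⟩
      ⟨w1, u1, y1, c1, d1, e1, hc1, hd1, he1, hwu1, hk1⟩
      ⟨w2, u2, y2, c2, d2, e2, hc2, hd2, he2, hwu2, hk2⟩ hc hd hwu hc' hd' he' hpv hqv
    have h3 := CC_cub hG hc0 hd0 he0 hwu0 hk
    have h31 := CC_cub hG hc1 hd1 he1 hwu1 hk1
    have h32 := CC_cub hG hc2 hd2 he2 hwu2 hk2
    refine hG.five v w p q u h3.2 h31.2 h32.2 ⟨adj_of_C hc, adj_of_C hc', adj_of_C hd',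
      adj_of_C he', (adj_of_C hd).symm, Ne.symm hpv, Ne.symm hqv, ?_, hwu, ?_⟩
    · rintro rfl
      exact hG.tri v w u ⟨adj_of_C hc, adj_of_C he', (adj_of_C hd).symm⟩
    · rintro rfl
      exact hG.tri v w p ⟨adj_of_C hc, adj_of_C hc', (adj_of_C hd).symm⟩

end GIG
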