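import Pool.Agent.Lib.MP_262b4d_al.NForm

/-!
# Reduced words: invariance under the length preserving moves, and the relation `N`
-/

namespace GIG

variable {V M : Type*} [AddCommGroup M] [Module (ZMod 2) M]

namespace Sys

variable {S : Sys V M}

theorem R.nil_zero {r r' : List (V × M)} {ζ : M} (h : S.R r r' ζ) : r = [] → ζ = 0 := by
  induction h with
  | nil => intro _; rfl
  | symm h ih =>
    intro h0
    exact ih (List.length_eq_zero_iff.1 (by rw [h.length, h0]; rfl))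
  | trans h1 h2 ih1 ih2 =>
    intro h0
    rw [ih1 h0, ih2 (List.length_eq_zero_iff.1 (by rw [← h1.length, h0]; rfl)), add_zero]
  | cons _ _ _ _ => intro h0; exact absurd h0 (List.cons_ne_nil _ _)
  | F1 _ => intro h0; exact absurd h0 (List.cons_ne_nil _ _)
  | F2 _ => intro h0; exact absurd h0 (List.cons_ne_nil _ _)

/-- closure of `Red` and of `N` under an equivalence -/
def Q (S : Sys V M) (n : ℕ) (x y : List (V × M)) (ζ : M) : Prop :=
  (S.Red x → S.Red y) ∧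
  (∀ x0 ζ0, x0.length = n + 1 → S.Red x0 → ζ0 ∈ S.Z → S.Red x → S.N x0 x ζ0 →
    S.N x0 y (ζ0 + ζ))

theorem Q_E0 {n : ℕ} (hP : S.P n) {v : V} {r r' : List (V × M)} {a b ζ : M}
    (hl : r.length = n) (hz : ζ ∈ S.Z) (h : S.H v r r' (a + b + ζ)) :
    S.Q n ((v, a) :: r) ((v, b) :: r') ζ :=
  ⟨fun hr => Red_H hP hl hr hz h, fun _ _ _ _ _ hr hN => N_E0 hP hl hr hN h⟩

theorem Q_E1 {n : ℕ} (hP : S.P n) {v w : V} {r : List (V × M)} {c : M} (hc : c ∈ S.C v w) :
    S.Q n ((v, c) :: r) ((w, c) :: r) 0 := by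
  refine ⟨fun hr => Red_F1 hc hr, fun x0 ζ0 hl0 hr0 hz hr hN => ?_⟩
  rcases x0 with _ | ⟨⟨u, a⟩, q⟩
  · simp at hl0
  · rw [add_zero]
    exact N_E1 hP (by simpa using hl0) hr0 hz hN hc

theorem Q_all {n : ℕ} (hP : S.P n) {x y : List (V × M)} {ζ : M} (h : S.R x y ζ) :
    x.length = n + 1 → S.Q n x y ζ ∧ S.Q n y x ζ := by
  induction h with
  | nil => intro h; simp at h
  | symm h ih =>
    intro hl
    exact (ih (by rw [h.length, hl])).symm
  | trans h1 h2 ih1 ih2 =>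
    intro hl
    obtain ⟨a1, b1⟩ := ih1 hl
    obtain ⟨a2, b2⟩ := ih2 (by rw [← h1.length, hl])
    refine ⟨⟨fun h => a2.1 (a1.1 h), fun x0 ζ0 hl0 hr0 hz hr hN => ?_⟩,
      ⟨fun h => b1.1 (b2.1 h), fun x0 ζ0 hl0 hr0 hz hr hN => ?_⟩⟩
    · have A := a2.2 x0 _ hl0 hr0 (S.Z.add_mem hz h1.memZ) (a1.1 hr) (a1.2 x0 ζ0 hl0 hr0 hz hr hN)
      rw [add_assoc] at A
      exact A
    · have A := b1.2 x0 _ hl0 hr0 (S.Z.add_mem hz h2.memZ) (b2.1 hr) (b2.2 x0 ζ0 hl0 hr0 hz hr hN)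
      rw [add_assoc, add_comm (_ : M) (_ : M)] at A
      rw [add_comm ζ0, add_comm (_ : M) (_ : M)]
      convert A using 1
      exact ch2_aux (by match_scalars <;> rfl)
  | @cons v a a' r r' ζ1 ζ' h hz hk ih =>
    intro hl
    have hl' : r.length = n := by simpa using hl
    refine ⟨Q_E0 hP hl' hz (H.of_R h (by exact kmem_aux hk (by match_scalars <;> rfl))), Q_E0 hP (by rw [← h.length, hl']) hz
      (H.of_R h.symm (by exact kmem_aux hk (by match_scalars <;> rfl)))⟩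
  | F1 hc => intro _; exact ⟨Q_E1 hP hc, Q_E1 hP (S.symm hc)⟩
  | @F2 v w a b c r hc =>
    intro hl
    have hH : S.H w ((v, a) :: r) ((v, a + c) :: r) (b + (b + c) + 0) :=
      Or.inr ⟨v, c, a, r, S.symm hc, R.refl _, R.refl _, by
        exact kmem_aux (S.K w).zero_mem (by match_scalars <;> rfl)⟩
    exact ⟨Q_E0 hP (by simpa using hl) S.Z.zero_mem hH,
      Q_E0 hP (by simpa using hl) S.Z.zero_mem (hH.symm.congr' (by exact ch2_aux (by match_scalars <;> rfl)))⟩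

theorem N_refl (r : List (V × M)) : S.N r r 0 := by
  rcases r with _ | ⟨⟨v, a⟩, r⟩
  · rfl
  · exact Or.inl ⟨rfl, H.refl _ _ (by exact ch2_aux (by match_scalars <;> rfl))⟩

theorem P_all (S : Sys V M) : ∀ n, S.P n
  | 0 => by
    intro r r' ζ hl hr h
    have h0 : r = [] := List.length_eq_zero_iff.1 hl
    have h0' : r' = [] := List.length_eq_zero_iff.1 (by rw [← h.length, hl])
    subst h0
    subst h0'
    exact ⟨hr, h.nil_zero rfl⟩
  | n + 1 => by
    intro r r' ζ hl hr h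
    obtain ⟨h1, -⟩ := Q_all (P_all S n) h hl
    refine ⟨h1.1 hr, ?_⟩
    have := h1.2 r 0 hl hr S.Z.zero_mem hr (N_refl r)
    rwa [zero_add] at this

/-! ### Consequences -/

theorem Red.of_R {r r' : List (V × M)} {ζ : M} (hr : S.Red r) (h : S.R r r' ζ) : S.Red r' :=
  (P_all S _ _ _ _ rfl hr h).1

theorem Red.N {r r' : List (V × M)} {ζ : M} (hr : S.Red r) (h : S.R r r' ζ) : S.N r r' ζ :=
  (P_all S _ _ _ _ rfl hr h).2

theorem H.comp {v : V} {r r' r'' : List (V × M)} {δ δ' : M} (hr : S.Red r')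
    (hd : ¬ S.D r' v) (h : S.H v r r' δ) (h' : S.H v r' r'' δ') : S.H v r r'' (δ + δ') :=
  Hcomp (P_all S _) rfl hr hd h h'

theorem Red.of_H {v : V} {r s : List (V × M)} {δ : M} (hr : S.Red r)
    (hd : ¬ S.D r v) (h : S.H v r s δ) : S.Red s :=
  (HD (P_all S _) rfl hr hd h).1

theorem H.not_D {v : V} {r s : List (V × M)} {δ : M} (h : S.H v r s δ) (hr : S.Red r)
    (hd : ¬ S.D r v) : ¬ S.D s v :=
  (HD (P_all S _) rfl hr hd h).2

/-- reduced words with the same last vertex -/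
theorem Red.same {v : V} {r r' : List (V × M)} {a b ζ : M} (hr : S.Red ((v, a) :: r))
    (h : S.R ((v, a) :: r) ((v, b) :: r') ζ) : S.H v r r' (a + b + ζ) := by
  rcases hr.N h with ⟨-, hH⟩ | ⟨c, s, hc, hH, hH'⟩ | ⟨u, c, c', s, s', hc, hc', hne, hH, hH', hH''⟩
  · exact hH
  · exact absurd hc S.irr
  · exact absurd rfl hne

/-- reduced words with two adjacent last vertices -/
theorem Red.adj {v w : V} {r r' : List (V × M)} {a b ζ d : M} (hr : S.Red ((v, a) :: r))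
    (h : S.R ((v, a) :: r) ((w, b) :: r') ζ) (hd : d ∈ S.C v w) :
    ∃ c s, c ∈ S.C v w ∧ S.H v r s (a + c) := by
  rcases hr.N h with ⟨rfl, hH⟩ | ⟨c, s, hc, hH, hH'⟩ | ⟨u, c, c', s, s', hc, hc', hne, hH, hH', hH''⟩
  · exact absurd hd S.irr
  · exact ⟨c, s, hc, hH⟩
  · exact (S.tri hd (S.symm hc') (S.symm hc)).elim

end Sys

end GIG
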