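import Pool.Agent.Lib.MP_262b4d_al.Sys

/-!
# The relation between the first letters of equivalent reduced words
-/

namespace GIG

variable {V M : Type*} [AddCommGroup M] [Module (ZMod 2) M]

namespace Sys

variable {S : Sys V M}

/-- the relation between the first letters of two equivalent reduced words -/
def N (S : Sys V M) : List (V × M) → List (V × M) → M → Prop
  | [], [], ζ => ζ = 0
  | (v, a) :: r, (w, b) :: r', ζ =>
      (v = w ∧ S.H v r r' (a + b + ζ)) ∨
      (∃ c s, c ∈ S.C v w ∧ S.H v r s (a + c) ∧ S.H w s r' (c + b + ζ)) ∨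
      (∃ u c c' s s', c ∈ S.C v u ∧ c' ∈ S.C u w ∧ v ≠ w ∧ S.H v r s (a + c) ∧
        S.H u s s' (c + c') ∧ S.H w s' r' (c' + b + ζ))
  | _, _, _ => False

/-- the induction statement -/
def P (S : Sys V M) (n : ℕ) : Prop :=
  ∀ r r' ζ, r.length = n → S.Red r → S.R r r' ζ → S.Red r' ∧ S.N r r' ζ

/-- an `H` between elements for two different neighbours is of the second type -/
theorem H.cubic {u v w : V} {s s' : List (V × M)} {c c' : M} (h : S.H u s s' (c + c'))
    (hc : c ∈ S.C u v) (hc' : c' ∈ S.C u w) (hvw : v ≠ w) :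
    ∃ y e α t, e ∈ S.C u y ∧ S.R s ((y, α) :: t) 0 ∧ S.R s' ((y, α + e) :: t) 0 ∧
      c + c' + e ∈ S.K u := by
  rcases h with ⟨ζ, h1, h2⟩ | ⟨y, e, α, t, he, h1, h2, h3⟩
  · exact absurd (S.Cb hc (S.addZ hc' h1.memZ) (by exact kmem_aux h2 (by match_scalars <;> rfl))) hvw
  · exact ⟨y, e, α, t, he, h1, h2, h3⟩

section Level

variable {n : ℕ} (hP : S.P n)
include hP

theorem Hcomp {v : V} {r r' r'' : List (V × M)} {δ δ' : M} (hl : r'.length = n)
    (hr : S.Red r') (hd : ¬ S.D r' v) (h : S.H v r r' δ) (h' : S.H v r' r'' δ') :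
    S.H v r r'' (δ + δ') := by
  rcases h with ⟨ζ1, h1, h2⟩ | ⟨w, c, α, s, hc, h1, h2, h3⟩
  · exact (H.R_trans h1 h').congr (by exact kmem_aux h2 (by match_scalars <;> rfl))
  rcases h' with ⟨ζ1, h1', h2'⟩ | ⟨w', c', α', s', hc', h1', h2', h3'⟩
  · have A : S.H v r r' δ := Or.inr ⟨w, c, α, s, hc, h1, h2, h3⟩
    exact (A.trans_R h1').congr (by exact kmem_aux h2' (by match_scalars <;> rfl))
  -- both of the second type
  obtain ⟨hr2, -⟩ := hP _ _ _ hl hr h2
  have hl2 : ((w, α + c) :: s).length = n := by rw [← hl]; exact h2.length.symm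
  have hR : S.R ((w, α + c) :: s) ((w', α') :: s') 0 := (h2.symm.trans h1').congr (by exact ch2_aux (by match_scalars <;> rfl))
  obtain ⟨-, hN⟩ := hP _ _ _ hl2 hr2 hR
  rcases hN with ⟨rfl, hH⟩ | ⟨d, t, hd1, hH, hH'⟩ | ⟨u, d, d', t, t', hd1, hd1', hne, hH, hH', hH''⟩
  · have A : S.R r ((w, c + α') :: s') 0 :=
      (h1.trans (hH.toR S.Z.zero_mem (b := c + α')
        (by exact kmem_aux (S.K w).zero_mem (by match_scalars <;> rfl)))).congr (by exact ch2_aux (by match_scalars <;> rfl))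
    rcases S.addC hc hc' with hcc | hcc
    · refine Or.inr ⟨w, c + c', c + α', s', hcc, A, ?_, by exact kmem_aux ((S.K v).add_mem h3 h3') (by match_scalars <;> rfl)⟩
      have e : c + α' + (c + c') = α' + c' := by exact ch2_aux (by match_scalars <;> rfl)
      rw [e]; exact h2'
    · have B : S.R ((w, c + α') :: s') ((w, α' + c') :: s') (c + c') :=
        R.cons (R.refl s') hcc (by exact kmem_aux (S.K w).zero_mem (by match_scalars <;> rfl))
      refine Or.inl ⟨c + c', ((A.trans B).trans h2'.symm).congr (by exact ch2_aux (by match_scalars <;> rfl)), ?_⟩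
      exact kmem_aux ((S.K v).add_mem h3 h3') (by match_scalars <;> rfl)
  · exact absurd (S.tri hc hd1 (S.symm hc')) id
  · by_cases huv : u = v
    · subst huv
      exfalso
      apply hd
      have A : S.R ((w, α + c) :: s) ((w, d) :: t) 0 :=
        hH.toR S.Z.zero_mem (by exact kmem_aux (S.K w).zero_mem (by match_scalars <;> rfl))
      exact D.of_R' (h2.trans (A.trans (R.F1 hd1)))
    · exfalso
      obtain ⟨y, e, β, q, he, -, -, hk⟩ := hH'.cubic (S.symm hd1) hd1' hne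
      exact huv (S.Cd4 ⟨w, w', y, d, d', e, S.symm hd1, hd1', he, hne, hk⟩ (S.symm hd1) hd1' hne
        (S.symm hc) hc').symm

/-- the letter `d + e` with `d`, `e` common elements is impossible when `v ∉ D r` -/
theorem aux1 {v y : V} {r q : List (V × M)} {d e : M} (hl : r.length = n) (hr : S.Red r)
    (hd : ¬ S.D r v) (hR : S.R r ((y, d + e) :: q) 0) (h1 : d ∈ S.C v y) (h2 : e ∈ S.C v y) :
    False := by
  rcases S.addC h1 h2 with h | h
  · exact hd (D.of_R' (hR.trans (R.F1 (S.symm h))))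
  · obtain ⟨⟨-, -, h3, -⟩, -⟩ := hP _ _ _ hl hr hR
    exact h3 ⟨d + e, h, by exact kmem_aux (S.K y).zero_mem (by match_scalars <;> rfl)⟩

theorem HD {v : V} {r s : List (V × M)} {δ : M} (hl : r.length = n) (hr : S.Red r)
    (hd : ¬ S.D r v) (h : S.H v r s δ) : S.Red s ∧ ¬ S.D s v := by
  rcases h with ⟨ζ1, h1, h2⟩ | ⟨y, d, α, t, hc, h1, h2, h3⟩
  · exact ⟨(hP _ _ _ hl hr h1).1, fun h => hd (D.of_R h1.symm h)⟩
  obtain ⟨hr2, -⟩ := hP _ _ _ hl hr h1
  have hl2 : ((y, α) :: t).length = n := by rw [← hl]; exact h1.length.symm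
  have hred : S.Red ((y, α + d) :: t) := by
    obtain ⟨ht, hty, htr, h4⟩ := hr2
    refine ⟨ht, hty, ?_, ?_⟩
    · rintro ⟨ζ, hz, hk⟩
      apply hd
      have A : S.R ((y, α) :: t) ((y, d + ζ) :: t) 0 := R.letter (by exact kmem_aux hk (by match_scalars <;> rfl))
      exact D.of_R' (h1.trans (A.trans (R.F1 (S.symm (S.addZ hc hz)))))
    · intro u e he hu hk
      obtain ⟨β, q, hq⟩ := hu
      apply hd
      have A : S.R ((y, α) :: t) ((y, d + e) :: t) 0 := R.letter (by exact kmem_aux hk (by match_scalars <;> rfl))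
      have B : S.R ((y, d + e) :: t) ((y, d + e) :: (u, β) :: q) 0 := hq.cons'
      have B2 : S.R ((y, d + e) :: (u, β) :: q) ((y, d + e + e) :: (u, β + e) :: q) 0 :=
        R.F2 (S.symm he)
      have e1 : d + e + e = d := by exact ch2_aux (by match_scalars <;> rfl)
      rw [e1] at B2
      exact D.of_R' (h1.trans (A.trans (B.trans (B2.trans (R.F1 (S.symm hc))))))
  have hl3 : ((y, α + d) :: t).length = n := by rw [← hl2]; rfl
  refine ⟨(hP _ _ _ hl3 hred h2.symm).1, ?_⟩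
  rintro ⟨β, q, hq⟩
  have hR : S.R ((y, α + d) :: t) ((v, β) :: q) 0 := (h2.symm.trans hq).congr (by exact ch2_aux (by match_scalars <;> rfl))
  obtain ⟨-, hN⟩ := hP _ _ _ hl3 hred hR
  rcases hN with ⟨rfl, hH⟩ | ⟨e, q', he, hH, hH'⟩ | ⟨u, e, e', t', t'', he, he', hne, hH, hH', hH''⟩
  · exact S.irr hc
  · have A : S.R ((y, α) :: t) ((y, d + e) :: q') 0 :=
      hH.toR S.Z.zero_mem (by exact kmem_aux (S.K y).zero_mem (by match_scalars <;> rfl))
    exact aux1 hP hl hr hd ((h1.trans A).congr (by exact ch2_aux (by match_scalars <;> rfl))) hc (S.symm he)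
  · exact S.tri hc he he'

theorem Red_H {v : V} {r r' : List (V × M)} {a b ζ : M} (hl : r.length = n)
    (hr : S.Red ((v, a) :: r)) (hz : ζ ∈ S.Z) (h : S.H v r r' (a + b + ζ)) :
    S.Red ((v, b) :: r') := by
  obtain ⟨hr1, hd, htr, h4⟩ := hr
  obtain ⟨hr1', hd'⟩ := HD hP hl hr1 hd h
  have hl' : r'.length = n := by rw [← hl]; exact h.length.symm
  refine ⟨hr1', hd', ?_, ?_⟩
  · intro hb
    rcases h with ⟨ζ1, h1, h2⟩ | ⟨y, d, α, t, hc, h1, h2, h3⟩
    · exact htr (hb.congr (S.Z.add_mem hz h1.memZ) (by exact kmem_aux h2 (by match_scalars <;> rfl)))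
    · obtain ⟨ζ2, hz2, hk⟩ := hb
      exact h4 y (d + (ζ + ζ2)) (S.addZ hc (S.Z.add_mem hz hz2)) (D.of_R' h1)
        (by exact kmem_aux ((S.K v).add_mem h3 hk) (by match_scalars <;> rfl))
  · intro w c hc hw hk
    rcases h with ⟨ζ1, h1, h2⟩ | ⟨y, d, α, t, hc', h1, h2, h3⟩
    · exact h4 w (c + (ζ + ζ1)) (S.addZ hc (S.Z.add_mem hz h1.memZ)) (D.of_R h1.symm hw)
        (by exact kmem_aux ((S.K v).add_mem h2 hk) (by match_scalars <;> rfl))
    · -- second type
      obtain ⟨hr3, -⟩ := hP _ _ _ hl' hr1' h2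
      have hl3 : ((y, α + d) :: t).length = n := by rw [← hl']; exact h2.length.symm
      obtain ⟨β, q, hq⟩ := D.of_R h2 hw
      obtain ⟨-, hN⟩ := hP _ _ _ hl3 hr3 hq
      rcases hN with ⟨rfl, hH⟩ | ⟨e, q', he, hH, hH'⟩ |
        ⟨u, e, e', t', t'', he, he', hne, hH, hH', hH''⟩
      · rcases S.addC hc' hc with hcc | hcc
        · exact h4 y (d + c + ζ) (S.addZ hcc hz) (D.of_R' h1) (by exact kmem_aux ((S.K v).add_mem h3 hk) (by match_scalars <;> rfl))
        · exact htr ⟨d + c + ζ, S.Z.add_mem hcc hz, by exact kmem_aux ((S.K v).add_mem h3 hk) (by match_scalars <;> rfl)⟩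
      · exact S.tri hc' he (S.symm hc)
      · obtain ⟨z, g, β', q2, hg, -, -, hk2⟩ := hH'.cubic (S.symm he) he' hne
        have huv : v = u := S.Cd4 ⟨y, w, z, e, e', g, S.symm he, he', hg, hne, hk2⟩ (S.symm he) he'
          hne (S.symm hc') hc
        subst huv
        have A : S.R ((y, α) :: t) ((y, d + e) :: t') 0 :=
          hH.toR S.Z.zero_mem (by exact kmem_aux (S.K y).zero_mem (by match_scalars <;> rfl))
        exact aux1 hP hl hr1 hd ((h1.trans A).congr (by exact ch2_aux (by match_scalars <;> rfl))) hc' (S.symm he)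

omit hP in
theorem Red_F1 {v u : V} {s : List (V × M)} {c : M} (hc : c ∈ S.C v u)
    (hr : S.Red ((v, c) :: s)) : S.Red ((u, c) :: s) := by
  obtain ⟨hr1, hd, htr, h4⟩ := hr
  refine ⟨hr1, ?_, not_triv_C (S.symm hc), ?_⟩
  · intro h
    exact h4 u c hc h (by exact kmem_aux (S.K v).zero_mem (by match_scalars <;> rfl))
  · intro w d hd1 hw hk
    have := S.Cb (S.symm hc) hd1 hk
    subst this
    exact hd hw

theorem N_E0 {x0 : List (V × M)} {v : V} {r r' : List (V × M)} {a b ζ ζ0 : M}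
    (hl : r.length = n) (hr : S.Red ((v, a) :: r)) (h0 : S.N x0 ((v, a) :: r) ζ0)
    (h : S.H v r r' (a + b + ζ)) : S.N x0 ((v, b) :: r') (ζ0 + ζ) := by
  rcases x0 with _ | ⟨⟨u, e⟩, q⟩
  · exact absurd h0 (by simp [N])
  rcases h0 with ⟨rfl, hH⟩ | ⟨c, s, hc, hH, hH'⟩ | ⟨p, c, c', t, t', hc, hc', hne, hH, hH', hH''⟩
  · exact Or.inl ⟨rfl, (Hcomp hP hl hr.1 hr.2.1 hH h).congr' (by exact ch2_aux (by match_scalars <;> rfl))⟩
  · exact Or.inr (Or.inl ⟨c, s, hc, hH, (Hcomp hP hl hr.1 hr.2.1 hH' h).congr' (by exact ch2_aux (by match_scalars <;> rfl))⟩)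
  · exact Or.inr (Or.inr ⟨p, c, c', t, t', hc, hc', hne, hH, hH',
      (Hcomp hP hl hr.1 hr.2.1 hH'' h).congr' (by exact ch2_aux (by match_scalars <;> rfl))⟩)

theorem N_E1 {v w x : V} {r r' : List (V × M)} {a b ζ0 : M} (hl : r.length = n)
    (hr : S.Red ((v, a) :: r)) (hz : ζ0 ∈ S.Z)
    (h0 : S.N ((v, a) :: r) ((w, b) :: r') ζ0) (hb : b ∈ S.C w x) :
    S.N ((v, a) :: r) ((x, b) :: r') ζ0 := by
  rcases h0 with ⟨rfl, hH⟩ | ⟨c, s, hc, hH, hH'⟩ | ⟨u, c, c', s, s', hc, hc', hne, hH, hH', hH''⟩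
  · exact Or.inr (Or.inl ⟨b + ζ0, r', S.addZ hb hz, hH.congr' (by exact ch2_aux (by match_scalars <;> rfl)), H.refl _ _ (by exact ch2_aux (by match_scalars <;> rfl))⟩)
  · by_cases hxv : x = v
    · subst hxv
      rcases S.addC (S.symm hc) hb with hcb | hcb
      · exfalso
        have hs : ¬ S.D s x := (HD hP hl hr.1 hr.2.1 hH).2
        rcases hH' with ⟨ζ1, h1, h2⟩ | ⟨y, d, α, t, hd, h1, h2, h3⟩
        · exact S.Ca (S.addZ hcb (S.Z.add_mem hz h1.memZ)) (by exact kmem_aux h2 (by match_scalars <;> rfl))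
        · have := S.Cb (S.addZ hcb hz) hd h3
          subst this
          exact hs (D.of_R' h1)
      · exact Or.inl ⟨rfl, (hH.trans_R (hH'.central (S.Z.add_mem hcb hz))).congr' (by exact ch2_aux (by match_scalars <;> rfl))⟩
    · exact Or.inr (Or.inr ⟨w, c, b + ζ0, s, r', hc, S.addZ hb hz, Ne.symm hxv, hH,
        hH'.congr' (by exact ch2_aux (by match_scalars <;> rfl)), H.refl _ _ (by exact ch2_aux (by match_scalars <;> rfl))⟩)
  · have hrc : S.Red ((u, c) :: s) :=
      Red_F1 hc (Red_H hP hl hr S.Z.zero_mem (hH.congr' (by exact ch2_aux (by match_scalars <;> rfl))))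
    have hls : s.length = n := by rw [← hl]; exact hH.length.symm
    have hrc' : S.Red ((u, c') :: s') :=
      Red_H hP hls hrc S.Z.zero_mem (hH'.congr' (by exact ch2_aux (by match_scalars <;> rfl)))
    have hls' : s'.length = n := by rw [← hls]; exact hH'.length.symm
    by_cases hxu : x = u
    · subst hxu
      rcases S.addC (S.symm hc') hb with hcb | hcb
      · exfalso
        rcases hH'' with ⟨ζ1, h1, h2⟩ | ⟨y, d, α, t, hd, h1, h2, h3⟩
        · exact S.Ca (S.addZ hcb (S.Z.add_mem hz h1.memZ)) (by exact kmem_aux h2 (by match_scalars <;> rfl))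
        · have := S.Cb (S.addZ hcb hz) hd h3
          subst this
          exact hrc'.2.1 (D.of_R' h1)
      · exact Or.inr (Or.inl ⟨c, s, hc, hH,
          (hH'.trans_R (hH''.central (S.Z.add_mem hcb hz))).congr' (by exact ch2_aux (by match_scalars <;> rfl))⟩)
    · exfalso
      have hH2 : S.H w s' r' (c' + (b + ζ0)) := hH''.congr' (by exact ch2_aux (by match_scalars <;> rfl))
      obtain ⟨y2, c2, α2, t2, hc2, h21, h22, hk2⟩ :=
        hH2.cubic (S.symm hc') (S.addZ hb hz) (Ne.symm hxu)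
      obtain ⟨y1, c1, α1, t1, hc1, h11, h12, hk1⟩ := hH'.cubic (S.symm hc) hc' hne
      have hwy : w ≠ y1 := by
        rintro rfl
        rcases S.addC hc' hc1 with h | h
        · exact hne (S.Cb (S.symm hc) h (by exact kmem_aux hk1 (by match_scalars <;> rfl)))
        · exact S.Ca (S.addZ (S.symm hc) h) (by exact kmem_aux hk1 (by match_scalars <;> rfl))
      have hy2u : y2 ≠ u := by
        rintro rfl
        rcases S.addC (S.symm hc') hc2 with h | h
        · exact hxu (S.Cb h (S.addZ hb hz) (by exact kmem_aux hk2 (by match_scalars <;> rfl))).symm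
        · exact S.Ca (S.addZ (S.addZ hb hz) h) (by exact kmem_aux hk2 (by match_scalars <;> rfl))
      have hk1' : c' + c1 + c ∈ S.K u := by exact kmem_aux hk1 (by match_scalars <;> rfl)
      obtain ⟨hr4, -⟩ := hP _ _ _ hls' hrc'.1 h12
      have hl4 : ((y1, α1 + c1) :: t1).length = n := by rw [← hls']; exact h12.length.symm
      have hR : S.R ((y1, α1 + c1) :: t1) ((y2, α2) :: t2) 0 :=
        (h12.symm.trans h21).congr (by exact ch2_aux (by match_scalars <;> rfl))
      obtain ⟨-, hN⟩ := hP _ _ _ hl4 hr4 hR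
      have cubu : CubP S.K S.C u := ⟨w, y1, v, c', c1, c, hc', hc1, S.symm hc, hwy, hk1'⟩
      have cubw : CubP S.K S.C w :=
        ⟨u, x, y2, c', b + ζ0, c2, S.symm hc', S.addZ hb hz, hc2, Ne.symm hxu, hk2⟩
      rcases hN with ⟨rfl, -⟩ | ⟨e, q', he, -, -⟩ | ⟨p, e, e', t', t'', he, he', hy12, -, hHp, -⟩
      · exact S.tri hc' hc2 (S.symm hc1)
      · exact hy2u (S.Cd4 cubu hc' hc1 hwy hc2 (S.symm he))
      · obtain ⟨z, g, -, -, hg, -, -, hkp⟩ := hHp.cubic (S.symm he) he' hy12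
        refine S.Cd5 cubu cubw ⟨y1, y2, z, e, e', g, S.symm he, he', hg, hy12, hkp⟩ hc' hc1 hwy hc2
          (S.symm he') (S.symm he) hy2u ?_
        rintro rfl
        exact S.tri hc' hc2 (S.symm he')

end Level

end Sys

end GIG
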