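import Pool.Agent.Lib.MP_262b4d_al.Act

/-!
# The permutation representation on the classes of reduced words
-/

namespace GIG

variable {V M : Type*} [AddCommGroup M] [Module (ZMod 2) M]

namespace Sys

variable (S : Sys V M)

/-- pairs `ζ r` -/
def Pt : Type _ := {p : List (V × M) × M // S.Red p.1 ∧ p.2 ∈ S.Z}

def ptSetoid : Setoid S.Pt where
  r p q := S.R p.1.1 q.1.1 (p.1.2 + q.1.2)
  iseqv := by
    refine ⟨fun p => (R.refl _).congr (by exact ch2_aux (by match_scalars <;> rfl)), fun h => h.symm.congr (by exact ch2_aux (by match_scalars <;> rfl)),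
      fun h h' => (h.trans h').congr (by exact ch2_aux (by match_scalars <;> rfl))⟩

/-- classes of (signed) reduced words -/
def Om : Type _ := Quotient S.ptSetoid

variable {S}

def Om.mk (r : List (V × M)) (z : M) (hr : S.Red r) (hz : z ∈ S.Z) : S.Om :=
  Quotient.mk S.ptSetoid ⟨(r, z), hr, hz⟩

theorem Om.mk_eq {r r' : List (V × M)} {z z' : M} {hr : S.Red r} {hr' : S.Red r'}
    {hz : z ∈ S.Z} {hz' : z' ∈ S.Z} :
    Om.mk r z hr hz = Om.mk r' z' hr' hz' ↔ S.R r r' (z + z') :=
  ⟨fun h => Quotient.exact h, fun h => Quotient.sound h⟩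

theorem Om.rep (o : S.Om) : ∃ r z hr hz, o = Om.mk r z hr hz := by
  refine Quotient.inductionOn o ?_
  rintro ⟨⟨r, z⟩, hr, hz⟩
  exact ⟨r, z, hr, hz, rfl⟩

theorem red_nil : S.Red [] := trivial

/-- the relation `c p = q` at the vertex `v` -/
def Rel (v : V) (c : M) (o o' : S.Om) : Prop :=
  ∃ r z hr hz r' z' hr' hz', o = Om.mk r z hr hz ∧ o' = Om.mk r' z' hr' hz' ∧
    S.Act v c r r' (z + z')

theorem Rel.exists (v : V) (c : M) (o : S.Om) : ∃ o', Rel v c o o' := by
  obtain ⟨r, z, hr, hz, rfl⟩ := Om.rep o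
  obtain ⟨r', ζ, h⟩ := Act.exists v c hr
  refine ⟨Om.mk r' (z + ζ) h.red (S.Z.add_mem hz h.memZ), r, z, hr, hz, r', z + ζ, h.red,
    S.Z.add_mem hz h.memZ, rfl, rfl, ?_⟩
  have e : z + (z + ζ) = ζ := by exact ch2_aux (by match_scalars <;> rfl)
  rw [e]; exact h

theorem Rel.unique {v : V} {c : M} {o o' o'' : S.Om} (h : Rel v c o o') (h' : Rel v c o o'') :
    o' = o'' := by
  obtain ⟨r, z, hr, hz, r', z', hr', hz', rfl, rfl, hA⟩ := h
  obtain ⟨q, y, hq, hy, q', y', hq', hy', e, rfl, hB⟩ := h'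
  rw [Om.mk_eq] at e ⊢
  have C := hB.of_R_left e.symm
  exact (hA.unique C).congr (by exact ch2_aux (by match_scalars <;> rfl))

/-- the element `c` of the vertex group at `v` acts -/
noncomputable def act (v : V) (c : M) (o : S.Om) : S.Om := Classical.choose (Rel.exists v c o)

theorem act_rel (v : V) (c : M) (o : S.Om) : Rel v c o (act v c o) :=
  Classical.choose_spec (Rel.exists v c o)

theorem act_eq {v : V} {c : M} {o o' : S.Om} (h : Rel v c o o') : act v c o = o' :=
  (act_rel v c o).unique h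

theorem act_mk {v : V} {c : M} {r r' : List (V × M)} {z ζ : M} (h : S.Act v c r r' ζ)
    (hr : S.Red r) (hz : z ∈ S.Z) :
    act v c (Om.mk r z hr hz) = Om.mk r' (z + ζ) h.red (S.Z.add_mem hz h.memZ) := by
  refine act_eq ⟨r, z, hr, hz, r', z + ζ, h.red, S.Z.add_mem hz h.memZ, rfl, rfl, ?_⟩
  have e : z + (z + ζ) = ζ := by exact ch2_aux (by match_scalars <;> rfl)
  rw [e]; exact h

theorem act_add (v : V) (c c' : M) (o : S.Om) : act v c' (act v c o) = act v (c + c') o := by
  obtain ⟨r, z, hr, hz, rfl⟩ := Om.rep o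
  obtain ⟨r', ζ, h⟩ := Act.exists v c hr
  obtain ⟨r'', ζ', h'⟩ := Act.exists v c' h.red
  rw [act_mk h, act_mk h', act_mk (h.add h'), Om.mk_eq]
  exact (R.refl _).congr (by exact ch2_aux (by match_scalars <;> rfl))

theorem act_zero (v : V) (o : S.Om) : act v 0 o = o := by
  obtain ⟨r, z, hr, hz, rfl⟩ := Om.rep o
  rw [act_mk (Act.zero v hr), Om.mk_eq]
  exact (R.refl _).congr (by exact ch2_aux (by match_scalars <;> rfl))

theorem act_K {v : V} {k : M} (hk : k ∈ S.K v) (o : S.Om) : act v k o = o := by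
  obtain ⟨r, z, hr, hz, rfl⟩ := Om.rep o
  rw [act_mk ((Act.zero v hr).shift (c' := k) S.Z.zero_mem (by exact kmem_aux hk (by match_scalars <;> rfl))), Om.mk_eq]
  exact (R.refl _).congr (by exact ch2_aux (by match_scalars <;> rfl))

theorem act_Z {v : V} {ζ : M} (hζ : ζ ∈ S.Z) {r : List (V × M)} {z : M} (hr : S.Red r)
    (hz : z ∈ S.Z) : act v ζ (Om.mk r z hr hz) = Om.mk r (z + ζ) hr (S.Z.add_mem hz hζ) := by
  rw [act_mk ((Act.zero v hr).shift (c' := ζ) hζ (by
    exact kmem_aux (S.K v).zero_mem (by match_scalars <;> rfl))), Om.mk_eq]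
  exact (R.refl _).congr (by exact ch2_aux (by match_scalars <;> rfl))

theorem act_C {v w : V} {c : M} (hc : c ∈ S.C v w) (o : S.Om) : act v c o = act w c o := by
  obtain ⟨r, z, hr, hz, rfl⟩ := Om.rep o
  obtain ⟨r', ζ, h, h'⟩ := Act.compat hc hr
  rw [act_mk h, act_mk h']

theorem act_cons {v : V} {a : M} {r : List (V × M)} (h : S.Red ((v, a) :: r)) {z : M}
    (hz : z ∈ S.Z) : act v a (Om.mk r z h.1 hz) = Om.mk ((v, a) :: r) z h hz := by
  rw [act_mk (Act.cons h), Om.mk_eq]
  exact (R.refl _).congr (by exact ch2_aux (by match_scalars <;> rfl))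

/-- the permutation given by `c` at `v` -/
noncomputable def actP (v : V) (c : M) : Equiv.Perm S.Om where
  toFun := act v c
  invFun := act v c
  left_inv o := by
    rw [act_add, show c + c = 0 by exact ch2_aux (by match_scalars <;> rfl), act_zero]
  right_inv o := by
    rw [act_add, show c + c = 0 by exact ch2_aux (by match_scalars <;> rfl), act_zero]

theorem actP_apply (v : V) (c : M) (o : S.Om) : actP v c o = act v c o := rfl

theorem actP_add (v : V) (c c' : M) : (actP v (c + c') : Equiv.Perm S.Om) = actP v c * actP v c' := by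
  ext o
  rw [Equiv.Perm.mul_apply, actP_apply, actP_apply, actP_apply, act_add, add_comm]

theorem actP_zero (v : V) : (actP v 0 : Equiv.Perm S.Om) = 1 := by
  ext o
  rw [actP_apply, act_zero, Equiv.Perm.one_apply]

theorem actP_K {v : V} {k : M} (hk : k ∈ S.K v) : (actP v k : Equiv.Perm S.Om) = 1 := by
  ext o
  rw [actP_apply, act_K hk, Equiv.Perm.one_apply]

theorem actP_C {v w : V} {c : M} (hc : c ∈ S.C v w) :
    (actP v c : Equiv.Perm S.Om) = actP w c := by
  ext o
  rw [actP_apply, actP_apply, act_C hc]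

theorem actP_Z {v w : V} {c : M} (hc : c ∈ S.Z) :
    (actP v c : Equiv.Perm S.Om) = actP w c := by
  ext o
  rw [actP_apply, actP_apply]
  obtain ⟨r, z, hr, hz, rfl⟩ := Om.rep o
  rw [act_Z hc, act_Z hc]

/-- the base point -/
def Om.base (S : Sys V M) : S.Om := Om.mk [] 0 red_nil S.Z.zero_mem

theorem Om.eq_base {r : List (V × M)} {z : M} {hr : S.Red r} {hz : z ∈ S.Z}
    (h : Om.mk r z hr hz = Om.base S) : r = [] ∧ z = 0 := by
  rw [Om.base, Om.mk_eq, add_zero] at h
  have h0 : r = [] := List.length_eq_zero_iff.1 h.length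
  exact ⟨h0, h.nil_zero h0⟩

end Sys

end GIG
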