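import Pool.Agent.Lib.MP_262b4d_al.PSearch

/-!
# The certificates are sound and complete
-/

namespace GIG

open Relation

namespace Srch

variable {n : ℕ} {E : List (ℕ × ℕ)} {B : List ℕ}

/-- the letter names a generator -/
def Vd (c : Code) (s : Option ℕ) : Prop := Encodable.encode s ≤ c.2.1.length

instance (c : Code) (s : Option ℕ) : Decidable (Vd c s) := by unfold Vd; infer_instance

theorem vd_none {c : Code} : Vd c none := Nat.zero_le _

theorem vd_some {c : Code} {i : ℕ} : Vd c (some i) ↔ i < c.2.1.length := by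
  unfold Vd
  rw [Encodable.encode_some, Encodable.encode_nat]
  exact Nat.succ_le_iff

theorem ed_get {i : ℕ} (h : i < E.length) : ed (n, E, B) i = E.get ⟨i, h⟩ := by
  unfold ed
  simp [List.getD_eq_getElem?_getD, h]

theorem star_eq (v : ℕ) : star (n, E, B) v =
    ((List.finRange E.length).filter (fun i => Inc v (E.get i))).map (fun i => some i.val) := by
  have key : ∀ l : List (Fin E.length), (l.map Fin.val).flatMap
      (fun i => if incB v (ed (n, E, B) i) then [some i] else []) =
      (l.filter (fun i => Inc v (E.get i))).map (fun i => some i.val) := by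
    intro l
    induction l with
    | nil => rfl
    | cons i l ih =>
      rw [List.map_cons, List.flatMap_cons, ih, ed_get i.2]
      by_cases h : Inc v (E.get i)
      · rw [if_pos (incB_iff.2 h), List.filter_cons_of_pos (by simpa using h), List.map_cons]
        rfl
      · rw [if_neg (fun h' => h (incB_iff.1 h')), List.filter_cons_of_neg (by simpa using h)]
        rfl
  unfold star
  rw [← key, List.map_coe_finRange_eq_range]

theorem mem_rl2 {r : U} : r ∈ rl2 (n, E, B) ↔ ∃ i < E.length, r = [some i, some i] := by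
  unfold rl2
  rw [List.mem_map]
  simp only [List.mem_range]
  exact ⟨fun ⟨i, h, e⟩ => ⟨i, h, e.symm⟩, fun ⟨i, h, e⟩ => ⟨i, h, e.symm⟩⟩

theorem mem_rl3 {r : U} : r ∈ rl3 (n, E, B) ↔ ∃ i < E.length, r = [some i, none, some i, none] := by
  unfold rl3
  rw [List.mem_map]
  simp only [List.mem_range]
  exact ⟨fun ⟨i, h, e⟩ => ⟨i, h, e.symm⟩, fun ⟨i, h, e⟩ => ⟨i, h, e.symm⟩⟩

theorem mem_rl4 {r : U} : r ∈ rl4 (n, E, B) ↔ ∃ i < E.length, ∃ k < E.length,
    shB (ed (n, E, B) i) (ed (n, E, B) k) = true ∧ r = [some i, some k, some i, some k] := by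
  unfold rl4
  rw [List.mem_flatMap]
  simp only [List.mem_range, List.mem_flatMap]
  constructor
  · rintro ⟨i, hi, k, hk, h⟩
    split_ifs at h with h1
    · exact ⟨i, hi, k, hk, h1, List.mem_singleton.1 h⟩
    · exact absurd h (List.not_mem_nil)
  · rintro ⟨i, hi, k, hk, h, rfl⟩
    refine ⟨i, hi, k, hk, ?_⟩
    rw [if_pos h]
    exact List.mem_singleton.2 rfl

theorem mem_rl5 {r : U} : r ∈ rl5 (n, E, B) ↔ ∃ v < n,
    r = star (n, E, B) v ++ (if v ∈ B then [none] else []) := by
  unfold rl5
  rw [List.mem_map]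
  simp only [List.mem_range]
  exact ⟨fun ⟨i, h, e⟩ => ⟨i, h, e.symm⟩, fun ⟨i, h, e⟩ => ⟨i, h, e.symm⟩⟩

theorem mem_rl {r : U} {c : Code} : r ∈ rl c ↔ r = [none, none] ∨ r ∈ rl2 c ∨ r ∈ rl3 c ∨
    r ∈ rl4 c ∨ r ∈ rl5 c := by
  unfold rl
  simp only [List.mem_cons, List.mem_append]

theorem shB_iff {e e' : ℕ × ℕ} : shB e e' = true ↔ ∃ v, Inc v e ∧ Inc v e' := by
  unfold shB
  rw [Bool.or_eq_true, incB_iff, incB_iff]
  constructor
  · rintro (h | h)
    · exact ⟨e.1, Or.inl rfl, h⟩
    · exact ⟨e.2, Or.inr rfl, h⟩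
  · rintro ⟨v, h1 | h1, h2⟩
    · rw [h1]; exact Or.inl h2
    · rw [h1]; exact Or.inr h2

/-- the letters of the relators name generators -/
theorem rl_vd {r : U} (hr : r ∈ rl (n, E, B)) : ∀ s ∈ r, Vd (n, E, B) s := by
  rcases mem_rl.1 hr with rfl | h | h | h | h
  · intro s hs
    have : s = none := by simpa using hs
    rw [this]; exact vd_none
  · obtain ⟨i, hi, rfl⟩ := mem_rl2.1 h
    intro s hs
    have : s = some i := by simpa using hs
    rw [this]; exact vd_some.2 hi
  · obtain ⟨i, hi, rfl⟩ := mem_rl3.1 h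
    intro s hs
    simp only [List.mem_cons, List.not_mem_nil, or_false] at hs
    rcases hs with rfl | rfl | rfl | rfl
    · exact vd_some.2 hi
    · exact vd_none
    · exact vd_some.2 hi
    · exact vd_none
  · obtain ⟨i, hi, k, hk, -, rfl⟩ := mem_rl4.1 h
    intro s hs
    simp only [List.mem_cons, List.not_mem_nil, or_false] at hs
    rcases hs with rfl | rfl | rfl | rfl
    · exact vd_some.2 hi
    · exact vd_some.2 hk
    · exact vd_some.2 hi
    · exact vd_some.2 hk
  · obtain ⟨v, hv, rfl⟩ := mem_rl5.1 h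
    intro s hs
    rw [List.mem_append, star_eq, List.mem_map] at hs
    rcases hs with ⟨i, -, rfl⟩ | hs
    · exact vd_some.2 i.2
    · split_ifs at hs
      · rw [List.mem_singleton.1 hs]; exact vd_none
      · exact absurd hs List.not_mem_nil

/-- **Universal property**, for maps on the letters which satisfy the relators. -/
theorem exists_hom {H : Type*} [Group H] (f : Option ℕ → H)
    (hf : ∀ r ∈ rl (n, E, B), (r.map f).prod = 1) :
    ∃ F : Grp n E B →* H, ∀ s, Vd (n, E, B) s → F (gen n E B s) = f s := by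
  let g : Option (Fin E.length) → H := fun s => f (s.map Fin.val)
  have hJ : f none * f none = 1 := by
    have := hf [none, none] (mem_rl.2 (Or.inl rfl))
    simpa using this
  have hx : ∀ i : Fin E.length, f (some i.val) * f (some i.val) = 1 := by
    intro i
    have := hf [some i.val, some i.val] (mem_rl.2 (Or.inr (Or.inl (mem_rl2.2 ⟨i, i.2, rfl⟩))))
    simpa using this
  have hJi : (f none)⁻¹ = f none := inv_eq_of_mul_eq_one_left hJ
  have hxi : ∀ i : Fin E.length, (f (some i.val))⁻¹ = f (some i.val) := fun i =>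
    inv_eq_of_mul_eq_one_left (hx i)
  have hrel : ∀ r ∈ Rels n E B, FreeGroup.lift g r = 1 := by
    intro r hr
    unfold Rels at hr
    rcases hr with (((hr | ⟨i, rfl⟩) | ⟨i, rfl⟩) | ⟨v, i, k, hi, hk, rfl⟩) | ⟨v, hv, rfl⟩
    · rw [Set.mem_ofPred_eq] at hr
      subst hr
      rw [map_mul, FreeGroup.lift_apply_of]
      exact hJ
    · rw [map_mul, FreeGroup.lift_apply_of]
      exact hx i
    · rw [map_mul, map_mul, map_mul, map_inv, map_inv, FreeGroup.lift_apply_of,
        FreeGroup.lift_apply_of]
      show f (some i.val) * f none * (f (some i.val))⁻¹ * (f none)⁻¹ = 1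
      rw [hJi, hxi]
      have := hf _ (mem_rl.2 (Or.inr (Or.inr (Or.inl (mem_rl3.2 ⟨i, i.2, rfl⟩)))))
      simpa [mul_assoc] using this
    · rw [map_mul, map_mul, map_mul, map_inv, map_inv, FreeGroup.lift_apply_of,
        FreeGroup.lift_apply_of]
      show f (some i.val) * f (some k.val) * (f (some i.val))⁻¹ * (f (some k.val))⁻¹ = 1
      rw [hxi, hxi]
      have h1 : shB (ed (n, E, B) i) (ed (n, E, B) k) = true := by
        rw [ed_get i.2, ed_get k.2, shB_iff]
        exact ⟨v, hi, hk⟩
      have := hf _ (mem_rl.2 (Or.inr (Or.inr (Or.inr (Or.inl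
        (mem_rl4.2 ⟨i, i.2, k, k.2, h1, rfl⟩))))))
      simpa [mul_assoc] using this
    · rw [map_mul, map_inv, map_pow, map_list_prod, List.map_map, FreeGroup.lift_apply_of]
      have h1 : ((FreeGroup.lift g) ∘ fun i => FreeGroup.of (some i)) =
          f ∘ fun i : Fin E.length => some i.val := by
        funext i
        rw [Function.comp_apply, FreeGroup.lift_apply_of]
        rfl
      rw [h1, ← List.map_map, ← star_eq (n := n) (B := B) v]
      have h2 := hf _ (mem_rl.2 (Or.inr (Or.inr (Or.inr (Or.inr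
        (mem_rl5.2 ⟨v, hv, rfl⟩))))))
      rw [List.map_append, List.prod_append] at h2
      unfold col
      show _ * (f none ^ (if v ∈ B then 1 else 0))⁻¹ = 1
      by_cases hb : v ∈ B
      · rw [if_pos hb] at h2 ⊢
        rw [pow_one, hJi]
        simpa using h2
      · rw [if_neg hb] at h2 ⊢
        simpa using h2
  refine ⟨PresentedGroup.toGroup hrel, fun s hs => ?_⟩
  rcases s with _ | i
  · exact PresentedGroup.toGroup.of hrel
  · rw [vd_some] at hs
    have h1 : gen n E B (some i) = gx n E B ⟨i, hs⟩ := dif_pos hs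
    rw [h1]
    exact PresentedGroup.toGroup.of hrel

theorem gen_vd_some {i : ℕ} (h : i < E.length) : gen n E B (some i) = gx n E B ⟨i, h⟩ :=
  dif_pos h

theorem gen_sq (s : Option ℕ) : gen n E B s * gen n E B s = 1 := by
  rcases s with _ | i
  · exact gJ_sq
  · by_cases h : i < E.length
    · rw [gen_vd_some h]
      exact gx_sq _
    · have : gen n E B (some i) = 1 := dif_neg h
      rw [this, one_mul]

theorem gen_not_vd {s : Option ℕ} (h : ¬ Vd (n, E, B) s) : gen n E B s = 1 := by
  rcases s with _ | i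
  · exact absurd vd_none h
  · rw [vd_some] at h
    exact dif_neg h

theorem vl_rl {r : U} (hr : r ∈ rl (n, E, B)) : vl n E B r = 1 := by
  unfold vl
  rcases mem_rl.1 hr with rfl | h | h | h | h
  · simpa using gen_sq (n := n) (E := E) (B := B) none
  · obtain ⟨i, hi, rfl⟩ := mem_rl2.1 h
    simpa using gen_sq (n := n) (E := E) (B := B) (some i)
  · obtain ⟨i, hi, rfl⟩ := mem_rl3.1 h
    have h1 : gen n E B (some i) * gJ n E B = gJ n E B * gen n E B (some i) := by
      rw [gen_vd_some hi]
      exact gx_comm_J _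
    have h2 : gen n E B (some i) * gen n E B (some i) = 1 := gen_sq _
    show gen n E B (some i) * (gJ n E B * (gen n E B (some i) * (gJ n E B * 1))) = 1
    rw [mul_one, h1, ← mul_assoc (gJ n E B), gJ_sq, one_mul, h2]
  · obtain ⟨i, hi, k, hk, hs, rfl⟩ := mem_rl4.1 h
    rw [ed_get hi, ed_get hk, shB_iff] at hs
    obtain ⟨v, h1, h2⟩ := hs
    have h3 : gen n E B (some i) * gen n E B (some k) =
        gen n E B (some k) * gen n E B (some i) := by
      rw [gen_vd_some hi, gen_vd_some hk]
      exact gx_comm h1 h2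
    have h4 : gen n E B (some i) * gen n E B (some i) = 1 := gen_sq _
    have h5 : gen n E B (some k) * gen n E B (some k) = 1 := gen_sq _
    show gen n E B (some i) * (gen n E B (some k) * (gen n E B (some i) *
      (gen n E B (some k) * 1))) = 1
    rw [mul_one, h3, ← mul_assoc (gen n E B (some k)), h5, one_mul, h4]
  · obtain ⟨v, hv, rfl⟩ := mem_rl5.1 h
    rw [List.map_append, List.prod_append, star_eq, List.map_map]
    have h1 : (gen n E B ∘ fun i : Fin E.length => some i.val) = gx n E B := by
      funext i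
      exact gen_vd_some i.2
    rw [h1, gx_prod hv]
    unfold col
    by_cases hb : v ∈ B
    · rw [if_pos hb, if_pos hb, pow_one]
      show gJ n E B * (gJ n E B * 1) = 1
      rw [mul_one, gJ_sq]
    · rw [if_neg hb, if_neg hb]
      simp

theorem vl_append (u v : U) : vl n E B (u ++ v) = vl n E B u * vl n E B v := by
  unfold vl
  rw [List.map_append, List.prod_append]

theorem vl_cln (w : Wd) : vl n E B (cln (n, E, B) w) = wval n E B w := by
  unfold cln wval
  induction w with
  | nil => rfl
  | cons s w ih =>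
    rw [List.flatMap_cons, vl_append, ih, List.map_cons, List.prod_cons]
    congr 1
    have h1 : (if s.2 = true then gen n E B s.1 else (gen n E B s.1)⁻¹) = gen n E B s.1 := by
      split_ifs
      · rfl
      · exact inv_eq_of_mul_eq_one_left (gen_sq _)
    rw [h1]
    by_cases h : Vd (n, E, B) s.1
    · have h' : Encodable.encode s.1 ≤ E.length := h
      rw [if_pos h']
      simp [vl]
    · have h' : ¬ Encodable.encode s.1 ≤ E.length := h
      rw [if_neg h', gen_not_vd h]
      rfl

theorem cln_vd {w : Wd} : ∀ s ∈ cln (n, E, B) w, Vd (n, E, B) s := by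
  intro s hs
  unfold cln at hs
  obtain ⟨t, -, ht⟩ := List.mem_flatMap.1 hs
  by_cases h : Encodable.encode t.1 ≤ E.length
  · rw [if_pos h, List.mem_singleton] at ht
    rw [ht]; exact h
  · rw [if_neg h] at ht
    exact absurd ht List.not_mem_nil

/-! ### chains -/

theorem okA_sound {u : U} {L : List Mv} (h : OkA (n, E, B) u L) : vl n E B u = 1 := by
  induction L generalizing u with
  | nil =>
    have h1 : src dfl = u := h.1
    rw [← h1]
    rfl
  | cons e L ih =>
    have h1 : src e = u := h.1
    obtain ⟨h2, h3⟩ := h.2 0 (List.mem_range.2 (Nat.succ_pos _))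
    have h4 : OkA (n, E, B) (src (L.getD 0 dfl)) L := by
      refine ⟨rfl, fun i hi => ?_⟩
      exact h.2 (i + 1) (List.mem_range.2 (Nat.succ_lt_succ (List.mem_range.1 hi)))
    have h5 : tgt e = src (L.getD 0 dfl) := h3
    have h6 := ih h4
    rw [← h5] at h6
    have h7 : vl n E B e.2.2.1 = 1 := vl_rl h2
    rw [← h1]
    unfold src
    unfold tgt at h6
    split_ifs with hb
    · rw [if_pos hb, vl_append, vl_append, h7, one_mul] at h6
      rw [vl_append, h6]
    · rw [if_neg hb, vl_append] at h6
      rw [vl_append, vl_append, h7, one_mul, h6]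

/-- insertion of a relator -/
def St (c : Code) (u v : U) : Prop := ∃ r ∈ rl c, ∃ p q, u = p ++ q ∧ v = p ++ (r ++ q)

theorem eqv_chain {c : Code} {u : U} (h : EqvGen (St c) u []) : ∃ L, OkA c u L := by
  have h1 : ReflTransGen (fun a b => St c a b ∨ St c b a) u [] := by
    have key : ∀ {a b}, EqvGen (St c) a b → ReflTransGen (fun a b => St c a b ∨ St c b a) a b := by
      intro a b h
      induction h with
      | rel _ _ h => exact ReflTransGen.single (Or.inl h)
      | refl _ => exact ReflTransGen.refl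
      | symm _ _ _ ih =>
        clear * - ih
        induction ih with
        | refl => exact ReflTransGen.refl
        | tail _ h ih => exact ReflTransGen.head h.symm ih
      | trans _ _ _ _ _ ih1 ih2 => exact ih1.trans ih2
    exact key h
  clear h
  induction h1 using ReflTransGen.head_induction_on with
  | refl => exact ⟨[], rfl, fun i hi => absurd (List.mem_range.1 hi) (Nat.not_lt_zero _)⟩
  | head h _ ih =>
    obtain ⟨L, hL⟩ := ih
    rcases h with ⟨r, hr, p, q, rfl, rfl⟩ | ⟨r, hr, p, q, rfl, rfl⟩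
    · refine ⟨(true, p, r, q) :: L, rfl, fun i hi => ?_⟩
      rcases i with _ | i
      · exact ⟨hr, hL.1.symm⟩
      · exact hL.2 i (List.mem_range.2 (Nat.lt_of_succ_lt_succ (List.mem_range.1 hi)))
    · refine ⟨(false, p, r, q) :: L, rfl, fun i hi => ?_⟩
      rcases i with _ | i
      · exact ⟨hr, hL.1.symm⟩
      · exact hL.2 i (List.mem_range.2 (Nat.lt_of_succ_lt_succ (List.mem_range.1 hi)))

theorem St.ctx {c : Code} {u v : U} (h : St c u v) (a b : U) :
    St c (a ++ (u ++ b)) (a ++ (v ++ b)) := by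
  obtain ⟨r, hr, p, q, rfl, rfl⟩ := h
  exact ⟨r, hr, a ++ p, q ++ b, by simp, by simp⟩

theorem eqv_ctx {c : Code} {u v : U} (h : EqvGen (St c) u v) (a b : U) :
    EqvGen (St c) (a ++ (u ++ b)) (a ++ (v ++ b)) := by
  induction h with
  | rel _ _ h => exact EqvGen.rel _ _ (h.ctx a b)
  | refl _ => exact EqvGen.refl _
  | symm _ _ _ ih => exact EqvGen.symm _ _ ih
  | trans _ _ _ _ _ ih1 ih2 => exact EqvGen.trans _ _ _ ih1 ih2

/-- the congruence generated by the relators -/
def cong (c : Code) : Con (FreeMonoid (Option ℕ)) where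
  r := fun u v => EqvGen (St c) (FreeMonoid.toList u) (FreeMonoid.toList v)
  iseqv := ⟨fun _ => EqvGen.refl _, fun h => EqvGen.symm _ _ h, fun h h' => EqvGen.trans _ _ _ h h'⟩
  mul' := by
    intro a b x y h h'
    have h1 := eqv_ctx h [] (FreeMonoid.toList x)
    have h2 := eqv_ctx h' (FreeMonoid.toList b) []
    simp only [List.nil_append, List.append_nil] at h1 h2
    exact EqvGen.trans _ _ _ h1 h2

/-- the class of a word -/
def mk (c : Code) (u : U) : (cong c).Quotient := ((FreeMonoid.ofList u : FreeMonoid (Option ℕ)) : (cong c).Quotient)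

theorem mk_eq {c : Code} {u v : U} : mk c u = mk c v ↔ EqvGen (St c) u v := Con.eq _

theorem mk_append {c : Code} (u v : U) : mk c (u ++ v) = mk c u * mk c v := rfl

theorem mk_nil {c : Code} : mk c [] = 1 := rfl

theorem mk_rl {c : Code} {r : U} (hr : r ∈ rl c) : mk c r = 1 := by
  rw [← mk_nil, mk_eq]
  exact EqvGen.symm _ _ (EqvGen.rel _ _ ⟨r, hr, [], [], rfl, by simp⟩)

theorem mk_sq {s : Option ℕ} (h : Vd (n, E, B) s) : mk (n, E, B) [s] * mk (n, E, B) [s] = 1 := by
  rw [← mk_append]
  apply mk_rl
  rcases s with _ | i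
  · exact mem_rl.2 (Or.inl rfl)
  · exact mem_rl.2 (Or.inr (Or.inl (mem_rl2.2 ⟨i, vd_some.1 h, rfl⟩)))

/-- the unit given by a letter -/
def un (n : ℕ) (E : List (ℕ × ℕ)) (B : List ℕ) (s : Option ℕ) : (cong (n, E, B)).Quotientˣ :=
  if h : Vd (n, E, B) s then ⟨mk (n, E, B) [s], mk (n, E, B) [s], mk_sq h, mk_sq h⟩ else 1

theorem un_val {s : Option ℕ} (h : Vd (n, E, B) s) : (un n E B s).val = mk (n, E, B) [s] := by
  unfold un
  rw [dif_pos h]

theorem un_prod {u : U} (h : ∀ s ∈ u, Vd (n, E, B) s) :
    ((u.map (un n E B)).prod).val = mk (n, E, B) u := by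
  induction u with
  | nil => rfl
  | cons s u ih =>
    rw [List.map_cons, List.prod_cons, Units.val_mul, ih (fun t ht => h t (List.mem_cons_of_mem _ ht)),
      un_val (h s List.mem_cons_self), ← mk_append]
    rfl

theorem okA_complete {u : U} (hu : ∀ s ∈ u, Vd (n, E, B) s) (h : vl n E B u = 1) :
    ∃ L, OkA (n, E, B) u L := by
  obtain ⟨F, hF⟩ := exists_hom (n := n) (E := E) (B := B) (un n E B) (by
    intro r hr
    apply Units.ext
    rw [un_prod (rl_vd hr), mk_rl hr]
    rfl)
  apply eqv_chain
  rw [← mk_eq, mk_nil, ← un_prod hu]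
  have h1 : (u.map (un n E B)).prod = F (vl n E B u) := by
    unfold vl
    rw [map_list_prod, List.map_map]
    congr 1
    apply List.map_congr_left
    intro s hs
    exact (hF s (hu s hs)).symm
  rw [h1, h, map_one]
  rfl

/-! ### representations -/

section RepB

variable {u : U} {T : List (List ℕ)} {N x : ℕ}

theorem act_big (hT : ∀ t ∈ T, t.length ≤ N) (s : Option ℕ) {y : ℕ} (hy : N ≤ y) :
    act T s y = y := by
  unfold act
  have h1 : (T.getD (Encodable.encode s) []).length ≤ N := by
    rw [List.getD_eq_getElem?_getD]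
    rcases h : T[Encodable.encode s]? with _ | t
    · exact Nat.zero_le _
    · exact hT t (List.mem_of_getElem? h)
  rw [List.getElem?_eq_none (by omega)]
  rfl

theorem aw_big (hT : ∀ t ∈ T, t.length ≤ N) (r : U) {y : ℕ} (hy : N ≤ y) : aw T r y = y := by
  unfold aw
  induction r with
  | nil => rfl
  | cons s r ih => rw [List.foldr_cons, ih, act_big hT s hy]

theorem aw_append (r r' : U) (y : ℕ) : aw T (r ++ r') y = aw T r (aw T r' y) := by
  unfold aw
  rw [List.foldr_append]

theorem okB_sound (hu : ∀ s ∈ u, Vd (n, E, B) s) (h : OkB (n, E, B) u (T, N, x)) :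
    vl n E B u ≠ 1 := by
  obtain ⟨h1, h2, h3⟩ := h
  dsimp only at h1 h2 h3
  have hr : ∀ r ∈ rl (n, E, B), ∀ y, aw T r y = y := by
    intro r hr y
    by_cases hy : y < N
    · exact h2 r hr y (List.mem_range.2 hy)
    · exact aw_big h1 r (not_lt.1 hy)
  have hsq : ∀ s, Vd (n, E, B) s → ∀ y, act T s (act T s y) = y := by
    intro s hs y
    have h4 : [s, s] ∈ rl (n, E, B) := by
      rcases s with _ | i
      · exact mem_rl.2 (Or.inl rfl)
      · exact mem_rl.2 (Or.inr (Or.inl (mem_rl2.2 ⟨i, vd_some.1 hs, rfl⟩)))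
    exact hr _ h4 y
  let f : Option ℕ → Equiv.Perm ℕ := fun s =>
    if hs : Vd (n, E, B) s then ⟨act T s, act T s, hsq s hs, hsq s hs⟩ else 1
  have hf : ∀ s, Vd (n, E, B) s → ∀ y, f s y = act T s y := by
    intro s hs y
    show (if hs : Vd (n, E, B) s then (⟨act T s, act T s, hsq s hs, hsq s hs⟩ : Equiv.Perm ℕ)
      else 1) y = _
    rw [dif_pos hs]
    rfl
  have hfp : ∀ r : U, (∀ s ∈ r, Vd (n, E, B) s) → ∀ y, (r.map f).prod y = aw T r y := by
    intro r
    induction r with
    | nil => intro _ y; rfl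
    | cons s r ih =>
      intro hs y
      rw [List.map_cons, List.prod_cons, Equiv.Perm.mul_apply,
        ih (fun t ht => hs t (List.mem_cons_of_mem _ ht)), hf s (hs s List.mem_cons_self)]
      rfl
  obtain ⟨F, hF⟩ := exists_hom (n := n) (E := E) (B := B) f (by
    intro r hr'
    apply Equiv.ext
    intro y
    rw [hfp r (rl_vd hr'), hr r hr']
    rfl)
  intro h4
  have h5 : (u.map f).prod = F (vl n E B u) := by
    unfold vl
    rw [map_list_prod, List.map_map]
    congr 1
    apply List.map_congr_left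
    intro s hs
    exact (hF s (hu s hs)).symm
  have h6 := hfp u hu x
  rw [h5, h4, map_one, Equiv.Perm.one_apply] at h6
  exact h3 h6.symm

/-- the letter with a given number -/
def lt : ℕ → Option ℕ
  | 0 => none
  | i + 1 => some i

theorem lt_encode (s : Option ℕ) : lt (Encodable.encode s) = s := by
  rcases s with _ | i
  · rfl
  · rw [Encodable.encode_some, Encodable.encode_nat]
    rfl

theorem okB_complete (hu : ∀ s ∈ u, Vd (n, E, B) s)
    (h : ∃ (N : ℕ) (ρ : Grp n E B →* Equiv.Perm (Fin N)), ρ (vl n E B u) ≠ 1) :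
    ∃ X, OkB (n, E, B) u X := by
  obtain ⟨N, ρ, hρ⟩ := h
  obtain ⟨x, hx⟩ : ∃ x, ρ (vl n E B u) x ≠ x := by
    by_contra hno
    push Not at hno
    exact hρ (Equiv.ext hno)
  let T : List (List ℕ) := (List.range (E.length + 1)).map
    (fun j => (List.finRange N).map (fun y => (ρ (gen n E B (lt j)) y).val))
  have hT : ∀ t ∈ T, t.length ≤ N := by
    intro t ht
    obtain ⟨j, -, rfl⟩ := List.mem_map.1 ht
    simp
  have hact : ∀ s, Vd (n, E, B) s → ∀ y : Fin N, act T s y = (ρ (gen n E B s) y).val := by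
    intro s hs y
    have h1 : T.getD (Encodable.encode s) [] =
        (List.finRange N).map (fun y => (ρ (gen n E B s) y).val) := by
      have hlt : Encodable.encode s < E.length + 1 := Nat.lt_succ_of_le hs
      rw [List.getD_eq_getElem?_getD]
      show ((((List.range (E.length + 1)).map _)[Encodable.encode s]?).getD []) = _
      rw [List.getElem?_map, List.getElem?_range hlt]
      show (List.finRange N).map (fun y => (ρ (gen n E B (lt (Encodable.encode s))) y).val) = _
      rw [lt_encode]
    unfold act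
    rw [h1, List.getElem?_map, List.getElem?_eq_getElem (by simp)]
    simp
  have haw : ∀ r : U, (∀ s ∈ r, Vd (n, E, B) s) → ∀ y : Fin N,
      aw T r y = (ρ (vl n E B r) y).val := by
    intro r
    induction r with
    | nil => intro _ y; unfold vl; simp [aw]
    | cons s r ih =>
      intro hs y
      have h1 : aw T (s :: r) y = act T s (aw T r y) := rfl
      rw [h1, ih (fun t ht => hs t (List.mem_cons_of_mem _ ht)), hact s (hs s List.mem_cons_self)]
      unfold vl
      rw [List.map_cons, List.prod_cons, map_mul, Equiv.Perm.mul_apply]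
  refine ⟨(T, N, x.val), hT, ?_, ?_⟩
  · intro r hr y hy
    have := haw r (rl_vd hr) ⟨y, List.mem_range.1 hy⟩
    rw [vl_rl hr, map_one, Equiv.Perm.one_apply] at this
    exact this
  · intro h1
    have h2 := haw u hu x
    have h3 : aw T u x.val = x.val := h1
    rw [h3] at h2
    exact hx (Fin.ext h2.symm)

end RepB

/-! ### the algorithm -/

theorem alg_sound {w : Wd} {y : Bool} (h : y ∈ alg ((n, E, B), w)) :
    y = true ↔ wval n E B w = 1 := by
  obtain ⟨k, hk⟩ := Nat.rfindOpt_spec h
  unfold test at hk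
  rw [Option.mem_def, Option.bind_eq_some_iff] at hk
  obtain ⟨X, -, hX⟩ := hk
  dsimp only at hX
  rw [← vl_cln]
  split_ifs at hX with h1 h2
  · rw [← Option.some_inj.1 hX]
    exact ⟨fun _ => okA_sound h1, fun _ => rfl⟩
  · rw [← Option.some_inj.1 hX]
    exact ⟨fun h => absurd h (by decide), fun h => absurd h (okB_sound cln_vd h2)⟩

theorem alg_dom (hR : RFin (Grp n E B)) (w : Wd) : (alg ((n, E, B), w)).Dom := by
  unfold alg
  rw [Nat.rfindOpt_dom]
  by_cases h : wval n E B w = 1
  · rw [← vl_cln] at h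
    obtain ⟨L, hL⟩ := okA_complete cln_vd h
    refine ⟨Encodable.encode ((L, [], 0, 0) : Cert), true, ?_⟩
    unfold test
    rw [Encodable.encodek]
    show (if _ then _ else _) = _
    rw [if_pos hL]
  · have h' := h
    rw [← vl_cln] at h
    obtain ⟨X, hX⟩ := okB_complete cln_vd (hR _ h)
    refine ⟨Encodable.encode (([], X) : Cert), ?_⟩
    unfold test
    rw [Encodable.encodek]
    by_cases h1 : OkA (n, E, B) (cln (n, E, B) w) []
    · exact absurd (okA_sound h1) h
    · refine ⟨false, ?_⟩
      show (if _ then _ else _) = _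
      rw [if_neg h1, if_pos hX]

end Srch

end GIG
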