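import Pool.Agent.Lib.MP_262b4d_al.Defs

/-!
# Planar graphs

A finite graph is planar if it has a rotation system (a cyclic order of the edges at each vertex)
which satisfies Euler's formula `V - E + F = 2 C`.
-/

namespace GIG

/-- The darts (oriented edges): `(i, false)` is the edge number `i` starting at its first end,
`(i, true)` is the edge number `i` starting at its second end. -/
abbrev Dart (E : List (ℕ × ℕ)) : Type := Fin E.length × Bool

/-- the vertex at which a dart starts -/
def start (E : List (ℕ × ℕ)) (d : Dart E) : ℕ := if d.2 then (E.get d.1).2 else (E.get d.1).1

/-- the permutation of the darts which turns every dart round -/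
def turn (E : List (ℕ × ℕ)) : Equiv.Perm (Dart E) where
  toFun d := (d.1, !d.2)
  invFun d := (d.1, !d.2)
  left_inv d := by simp
  right_inv d := by simp

/-- the number of orbits of a group of permutations -/
noncomputable def numOrbits {α : Type} (K : Subgroup (Equiv.Perm α)) : ℕ :=
  Nat.card (MulAction.orbitRel.Quotient K α)

/-- The graph with vertices `0, …, n - 1` and list of edges `E` has no loops and is planar: there is
a permutation `σ` of the darts whose cycles are the sets of all darts starting at a vertex (a
rotation system), and Euler's formula holds: the number of vertices (cycles of `σ`) plus the number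
of faces (cycles of `σ * turn`) is the number of edges plus twice the number of components (orbits of
the group generated by `σ` and `turn`). Isolated vertices do not count. -/
structure Planar (n : ℕ) (E : List (ℕ × ℕ)) : Prop where
  ends : ∀ e ∈ E, e.1 < n ∧ e.2 < n ∧ e.1 ≠ e.2
  rotation : ∃ σ : Equiv.Perm (Dart E),
    (∀ d d', start E d = start E d' ↔ σ.SameCycle d d') ∧
    numOrbits (Subgroup.zpowers σ) + numOrbits (Subgroup.zpowers (σ * turn E)) =
      E.length + 2 * numOrbits (Subgroup.closure {σ, turn E})

end GIG
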