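import Mathlib

/-!
# Right-angled Coxeter groups are residually finite

Elementary proof: a reduced word acts non-trivially on the set of all sets of its positions.
-/

namespace GIG

/-- Residual finiteness, in terms of finite permutation representations. -/
def RFin (G : Type*) [Group G] : Prop :=
  ∀ g : G, g ≠ 1 → ∃ (N : ℕ) (ρ : G →* Equiv.Perm (Fin N)), ρ g ≠ 1

theorem exists_fin_rep {G X : Type*} [Group G] [Finite X] (ρ : G →* Equiv.Perm X) {g : G}
    (h : ρ g ≠ 1) : ∃ (N : ℕ) (ρ' : G →* Equiv.Perm (Fin N)), ρ' g ≠ 1 := by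
  obtain ⟨N, ⟨e⟩⟩ := Finite.exists_equiv_fin X
  refine ⟨N, (e.permCongrHom : Equiv.Perm X →* Equiv.Perm (Fin N)).comp ρ, ?_⟩
  rw [MonoidHom.comp_apply]
  intro h1
  apply h
  have h2 : e.permCongrHom (ρ g) = e.permCongrHom 1 := by
    rw [map_one]; exact h1
  exact e.permCongrHom.injective h2

theorem exists_fin_rep' {G H : Type*} [Group G] [Group H] [Finite H] (f : G →* H) {g : G}
    (h : f g ≠ 1) : ∃ (N : ℕ) (ρ' : G →* Equiv.Perm (Fin N)), ρ' g ≠ 1 := by
  apply exists_fin_rep ((MulAction.toPermHom H H).comp f)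
  intro h1
  apply h
  have h2 : (MulAction.toPermHom H H (f g)) 1 = 1 := by
    rw [MonoidHom.comp_apply] at h1
    rw [h1]; rfl
  simpa using h2

namespace Racg

variable {S : Type*} (cm : S → S → Prop)

open FreeGroup in
/-- relations of the right-angled Coxeter group -/
def rels : Set (FreeGroup S) :=
  {r | ∃ s, r = of s * of s} ∪
    {r | ∃ s t, cm s t ∧ r = of s * of t * (of s)⁻¹ * (of t)⁻¹}

/-- the right-angled Coxeter group with generators `S`; `s`, `t` commute if `cm s t` -/
abbrev W : Type _ := PresentedGroup (rels cm)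

/-- a generator -/
def y (s : S) : W cm := PresentedGroup.of s

theorem y_sq (s : S) : y cm s * y cm s = 1 := by
  have h : FreeGroup.of s * FreeGroup.of s ∈ rels cm := Or.inl ⟨s, rfl⟩
  have := PresentedGroup.one_of_mem h
  simpa [y, PresentedGroup.of] using this

theorem y_inv (s : S) : (y cm s)⁻¹ = y cm s := inv_eq_of_mul_eq_one_left (y_sq cm s)

theorem y_comm {s t : S} (h : cm s t) : Commute (y cm s) (y cm t) := by
  have h1 : FreeGroup.of s * FreeGroup.of t * (FreeGroup.of s)⁻¹ * (FreeGroup.of t)⁻¹ ∈ rels cm :=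
    Or.inr ⟨s, t, h, rfl⟩
  have h2 := PresentedGroup.one_of_mem h1
  have h3 : y cm s * y cm t * (y cm s)⁻¹ * (y cm t)⁻¹ = 1 := by
    simpa [y, PresentedGroup.of] using h2
  exact mul_inv_eq_iff_eq_mul.1 (mul_inv_eq_one.1 h3)

/-- homomorphisms from the right-angled Coxeter group -/
theorem exists_lift {H : Type*} [Group H] (f : S → H) (h1 : ∀ s, f s * f s = 1)
    (h2 : ∀ s t, cm s t → Commute (f s) (f t)) :
    ∃ F : W cm →* H, ∀ s, F (y cm s) = f s := by
  have h : ∀ r ∈ rels cm, FreeGroup.lift f r = 1 := by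
    rintro r (⟨s, rfl⟩ | ⟨s, t, hst, rfl⟩)
    · rw [map_mul, FreeGroup.lift_apply_of, h1]
    · rw [map_mul, map_mul, map_mul, map_inv, map_inv, FreeGroup.lift_apply_of,
        FreeGroup.lift_apply_of, (h2 s t hst).eq, mul_inv_cancel_right, mul_inv_cancel]
  exact ⟨PresentedGroup.toGroup h, fun s => PresentedGroup.toGroup.of h⟩

/-! ### the action on the sets of positions -/

section Act

variable {l : ℕ} (u : Fin l → S)

/-- dependent letters -/
def dep (s t : S) : Prop := s = t ∨ ¬ cm s t

/-- the position `q` can be toggled in `I` -/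
def Tg (q : Fin l) (I : Set (Fin l)) : Prop :=
  (∀ k, k < q → dep cm (u k) (u q) → k ∈ I) ∧ (∀ k, q < k → dep cm (u k) (u q) → k ∉ I)

/-- exclusive or -/
def Xo (a b : Prop) : Prop := (a ∧ ¬ b) ∨ (b ∧ ¬ a)

/-- the action of a letter -/
def tog (s : S) (I : Set (Fin l)) : Set (Fin l) :=
  {q | Xo (q ∈ I) (u q = s ∧ Tg cm u q I)}

/-- reduced -/
def Red : Prop := ∀ i j : Fin l, i < j → u i = u j → ∃ k, i < k ∧ k < j ∧ ¬ cm (u k) (u i)

variable {cm u}

theorem tg_unique (hr : Red cm u) {q p : Fin l} {I : Set (Fin l)} (hq : Tg cm u q I)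
    (hp : Tg cm u p I) (h : u q = u p) : q = p := by
  have aux : ∀ q p : Fin l, Tg cm u q I → Tg cm u p I → u q = u p → ¬ q < p := by
    intro q p hq hp h hlt
    obtain ⟨k, hk1, hk2, hk3⟩ := hr q p hlt h
    have h1 := hq.2 k hk1 (Or.inr hk3)
    have h2 := hp.1 k hk2 (Or.inr (h ▸ hk3))
    exact h1 h2
  rcases lt_trichotomy q p with h1 | h1 | h1
  · exact absurd h1 (aux q p hq hp h)
  · exact h1
  · exact absurd h1 (aux p q hp hq h.symm)

theorem tg_congr {q : Fin l} {I I' : Set (Fin l)} (hq : Tg cm u q I)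
    (h : ∀ k, k ≠ q → dep cm (u k) (u q) → (k ∈ I ↔ k ∈ I')) : Tg cm u q I' := by
  refine ⟨fun k hk hd => (h k hk.ne hd).1 (hq.1 k hk hd), fun k hk hd hk' => ?_⟩
  exact hq.2 k hk hd ((h k hk.ne' hd).2 hk')

theorem mem_tog {s : S} {I : Set (Fin l)} {q : Fin l} :
    q ∈ tog cm u s I ↔ Xo (q ∈ I) (u q = s ∧ Tg cm u q I) := Iff.rfl

theorem mem_tog_of_not {s : S} {I : Set (Fin l)} {q : Fin l} (h : ¬ (u q = s ∧ Tg cm u q I)) :
    q ∈ tog cm u s I ↔ q ∈ I := by
  rw [mem_tog]
  unfold Xo
  tauto

theorem tg_tog (hr : Red cm u) {s : S} {I : Set (Fin l)} {q : Fin l} (hs : u q = s)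
    (h : Tg cm u q I) : Tg cm u q (tog cm u s I) := by
  apply tg_congr h
  intro k hk _
  rw [mem_tog_of_not]
  rintro ⟨h1, h2⟩
  exact hk (tg_unique hr h2 h (h1.trans hs.symm))

theorem tg_tog_iff (hr : Red cm u) {s : S} {I : Set (Fin l)} {q : Fin l} (hs : u q = s) :
    Tg cm u q (tog cm u s I) ↔ Tg cm u q I := by
  constructor
  · intro h
    by_cases hex : ∃ p, u p = s ∧ Tg cm u p I
    · obtain ⟨p, hp1, hp2⟩ := hex
      have h3 := tg_unique hr h (tg_tog hr hp1 hp2) (hs.trans hp1.symm)
      rw [h3]; exact hp2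
    · apply tg_congr h
      intro k _ _
      exact mem_tog_of_not (fun h' => hex ⟨k, h'⟩)
  · exact tg_tog hr hs

theorem tog_tog (hr : Red cm u) (s : S) (I : Set (Fin l)) : tog cm u s (tog cm u s I) = I := by
  ext q
  rw [mem_tog, mem_tog]
  by_cases hs : u q = s
  · rw [tg_tog_iff hr hs]
    unfold Xo
    tauto
  · unfold Xo
    tauto

theorem tg_tog_comm (hsym : ∀ s t, cm s t → cm t s) {s t : S} (hc : cm s t) (hne : s ≠ t)
    {I : Set (Fin l)} {q : Fin l} (hs : u q = s) : Tg cm u q (tog cm u t I) ↔ Tg cm u q I := by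
  have key : ∀ k, dep cm (u k) (u q) → (k ∈ tog cm u t I ↔ k ∈ I) := by
    intro k hk
    apply mem_tog_of_not
    rintro ⟨h1, -⟩
    rw [h1, hs] at hk
    rcases hk with hk | hk
    · exact hne hk.symm
    · exact hk (hsym s t hc)
  constructor
  · intro h
    exact tg_congr h (fun k _ hk => key k hk)
  · intro h
    exact tg_congr h (fun k _ hk => (key k hk).symm)

theorem tog_comm (hsym : ∀ s t, cm s t → cm t s) {s t : S} (hc : cm s t)
    (I : Set (Fin l)) : tog cm u s (tog cm u t I) = tog cm u t (tog cm u s I) := by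
  by_cases hne : s = t
  · rw [hne]
  ext q
  rw [mem_tog, mem_tog, mem_tog, mem_tog]
  by_cases hs : u q = s
  · have hq : u q ≠ t := fun h => hne (hs.symm.trans h)
    rw [tg_tog_comm hsym hc hne hs]
    unfold Xo
    tauto
  · by_cases ht : u q = t
    · rw [tg_tog_comm hsym (hsym s t hc) (Ne.symm hne) ht]
      unfold Xo
      tauto
    · unfold Xo
      tauto

/-- the permutation of a letter -/
def togP (hr : Red cm u) (s : S) : Equiv.Perm (Set (Fin l)) where
  toFun := tog cm u s
  invFun := tog cm u s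
  left_inv := tog_tog hr s
  right_inv := tog_tog hr s

/-- initial sets of positions -/
def pre (l k : ℕ) : Set (Fin l) := {q | (q : ℕ) < k}

theorem tog_pre (hr : Red cm u) (k : Fin l) : tog cm u (u k) (pre l k) = pre l (k + 1) := by
  have hk : Tg cm u k (pre l k) := by
    constructor
    · intro j hj _
      exact hj
    · intro j hj _ h
      exact absurd h (not_lt.2 (le_of_lt hj))
  ext q
  rw [mem_tog]
  have h1 : (u q = u k ∧ Tg cm u q (pre l k)) ↔ q = k := by
    constructor
    · rintro ⟨h1, h2⟩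
      exact tg_unique hr h2 hk h1
    · rintro rfl
      exact ⟨rfl, hk⟩
  rw [h1]
  have h2 : q ∈ pre l k ↔ (q : ℕ) < k := Iff.rfl
  have h3 : q ∈ pre l (k + 1) ↔ (q : ℕ) < k + 1 := Iff.rfl
  rw [h2, h3, Fin.ext_iff]
  unfold Xo
  omega

theorem red_ne_one (hr : Red cm u) (hsym : ∀ s t, cm s t → cm t s) (hl : 0 < l) :
    ∃ (N : ℕ) (ρ : W cm →* Equiv.Perm (Fin N)), ρ (((List.ofFn u).map (y cm)).prod) ≠ 1 := by
  obtain ⟨F, hF⟩ := exists_lift cm (togP hr)
    (fun s => by ext1 I; exact tog_tog hr s I)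
    (fun s t hst => by
      apply Equiv.ext
      intro I
      exact tog_comm hsym hst I)
  apply exists_fin_rep F
  have key : ∀ k, k ≤ l → (F ((((List.ofFn u).take k).map (y cm)).prod))⁻¹ (pre l 0) = pre l k := by
    intro k
    induction k with
    | zero => intro _; simp
    | succ k ih =>
      intro hk
      have hk' : k < l := by omega
      have h1 : (List.ofFn u).take (k + 1) = (List.ofFn u).take k ++ [u ⟨k, hk'⟩] := by
        rw [List.take_add_one]
        congr 1
        rw [List.getElem?_eq_getElem (by simpa using hk')]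
        simp
      rw [h1, List.map_append, List.prod_append, map_mul, mul_inv_rev, Equiv.Perm.mul_apply,
        ih (by omega)]
      simp only [List.map_cons, List.map_nil, List.prod_cons, List.prod_nil, mul_one]
      rw [hF]
      exact tog_pre hr ⟨k, hk'⟩
  have h2 := key l le_rfl
  rw [List.take_of_length_le (by simp)] at h2
  intro h3
  rw [h3, inv_one, Equiv.Perm.one_apply] at h2
  have h4 : (⟨0, hl⟩ : Fin l) ∈ pre l l := hl
  rw [← h2] at h4
  exact absurd (show (0 : ℕ) < 0 from h4) (lt_irrefl _)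

end Act

/-- decomposition of a list at two positions -/
theorem list_split {α : Type*} (L : List α) {i j : ℕ} (hij : i < j) (hj : j < L.length) :
    ∃ p m q, L = p ++ L[i] :: (m ++ L[j] :: q) ∧
      ∀ t ∈ m, ∃ k, ∃ hk : k < L.length, i < k ∧ k < j ∧ L[k] = t := by
  refine ⟨L.take i, (L.drop (i + 1)).take (j - i - 1), (L.drop (i + 1)).drop (j - i - 1 + 1), ?_, ?_⟩
  · have hj' : j - i - 1 < (L.drop (i + 1)).length := by rw [List.length_drop]; omega
    have h1 : L[j] = (L.drop (i + 1))[j - i - 1] := by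
      rw [List.getElem_drop]
      congr 1
      omega
    rw [h1, ← List.drop_eq_getElem_cons hj', List.take_append_drop,
      ← List.drop_eq_getElem_cons (by omega), List.take_append_drop]
  · intro t ht
    obtain ⟨a, ha, rfl⟩ := List.mem_iff_getElem.1 ht
    rw [List.length_take, List.length_drop] at ha
    refine ⟨i + 1 + a, by omega, by omega, by omega, ?_⟩
    rw [List.getElem_take, List.getElem_drop]

theorem exists_red (g : W cm) : ∃ L : List S, (L.map (y cm)).prod = g ∧
    Red cm (fun i : Fin L.length => L[i]) := by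
  classical
  have hex : ∃ k, ∃ L : List S, L.length = k ∧ (L.map (y cm)).prod = g := by
    have : ∃ L : List S, (L.map (y cm)).prod = g := by
      have hg : g ∈ Subgroup.closure (Set.range (PresentedGroup.of (rels := rels cm))) := by
        rw [PresentedGroup.closure_range_of]; trivial
      induction hg using Subgroup.closure_induction with
      | mem x hx =>
        obtain ⟨s, rfl⟩ := hx
        exact ⟨[s], by simp [y]⟩
      | one => exact ⟨[], rfl⟩
      | mul a b _ _ ha hb =>
        obtain ⟨L, rfl⟩ := ha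
        obtain ⟨L', rfl⟩ := hb
        exact ⟨L ++ L', by rw [List.map_append, List.prod_append]⟩
      | inv a _ ha =>
        obtain ⟨L, rfl⟩ := ha
        refine ⟨L.reverse, ?_⟩
        rw [List.prod_inv_reverse, List.map_map, List.map_reverse]
        congr 2
        apply List.map_congr_left
        intro s _
        exact (y_inv cm s).symm
    obtain ⟨L, hL⟩ := this
    exact ⟨L.length, L, rfl, hL⟩
  obtain ⟨L, hL1, hL2⟩ := Nat.find_spec hex
  refine ⟨L, hL2, ?_⟩
  intro i j hij hs
  by_contra hno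
  push Not at hno
  obtain ⟨p, m, q, h1, h2⟩ := list_split L (i := i) (j := j) hij j.2
  have hs' : L[(i : ℕ)] = L[(j : ℕ)] := hs
  have hcomm : Commute (y cm L[(i : ℕ)]) ((m.map (y cm)).prod) := by
    apply Commute.list_prod_right
    intro x hx
    obtain ⟨t, ht, rfl⟩ := List.mem_map.1 hx
    obtain ⟨k, hk, hk1, hk2, rfl⟩ := h2 t ht
    exact (y_comm cm (hno ⟨k, hk⟩ hk1 hk2)).symm
  have h3 : ((p ++ (m ++ q)).map (y cm)).prod = g := by
    rw [← hL2]
    conv_rhs => rw [h1]
    rw [← hs']
    simp only [List.map_append, List.map_cons, List.prod_append, List.prod_cons]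
    rw [← mul_assoc (y cm _) ((m.map (y cm)).prod), hcomm.eq, mul_assoc ((m.map (y cm)).prod),
      ← mul_assoc (y cm _) (y cm _), y_sq, one_mul]
  have h4 : (p ++ (m ++ q)).length < L.length := by
    conv_rhs => rw [h1]
    simp only [List.length_append, List.length_cons]
    omega
  exact Nat.find_min hex (hL1 ▸ h4) ⟨_, rfl, h3⟩

/-- **Right-angled Coxeter groups are residually finite.** -/
theorem rfin (hsym : ∀ s t, cm s t → cm t s) : RFin (W cm) := by
  intro g hg
  obtain ⟨L, hL1, hL2⟩ := exists_red cm g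
  have hl : 0 < L.length := by
    rcases L with _ | ⟨s, L⟩
    · exact absurd hL1.symm hg
    · simp
  obtain ⟨N, ρ, hρ⟩ := red_ne_one hL2 hsym hl
  refine ⟨N, ρ, ?_⟩
  have : List.ofFn (fun i : Fin L.length => L[i]) = L := List.ofFn_getElem
  rw [this, hL1] at hρ
  exact hρ

end Racg

end GIG
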