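import Pool.Agent.Lib.MP_262b4d_al.PRot
import Pool.Agent.Lib.MP_262b4d_al.PRacg
import Pool.Agent.Lib.MP_262b4d_al.Grp

/-!
# The potential of a planar graph, and the embedding into a right-angled Coxeter group
-/

namespace GIG

open Function Forest

variable {n : ℕ} {E : List (ℕ × ℕ)} {B : List ℕ}

theorem grp_induction {p : Grp n E B → Prop} (h1 : p 1) (hJ : p (gJ n E B))
    (hx : ∀ i, p (gx n E B i)) (hm : ∀ a b, p a → p b → p (a * b)) (hi : ∀ a, p a → p a⁻¹)
    (g : Grp n E B) : p g := by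
  have hg : g ∈ Subgroup.closure (Set.range (PresentedGroup.of (rels := Rels n E B))) := by
    rw [PresentedGroup.closure_range_of]; trivial
  induction hg using Subgroup.closure_induction with
  | mem x hx' =>
    obtain ⟨s, rfl⟩ := hx'
    rcases s with _ | i
    · exact hJ
    · exact hx i
  | one => exact h1
  | mul a b _ _ ha hb => exact hm a b ha hb
  | inv a _ ha => exact hi a ha

theorem gJ_central (g : Grp n E B) : Commute g (gJ n E B) :=
  grp_induction (p := fun g => Commute g (gJ n E B)) (Commute.one_left _) (Commute.refl _)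
    gx_comm_J (fun _ _ ha hb => ha.mul_left hb) (fun _ ha => ha.inv_left) g

theorem gJ_pow_central (g : Grp n E B) (k : ℕ) : Commute g (gJ n E B ^ k) :=
  (gJ_central g).pow_right k

theorem gJ_pow_even {k : ℕ} (h : (k : ZMod 2) = 0) : gJ n E B ^ k = 1 := by
  rw [ZMod.natCast_eq_zero_iff] at h
  obtain ⟨j, rfl⟩ := h
  rw [pow_mul, pow_two, gJ_sq, one_pow]

theorem prod_pow_list {ι G : Type*} [Group G] (a : G) (f : ι → ℕ) (l : List ι) :
    (l.map (fun i => a ^ f i)).prod = a ^ (l.map f).sum := by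
  induction l with
  | nil => simp
  | cons i l ih => rw [List.map_cons, List.prod_cons, ih, List.map_cons, List.sum_cons, pow_add]

/-- the corrected generator -/
def xx (n : ℕ) (E : List (ℕ × ℕ)) (B : List ℕ) (c : Fin E.length → ℕ) (i : Fin E.length) :
    Grp n E B := gJ n E B ^ c i * gx n E B i

variable {c : Fin E.length → ℕ}

theorem gJ_pow_sq (k : ℕ) : gJ n E B ^ k * gJ n E B ^ k = 1 := by
  rw [← pow_add, ← two_mul, pow_mul, pow_two, gJ_sq, one_pow]

theorem xx_sq (i : Fin E.length) : xx n E B c i * xx n E B c i = 1 := by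
  unfold xx
  rw [mul_assoc, ← mul_assoc (gx n E B i), (gJ_pow_central _ _).eq, mul_assoc, gx_sq, mul_one,
    gJ_pow_sq]

theorem xx_inv (i : Fin E.length) : (xx n E B c i)⁻¹ = xx n E B c i :=
  inv_eq_of_mul_eq_one_left (xx_sq i)

theorem xx_comm {v : ℕ} {i k : Fin E.length} (hi : Inc v (E.get i)) (hk : Inc v (E.get k)) :
    Commute (xx n E B c i) (gx n E B k) := by
  unfold xx
  exact Commute.mul_left (gJ_pow_central _ _).symm (gx_comm hi hk)

theorem xx_comm' {v : ℕ} {i k : Fin E.length} (hi : Inc v (E.get i)) (hk : Inc v (E.get k)) :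
    Commute (xx n E B c i) (xx n E B c k) := by
  conv_rhs => unfold xx
  exact Commute.mul_right (gJ_pow_central _ _) (xx_comm hi hk)

/-- the type of the faces -/
abbrev Face (σ : Equiv.Perm (Dart E)) : Type :=
  MulAction.orbitRel.Quotient (Subgroup.zpowers (σ * turn E)) (Dart E)

/-- the data which the plane gives -/
structure Pot (n : ℕ) (E : List (ℕ × ℕ)) (B : List ℕ) (σ : Equiv.Perm (Dart E))
    (c : Fin E.length → ℕ) (ζ : Face σ → Grp n E B) : Prop where
  rot : IsRot σ
  ends : ∀ e ∈ E, e.1 < n ∧ e.2 < n ∧ e.1 ≠ e.2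
  edge : ∀ d, ζ (tlF σ (turn E d)) = ζ (tlF σ d) * xx n E B c d.1
  base : ∀ d, ∃ d0, tlC σ d0 = tlC σ d ∧ ζ (tlF σ d0) = 1
  conn : ∀ (p : Dart E → Prop), (∀ d, p d → p (σ d)) → (∀ d, p d → p (turn E d)) →
    ∀ d d', tlC σ d = tlC σ d' → p d → p d'

theorem start_lt (hE : ∀ e ∈ E, e.1 < n ∧ e.2 < n ∧ e.1 ≠ e.2) (d : Dart E) : start E d < n := by
  obtain ⟨i, b⟩ := d
  have h := hE _ (List.get_mem E i)
  cases b
  · exact h.1
  · exact h.2.1

theorem Planar.exists_pot (hP : Planar n E) (B : List ℕ) :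
    ∃ (σ : Equiv.Perm (Dart E)) (c : Fin E.length → ℕ) (ζ : Face σ → Grp n E B),
      Pot n E B σ c ζ := by
  obtain ⟨hE, σ, hrot, heul⟩ := hP
  have hne : ∀ e ∈ E, e.1 ≠ e.2 := fun e he => (hE e he).2.2
  have hM := pmap heul
  obtain ⟨dep, par, hF⟩ := exists_forest (tlV σ) (turn E) Set.univ turn_turn
    (fun _ _ => trivial)
  obtain ⟨c0, hc0⟩ := exists_chain hrot hne hF (fun v => (col B v : ZMod 2))
  let c : Fin E.length → ℕ := fun i => (c0 i).val
  have hx : ∀ d : Dart E, xx n E B c (turn E d).1 = (xx n E B c d.1)⁻¹ := by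
    intro d
    rw [xx_inv, turn_fst]
  have hcyc : ∀ v d, par v = some d → cyc σ (fun d => xx n E B c d.1) d = 1 := by
    intro v d hd
    rw [cyc_eq_prod hrot hne _ d (fun i k hi hk => xx_comm' hi hk)]
    have h1 : (((List.finRange E.length).filter (fun i => Inc (start E d) (E.get i))).map
        (xx n E B c)).prod = gJ n E B ^ ((((List.finRange E.length).filter
          (fun i => Inc (start E d) (E.get i))).map c).sum) * gJ n E B ^ col B (start E d) := by
      rw [← gx_prod (start_lt hE d), ← prod_pow_list, ← prod_mul_comm]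
      · rfl
      · intro i k
        exact (gJ_pow_central _ _).symm
    rw [h1, ← pow_add]
    apply gJ_pow_even
    rw [Nat.cast_add, Nat.cast_list_sum, List.map_map]
    have h2 : ((fun k : ℕ => (k : ZMod 2)) ∘ c) = c0 := by
      funext i
      exact ZMod.natCast_zmod_val (c0 i)
    have h3 : (((List.finRange E.length).filter (fun i => Inc (start E d) (E.get i))).map
        ((fun k : ℕ => (k : ZMod 2)) ∘ c)).sum = bd c0 (start E d) := by
      rw [h2]; rfl
    refine (congrArg (· + (col B (start E d) : ZMod 2)) h3).trans ?_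
    rw [hc0 v d hd]
    have : ∀ a : ZMod 2, a + a = 0 := by decide
    exact this _
  obtain ⟨z, hz⟩ := potential hM hF (fun d => xx n E B c d.1) hx hcyc
  let r : Dart E → Dart E := fun d => (tlC σ d).out
  have hr : ∀ d, tlC σ (r d) = tlC σ d := fun d => Quotient.out_eq' (tlC σ d)
  have hr' : ∀ d d', tlC σ d = tlC σ d' → r d = r d' := fun d d' h => by
    show (tlC σ d).out = (tlC σ d').out
    rw [h]
  have hζ : ∀ d, (z (tlF σ (r (tlF σ d).out)))⁻¹ * z (tlF σ d) =
      (z (tlF σ (r d)))⁻¹ * z (tlF σ d) := by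
    intro d
    have h1 : tlF σ (tlF σ d).out = tlF σ d := Quotient.out_eq' (tlF σ d)
    rw [hr' _ _ (tlC_of_tlF h1)]
  refine ⟨σ, c, fun f => (z (tlF σ (r f.out)))⁻¹ * z f, hrot, hE, ?_, ?_, hM.conn⟩
  · intro d
    show (z (tlF σ (r (tlF σ (turn E d)).out)))⁻¹ * z (tlF σ (turn E d)) =
      (z (tlF σ (r (tlF σ d).out)))⁻¹ * z (tlF σ d) * xx n E B c d.1
    rw [hζ, hζ, hr' _ _ (tlC_turn d), hz d, mul_assoc]
  · intro d
    refine ⟨r d, hr d, ?_⟩
    show (z (tlF σ (r (tlF σ (r d)).out)))⁻¹ * z (tlF σ (r d)) = 1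
    rw [hζ, hr' _ _ (hr d), inv_mul_cancel]

namespace Pot

variable {σ : Equiv.Perm (Dart E)} {ζ : Face σ → Grp n E B} (hP : Pot n E B σ c ζ)
include hP

theorem ne : ∀ e ∈ E, e.1 ≠ e.2 := fun e he => (hP.ends e he).2.2

theorem edge' (d : Dart E) : ζ (tlF σ (σ d)) = ζ (tlF σ d) * xx n E B c d.1 := by
  rw [tlF_apply, hP.edge]

/-- the products around the vertices -/
theorem sum_col {v : ℕ} (hv : v < n) :
    gJ n E B ^ ((((List.finRange E.length).filter (fun i => Inc v (E.get i))).map c).sum) =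
      gJ n E B ^ col B v := by
  by_cases hd : ∃ d : Dart E, start E d = v
  · obtain ⟨d, rfl⟩ := hd
    have h1 : cyc σ (fun d => xx n E B c d.1) d = 1 :=
      cyc_telescope (z := fun d => ζ (tlF σ d)) (fun d => hP.edge' d) d
    rw [cyc_eq_prod hP.rot hP.ne _ d (fun i k hi hk => xx_comm' hi hk)] at h1
    have h2 : (((List.finRange E.length).filter (fun i => Inc (start E d) (E.get i))).map
        (xx n E B c)).prod = gJ n E B ^ ((((List.finRange E.length).filter
          (fun i => Inc (start E d) (E.get i))).map c).sum) * gJ n E B ^ col B (start E d) := by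
      rw [← gx_prod (start_lt hP.ends d), ← prod_pow_list, ← prod_mul_comm]
      · rfl
      · intro i k
        exact (gJ_pow_central _ _).symm
    rw [h2] at h1
    have h3 := gJ_pow_sq (n := n) (E := E) (B := B) (col B (start E d))
    exact mul_right_cancel (h1.trans h3.symm)
  · have h1 : (List.finRange E.length).filter (fun i => Inc v (E.get i)) = [] := by
      rw [List.filter_eq_nil_iff]
      intro i _
      rw [decide_eq_true_iff, inc_iff]
      rintro ⟨d, -, h⟩
      exact hd ⟨d, h⟩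
    have h2 := gx_prod (n := n) (E := E) (B := B) hv
    rw [h1] at h2 ⊢
    rw [← h2]
    simp

/-- the quotient of the potentials of two faces at a vertex -/
theorem quot {d d' : Dart E} (h : start E d = start E d') :
    ∃ q : Grp n E B, ζ (tlF σ d') = ζ (tlF σ d) * q ∧ q * q = 1 ∧
      ∀ k, Inc (start E d) (E.get k) → Commute q (gx n E B k) := by
  obtain ⟨k, hk, rfl⟩ := exists_iterate hP.rot h
  have h1 := telescope (z := fun d => ζ (tlF σ d)) (y := fun d => xx n E B c d.1)
    (fun d => hP.edge' d) d k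
  have hinc : ∀ i, Inc (start E d) (E.get (σ^[i] d).1) := fun i =>
    inc_iff.2 ⟨_, rfl, start_iterate hP.rot d i⟩
  refine ⟨_, h1, ?_, ?_⟩
  · rw [← prod_mul_comm]
    · apply List.prod_eq_one
      intro x hx
      obtain ⟨i, -, rfl⟩ := List.mem_map.1 hx
      exact xx_sq _
    · intro i j
      exact xx_comm' (hinc i) (hinc j)
  · intro j hj
    apply Commute.list_prod_left
    intro x hx
    obtain ⟨i, -, rfl⟩ := List.mem_map.1 hx
    exact xx_comm (hinc i) hj

/-- image of a generator under the automorphism `τ` -/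
theorem conj_eq {d d' : Dart E} {k : Fin E.length} (h : start E d = start E d')
    (hk : Inc (start E d) (E.get k)) :
    ζ (tlF σ d') * gx n E B k * (ζ (tlF σ d'))⁻¹ = ζ (tlF σ d) * gx n E B k * (ζ (tlF σ d))⁻¹ := by
  obtain ⟨q, h1, h2, h3⟩ := hP.quot h
  rw [h1, mul_inv_rev, mul_assoc (ζ (tlF σ d)) q, (h3 k hk).eq]
  simp only [mul_assoc, mul_inv_cancel_left]

theorem conj_turn (d : Dart E) :
    ζ (tlF σ (turn E d)) * gx n E B d.1 * (ζ (tlF σ (turn E d)))⁻¹ =
      ζ (tlF σ d) * gx n E B d.1 * (ζ (tlF σ d))⁻¹ := by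
  have h1 : Commute (xx n E B c d.1) (gx n E B d.1) := xx_comm (inc_start d) (inc_start d)
  rw [hP.edge, mul_inv_rev, mul_assoc (ζ (tlF σ d)), h1.eq]
  simp only [mul_assoc, mul_inv_cancel_left]

end Pot

/-- images of the generators under `τ` -/
noncomputable def tgen (σ : Equiv.Perm (Dart E)) (ζ : Face σ → Grp n E B) :
    Option (Fin E.length) → Grp n E B
  | none => gJ n E B
  | some i => ζ (tlF σ (i, false)) * gx n E B i * (ζ (tlF σ (i, false)))⁻¹

namespace Pot

variable {σ : Equiv.Perm (Dart E)} {ζ : Face σ → Grp n E B} (hP : Pot n E B σ c ζ)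
include hP

theorem tgen_dart (d : Dart E) :
    tgen σ ζ (some d.1) = ζ (tlF σ d) * gx n E B d.1 * (ζ (tlF σ d))⁻¹ := by
  obtain ⟨i, b⟩ := d
  cases b
  · rfl
  · exact (hP.conj_turn (i, false)).symm

theorem tgen_at (d : Dart E) {k : Fin E.length} (hk : Inc (start E d) (E.get k)) :
    tgen σ ζ (some k) = ζ (tlF σ d) * gx n E B k * (ζ (tlF σ d))⁻¹ := by
  obtain ⟨d', rfl, h⟩ := inc_iff.1 hk
  rw [hP.tgen_dart d', hP.conj_eq h.symm hk]

theorem tgen_rels : ∀ r ∈ Rels n E B, FreeGroup.lift (tgen σ ζ) r = 1 := by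
  intro r hr
  unfold Rels at hr
  rcases hr with (((hr | ⟨i, rfl⟩) | ⟨i, rfl⟩) | ⟨v, i, k, hi, hk, rfl⟩) | ⟨v, hv, rfl⟩
  · rw [Set.mem_ofPred_eq] at hr
    subst hr
    rw [map_mul, FreeGroup.lift_apply_of]
    exact gJ_sq
  · rw [map_mul, FreeGroup.lift_apply_of]
    show (ζ (tlF σ (i, false)) * gx n E B i * (ζ (tlF σ (i, false)))⁻¹) *
      (ζ (tlF σ (i, false)) * gx n E B i * (ζ (tlF σ (i, false)))⁻¹) = 1
    simp only [mul_assoc, inv_mul_cancel_left]
    rw [← mul_assoc (gx n E B i), gx_sq, one_mul, mul_inv_cancel]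
  · rw [map_mul, map_mul, map_mul, map_inv, map_inv, FreeGroup.lift_apply_of,
      FreeGroup.lift_apply_of]
    show tgen σ ζ (some i) * gJ n E B * (tgen σ ζ (some i))⁻¹ * (gJ n E B)⁻¹ = 1
    rw [(gJ_central (tgen σ ζ (some i))).eq, mul_inv_cancel_right, mul_inv_cancel]
  · rw [map_mul, map_mul, map_mul, map_inv, map_inv, FreeGroup.lift_apply_of,
      FreeGroup.lift_apply_of]
    obtain ⟨d, -, rfl⟩ := inc_iff.1 hi
    rw [hP.tgen_at d hi, hP.tgen_at d hk]
    have h1 := gx_comm (n := n) (B := B) hi hk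
    have h2 : Commute (ζ (tlF σ d) * gx n E B i * (ζ (tlF σ d))⁻¹)
        (ζ (tlF σ d) * gx n E B k * (ζ (tlF σ d))⁻¹) := by
      show _ * _ = _ * _
      simp only [mul_assoc, inv_mul_cancel_left]
      rw [← mul_assoc (gx n E B i), h1.eq, mul_assoc]
    rw [h2.eq, mul_inv_cancel_right, mul_inv_cancel]
  · rw [map_mul, map_inv, map_pow, map_list_prod, List.map_map, FreeGroup.lift_apply_of,
      mul_inv_eq_one]
    show _ = gJ n E B ^ col B v
    by_cases hd : ∃ d : Dart E, start E d = v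
    · obtain ⟨d, rfl⟩ := hd
      have h1 : ((List.finRange E.length).filter (fun i => Inc (start E d) (E.get i))).map
          ((FreeGroup.lift (tgen σ ζ)) ∘ fun i => FreeGroup.of (some i)) =
          (((List.finRange E.length).filter (fun i => Inc (start E d) (E.get i))).map
            (gx n E B)).map (fun g => ζ (tlF σ d) * g * (ζ (tlF σ d))⁻¹) := by
        rw [List.map_map]
        apply List.map_congr_left
        intro i hi
        rw [List.mem_filter] at hi
        rw [Function.comp_apply, Function.comp_apply, FreeGroup.lift_apply_of]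
        exact hP.tgen_at d (by simpa using hi.2)
      rw [h1]
      have h2 := map_list_prod (MulAut.conj (ζ (tlF σ d))).toMonoidHom
        (((List.finRange E.length).filter (fun i => Inc (start E d) (E.get i))).map (gx n E B))
      rw [gx_prod hv] at h2
      refine Eq.trans h2.symm ?_
      show ζ (tlF σ d) * gJ n E B ^ col B (start E d) * (ζ (tlF σ d))⁻¹ = _
      rw [(gJ_pow_central _ _).eq, mul_inv_cancel_right]
    · have h1 : (List.finRange E.length).filter (fun i => Inc v (E.get i)) = [] := by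
        rw [List.filter_eq_nil_iff]
        intro i _
        rw [decide_eq_true_iff, inc_iff]
        rintro ⟨d, -, h⟩
        exact hd ⟨d, h⟩
      have h2 := gx_prod (n := n) (E := E) (B := B) hv
      rw [h1] at h2 ⊢
      rw [← h2]
      simp

/-- the automorphism `τ` -/
theorem exists_tau : ∃ τ : Grp n E B →* Grp n E B, τ (gJ n E B) = gJ n E B ∧
    (∀ d : Dart E, τ (gx n E B d.1) = ζ (tlF σ d) * gx n E B d.1 * (ζ (tlF σ d))⁻¹) ∧
    (∀ f, τ (ζ f) = (ζ f)⁻¹) ∧ ∀ g, τ (τ g) = g := by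
  let τ : Grp n E B →* Grp n E B := PresentedGroup.toGroup hP.tgen_rels
  have h0 : τ (gJ n E B) = gJ n E B := PresentedGroup.toGroup.of hP.tgen_rels
  have h1 : ∀ d : Dart E, τ (gx n E B d.1) =
      ζ (tlF σ d) * gx n E B d.1 * (ζ (tlF σ d))⁻¹ := fun d =>
    (PresentedGroup.toGroup.of hP.tgen_rels).trans (hP.tgen_dart d)
  have h2 : ∀ d, τ (ζ (tlF σ d)) = (ζ (tlF σ d))⁻¹ := by
    intro d
    obtain ⟨d0, hd0, h⟩ := hP.base d
    have hstep : ∀ d, τ (ζ (tlF σ d)) = (ζ (tlF σ d))⁻¹ →
        τ (ζ (tlF σ (turn E d))) = (ζ (tlF σ (turn E d)))⁻¹ := by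
      intro d hd
      rw [hP.edge, map_mul, hd]
      unfold xx
      rw [map_mul, map_pow, h0, h1]
      have h3 : (gJ n E B ^ c d.1 * gx n E B d.1)⁻¹ = gJ n E B ^ c d.1 * gx n E B d.1 :=
        xx_inv (c := c) d.1
      rw [mul_inv_rev (ζ (tlF σ d)), h3, ← mul_assoc, (gJ_pow_central (ζ (tlF σ d))⁻¹ _).eq]
      simp only [mul_assoc, inv_mul_cancel_left]
    refine hP.conn (fun d => τ (ζ (tlF σ d)) = (ζ (tlF σ d))⁻¹) ?_ hstep d0 d hd0 ?_
    · intro d hd
      show τ (ζ (tlF σ (σ d))) = (ζ (tlF σ (σ d)))⁻¹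
      rw [tlF_apply]
      exact hstep d hd
    · show τ (ζ (tlF σ d0)) = (ζ (tlF σ d0))⁻¹
      rw [h, map_one, inv_one]
  refine ⟨τ, h0, h1, ?_, ?_⟩
  · intro f
    obtain ⟨d, rfl⟩ := orb_surj _ f
    exact h2 d
  · intro g
    refine grp_induction (p := fun g => τ (τ g) = g) (by rw [map_one, map_one]) (by rw [h0, h0])
      ?_ (fun a b ha hb => by rw [map_mul, map_mul, ha, hb])
      (fun a ha => by rw [map_inv, map_inv, ha]) g
    intro i
    have h4 := h1 (i, false)
    have h5 := h2 (i, false)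
    rw [h4, map_mul, map_mul, map_inv, h5, h4]
    simp only [mul_assoc, inv_mul_cancel_left, inv_inv, inv_mul_cancel, mul_one]

end Pot

end GIG
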