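import Mathlib

/-!
# Spanning forests of finite maps, and potentials on planar maps

`D` is the set of darts of a map: `rv` turns a dart round, `σ` is the rotation at its tail.
-/

namespace GIG

open Relation Function

namespace Forest

variable {D V : Type*}

/-- joined by a dart of `S` -/
def Jn (tl : D → V) (rv : D → D) (S : Set D) (v w : V) : Prop :=
  ∃ d ∈ S, tl d = v ∧ tl (rv d) = w

/-- a spanning forest given by parent darts -/
structure IsForest (tl : D → V) (rv : D → D) (S : Set D) (dep : V → ℕ) (par : V → Option D) :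
    Prop where
  par_some : ∀ v d, par v = some d → d ∈ S ∧ tl d = v ∧ dep (tl (rv d)) < dep v
  root_unique : ∀ r r', par r = none → par r' = none → EqvGen (Jn tl rv S) r r' → r = r'

/-- joined by a chain of length `k` -/
def rch (tl : D → V) (rv : D → D) (S : Set D) : ℕ → V → V → Prop
  | 0, v, w => v = w
  | k + 1, v, w => ∃ u, Jn tl rv S v u ∧ rch tl rv S k u w

theorem exists_rch {tl : D → V} {rv : D → D} {S : Set D} (hrv : ∀ d, rv (rv d) = d)
    (hS : ∀ d ∈ S, rv d ∈ S) {v w : V} (h : EqvGen (Jn tl rv S) v w) :
    ∃ k, rch tl rv S k v w := by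
  have hsym : ∀ {v w}, Jn tl rv S v w → Jn tl rv S w v := by
    rintro v w ⟨d, hd, rfl, rfl⟩
    exact ⟨rv d, hS d hd, rfl, by rw [hrv]⟩
  have h1 : ReflTransGen (Jn tl rv S) v w := by
    induction h with
    | rel _ _ h => exact ReflTransGen.single h
    | refl _ => exact ReflTransGen.refl
    | symm _ _ _ ih =>
      clear * - ih hsym
      induction ih with
      | refl => exact ReflTransGen.refl
      | tail _ h ih => exact ReflTransGen.head (hsym h) ih
    | trans _ _ _ _ _ ih1 ih2 => exact ih1.trans ih2
  clear h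
  induction h1 using ReflTransGen.head_induction_on with
  | refl => exact ⟨0, rfl⟩
  | head h _ ih =>
    obtain ⟨k, hk⟩ := ih
    exact ⟨k + 1, _, h, hk⟩

theorem exists_forest (tl : D → V) (rv : D → D) (S : Set D) (hrv : ∀ d, rv (rv d) = d)
    (hS : ∀ d ∈ S, rv d ∈ S) : ∃ dep par, IsForest tl rv S dep par := by
  classical
  let s : Setoid V := EqvGen.setoid (Jn tl rv S)
  let root : V → V := fun v => (Quotient.mk s v).out
  have hroot : ∀ v, EqvGen (Jn tl rv S) v (root v) := fun v =>
    (Quotient.exact (Quotient.out_eq (Quotient.mk s v))).symm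
  have hcongr : ∀ v w, EqvGen (Jn tl rv S) v w → root v = root w := fun v w h => by
    show (Quotient.mk s v).out = (Quotient.mk s w).out
    rw [Quotient.sound (s := s) h]
  have hex : ∀ v, ∃ k, rch tl rv S k v (root v) := fun v => exists_rch hrv hS (hroot v)
  let dep : V → ℕ := fun v => Nat.find (hex v)
  have hstep : ∀ v, dep v ≠ 0 → ∃ d ∈ S, tl d = v ∧ dep (tl (rv d)) < dep v := by
    intro v hv
    obtain ⟨k, hk⟩ : ∃ k, dep v = k + 1 := ⟨dep v - 1, by omega⟩
    have h1 : rch tl rv S (dep v) v (root v) := Nat.find_spec (hex v)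
    rw [hk] at h1
    obtain ⟨u, ⟨d, hd, rfl, rfl⟩, h2⟩ := h1
    refine ⟨d, hd, rfl, ?_⟩
    rw [hk]
    have h3 : root (tl d) = root (tl (rv d)) := hcongr _ _ (EqvGen.rel _ _ ⟨d, hd, rfl, rfl⟩)
    rw [h3] at h2
    exact Nat.lt_succ_of_le (Nat.find_min' (hex (tl (rv d))) h2)
  refine ⟨dep, fun v => if h : dep v ≠ 0 then some (hstep v h).choose else none, ?_, ?_⟩
  · intro v d h
    split_ifs at h with h1
    rw [← Option.some_inj.1 h]
    exact (hstep v h1).choose_spec
  · intro r r' h h' hrr
    have aux : ∀ r, (if h : dep r ≠ 0 then some (hstep r h).choose else none) = none →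
        r = root r := by
      intro r h
      split_ifs at h with h1
      rw [not_not] at h1
      have h2 : rch tl rv S (dep r) r (root r) := Nat.find_spec (hex r)
      rw [h1] at h2
      exact h2
    rw [aux r h, aux r' h', hcongr r r' hrr]

/-- the darts of the forest -/
def T (tl : D → V) (rv : D → D) (par : V → Option D) : Set D :=
  {d | par (tl d) = some d ∨ par (tl (rv d)) = some (rv d)}

variable {tl : D → V} {rv : D → D} {S : Set D} {dep : V → ℕ} {par : V → Option D}

theorem T_subset (hrv : ∀ d, rv (rv d) = d) (hS : ∀ d ∈ S, rv d ∈ S)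
    (hF : IsForest tl rv S dep par) : T tl rv par ⊆ S := by
  rintro d (h | h)
  · exact (hF.par_some _ _ h).1
  · have := hS _ (hF.par_some _ _ h).1
    rwa [hrv] at this

theorem T_rv (hrv : ∀ d, rv (rv d) = d) {d : D} : rv d ∈ T tl rv par ↔ d ∈ T tl rv par := by
  unfold T
  simp only [Set.mem_ofPred_eq, hrv]
  exact or_comm

theorem card_T [Finite D] [Finite V] (hrv : ∀ d, rv (rv d) = d)
    (hF : IsForest tl rv S dep par) :
    (T tl rv par).ncard + 2 * {v | par v = none}.ncard = 2 * Nat.card V := by
  classical
  let P : Set D := {d | par (tl d) = some d}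
  have h1 : (tl '' P) = {v | par v = none}ᶜ := by
    ext v
    constructor
    · rintro ⟨d, hd, rfl⟩ h
      have hd' : par (tl d) = some d := hd
      have h' : par (tl d) = none := h
      rw [hd'] at h'
      exact Option.some_ne_none _ h'
    · intro h
      obtain ⟨d, hd⟩ := Option.ne_none_iff_exists'.1 (show par v ≠ none from h)
      have h2 := (hF.par_some _ _ hd).2.1
      exact ⟨d, by show par (tl d) = some d; rw [h2]; exact hd, h2⟩
  have h2 : (tl '' P).ncard = P.ncard := by
    apply Set.InjOn.ncard_image
    intro d hd d' hd' h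
    have e1 : par (tl d) = some d := hd
    have e2 : par (tl d') = some d' := hd'
    rw [h, e2] at e1
    exact (Option.some_inj.1 e1).symm
  have h3 : {v | par v = none}.ncard + ({v | par v = none}ᶜ).ncard = Nat.card V :=
    Set.ncard_add_ncard_compl _
  have hinj : Injective rv := fun a b h => by rw [← hrv a, h, hrv]
  have h4 : (rv '' P).ncard = P.ncard := Set.ncard_image_of_injective _ hinj
  have h5 : T tl rv par = P ∪ rv '' P := by
    ext d
    constructor
    · rintro (h | h)
      · exact Or.inl h
      · exact Or.inr ⟨rv d, h, hrv d⟩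
    · rintro (h | ⟨d', h, rfl⟩)
      · exact Or.inl h
      · refine Or.inr ?_
        rw [hrv]
        exact h
  have h6 : Disjoint P (rv '' P) := by
    rw [Set.disjoint_left]
    rintro d hd ⟨d', hd', rfl⟩
    have e1 := (hF.par_some _ _ (show par (tl (rv d')) = some (rv d') from hd)).2.2
    have e2 := (hF.par_some _ _ (show par (tl d') = some d' from hd')).2.2
    rw [hrv] at e1
    omega
  rw [h5, Set.ncard_union_eq h6, h4, ← h2, h1]
  omega

/-- the product around the orbit of a dart -/
noncomputable def cyc {A : Type*} [Group A] (σ : Equiv.Perm D) (y : D → A) (d : D) : A :=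
  ((List.range (minimalPeriod σ d)).map (fun i => y (σ^[i] d))).prod

theorem telescope {A : Type*} [Group A] {σ : Equiv.Perm D} {y z : D → A}
    (h : ∀ d, z (σ d) = z d * y d) (d : D) (k : ℕ) :
    z (σ^[k] d) = z d * ((List.range k).map (fun i => y (σ^[i] d))).prod := by
  induction k with
  | zero => simp
  | succ k ih =>
    rw [iterate_succ_apply', h, ih, List.range_succ, List.map_append, List.prod_append, mul_assoc]
    simp

theorem cyc_telescope {A : Type*} [Group A] {σ : Equiv.Perm D} {y z : D → A}
    (h : ∀ d, z (σ d) = z d * y d) (d : D) : cyc σ y d = 1 := by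
  have h1 := telescope h d (minimalPeriod σ d)
  rw [iterate_minimalPeriod] at h1
  exact (mul_eq_left.1 h1.symm)

theorem minimalPeriod_pos [Finite D] (σ : Equiv.Perm D) (d : D) : 0 < minimalPeriod σ d :=
  minimalPeriod_pos_of_mem_periodicPts (σ.injective.mem_periodicPts d)

theorem iterate_ne {σ : Equiv.Perm D} {d : D} {i : ℕ} (h0 : 0 < i)
    (hi : i < minimalPeriod σ d) : σ^[i] d ≠ d := by
  intro h
  exact absurd (IsPeriodicPt.minimalPeriod_le h0 h) (not_le.2 hi)

theorem cyc_eq [Finite D] {A : Type*} [Group A] {σ : Equiv.Perm D} {y : D → A} {d : D}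
    (h : ∀ i, 0 < i → i < minimalPeriod σ d → y (σ^[i] d) = 1) : cyc σ y d = y d := by
  obtain ⟨k, hk⟩ : ∃ k, minimalPeriod σ d = k + 1 :=
    ⟨minimalPeriod σ d - 1, by have := minimalPeriod_pos σ d; omega⟩
  unfold cyc
  rw [hk, List.range_succ_eq_map, List.map_cons, List.prod_cons, List.map_map]
  have h1 : ((List.range k).map ((fun i => y (σ^[i] d)) ∘ Nat.succ)).prod = 1 := by
    apply List.prod_eq_one
    intro x hx
    obtain ⟨i, hi, rfl⟩ := List.mem_map.1 hx
    rw [List.mem_range] at hi
    exact h (i + 1) (by omega) (by omega)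
  rw [h1, mul_one]
  rfl

theorem tl_iterate {σ : Equiv.Perm D} (hσ : ∀ d, tl (σ d) = tl d) (d : D) (i : ℕ) :
    tl (σ^[i] d) = tl d := by
  induction i with
  | zero => rfl
  | succ i ih => rw [iterate_succ_apply', hσ, ih]

/-- A function on the darts which is trivial off the forest and whose products at the vertices are
trivial is trivial. -/
theorem peel [Finite D] [Finite V] {A : Type*} [Group A] {σ : Equiv.Perm D} {y : D → A}
    (hrv : ∀ d, rv (rv d) = d) (hσ : ∀ d, tl (σ d) = tl d)
    (hF : IsForest tl rv S dep par) (hy : ∀ d, y (rv d) = (y d)⁻¹)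
    (hT : ∀ d, d ∉ T tl rv par → y d = 1)
    (hc : ∀ v d, par v = some d → cyc σ y d = 1) : ∀ d, y d = 1 := by
  obtain ⟨N, hN⟩ : ∃ N, ∀ v, dep v < N := by
    obtain ⟨M, hM⟩ := (Set.finite_range dep).bddAbove
    exact ⟨M + 1, fun v => Nat.lt_succ_of_le (hM ⟨v, rfl⟩)⟩
  have key : ∀ m, ∀ v d, par v = some d → N ≤ dep v + m → y d = 1 := by
    intro m
    induction m with
    | zero =>
      intro v d _ h
      have := hN v
      omega
    | succ m ih =>
      intro v d hd hm
      have htl := (hF.par_some _ _ hd).2.1
      rw [← hc v d hd, cyc_eq]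
      intro i hi0 hi
      have hne := iterate_ne hi0 hi
      have htl' : tl (σ^[i] d) = v := by rw [tl_iterate hσ, htl]
      generalize σ^[i] d = d' at hne htl'
      by_cases hd' : d' ∈ T tl rv par
      · rcases hd' with h | h
        · rw [htl', hd] at h
          exact absurd (Option.some_inj.1 h).symm hne
        · have h1 := (hF.par_some _ _ h).2.2
          rw [hrv, htl'] at h1
          have h2 := ih _ _ h (by omega)
          rw [hy, inv_eq_one] at h2
          exact h2
      · exact hT d' hd'
  intro d
  by_cases hd : d ∈ T tl rv par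
  · rcases hd with h | h
    · exact key N _ _ h (by omega)
    · have := key N _ _ h (by omega)
      rw [hy, inv_eq_one] at this
      exact this
  · exact hT d hd

end Forest

end GIG
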