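import Pool.Agent.Lib.MP_262b4d_al.PForest

/-!
# Potentials on planar maps

On a planar map (Euler's formula) a function on the darts with values in a group, antisymmetric and
with trivial products around the vertices, is the coboundary of a function on the faces.
-/

namespace GIG

open Relation Function

namespace Forest

variable {D V F C : Type*}

/-- A finite map of genus zero: `tlV`, `tlF`, `comp` give the vertex, the face and the component of
a dart. -/
structure PMap (tlV : D → V) (tlF : D → F) (comp : D → C) (σ : Equiv.Perm D) (rv : D → D) :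
    Prop where
  rv_rv : ∀ d, rv (rv d) = d
  tlV_σ : ∀ d, tlV (σ d) = tlV d
  tlF_σ : ∀ d, tlF (σ d) = tlF (rv d)
  surjV : Surjective tlV
  surjF : Surjective tlF
  conn : ∀ (p : D → Prop), (∀ d, p d → p (σ d)) → (∀ d, p d → p (rv d)) →
    ∀ d d', comp d = comp d' → p d → p d'
  euler : Nat.card D + 4 * Nat.card C ≤ 2 * Nat.card V + 2 * Nat.card F

theorem card_roots_le [Finite C] {tl : D → V} {rv : D → D} {S : Set D} {dep : V → ℕ}
    {par : V → Option D} (hs : Surjective tl) (comp : D → C)
    (h : ∀ d d', comp d = comp d' → EqvGen (Jn tl rv S) (tl d) (tl d'))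
    (hF : IsForest tl rv S dep par) : {v | par v = none}.ncard ≤ Nat.card C := by
  have h1 : Set.InjOn (fun v => comp (surjInv hs v)) {v | par v = none} := by
    intro r hr r' hr' e
    have h2 := h _ _ e
    rw [surjInv_eq hs r, surjInv_eq hs r'] at h2
    exact hF.root_unique _ _ hr hr' h2
  rw [← h1.ncard_image]
  exact Set.ncard_le_card _

theorem exists_pot {A : Type*} [Group A] {tl : D → F} {rv : D → D} {S : Set D} {dep : F → ℕ}
    {par : F → Option D} (hF : IsForest tl rv S dep par) (x : D → A) :
    ∃ z : F → A, ∀ f d, par f = some d → z (tl (rv d)) = z f * x d := by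
  let zz : ℕ → F → A := fun n => Nat.rec (fun _ => 1)
    (fun _ r f => match par f with
      | none => 1
      | some d => r (tl (rv d)) * (x d)⁻¹) n
  have hz : ∀ n f, zz (n + 1) f = match par f with
      | none => 1
      | some d => zz n (tl (rv d)) * (x d)⁻¹ := fun n f => rfl
  have stab : ∀ n f, dep f < n → zz n f = zz (dep f + 1) f := by
    intro n
    induction n using Nat.strong_induction_on with
    | _ n ih =>
      intro f hf
      obtain ⟨m, rfl⟩ : ∃ m, n = m + 1 := ⟨n - 1, by omega⟩
      rw [hz, hz]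
      rcases hp : par f with _ | d
      · rfl
      · have h1 := (hF.par_some _ _ hp).2.2
        show zz m (tl (rv d)) * (x d)⁻¹ = zz (dep f) (tl (rv d)) * (x d)⁻¹
        rw [ih m (by omega) _ (by omega)]
        by_cases hm : dep f = m
        · rw [← ih m (by omega) _ (by omega), hm]
        · rw [ih (dep f) (by omega) _ h1]
  refine ⟨fun f => zz (dep f + 1) f, fun f d hp => ?_⟩
  have h1 := (hF.par_some _ _ hp).2.2
  have h2 : zz (dep f + 1) f = zz (dep f) (tl (rv d)) * (x d)⁻¹ := by
    rw [hz, hp]
  show zz (dep (tl (rv d)) + 1) (tl (rv d)) = zz (dep f + 1) f * x d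
  rw [h2, stab _ _ h1, inv_mul_cancel_right]

theorem conj_prod {A : Type*} [Group A] {σ : Equiv.Perm D} {x y z : D → A}
    (h : ∀ d, y d = z d * x d * (z (σ d))⁻¹) (d : D) (k : ℕ) :
    ((List.range k).map (fun i => y (σ^[i] d))).prod =
      z d * ((List.range k).map (fun i => x (σ^[i] d))).prod * (z (σ^[k] d))⁻¹ := by
  induction k with
  | zero => simp
  | succ k ih =>
    rw [List.range_succ, List.map_append, List.prod_append, ih, List.map_append, List.prod_append]
    simp only [List.map_cons, List.map_nil, List.prod_cons, List.prod_nil, mul_one]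
    rw [h (σ^[k] d), ← iterate_succ_apply' σ k d]
    simp only [mul_assoc, inv_mul_cancel_left]

theorem potential [Finite D] [Finite V] [Finite F] [Finite C] {tlV : D → V} {tlF : D → F}
    {comp : D → C} {σ : Equiv.Perm D} {rv : D → D} (hM : PMap tlV tlF comp σ rv)
    {dep : V → ℕ} {par : V → Option D} (hV : IsForest tlV rv Set.univ dep par)
    {A : Type*} [Group A] (x : D → A) (hx : ∀ d, x (rv d) = (x d)⁻¹)
    (hc : ∀ v d, par v = some d → cyc σ x d = 1) :
    ∃ z : F → A, ∀ d, z (tlF (rv d)) = z (tlF d) * x d := by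
  classical
  have hrv := hM.rv_rv
  set S' : Set D := (T tlV rv par)ᶜ with hS'
  have hS'rv : ∀ d ∈ S', rv d ∈ S' := by
    intro d hd h
    exact hd ((T_rv hrv).1 h)
  obtain ⟨dep', par', hF'⟩ := exists_forest tlF rv S' hrv hS'rv
  -- components of the primal graph
  have hVc : ∀ d d', comp d = comp d' → EqvGen (Jn tlV rv Set.univ) (tlV d) (tlV d') := by
    intro d d' h
    refine hM.conn (fun e => EqvGen (Jn tlV rv Set.univ) (tlV d) (tlV e)) ?_ ?_ d d' h
      (EqvGen.refl _)
    · intro e he
      rw [hM.tlV_σ]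
      exact he
    · intro e he
      exact he.trans _ _ _ (EqvGen.rel _ _ ⟨e, trivial, rfl, rfl⟩)
  -- components of the dual graph without the forest
  have hFc : ∀ d d', comp d = comp d' → EqvGen (Jn tlF rv S') (tlF d) (tlF d') := by
    intro d0 d' h
    let χ : F → ℤˣ := fun f => if EqvGen (Jn tlF rv S') (tlF d0) f then -1 else 1
    have hχ : ∀ f, χ f * χ f = 1 := fun f => Int.units_mul_self _
    let y : D → ℤˣ := fun d => χ (tlF d) * χ (tlF (rv d))
    have hy : ∀ d, y d = 1 := by
      refine peel (tl := tlV) (rv := rv) (σ := σ) hrv hM.tlV_σ hV ?_ ?_ ?_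
      · intro d
        show χ (tlF (rv d)) * χ (tlF (rv (rv d))) = (χ (tlF d) * χ (tlF (rv d)))⁻¹
        rw [hrv, mul_comm, Int.units_inv_eq_self]
      · intro d hd
        have h1 : χ (tlF d) = χ (tlF (rv d)) := by
          have h2 : EqvGen (Jn tlF rv S') (tlF d) (tlF (rv d)) :=
            EqvGen.rel _ _ ⟨d, hd, rfl, rfl⟩
          show (if _ then _ else _) = (if _ then _ else _)
          congr 1
          exact propext ⟨fun h => h.trans _ _ _ h2, fun h => h.trans _ _ _ (h2.symm _ _)⟩
        show χ (tlF d) * χ (tlF (rv d)) = 1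
        rw [h1, hχ]
      · intro v d _
        refine cyc_telescope (z := fun d => χ (tlF d)) (fun d => ?_) d
        show χ (tlF (σ d)) = χ (tlF d) * (χ (tlF d) * χ (tlF (rv d)))
        rw [hM.tlF_σ, ← mul_assoc, hχ, one_mul]
    have hiff : ∀ d, EqvGen (Jn tlF rv S') (tlF d0) (tlF d) →
        EqvGen (Jn tlF rv S') (tlF d0) (tlF (rv d)) := by
      intro d h1
      by_contra h2
      have h3 : χ (tlF d) * χ (tlF (rv d)) = 1 := hy d
      have h4 : χ (tlF d) = -1 := if_pos h1
      have h5 : χ (tlF (rv d)) = 1 := if_neg h2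
      rw [h4, h5] at h3
      exact absurd h3 (by decide)
    refine hM.conn (fun e => EqvGen (Jn tlF rv S') (tlF d0) (tlF e)) ?_ hiff d0 d' h
      (EqvGen.refl _)
    intro e he
    rw [hM.tlF_σ]
    exact hiff e he
  -- counting
  have c1 := card_T hrv hV
  have c2 := card_T hrv hF'
  have c3 := card_roots_le hM.surjV comp hVc hV
  have c4 := card_roots_le hM.surjF comp hFc hF'
  have c5 := hM.euler
  have c6 : (T tlV rv par).ncard + S'.ncard = Nat.card D := Set.ncard_add_ncard_compl _
  have hsub : T tlF rv par' ⊆ S' := T_subset hrv hS'rv hF'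
  have hT' : T tlF rv par' = S' :=
    Set.eq_of_subset_of_ncard_le hsub (by omega) (Set.toFinite _)
  -- the potential
  obtain ⟨z, hz⟩ := exists_pot hF' x
  refine ⟨z, ?_⟩
  have hzT : ∀ d, d ∉ T tlV rv par → z (tlF (rv d)) = z (tlF d) * x d := by
    intro d hd
    have h1 : d ∈ T tlF rv par' := by rw [hT']; exact hd
    rcases h1 with h1 | h1
    · exact hz _ _ h1
    · have h2 := hz _ _ h1
      rw [hrv, hx] at h2
      rw [h2, inv_mul_cancel_right]
  have hy : ∀ d, z (tlF d) * x d * (z (tlF (rv d)))⁻¹ = 1 := by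
    refine peel (tl := tlV) (rv := rv) (σ := σ)
      (y := fun d => z (tlF d) * x d * (z (tlF (rv d)))⁻¹) hrv hM.tlV_σ hV ?_ ?_ ?_
    · intro d
      show z (tlF (rv d)) * x (rv d) * (z (tlF (rv (rv d))))⁻¹ =
        (z (tlF d) * x d * (z (tlF (rv d)))⁻¹)⁻¹
      rw [hrv, hx, mul_inv_rev, mul_inv_rev, inv_inv, mul_assoc]
    · intro d hd
      show z (tlF d) * x d * (z (tlF (rv d)))⁻¹ = 1
      rw [hzT d hd, mul_inv_cancel]
    · intro v d hd
      have h1 := conj_prod (σ := σ) (x := x) (z := fun d => z (tlF d))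
        (y := fun d => z (tlF d) * x d * (z (tlF (rv d)))⁻¹)
        (fun d => by rw [hM.tlF_σ]) d (minimalPeriod σ d)
      unfold cyc
      rw [h1, iterate_minimalPeriod]
      have h2 : ((List.range (minimalPeriod σ d)).map (fun i => x (σ^[i] d))).prod = 1 := hc v d hd
      rw [h2, mul_one, mul_inv_cancel]
  intro d
  exact (mul_inv_eq_one.1 (hy d)).symm

end Forest

end GIG
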