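import Pool.Agent.Lib.MP_262b4d_al.PEmb

/-!
# Graph incidence groups of planar graphs are residually finite
-/

namespace GIG

open Function Forest

variable {n : ℕ} {E : List (ℕ × ℕ)} {B : List ℕ} {c : Fin E.length → ℕ}

/-- the faces share a vertex -/
def cmF (σ : Equiv.Perm (Dart E)) (f f' : Face σ) : Prop :=
  ∃ d d', tlF σ d = f ∧ tlF σ d' = f' ∧ start E d = start E d'

/-- images of the generators in the right-angled Coxeter group -/
def wgen (σ : Equiv.Perm (Dart E)) : Option (Fin E.length) → Racg.W (cmF σ)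
  | none => 1
  | some i => Racg.y (cmF σ) (tlF σ (i, false)) * Racg.y (cmF σ) (tlF σ (i, true))

/-- the images in the centre -/
def jgen (n : ℕ) (E : List (ℕ × ℕ)) (B : List ℕ) (c : Fin E.length → ℕ) :
    Option (Fin E.length) → Grp n E B
  | none => gJ n E B
  | some i => gJ n E B ^ c i

theorem filter_nil {v : ℕ} (hd : ¬ ∃ d : Dart E, start E d = v) :
    (List.finRange E.length).filter (fun i => Inc v (E.get i)) = [] := by
  rw [List.filter_eq_nil_iff]
  intro i _
  rw [decide_eq_true_iff, inc_iff]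
  rintro ⟨d, -, h⟩
  exact hd ⟨d, h⟩

section

variable {σ : Equiv.Perm (Dart E)} (hσ : IsRot σ)
include hσ

theorem cmF_turn (d : Dart E) : cmF σ (tlF σ d) (tlF σ (turn E d)) :=
  ⟨d, σ d, rfl, tlF_apply d, (start_iterate hσ d 1).symm⟩

theorem wgen_dart (d : Dart E) : wgen σ (some d.1) =
    Racg.y (cmF σ) (tlF σ d) * Racg.y (cmF σ) (tlF σ (turn E d)) := by
  obtain ⟨i, b⟩ := d
  cases b
  · rfl
  · exact (Racg.y_comm (cmF σ) (cmF_turn hσ (i, false))).eq

theorem wgen_comm {v : ℕ} {i k : Fin E.length} (hi : Inc v (E.get i)) (hk : Inc v (E.get k)) :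
    Commute (wgen σ (some i)) (wgen σ (some k)) := by
  obtain ⟨d, rfl, rfl⟩ := inc_iff.1 hi
  obtain ⟨d', rfl, h⟩ := inc_iff.1 hk
  have e1 : start E (σ d) = start E d := start_iterate hσ d 1
  have e2 : start E (σ d') = start E d' := start_iterate hσ d' 1
  rw [wgen_dart hσ, wgen_dart hσ, ← tlF_apply, ← tlF_apply]
  apply Commute.mul_left
  · apply Commute.mul_right
    · exact Racg.y_comm _ ⟨d, d', rfl, rfl, h.symm⟩
    · exact Racg.y_comm _ ⟨d, σ d', rfl, rfl, by rw [e2, h]⟩
  · apply Commute.mul_right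
    · exact Racg.y_comm _ ⟨σ d, d', rfl, rfl, by rw [e1, h]⟩
    · exact Racg.y_comm _ ⟨σ d, σ d', rfl, rfl, by rw [e1, e2, h]⟩

theorem wgen_sq (i : Fin E.length) : wgen σ (some i) * wgen σ (some i) = 1 := by
  have h : Commute (Racg.y (cmF σ) (tlF σ (i, false))) (Racg.y (cmF σ) (tlF σ (i, true))) :=
    Racg.y_comm (cmF σ) (cmF_turn hσ (i, false))
  show (Racg.y (cmF σ) (tlF σ (i, false)) * Racg.y (cmF σ) (tlF σ (i, true))) *
    (Racg.y (cmF σ) (tlF σ (i, false)) * Racg.y (cmF σ) (tlF σ (i, true))) = 1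
  rw [Commute.mul_mul_mul_comm (Commute.symm h) _ _, Racg.y_sq, one_mul]
  exact Racg.y_sq _ _

theorem wgen_prod (hE : ∀ e ∈ E, e.1 ≠ e.2) (v : ℕ) :
    (((List.finRange E.length).filter (fun i => Inc v (E.get i))).map
      (fun i => wgen σ (some i))).prod = 1 := by
  by_cases hd : ∃ d : Dart E, start E d = v
  · obtain ⟨d, rfl⟩ := hd
    rw [← cyc_eq_prod hσ hE (fun i => wgen σ (some i)) d (fun i k hi hk => wgen_comm hσ hi hk)]
    apply cyc_telescope (z := fun d => Racg.y (cmF σ) (tlF σ d))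
    intro d
    show Racg.y (cmF σ) (tlF σ (σ d)) = Racg.y (cmF σ) (tlF σ d) * wgen σ (some d.1)
    rw [wgen_dart hσ, ← mul_assoc, Racg.y_sq, one_mul, tlF_apply]
  · rw [filter_nil hd]
    simp

theorem wgen_rels (hE : ∀ e ∈ E, e.1 ≠ e.2) :
    ∀ r ∈ Rels n E B, FreeGroup.lift (wgen σ) r = 1 := by
  intro r hr
  unfold Rels at hr
  rcases hr with (((hr | ⟨i, rfl⟩) | ⟨i, rfl⟩) | ⟨v, i, k, hi, hk, rfl⟩) | ⟨v, hv, rfl⟩
  · rw [Set.mem_ofPred_eq] at hr
    subst hr
    rw [map_mul, FreeGroup.lift_apply_of]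
    exact mul_one 1
  · rw [map_mul, FreeGroup.lift_apply_of]
    exact wgen_sq hσ i
  · rw [map_mul, map_mul, map_mul, map_inv, map_inv, FreeGroup.lift_apply_of,
      FreeGroup.lift_apply_of]
    show wgen σ (some i) * 1 * (wgen σ (some i))⁻¹ * (1 : Racg.W (cmF σ))⁻¹ = 1
    rw [mul_one, mul_inv_cancel, inv_one, mul_one]
  · rw [map_mul, map_mul, map_mul, map_inv, map_inv, FreeGroup.lift_apply_of,
      FreeGroup.lift_apply_of, (wgen_comm hσ hi hk).eq, mul_inv_cancel_right, mul_inv_cancel]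
  · rw [map_mul, map_inv, map_pow, map_list_prod, List.map_map, FreeGroup.lift_apply_of,
      mul_inv_eq_one]
    have h1 : ((FreeGroup.lift (wgen σ)) ∘ fun i => FreeGroup.of (some i)) =
        fun i => wgen σ (some i) := by
      funext i
      rw [Function.comp_apply, FreeGroup.lift_apply_of]
    rw [h1, wgen_prod hσ hE]
    exact (one_pow _).symm

end

theorem Pot.jgen_rels {σ : Equiv.Perm (Dart E)} {ζ : Face σ → Grp n E B}
    (hP : Pot n E B σ c ζ) : ∀ r ∈ Rels n E B, FreeGroup.lift (jgen n E B c) r = 1 := by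
  intro r hr
  unfold Rels at hr
  rcases hr with (((hr | ⟨i, rfl⟩) | ⟨i, rfl⟩) | ⟨v, i, k, hi, hk, rfl⟩) | ⟨v, hv, rfl⟩
  · rw [Set.mem_ofPred_eq] at hr
    subst hr
    rw [map_mul, FreeGroup.lift_apply_of]
    exact gJ_sq
  · rw [map_mul, FreeGroup.lift_apply_of]
    exact gJ_pow_sq _
  · rw [map_mul, map_mul, map_mul, map_inv, map_inv, FreeGroup.lift_apply_of,
      FreeGroup.lift_apply_of]
    show jgen n E B c (some i) * gJ n E B * (jgen n E B c (some i))⁻¹ * (gJ n E B)⁻¹ = 1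
    rw [(gJ_central (jgen n E B c (some i))).eq, mul_inv_cancel_right, mul_inv_cancel]
  · rw [map_mul, map_mul, map_mul, map_inv, map_inv, FreeGroup.lift_apply_of,
      FreeGroup.lift_apply_of]
    show jgen n E B c (some i) * gJ n E B ^ c k * (jgen n E B c (some i))⁻¹ *
      (gJ n E B ^ c k)⁻¹ = 1
    rw [(gJ_pow_central (jgen n E B c (some i)) _).eq, mul_inv_cancel_right, mul_inv_cancel]
  · rw [map_mul, map_inv, map_pow, map_list_prod, List.map_map, FreeGroup.lift_apply_of,
      mul_inv_eq_one]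
    have h1 : ((FreeGroup.lift (jgen n E B c)) ∘ fun i => FreeGroup.of (some i)) =
        fun i => gJ n E B ^ c i := by
      funext i
      rw [Function.comp_apply, FreeGroup.lift_apply_of]
      rfl
    rw [h1, prod_pow_list]
    exact hP.sum_col hv

theorem Pot.rfin {σ : Equiv.Perm (Dart E)} {ζ : Face σ → Grp n E B}
    (hP : Pot n E B σ c ζ) : RFin (Grp n E B) := by
  obtain ⟨τ, hJ, hx, hζ, hττ⟩ := hP.exists_tau
  have hYY : ∀ f f' g, τ (ζ f * τ (ζ f' * g)) = (ζ f)⁻¹ * (ζ f' * g) := by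
    intro f f' g
    rw [map_mul, hττ, hζ]
  have hY1 : ∀ f g, τ (ζ f * τ (ζ f * g)) = g := by
    intro f g
    rw [hYY, inv_mul_cancel_left]
  let Y : Face σ → Equiv.Perm (Grp n E B) := fun f =>
    { toFun := fun g => τ (ζ f * g)
      invFun := fun g => τ (ζ f * g)
      left_inv := hY1 f
      right_inv := hY1 f }
  have hYa : ∀ f f' g, Y f (Y f' g) = (ζ f)⁻¹ * (ζ f' * g) := hYY
  obtain ⟨Φ, hΦ⟩ := Racg.exists_lift (cmF σ) Y
    (fun f => by
      apply Equiv.ext
      intro g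
      exact hY1 f g)
    (fun f f' h => by
      obtain ⟨d, d', rfl, rfl, hdd⟩ := h
      obtain ⟨q, h1, h2, -⟩ := hP.quot hdd
      apply Equiv.ext
      intro g
      show Y _ (Y _ g) = Y _ (Y _ g)
      rw [hYa, hYa, h1, mul_inv_rev, inv_eq_of_mul_eq_one_left h2]
      simp only [mul_assoc, inv_mul_cancel_left])
  let θW : Grp n E B →* Racg.W (cmF σ) := PresentedGroup.toGroup (wgen_rels hP.rot hP.ne)
  let θJ : Grp n E B →* Grp n E B := PresentedGroup.toGroup hP.jgen_rels
  have hWJ : θW (gJ n E B) = 1 := PresentedGroup.toGroup.of _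
  have hWx : ∀ i, θW (gx n E B i) = wgen σ (some i) := fun i => PresentedGroup.toGroup.of _
  have hJJ : θJ (gJ n E B) = gJ n E B := PresentedGroup.toGroup.of hP.jgen_rels
  have hJx : ∀ i, θJ (gx n E B i) = gJ n E B ^ c i := fun i =>
    PresentedGroup.toGroup.of hP.jgen_rels
  have hJc : ∀ g h, Commute h (θJ g) := by
    intro g h
    refine grp_induction (p := fun g => Commute h (θJ g)) ?_ ?_ ?_ ?_ ?_ g
    · rw [map_one]; exact Commute.one_right _
    · rw [hJJ]; exact gJ_central h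
    · intro i; rw [hJx]; exact gJ_pow_central h _
    · intro a b ha hb; rw [map_mul]; exact ha.mul_right hb
    · intro a ha; rw [map_inv]; exact ha.inv_right
  have key : ∀ g h, Φ (θW g) (θJ g * h) = g * h := by
    intro g
    refine grp_induction (p := fun g => ∀ h, Φ (θW g) (θJ g * h) = g * h) ?_ ?_ ?_ ?_ ?_ g
    · intro h
      rw [map_one, map_one, map_one, Equiv.Perm.one_apply]
    · intro h
      rw [hWJ, hJJ, map_one, Equiv.Perm.one_apply]
    · intro i h
      rw [hWx, hJx]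
      have h1 := hP.edge (i, false)
      show Φ (Racg.y (cmF σ) (tlF σ (i, false)) * Racg.y (cmF σ) (tlF σ (i, true)))
        (gJ n E B ^ c i * h) = _
      rw [Φ.map_mul, hΦ, hΦ, Equiv.Perm.mul_apply, hYa]
      have h2 : ζ (tlF σ (i, true)) = ζ (tlF σ (i, false)) * xx n E B c i := h1
      rw [h2]
      unfold xx
      simp only [mul_assoc, inv_mul_cancel_left]
      rw [← mul_assoc (gx n E B i) (gJ n E B ^ c i), (gJ_pow_central (gx n E B i) _).eq,
        mul_assoc (gJ n E B ^ c i), ← mul_assoc (gJ n E B ^ c i) (gJ n E B ^ c i), gJ_pow_sq,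
        one_mul]
    · intro a b ha hb h
      rw [θW.map_mul, θJ.map_mul, Φ.map_mul, Equiv.Perm.mul_apply, (hJc b (θJ a)).eq, mul_assoc, hb,
        ← mul_assoc b, (hJc a b).eq, mul_assoc, ha, mul_assoc]
    · intro a ha h
      rw [map_inv, map_inv, map_inv, Equiv.Perm.inv_eq_iff_eq]
      have h1 : a * (a⁻¹ * ((θJ a)⁻¹ * h)) = (θJ a)⁻¹ * h := mul_inv_cancel_left _ _
      rw [← h1, ← ha]
      congr 1
      rw [← mul_assoc (θJ a), ← (hJc a a⁻¹).eq, mul_assoc, mul_inv_cancel_left]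
  have hJ2 : ∀ g, θJ g = 1 ∨ θJ g = gJ n E B := by
    intro g
    refine grp_induction (p := fun g => θJ g = 1 ∨ θJ g = gJ n E B) ?_ ?_ ?_ ?_ ?_ g
    · exact Or.inl (map_one _)
    · exact Or.inr hJJ
    · intro i
      rw [hJx]
      rcases Nat.even_or_odd' (c i) with ⟨k, hk | hk⟩
      · left
        rw [hk, pow_mul, pow_two, gJ_sq, one_pow]
      · right
        rw [hk, pow_add, pow_mul, pow_two, gJ_sq, one_pow, one_mul, pow_one]
    · intro a b ha hb
      rw [map_mul]
      rcases ha with ha | ha <;> rcases hb with hb | hb <;> rw [ha, hb]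
      · exact Or.inl (mul_one _)
      · exact Or.inr (one_mul _)
      · exact Or.inr (mul_one _)
      · exact Or.inl gJ_sq
    · intro a ha
      rw [map_inv]
      rcases ha with ha | ha <;> rw [ha]
      · exact Or.inl inv_one
      · exact Or.inr (inv_eq_of_mul_eq_one_left gJ_sq)
  intro g hg
  by_cases h1 : θW g = 1
  · have h2 : θJ g ≠ 1 := by
      intro h2
      have h3 := key g 1
      rw [h1, h2, map_one, Equiv.Perm.one_apply, mul_one, mul_one] at h3
      exact hg h3.symm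
    have hfin : Finite θJ.range := by
      have h4 : (θJ.range : Set (Grp n E B)) ⊆ {1, gJ n E B} := by
        rintro _ ⟨g, rfl⟩
        rcases hJ2 g with h | h
        · exact Or.inl h
        · exact Or.inr h
      exact ((Set.toFinite ({1, gJ n E B} : Set (Grp n E B))).subset h4).to_subtype
    apply exists_fin_rep' θJ.rangeRestrict (g := g)
    intro h3
    exact h2 (congrArg Subtype.val h3)
  · obtain ⟨N, ρ, hρ⟩ := Racg.rfin (cmF σ) (by
      rintro f f' ⟨d, d', h1, h2, h3⟩
      exact ⟨d', d, h2, h1, h3.symm⟩) (θW g) h1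
    exact ⟨N, ρ.comp θW, hρ⟩

/-- **Graph incidence groups of planar graphs are residually finite.** -/
theorem Planar.rfin (hP : Planar n E) (B : List ℕ) : RFin (Grp n E B) := by
  obtain ⟨σ, c, ζ, h⟩ := hP.exists_pot B
  exact h.rfin

end GIG
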