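import Pool.Agent.Lib.MP_262b4d_al.PDefs
import Pool.Agent.Lib.MP_262b4d_al.PPot

/-!
# Rotation systems: faces, components, products around a vertex
-/

namespace GIG

open Function Forest

section Orb

variable {α : Type} (K : Subgroup (Equiv.Perm α))

/-- the orbit of a point -/
def orb (a : α) : MulAction.orbitRel.Quotient K α := Quotient.mk'' a

theorem orb_eq {a b : α} : orb K a = orb K b ↔ ∃ g ∈ K, g b = a := by
  unfold orb
  rw [Quotient.eq'', MulAction.orbitRel_apply, MulAction.mem_orbit_iff]
  constructor
  · rintro ⟨g, hg⟩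
    exact ⟨g.1, g.2, hg⟩
  · rintro ⟨g, hg, h⟩
    exact ⟨⟨g, hg⟩, h⟩

theorem orb_surj : Surjective (orb K) := Quotient.mk''_surjective

theorem orb_zpowers {σ : Equiv.Perm α} {a b : α} :
    orb (Subgroup.zpowers σ) a = orb (Subgroup.zpowers σ) b ↔ σ.SameCycle b a := by
  rw [orb_eq]
  constructor
  · rintro ⟨g, ⟨k, rfl⟩, h⟩
    exact ⟨k, h⟩
  · rintro ⟨k, h⟩
    exact ⟨σ ^ k, ⟨k, rfl⟩, h⟩

theorem closure_inv [Finite α] {S : Set (Equiv.Perm α)} {p : α → Prop}
    (hp : ∀ s ∈ S, ∀ a, p a → p (s a)) {g : Equiv.Perm α} (hg : g ∈ Subgroup.closure S) (a : α) :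
    p a ↔ p (g a) := by
  induction hg using Subgroup.closure_induction generalizing a with
  | mem s hs =>
    refine ⟨hp s hs a, fun h => ?_⟩
    have key : ∀ k, p ((s ^ (k + 1)) a) := by
      intro k
      induction k with
      | zero => simpa using h
      | succ k ih =>
        rw [pow_succ', Equiv.Perm.mul_apply]
        exact hp s hs _ ih
    have h1 := key (orderOf s - 1)
    have h2 : orderOf s - 1 + 1 = orderOf s := by
      have := orderOf_pos s
      omega
    rw [h2, pow_orderOf_eq_one] at h1
    exact h1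
  | one => exact Iff.rfl
  | mul x y _ _ hx hy => rw [Equiv.Perm.mul_apply, ← hx, ← hy]
  | inv x _ hx =>
    rw [hx (x⁻¹ a)]
    simp

end Orb

variable {E : List (ℕ × ℕ)}

@[simp] theorem turn_turn (d : Dart E) : turn E (turn E d) = d := by
  obtain ⟨i, b⟩ := d
  simp [turn]

@[simp] theorem turn_fst (d : Dart E) : (turn E d).1 = d.1 := rfl

/-- the vertex of a dart -/
def tlV (σ : Equiv.Perm (Dart E)) (d : Dart E) :
    MulAction.orbitRel.Quotient (Subgroup.zpowers σ) (Dart E) := orb _ d

/-- the face of a dart -/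
def tlF (σ : Equiv.Perm (Dart E)) (d : Dart E) :
    MulAction.orbitRel.Quotient (Subgroup.zpowers (σ * turn E)) (Dart E) := orb _ d

/-- the component of a dart -/
def tlC (σ : Equiv.Perm (Dart E)) (d : Dart E) :
    MulAction.orbitRel.Quotient (Subgroup.closure {σ, turn E}) (Dart E) := orb _ d

variable {σ : Equiv.Perm (Dart E)}

theorem tlV_apply (d : Dart E) : tlV σ (σ d) = tlV σ d := by
  unfold tlV
  rw [orb_zpowers]
  exact ⟨1, by simp⟩

theorem tlF_apply (d : Dart E) : tlF σ (σ d) = tlF σ (turn E d) := by
  unfold tlF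
  rw [orb_zpowers]
  refine ⟨1, ?_⟩
  rw [zpow_one, Equiv.Perm.mul_apply, turn_turn]

theorem tlC_apply (d : Dart E) : tlC σ (σ d) = tlC σ d := by
  unfold tlC
  rw [orb_eq]
  exact ⟨σ, Subgroup.subset_closure (by simp), rfl⟩

theorem tlC_turn (d : Dart E) : tlC σ (turn E d) = tlC σ d := by
  unfold tlC
  rw [orb_eq]
  exact ⟨turn E, Subgroup.subset_closure (by simp), rfl⟩

theorem tlC_of_tlF {d d' : Dart E} (h : tlF σ d = tlF σ d') : tlC σ d = tlC σ d' := by
  unfold tlF at h
  rw [orb_eq] at h
  obtain ⟨g, hg, rfl⟩ := h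
  unfold tlC
  rw [orb_eq]
  refine ⟨g, ?_, rfl⟩
  have h1 : Subgroup.zpowers (σ * turn E) ≤ Subgroup.closure {σ, turn E} := by
    rw [Subgroup.zpowers_le]
    exact mul_mem (Subgroup.subset_closure (by simp)) (Subgroup.subset_closure (by simp))
  exact h1 hg

theorem pmap (h : numOrbits (Subgroup.zpowers σ) + numOrbits (Subgroup.zpowers (σ * turn E)) =
      E.length + 2 * numOrbits (Subgroup.closure {σ, turn E})) :
    PMap (tlV σ) (tlF σ) (tlC σ) σ (turn E) where
  rv_rv := turn_turn
  tlV_σ := tlV_apply
  tlF_σ := tlF_apply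
  surjV := orb_surj _
  surjF := orb_surj _
  conn := by
    intro p h1 h2 d d' h3 h4
    unfold tlC at h3
    rw [orb_eq] at h3
    obtain ⟨g, hg, h5⟩ := h3
    have h6 := closure_inv (p := p) (S := {σ, turn E}) (by
      rintro s (rfl | hs) a ha
      · exact h1 a ha
      · rw [Set.mem_singleton_iff.1 hs]
        exact h2 a ha) hg d'
    rw [h6, h5]
    exact h4
  euler := by
    have h1 : Nat.card (Dart E) = 2 * E.length := by
      unfold Dart
      rw [Nat.card_prod]
      simp [mul_comm]
    unfold numOrbits at h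
    rw [h1]
    omega

/-- `σ` is a rotation system -/
def IsRot (σ : Equiv.Perm (Dart E)) : Prop := ∀ d d', start E d = start E d' ↔ σ.SameCycle d d'

theorem start_iterate (hσ : IsRot σ) (d : Dart E) (k : ℕ) : start E (σ^[k] d) = start E d := by
  symm
  rw [hσ]
  exact ⟨k, by rw [zpow_natCast]; rfl⟩

theorem tlV_iff (hσ : IsRot σ) {d d' : Dart E} : tlV σ d = tlV σ d' ↔ start E d = start E d' := by
  unfold tlV
  rw [orb_zpowers, hσ]
  exact ⟨fun h => h.symm, fun h => h.symm⟩

theorem exists_iterate (hσ : IsRot σ) {d d' : Dart E} (h : start E d = start E d') :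
    ∃ k < minimalPeriod σ d, σ^[k] d = d' := by
  obtain ⟨k, hk⟩ := ((hσ _ _).1 h).exists_nat_pow_eq
  refine ⟨k % minimalPeriod σ d, Nat.mod_lt _ (minimalPeriod_pos σ d), ?_⟩
  rw [iterate_mod_minimalPeriod_eq]
  exact hk

theorem dart_ext {d d' : Dart E} (hE : ∀ e ∈ E, e.1 ≠ e.2) (h1 : d.1 = d'.1)
    (h2 : start E d = start E d') : d = d' := by
  obtain ⟨i, b⟩ := d
  obtain ⟨k, b'⟩ := d'
  dsimp only at h1
  subst h1
  have h3 := hE _ (List.get_mem E i)
  unfold start at h2
  rcases b with _ | _ <;> rcases b' with _ | _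
  · rfl
  · exact absurd h2 h3
  · exact absurd h2.symm h3
  · rfl

theorem inc_iff {v : ℕ} {i : Fin E.length} : Inc v (E.get i) ↔ ∃ d : Dart E, d.1 = i ∧
    start E d = v := by
  constructor
  · rintro (h | h)
    · exact ⟨(i, false), rfl, h⟩
    · exact ⟨(i, true), rfl, h⟩
  · rintro ⟨⟨k, b⟩, rfl, rfl⟩
    rcases b with _ | _
    · exact Or.inl rfl
    · exact Or.inr rfl

theorem inc_start (d : Dart E) : Inc (start E d) (E.get d.1) := inc_iff.2 ⟨d, rfl, rfl⟩

theorem perm_cycle (hσ : IsRot σ) (hE : ∀ e ∈ E, e.1 ≠ e.2) (d : Dart E) :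
    ((List.range (minimalPeriod σ d)).map (fun i => (σ^[i] d).1)).Perm
      ((List.finRange E.length).filter (fun i => Inc (start E d) (E.get i))) := by
  rw [List.perm_ext_iff_of_nodup]
  · intro i
    rw [List.mem_map, List.mem_filter, decide_eq_true_iff, inc_iff]
    constructor
    · rintro ⟨k, _, rfl⟩
      exact ⟨List.mem_finRange _, _, rfl, start_iterate hσ d k⟩
    · rintro ⟨_, d', rfl, h⟩
      obtain ⟨k, hk, rfl⟩ := exists_iterate hσ h.symm
      exact ⟨k, List.mem_range.2 hk, rfl⟩
  · rw [List.nodup_map_iff_inj_on List.nodup_range]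
    intro i hi k hk h
    rw [List.mem_range] at hi hk
    have h1 : σ^[i] d = σ^[k] d := dart_ext hE h
      ((start_iterate hσ d i).trans (start_iterate hσ d k).symm)
    exact iterate_injOn_Iio_minimalPeriod hi hk h1
  · exact (List.nodup_finRange _).filter _

theorem cyc_eq_prod (hσ : IsRot σ) (hE : ∀ e ∈ E, e.1 ≠ e.2) {H : Type*} [Group H]
    (ξ : Fin E.length → H) (d : Dart E)
    (hc : ∀ i k, Inc (start E d) (E.get i) → Inc (start E d) (E.get k) → Commute (ξ i) (ξ k)) :
    cyc σ (fun d => ξ d.1) d =
      (((List.finRange E.length).filter (fun i => Inc (start E d) (E.get i))).map ξ).prod := by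
  unfold cyc
  have h1 : (List.range (minimalPeriod σ d)).map (fun i => ξ (σ^[i] d).1) =
      ((List.range (minimalPeriod σ d)).map (fun i => (σ^[i] d).1)).map ξ := by
    rw [List.map_map]; rfl
  rw [h1]
  refine ((perm_cycle hσ hE d).map ξ).prod_eq' ?_
  rw [List.pairwise_map]
  rw [List.pairwise_map]
  apply List.Pairwise.imp_of_mem _ (List.pairwise_of_forall (R := fun _ _ => True) (fun _ _ => trivial))
  intro i k _ _ _
  apply hc
  · rw [inc_iff]
    exact ⟨_, rfl, start_iterate hσ d i⟩
  · rw [inc_iff]
    exact ⟨_, rfl, start_iterate hσ d k⟩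

/-! ### a chain with given boundary away from the roots -/

/-- the boundary of an edge chain at `v` -/
def bd (e : Fin E.length → ZMod 2) (v : ℕ) : ZMod 2 :=
  (((List.finRange E.length).filter (fun i => Inc v (E.get i))).map e).sum

theorem bd_zero (v : ℕ) : bd (0 : Fin E.length → ZMod 2) v = 0 := by
  unfold bd
  apply List.sum_eq_zero
  intro x hx
  obtain ⟨i, -, rfl⟩ := List.mem_map.1 hx
  rfl

theorem bd_add (e e' : Fin E.length → ZMod 2) (v : ℕ) : bd (e + e') v = bd e v + bd e' v := by
  unfold bd
  rw [← List.sum_map_add]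
  rfl

theorem bd_single (i : Fin E.length) (v : ℕ) :
    bd (Pi.single i 1 : Fin E.length → ZMod 2) v = if Inc v (E.get i) then 1 else 0 := by
  have key : ∀ l : List (Fin E.length), l.Nodup →
      (l.map (Pi.single i 1 : Fin E.length → ZMod 2)).sum = if i ∈ l then 1 else 0 := by
    intro l
    induction l with
    | nil => intro _; simp
    | cons k l ih =>
      intro hl
      rw [List.nodup_cons] at hl
      rw [List.map_cons, List.sum_cons, ih hl.2]
      by_cases hk : i = k
      · subst hk
        simp [hl.1]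
      · rw [Pi.single_eq_of_ne (Ne.symm hk)]
        simp [hk]
  unfold bd
  rw [key _ ((List.nodup_finRange _).filter _)]
  simp

theorem start_turn_ne (hE : ∀ e ∈ E, e.1 ≠ e.2) (d : Dart E) : start E (turn E d) ≠ start E d := by
  intro h
  have h1 := dart_ext hE (turn_fst d) h
  obtain ⟨i, b⟩ := d
  rw [Prod.ext_iff] at h1
  have h2 : (!b) = b := h1.2
  cases b <;> simp at h2

theorem inc_iff_or (v : ℕ) (d : Dart E) : Inc v (E.get d.1) ↔ start E d = v ∨
    start E (turn E d) = v := by
  obtain ⟨i, b⟩ := d
  cases b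
  · exact Iff.rfl
  · exact or_comm

theorem exists_chain (hσ : IsRot σ) (hE : ∀ e ∈ E, e.1 ≠ e.2)
    {dep : MulAction.orbitRel.Quotient (Subgroup.zpowers σ) (Dart E) → ℕ}
    {par : MulAction.orbitRel.Quotient (Subgroup.zpowers σ) (Dart E) → Option (Dart E)}
    (hF : IsForest (tlV σ) (turn E) Set.univ dep par) (β : ℕ → ZMod 2) :
    ∃ c : Fin E.length → ZMod 2, ∀ v d, par v = some d → bd c (start E d) = β (start E d) := by
  classical
  have path : ∀ k v, dep v < k → par v ≠ none → ∃ e : Fin E.length → ZMod 2, ∀ v' d',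
      par v' = some d' → bd e (start E d') = if v' = v then 1 else 0 := by
    intro k
    induction k with
    | zero => intro v hv; omega
    | succ k ih =>
      intro v hv hp
      obtain ⟨d, hd⟩ := Option.ne_none_iff_exists'.1 hp
      obtain ⟨-, h1, h2⟩ := hF.par_some _ _ hd
      -- the contribution of the edge of `d`
      have hs : ∀ v' d', par v' = some d' → bd (Pi.single d.1 1 : Fin E.length → ZMod 2)
          (start E d') = (if v' = v then 1 else 0) + if v' = tlV σ (turn E d) then 1 else 0 := by
        intro v' d' hd'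
        obtain ⟨-, h3, -⟩ := hF.par_some _ _ hd'
        rw [bd_single]
        have e1 : v' = v ↔ start E d = start E d' := by
          rw [← h3, ← h1, tlV_iff hσ]
          exact ⟨fun h => h.symm, fun h => h.symm⟩
        have e2 : v' = tlV σ (turn E d) ↔ start E (turn E d) = start E d' := by
          rw [← h3, tlV_iff hσ]
          exact ⟨fun h => h.symm, fun h => h.symm⟩
        have h4 := inc_iff_or (start E d') d
        have h5 := start_turn_ne hE d
        by_cases ha : v' = v
        · have hb : v' ≠ tlV σ (turn E d) := by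
            intro hb
            rw [e2, ← e1.1 ha] at hb
            exact h5 hb
          rw [if_pos (h4.2 (Or.inl (e1.1 ha))), if_pos ha, if_neg hb, add_zero]
        · by_cases hb : v' = tlV σ (turn E d)
          · rw [if_pos (h4.2 (Or.inr (e2.1 hb))), if_neg ha, if_pos hb, zero_add]
          · rw [if_neg, if_neg ha, if_neg hb, add_zero]
            intro h
            rcases h4.1 h with h | h
            · exact ha (e1.2 h)
            · exact hb (e2.2 h)
      by_cases hr : par (tlV σ (turn E d)) = none
      · refine ⟨Pi.single d.1 1, fun v' d' hd' => ?_⟩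
        rw [hs v' d' hd', if_neg (c := v' = tlV σ (turn E d)), add_zero]
        rintro rfl
        rw [hr] at hd'
        exact Option.some_ne_none _ hd'.symm
      · obtain ⟨e, he⟩ := ih (tlV σ (turn E d)) (by omega) hr
        refine ⟨e + Pi.single d.1 1, fun v' d' hd' => ?_⟩
        rw [bd_add, he v' d' hd', hs v' d' hd']
        by_cases hb : v' = tlV σ (turn E d)
        · simp only [if_pos hb]
          have : (1 : ZMod 2) + 1 = 0 := by decide
          rw [add_comm _ (1 : ZMod 2), ← add_assoc, this, zero_add]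
        · simp only [if_neg hb]
          rw [zero_add, add_zero]
  have fin : ∀ s : Finset (MulAction.orbitRel.Quotient (Subgroup.zpowers σ) (Dart E)),
      ∃ c : Fin E.length → ZMod 2, ∀ v d, par v = some d →
        bd c (start E d) = if v ∈ s then β (start E d) else 0 := by
    intro s
    induction s using Finset.induction_on with
    | empty => exact ⟨0, fun v d _ => by rw [bd_zero]; simp⟩
    | insert v s hv ih =>
      obtain ⟨c, hc⟩ := ih
      by_cases hp : par v = none
      · refine ⟨c, fun v' d' hd' => ?_⟩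
        rw [hc v' d' hd']
        have : v' ≠ v := by
          rintro rfl
          rw [hp] at hd'
          exact Option.some_ne_none _ hd'.symm
        simp [this]
      · obtain ⟨d, hd⟩ := Option.ne_none_iff_exists'.1 hp
        obtain ⟨e, he⟩ := path (dep v + 1) v (Nat.lt_succ_self _) hp
        by_cases hb : β (start E d) = 0
        · refine ⟨c, fun v' d' hd' => ?_⟩
          rw [hc v' d' hd']
          by_cases hvv : v' = v
          · subst hvv
            have : d' = d := Option.some_inj.1 (hd'.symm.trans hd)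
            subst this
            rw [hb]
            simp
          · simp [hvv]
        · have hb1 : β (start E d) = 1 := by
            revert hb
            generalize β (start E d) = x
            revert x
            decide
          refine ⟨c + e, fun v' d' hd' => ?_⟩
          rw [bd_add, hc v' d' hd', he v' d' hd']
          by_cases hvv : v' = v
          · subst hvv
            have : d' = d := Option.some_inj.1 (hd'.symm.trans hd)
            subst this
            rw [hb1]
            simp [hv]
          · simp [hvv]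
  have : Fintype (MulAction.orbitRel.Quotient (Subgroup.zpowers σ) (Dart E)) :=
    Fintype.ofFinite _
  obtain ⟨c, hc⟩ := fin Finset.univ
  exact ⟨c, fun v d hd => by rw [hc v d hd]; simp⟩

end GIG
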