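import Pool.Agent.Lib.MP_262b4d_al.Sat

/-!
# The moves are primitive recursive
-/

namespace GIG

open Primrec

variable {α : Type*} [Primcodable α]

theorem pc_incB {v : α → ℕ} {e : α → ℕ × ℕ} (hv : Primrec v) (he : Primrec e) :
    Primrec fun p => incB (v p) (e p) := by
  have h1 : Primrec fun p => decide ((e p).1 = v p) := (Primrec.eq.comp (fst.comp he) hv).decide
  have h2 : Primrec fun p => decide ((e p).2 = v p) := (Primrec.eq.comp (snd.comp he) hv).decide
  unfold incB
  exact Primrec.or.comp h1 h2

theorem pc_getD {l : α → List Bool} {i : α → ℕ} (hl : Primrec l) (hi : Primrec i) :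
    Primrec fun p => (l p).getD (i p) false := (list_getD false).comp hl hi

theorem pc_xor {a b : α → Bool} (ha : Primrec a) (hb : Primrec b) :
    Primrec fun p => xor (a p) (b p) := (dom_bool₂ xor).comp ha hb

theorem pc_xr {k : α → ℕ} {a b : α → List Bool} (hk : Primrec k) (ha : Primrec a)
    (hb : Primrec b) : Primrec fun p => xr (k p) (a p) (b p) := by
  unfold xr
  have h1 : Primrec fun q : α × ℕ => (a q.1).getD q.2 false := pc_getD (ha.comp fst) snd
  have h2 : Primrec fun q : α × ℕ => (b q.1).getD q.2 false := pc_getD (hb.comp fst) snd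
  have hg : Primrec₂ fun (p : α) (i : ℕ) => xor ((a p).getD i false) ((b p).getD i false) :=
    pc_xor h1 h2
  exact list_map (list_range.comp hk) hg

theorem pc_len {c : α → Code} (hc : Primrec c) : Primrec fun p => (c p).2.1.length :=
  list_length.comp (fst.comp (snd.comp hc))

theorem pc_len1 {c : α → Code} (hc : Primrec c) : Primrec fun p => (c p).2.1.length + 1 :=
  Primrec.succ.comp (pc_len hc)

theorem pc_edge {c : α → Code} {i : α → ℕ} (hc : Primrec c) (hi : Primrec i) :
    Primrec fun p => (c p).2.1.getD (i p) (0, 0) :=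
  (list_getD (0, 0)).comp (fst.comp (snd.comp hc)) hi

theorem primrel_mem {β : Type*} [Primcodable β] : PrimrecRel fun (x : β) (L : List β) => x ∈ L := by
  have h : PrimrecRel fun (L : List β) (x : β) => ∃ a ∈ L, a = x :=
    PrimrecRel.exists_mem_list (R := fun a x => a = x) Primrec.eq
  exact (h.comp snd fst).of_eq fun p => by simp

theorem pc_kvec {c : α → Code} {v : α → ℕ} (hc : Primrec c) (hv : Primrec v) :
    Primrec fun p => kvec (c p) (v p) := by
  unfold kvec
  have hlt : Primrec fun q : α × ℕ => decide (v q.1 < (c q.1).1) :=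
    (nat_lt.comp (hv.comp fst) (fst.comp (hc.comp fst))).decide
  have hc' : PrimrecPred fun q : α × ℕ => q.2 < (c q.1).2.1.length :=
    nat_lt.comp snd (pc_len (hc.comp fst))
  have h1 : Primrec fun q : α × ℕ => incB (v q.1) ((c q.1).2.1.getD q.2 (0, 0)) :=
    pc_incB (hv.comp fst) (pc_edge (hc.comp fst) snd)
  have h2 : Primrec fun q : α × ℕ => decide (v q.1 ∈ (c q.1).2.2) :=
    (primrel_mem.comp (hv.comp fst) (snd.comp (snd.comp (hc.comp fst)))).decide
  have hg : Primrec₂ fun (p : α) (i : ℕ) => (decide (v p < (c p).1) &&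
      (if i < (c p).2.1.length then incB (v p) ((c p).2.1.getD i (0, 0))
        else decide (v p ∈ (c p).2.2))) := Primrec.and.comp hlt (Primrec.ite hc' h1 h2)
  exact list_map (list_range.comp (pc_len1 hc)) hg

theorem pc_uvec {c : α → Code} {e : α → ℕ} (hc : Primrec c) (he : Primrec e) :
    Primrec fun p => uvec (c p) (e p) := by
  unfold uvec
  have hg : Primrec₂ fun (p : α) (i : ℕ) => decide (i = e p) :=
    (Primrec.eq.comp snd (he.comp fst)).decide
  exact list_map (list_range.comp (pc_len1 hc)) hg

theorem pc_suppB {c : α → Code} {a : α → List Bool} {v w : α → ℕ} (hc : Primrec c)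
    (ha : Primrec a) (hv : Primrec v) (hw : Primrec w) :
    Primrec fun p => suppB (c p) (a p) (v p) (w p) := by
  have hR : PrimrecRel fun (i : ℕ) (p : α) =>
      (a p).getD i false = true → incB (v p) ((c p).2.1.getD i (0, 0)) = true ∧
        incB (w p) ((c p).2.1.getD i (0, 0)) = true := by
    have e0 : Primrec fun q : ℕ × α => (a q.2).getD q.1 false := pc_getD (ha.comp snd) fst
    have e : Primrec fun q : ℕ × α => (c q.2).2.1.getD q.1 (0, 0) := pc_edge (hc.comp snd) fst
    have e1 : Primrec fun q : ℕ × α => incB (v q.2) ((c q.2).2.1.getD q.1 (0, 0)) :=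
      pc_incB (hv.comp snd) e
    have e2 : Primrec fun q : ℕ × α => incB (w q.2) ((c q.2).2.1.getD q.1 (0, 0)) :=
      pc_incB (hw.comp snd) e
    have p0 : PrimrecPred fun q : ℕ × α => (a q.2).getD q.1 false = true :=
      Primrec.eq.comp e0 (const true)
    have p1 : PrimrecPred fun q : ℕ × α => incB (v q.2) ((c q.2).2.1.getD q.1 (0, 0)) = true :=
      Primrec.eq.comp e1 (const true)
    have p2 : PrimrecPred fun q : ℕ × α => incB (w q.2) ((c q.2).2.1.getD q.1 (0, 0)) = true :=
      Primrec.eq.comp e2 (const true)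
    exact (p0.not.or (p1.and p2)).of_eq fun q => imp_iff_not_or.symm
  unfold suppB
  exact (hR.forall_mem_list.comp (list_range.comp (pc_len hc)) Primrec.id).decide

theorem pc_zeroB {k : α → ℕ} {a : α → List Bool} (hk : Primrec k) (ha : Primrec a) :
    Primrec fun p => zeroB (k p) (a p) := by
  have hR : PrimrecRel fun (i : ℕ) (a : List Bool) => a.getD i false = false :=
    Primrec.eq.comp ((list_getD false).comp snd fst) (const false)
  unfold zeroB
  exact (hR.forall_mem_list.comp (list_range.comp hk) ha).decide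

theorem prim_allvecs : Primrec allvecs := by
  have h1 : Primrec₂ fun (_ : ℕ) (l : List (List Bool)) =>
      l.flatMap fun x => [false :: x, true :: x] := by
    have a1 : Primrec fun q : (ℕ × List (List Bool)) × List Bool => false :: q.2 :=
      list_cons.comp (const false) snd
    have a2 : Primrec fun q : (ℕ × List (List Bool)) × List Bool => true :: q.2 :=
      list_cons.comp (const true) snd
    have hg : Primrec₂ fun (_ : ℕ × List (List Bool)) (x : List Bool) =>
        [false :: x, true :: x] := list_cons.comp a1 (list_cons.comp a2 (const []))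
    exact list_flatMap snd hg
  refine (nat_rec₁ [[]] h1).of_eq fun k => ?_
  induction k with
  | zero => rfl
  | succ k ih => rw [allvecs, ← ih]

theorem pc_allvecs {k : α → ℕ} (hk : Primrec k) : Primrec fun p => allvecs (k p) :=
  prim_allvecs.comp hk

attribute [local irreducible] allvecs xr kvec uvec suppB zeroB

section Moves

variable {c : α → Code} {l l' : α → ℕ × List Bool} {W : α → CWord}
  (hc : Primrec c) (hl : Primrec l) (hl' : Primrec l') (hW : Primrec W)
include hc hl hW

theorem pc_hd1 : Primrec fun p => hd1 (c p) (l p) (W p) := by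
  unfold hd1
  have x1 := pc_xr (pc_len1 hc) (snd.comp hl) (pc_kvec hc (fst.comp hl))
  have x2 := pc_xr (pc_len1 hc) (snd.comp hl) (pc_uvec hc (pc_len hc))
  have y1 := (const false).pair (list_cons.comp ((fst.comp hl).pair x1) hW)
  have y2 := (const true).pair (list_cons.comp ((fst.comp hl).pair x2) hW)
  exact list_cons.comp y1 (list_cons.comp y2 (const []))

theorem pc_hd2 : Primrec fun p => hd2 (c p) (l p) (W p) := by
  unfold hd2
  have c1 : Primrec fun q : α × ℕ => suppB (c q.1) (l q.1).2 (l q.1).1 q.2 :=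
    pc_suppB (hc.comp fst) (snd.comp (hl.comp fst)) (fst.comp (hl.comp fst)) snd
  have c2 : PrimrecPred fun q : α × ℕ => suppB (c q.1) (l q.1).2 (l q.1).1 q.2 = true :=
    Primrec.eq.comp c1 (const true)
  have y : Primrec fun q : α × ℕ => [(false, ((q.2, (l q.1).2) :: W q.1 : CWord))] :=
    list_cons.comp ((const false).pair (list_cons.comp (snd.pair (snd.comp (hl.comp fst)))
      (hW.comp fst))) (const [])
  have hg : Primrec₂ fun (p : α) (w : ℕ) => (if suppB (c p) (l p).2 (l p).1 w then
      [(false, ((w, (l p).2) :: W p : CWord))] else []) := Primrec.ite c2 y (const [])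
  have hr : Primrec fun p : α => List.range (c p).1 := list_range.comp (fst.comp hc)
  exact list_flatMap hr hg

theorem pc_hd3 : Primrec fun p => hd3 (c p) (l p) (W p) := by
  unfold hd3
  have c1 : Primrec fun p => zeroB ((c p).2.1.length + 1) (l p).2 :=
    pc_zeroB (pc_len1 hc) (snd.comp hl)
  have y : Primrec fun p => [(false, W p)] := list_cons.comp ((const false).pair hW) (const [])
  exact Primrec.ite (Primrec.eq.comp c1 (const true)) y (const [])

include hl'

theorem pc_hd4 : Primrec fun p => hd4 (c p) (l p) (l' p) (W p) := by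
  unfold hd4
  have e : PrimrecPred fun p => (l p).1 = (l' p).1 := Primrec.eq.comp (fst.comp hl) (fst.comp hl')
  have x := pc_xr (pc_len1 hc) (snd.comp hl) (snd.comp hl')
  have y := list_cons.comp ((const false).pair (list_cons.comp ((fst.comp hl).pair x) hW))
    (const [])
  exact Primrec.ite e y (const [])

theorem pc_hd5 : Primrec fun p => hd5 (c p) (l p) (l' p) (W p) := by
  unfold hd5
  have hr : Primrec fun p : α => allvecs ((c p).2.1.length + 1) := pc_allvecs (pc_len1 hc)
  have c1 : Primrec fun q : α × List Bool => suppB (c q.1) q.2 (l q.1).1 (l' q.1).1 :=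
    pc_suppB (hc.comp fst) snd (fst.comp (hl.comp fst)) (fst.comp (hl'.comp fst))
  have x1 : Primrec fun q : α × List Bool => xr ((c q.1).2.1.length + 1) (l q.1).2 q.2 :=
    pc_xr (pc_len1 (hc.comp fst)) (snd.comp (hl.comp fst)) snd
  have x2 : Primrec fun q : α × List Bool => xr ((c q.1).2.1.length + 1) (l' q.1).2 q.2 :=
    pc_xr (pc_len1 (hc.comp fst)) (snd.comp (hl'.comp fst)) snd
  have y : Primrec fun q : α × List Bool =>
      [(false, (((l q.1).1, xr ((c q.1).2.1.length + 1) (l q.1).2 q.2) ::
        ((l' q.1).1, xr ((c q.1).2.1.length + 1) (l' q.1).2 q.2) :: W q.1 : CWord))] :=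
    list_cons.comp ((const false).pair (list_cons.comp ((fst.comp (hl.comp fst)).pair x1)
      (list_cons.comp ((fst.comp (hl'.comp fst)).pair x2) (hW.comp fst)))) (const [])
  have hg : Primrec₂ fun (p : α) (u : List Bool) => (if suppB (c p) u (l p).1 (l' p).1 then
      [(false, (((l p).1, xr ((c p).2.1.length + 1) (l p).2 u) ::
        ((l' p).1, xr ((c p).2.1.length + 1) (l' p).2 u) :: W p : CWord))] else []) :=
    Primrec.ite (Primrec.eq.comp c1 (const true)) y (const [])
  exact list_flatMap hr hg

theorem pc_hd4_5 : Primrec fun p => hd4 (c p) (l p) (l' p) (W p) ++ hd5 (c p) (l p) (l' p) (W p) :=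
  list_append.comp (pc_hd4 hc hl hl' hW) (pc_hd5 hc hl hl' hW)

omit hl'

theorem pc_hd45 : Primrec fun p => hd45 (c p) (l p) (W p) := by
  have h : Primrec₂ fun (p : α) (q : (ℕ × List Bool) × CWord) =>
      hd4 (c p) (l p) q.1 q.2 ++ hd5 (c p) (l p) q.1 q.2 :=
    pc_hd4_5 (hc.comp fst) (hl.comp fst) (fst.comp snd) (snd.comp snd)
  refine (list_casesOn hW (const []) h).of_eq fun p => ?_
  cases W p with
  | nil => rfl
  | cons l' W => rfl

theorem pc_hdall : Primrec fun p =>
    hd1 (c p) (l p) (W p) ++ hd2 (c p) (l p) (W p) ++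
      (hd3 (c p) (l p) (W p) ++ hd45 (c p) (l p) (W p)) :=
  list_append.comp (list_append.comp (pc_hd1 hc hl hW) (pc_hd2 hc hl hW))
    (list_append.comp (pc_hd3 hc hl hW) (pc_hd45 hc hl hW))

end Moves

theorem prim_mv : Primrec₂ mv := by
  have hg : Primrec fun _ : Code × CWord => ([] : List (Bool × CWord)) := const []
  have h1 : Primrec fun r : (Code × CWord) × ((ℕ × List Bool) × CWord × List (Bool × CWord)) =>
      hd1 r.1.1 r.2.1 r.2.2.1 ++ hd2 r.1.1 r.2.1 r.2.2.1 ++
        (hd3 r.1.1 r.2.1 r.2.2.1 ++ hd45 r.1.1 r.2.1 r.2.2.1) :=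
    pc_hdall (fst.comp fst) (fst.comp snd) (fst.comp (snd.comp snd))
  have hg5 : Primrec₂ fun (r : (Code × CWord) × ((ℕ × List Bool) × CWord ×
      List (Bool × CWord))) (s : Bool × CWord) => (s.1, (r.2.1 :: s.2 : CWord)) :=
    (fst.comp snd).pair (list_cons.comp (fst.comp (snd.comp fst)) (snd.comp snd))
  have hm : Primrec fun r : (Code × CWord) × ((ℕ × List Bool) × CWord × List (Bool × CWord)) =>
      r.2.2.2 := snd.comp (snd.comp snd)
  have h5 := list_map hm hg5
  have hh : Primrec₂ fun (p : Code × CWord) (q : (ℕ × List Bool) × CWord × List (Bool × CWord)) =>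
      (hd1 p.1 q.1 q.2.1 ++ hd2 p.1 q.1 q.2.1 ++ (hd3 p.1 q.1 q.2.1 ++ hd45 p.1 q.1 q.2.1)) ++
        q.2.2.map fun r => (r.1, q.1 :: r.2) := list_append.comp h1 h5
  have hr := list_rec (snd : Primrec fun p : Code × CWord => p.2) hg hh
  refine Primrec.of_eq hr fun p => ?_
  obtain ⟨c, W⟩ := p
  show _ = mv c W
  induction W with
  | nil => rfl
  | cons l W ih =>
    rw [mv, ← ih]

theorem pc_mv {c : α → Code} {W : α → CWord} (hc : Primrec c) (hW : Primrec W) :
    Primrec fun p => mv (c p) (W p) := prim_mv.comp hc hW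

end GIG
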