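import Pool.Agent.Lib.MP_262b4d_al.PRacg
import Pool.Agent.Lib.MP_262b4d_al.Prim

/-!
# A search which decides the word problem when the group is residually finite

Certificates for triviality: chains of insertions and deletions of relators. Certificates for
non-triviality: finite permutation representations.
-/

namespace GIG

open Relation

namespace Srch

/-- words in the generators (all of them are involutions) -/
abbrev U : Type := List (Option ℕ)

/-- the value of a word -/
def vl (n : ℕ) (E : List (ℕ × ℕ)) (B : List ℕ) (u : U) : Grp n E B := (u.map (gen n E B)).prod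

/-- the edge number `i` -/
def ed (c : Code) (i : ℕ) : ℕ × ℕ := c.2.1.getD i (0, 0)

/-- the two edges have a common end -/
def shB (e e' : ℕ × ℕ) : Bool := incB e.1 e' || incB e.2 e'

/-- the relators of the five kinds -/
def rl2 (c : Code) : List U := (List.range c.2.1.length).map (fun i => [some i, some i])

def rl3 (c : Code) : List U :=
  (List.range c.2.1.length).map (fun i => [some i, none, some i, none])

def rl4 (c : Code) : List U :=
  (List.range c.2.1.length).flatMap (fun i => (List.range c.2.1.length).flatMap
    (fun k => if shB (ed c i) (ed c k) then [[some i, some k, some i, some k]] else []))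

def star (c : Code) (v : ℕ) : U :=
  (List.range c.2.1.length).flatMap (fun i => if incB v (ed c i) then [some i] else [])

def rl5 (c : Code) : List U :=
  (List.range c.1).map (fun v => star c v ++ (if v ∈ c.2.2 then [none] else []))

/-- the relators -/
def rl (c : Code) : List U := [none, none] :: (rl2 c ++ (rl3 c ++ (rl4 c ++ rl5 c)))

/-- removal of the letters which do not name a generator -/
def cln (c : Code) (w : Wd) : U :=
  w.flatMap (fun s => if (Encodable.encode s.1) ≤ c.2.1.length then [s.1] else [])

/-! ### certificates of triviality -/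

/-- a move: insertion (`true`) or deletion (`false`) of the relator `r` between `p` and `q` -/
abbrev Mv : Type := Bool × U × U × U

def src (e : Mv) : U := if e.1 then e.2.1 ++ e.2.2.2 else e.2.1 ++ (e.2.2.1 ++ e.2.2.2)

def tgt (e : Mv) : U := if e.1 then e.2.1 ++ (e.2.2.1 ++ e.2.2.2) else e.2.1 ++ e.2.2.2

def dfl : Mv := (false, [], [], [])

/-- the chain `L` leads from `u` to the empty word -/
def OkA (c : Code) (u : U) (L : List Mv) : Prop :=
  src (L.getD 0 dfl) = u ∧ ∀ i ∈ List.range L.length, (L.getD i dfl).2.2.1 ∈ rl c ∧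
    tgt (L.getD i dfl) = src (L.getD (i + 1) dfl)

instance (c : Code) (u : U) (L : List Mv) : Decidable (OkA c u L) := by
  unfold OkA; infer_instance

/-! ### certificates of non-triviality -/

/-- the action of a letter -/
def act (T : List (List ℕ)) (s : Option ℕ) (x : ℕ) : ℕ := ((T.getD (Encodable.encode s) [])[x]?).getD x

/-- the action of a word -/
def aw (T : List (List ℕ)) (u : U) (x : ℕ) : ℕ := u.foldr (fun s y => act T s y) x

/-- the tables `T` of permutations of `{0, …, N-1}` represent the group, `x` is moved by `u` -/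
def OkB (c : Code) (u : U) (X : List (List ℕ) × ℕ × ℕ) : Prop :=
  (∀ t ∈ X.1, t.length ≤ X.2.1) ∧ (∀ r ∈ rl c, ∀ x ∈ List.range X.2.1, aw X.1 r x = x) ∧
    aw X.1 u X.2.2 ≠ X.2.2

instance (c : Code) (u : U) (X : List (List ℕ) × ℕ × ℕ) : Decidable (OkB c u X) := by
  unfold OkB; infer_instance

/-- certificates -/
abbrev Cert : Type := List Mv × List (List ℕ) × ℕ × ℕ

/-- the test -/
def test (p : Code × Wd) (k : ℕ) : Option Bool :=
  (Encodable.decode (α := Cert) k).bind (fun X =>
    if OkA p.1 (cln p.1 p.2) X.1 then some true else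
      if OkB p.1 (cln p.1 p.2) X.2 then some false else none)

/-- the algorithm -/
def alg (p : Code × Wd) : Part Bool := Nat.rfindOpt (test p)

/-! ### computability -/

section Prim

open Primrec

variable {α : Type*} [Primcodable α]

theorem pc_ed {c : α → Code} {i : α → ℕ} (hc : Primrec c) (hi : Primrec i) :
    Primrec fun p => ed (c p) (i p) := pc_edge hc hi

theorem pc_shB {e e' : α → ℕ × ℕ} (he : Primrec e) (he' : Primrec e') :
    Primrec fun p => shB (e p) (e' p) :=
  Primrec.or.comp (pc_incB (fst.comp he) he') (pc_incB (snd.comp he) he')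

theorem prim_rl2 : Primrec rl2 := by
  unfold rl2
  have hg : Primrec₂ fun (_ : Code) (i : ℕ) => ([some i, some i] : U) :=
    list_cons.comp (option_some.comp snd) (list_cons.comp (option_some.comp snd) (const []))
  exact list_map (list_range.comp (pc_len Primrec.id)) hg

theorem prim_rl3 : Primrec rl3 := by
  unfold rl3
  have hg : Primrec₂ fun (_ : Code) (i : ℕ) => ([some i, none, some i, none] : U) :=
    list_cons.comp (option_some.comp snd) (list_cons.comp (const none)
      (list_cons.comp (option_some.comp snd) (list_cons.comp (const none) (const []))))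
  exact list_map (list_range.comp (pc_len Primrec.id)) hg

theorem prim_rl4 : Primrec rl4 := by
  unfold rl4
  have h1 : Primrec fun q : (Code × ℕ) × ℕ => shB (ed q.1.1 q.1.2) (ed q.1.1 q.2) :=
    pc_shB (pc_ed (fst.comp fst) (snd.comp fst)) (pc_ed (fst.comp fst) snd)
  have h2 : Primrec fun q : (Code × ℕ) × ℕ =>
      ([[some q.1.2, some q.2, some q.1.2, some q.2]] : List U) := by
    have a : Primrec fun q : (Code × ℕ) × ℕ => some q.1.2 := option_some.comp (snd.comp fst)
    have b : Primrec fun q : (Code × ℕ) × ℕ => some q.2 := option_some.comp snd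
    exact list_cons.comp (list_cons.comp a (list_cons.comp b (list_cons.comp a
      (list_cons.comp b (const []))))) (const [])
  have h3 : PrimrecPred fun q : (Code × ℕ) × ℕ => shB (ed q.1.1 q.1.2) (ed q.1.1 q.2) = true :=
    Primrec.eq.comp h1 (const true)
  have h4 : Primrec₂ fun (p : Code × ℕ) (k : ℕ) =>
      (if shB (ed p.1 p.2) (ed p.1 k) then [[some p.2, some k, some p.2, some k]] else [] :
        List U) := Primrec.ite h3 h2 (const [])
  have h5 : Primrec₂ fun (c : Code) (i : ℕ) => (List.range c.2.1.length).flatMap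
    (fun k => if shB (ed c i) (ed c k) then ([[some i, some k, some i, some k]] : List U)
      else []) := list_flatMap (list_range.comp (pc_len fst)) h4
  exact list_flatMap (list_range.comp (pc_len Primrec.id)) h5

theorem prim_star : Primrec₂ star := by
  have h1 : Primrec fun q : (Code × ℕ) × ℕ => incB q.1.2 (ed q.1.1 q.2) :=
    pc_incB (snd.comp fst) (pc_ed (fst.comp fst) snd)
  have h3 : PrimrecPred fun q : (Code × ℕ) × ℕ => incB q.1.2 (ed q.1.1 q.2) = true :=
    Primrec.eq.comp h1 (const true)
  have h4 : Primrec₂ fun (p : Code × ℕ) (i : ℕ) =>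
      (if incB p.2 (ed p.1 i) then [some i] else [] : U) :=
    Primrec.ite h3 (list_cons.comp (option_some.comp snd) (const [])) (const [])
  exact list_flatMap (list_range.comp (pc_len fst)) h4

theorem prim_rl5 : Primrec rl5 := by
  unfold rl5
  have h1 : PrimrecPred fun q : Code × ℕ => q.2 ∈ q.1.2.2 :=
    primrel_mem.comp snd (snd.comp (snd.comp fst))
  have h2 : Primrec fun q : Code × ℕ => (if q.2 ∈ q.1.2.2 then [none] else [] : U) :=
    Primrec.ite h1 (const [none]) (const [])
  have hg : Primrec₂ fun (c : Code) (v : ℕ) =>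
      (star c v ++ (if v ∈ c.2.2 then [none] else []) : U) :=
    list_append.comp (prim_star.comp fst snd) h2
  exact list_map (list_range.comp fst) hg

theorem prim_rl : Primrec rl := by
  unfold rl
  exact list_cons.comp (const [none, none]) (list_append.comp prim_rl2
    (list_append.comp prim_rl3 (list_append.comp prim_rl4 prim_rl5)))

theorem prim_cln : Primrec₂ cln := by
  have h1 : PrimrecPred fun q : (Code × Wd) × (Option ℕ × Bool) =>
      Encodable.encode q.2.1 ≤ q.1.1.2.1.length :=
    nat_le.comp (Primrec.encode.comp (fst.comp snd)) (pc_len (fst.comp fst))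
  have hg : Primrec₂ fun (p : Code × Wd) (s : Option ℕ × Bool) =>
      (if Encodable.encode s.1 ≤ p.1.2.1.length then [s.1] else [] : U) :=
    Primrec.ite h1 (list_cons.comp (fst.comp snd) (const [])) (const [])
  exact list_flatMap snd hg

theorem prim_src : Primrec src := by
  unfold src
  exact Primrec.ite (Primrec.eq.comp fst (const true))
    (list_append.comp (fst.comp snd) (snd.comp (snd.comp snd)))
    (list_append.comp (fst.comp snd) (list_append.comp (fst.comp (snd.comp snd))
      (snd.comp (snd.comp snd))))

theorem prim_tgt : Primrec tgt := by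
  unfold tgt
  exact Primrec.ite (Primrec.eq.comp fst (const true))
    (list_append.comp (fst.comp snd) (list_append.comp (fst.comp (snd.comp snd))
      (snd.comp (snd.comp snd))))
    (list_append.comp (fst.comp snd) (snd.comp (snd.comp snd)))

theorem prim_OkA {c : α → Code} {u : α → U} {L : α → List Mv} (hc : Primrec c) (hu : Primrec u)
    (hL : Primrec L) : PrimrecPred fun p => OkA (c p) (u p) (L p) := by
  unfold OkA
  have g0 : Primrec fun p => (L p).getD 0 dfl := (list_getD dfl).comp hL (const 0)
  have h1 : PrimrecPred fun p => src ((L p).getD 0 dfl) = u p :=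
    Primrec.eq.comp (prim_src.comp g0) hu
  have gi : Primrec fun q : ℕ × α => (L q.2).getD q.1 dfl :=
    (list_getD dfl).comp (hL.comp snd) fst
  have gi' : Primrec fun q : ℕ × α => (L q.2).getD (q.1 + 1) dfl :=
    (list_getD dfl).comp (hL.comp snd) (Primrec.succ.comp fst)
  have r1 : PrimrecPred fun q : ℕ × α => ((L q.2).getD q.1 dfl).2.2.1 ∈ rl (c q.2) :=
    primrel_mem.comp (fst.comp (snd.comp (snd.comp gi))) (prim_rl.comp (hc.comp snd))
  have r2 : PrimrecPred fun q : ℕ × α => tgt ((L q.2).getD q.1 dfl) =
      src ((L q.2).getD (q.1 + 1) dfl) := Primrec.eq.comp (prim_tgt.comp gi) (prim_src.comp gi')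
  have hR : PrimrecRel fun (i : ℕ) (p : α) => ((L p).getD i dfl).2.2.1 ∈ rl (c p) ∧
      tgt ((L p).getD i dfl) = src ((L p).getD (i + 1) dfl) := r1.and r2
  exact h1.and (hR.forall_mem_list.comp (list_range.comp (list_length.comp hL)) Primrec.id)

theorem pc_act {T : α → List (List ℕ)} {s : α → Option ℕ} {x : α → ℕ} (hT : Primrec T)
    (hs : Primrec s) (hx : Primrec x) : Primrec fun p => act (T p) (s p) (x p) := by
  unfold act
  have h1 : Primrec fun p => (T p).getD (Encodable.encode (s p)) [] :=
    (list_getD []).comp hT (Primrec.encode.comp hs)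
  exact option_getD.comp (list_getElem?.comp h1 hx) hx

theorem pc_aw {T : α → List (List ℕ)} {u : α → U} {x : α → ℕ} (hT : Primrec T)
    (hu : Primrec u) (hx : Primrec x) : Primrec fun p => aw (T p) (u p) (x p) := by
  unfold aw
  have hh : Primrec₂ fun (p : α) (q : Option ℕ × ℕ) => act (T p) q.1 q.2 :=
    pc_act (hT.comp fst) (fst.comp snd) (snd.comp snd)
  exact list_foldr hu hx hh

theorem prim_OkB {c : α → Code} {u : α → U} {X : α → List (List ℕ) × ℕ × ℕ} (hc : Primrec c)
    (hu : Primrec u) (hX : Primrec X) : PrimrecPred fun p => OkB (c p) (u p) (X p) := by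
  unfold OkB
  have a0 : PrimrecRel fun (t : List ℕ) (p : α) => t.length ≤ (X p).2.1 :=
    nat_le.comp (list_length.comp fst) (fst.comp (snd.comp (hX.comp snd)))
  have a1 : PrimrecPred fun p => ∀ t ∈ (X p).1, t.length ≤ (X p).2.1 :=
    a0.forall_mem_list.comp (fst.comp hX) Primrec.id
  have b0 : PrimrecRel fun (x : ℕ) (q : U × α) => aw (X q.2).1 q.1 x = x :=
    Primrec.eq.comp (pc_aw (fst.comp (hX.comp (snd.comp snd))) (fst.comp snd) fst) fst
  have b1 : PrimrecRel fun (r : U) (p : α) => ∀ x ∈ List.range (X p).2.1, aw (X p).1 r x = x :=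
    b0.forall_mem_list.comp (list_range.comp (fst.comp (snd.comp (hX.comp snd)))) Primrec.id
  have b2 : PrimrecPred fun p => ∀ r ∈ rl (c p), ∀ x ∈ List.range (X p).2.1,
      aw (X p).1 r x = x := b1.forall_mem_list.comp (prim_rl.comp hc) Primrec.id
  have c1 : PrimrecPred fun p => ¬ aw (X p).1 (u p) (X p).2.2 = (X p).2.2 :=
    (Primrec.eq.comp (pc_aw (fst.comp hX) hu (snd.comp (snd.comp hX)))
      (snd.comp (snd.comp hX))).not
  exact a1.and (b2.and c1)

theorem prim_test : Primrec₂ test := by
  unfold test
  have h1 : Primrec fun q : ((Code × Wd) × ℕ) × Cert => q.1.1.1 := fst.comp (fst.comp fst)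
  have h2 : Primrec fun q : ((Code × Wd) × ℕ) × Cert => cln q.1.1.1 q.1.1.2 :=
    prim_cln.comp h1 (snd.comp (fst.comp fst))
  have h3 := prim_OkA h1 h2 (fst.comp snd)
  have h4 := prim_OkB h1 h2 (snd.comp snd)
  have hg : Primrec₂ fun (p : (Code × Wd) × ℕ) (X : Cert) =>
      (if OkA p.1.1 (cln p.1.1 p.1.2) X.1 then some true else
        if OkB p.1.1 (cln p.1.1 p.1.2) X.2 then some false else none : Option Bool) :=
    Primrec.ite h3 (const _) (Primrec.ite h4 (const _) (const _))
  exact option_bind (Primrec.decode.comp snd) hg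

theorem partrec_alg : Partrec alg := Partrec.rfindOpt prim_test.to_comp

end Prim

end Srch

end GIG
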