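import Pool.Agent.Lib.MP_262b4d_al.QRw

/-!
# The certificate for the Petersen graph: targets
-/

namespace GIG.Pet

/-- targets, part 1 -/
def targ1 : List Line := [
  ([4,11,1,11,1,4],[1,11,1,11],[1,10,1,10],[([],233,[1,11,1,4]),([],134,[11,1,4]),([0,13,3],220,
  [4]),([0,13,3],140,[]),([0,13],283,[1,11]),([0],246,[1,11]),([],251,[11,1,11]),([1],220,[11]),([1,
  10],247,[])],[([1],220,[11]),([1,10],247,[])]),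
  ([4,6,9,6,9,4],[5,2,5,2],[5,2,5,2],[([4,6,9,6],288,[]),([4,6],112,[]),([4],200,[5,2]),([],262,[2,
  5,2])],[]),
  ([4,7,5,7,5,4],[3,6,3,6],[3,6,3,6],[([],158,[7,5,4]),([3,6],225,[5,4]),([3,6,3,1],256,[]),([3,6,
  3],268,[])],[]),
  ([4,8,6,8,6,4],[6,8,6,8],[6,8,6,8],[([4,8,6,8],198,[]),([4,8,6],228,[5]),([4],150,[7,5]),([],250,
  [7,4,7,5]),([0,7],158,[]),([0],216,[6,8]),([],266,[8,6,8])],[]),
  ([4,9,7,9,7,4],[8,0,8,0],[8,0,8,0],[([],265,[7,9,7,4]),([3,7],106,[]),([3],211,[8,0]),([],279,[0,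
  8,0])],[]),
  ([4,0,8,0,8,4],[7,9,7,9],[7,9,7,9],[([],262,[8,0,8,4]),([5,8,0],222,[]),([],49,[9])],[]),
  ([0,11,1,11,1,0],[4,13,4,13],[4,13,4,13],[([0],220,[11,1,0]),([0,10],247,[1,0]),([0,10,1,10],268,
  []),([0],40,[]),([],253,[13,4,13])],[]),
  ([0,6,9,6,9,0],[2,5,2,5],[2,5,2,5],[([],251,[9,6,9,0]),([1,9,6],202,[]),([1],112,[5]),([],260,[5,
  2,5])],[]),
  ([0,7,5,7,5,0],[6,3,6,3],[6,3,6,3],[([0,7,5,7],264,[]),([0],46,[]),([],266,[3,6,3])],[]),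
  ([0,8,6,8,6,0],[4,7,4,7],[4,7,4,7],[([0,8,6,8],270,[]),([0,8,6],228,[]),([0],150,[7]),([],253,[7,
  4,7])],[]),
  ([0,9,7,9,7,0],[7,9,7,9],[7,9,7,9],[([0,9,7,9],212,[]),([0,9,7],227,[6]),([0,9,7],109,[]),([0,9],
  212,[7,9]),([0],227,[6,7,9]),([],259,[8,6,7,9]),([],152,[7,9])],[]),
  ([0,0,8,0,8,0],[8,0,8,0],[8,0,8,0],[([],318,[8,0,8,0])],[]),
  ([1,11,1,11,1,1],[1,11,1,11],[1,11,1,11],[([1,11,1,11],313,[])],[]),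
  ([1,6,9,6,9,1],[5,2,5,2],[5,2,5,2],[([],258,[9,6,9,1]),([0],38,[]),([],259,[2,5,2])],[]),
  ([1,7,5,7,5,1],[3,6,3,6],[3,6,3,6],[([],260,[5,7,5,1]),([2,5,7],201,[]),([],47,[6])],[]),
  ([1,8,6,8,6,1],[7,4,7,4],[7,4,7,4],[([1,8,6,8],254,[]),([1],28,[]),([],272,[4,7,4])],[]),
  ([1,9,7,9,7,1],[0,8,0,8],[0,8,0,8],[([1,9,7,9],274,[]),([1,9,7],227,[]),([1],106,[8]),([],258,[8,
  0,8])],[]),
  ([1,0,8,0,8,1],[9,7,9,7],[9,7,9,7],[([],268,[8,0,8,1]),([6,8,0],228,[]),([],55,[7])],[]),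
  ([2,11,1,11,1,2],[1,11,1,11],[1,10,1,10],[([],247,[1,11,1,2]),([1,10,1],220,[2]),([1,10,1,10],317,
  [])],[([1],220,[11]),([1,10],247,[])]),
  ([2,6,9,6,9,2],[9,6,9,6],[9,6,9,6],[([2,6,9,6],227,[]),([2,6,9],198,[8]),([],60,[5,8]),([3,5],88,
  []),([3],201,[9,6]),([],283,[6,9,6])],[]),
  ([2,7,5,7,5,2],[6,3,6,3],[6,3,6,3],[([],308,[5,7,5,2]),([1],31,[]),([],268,[3,6,3])],[]),
  ([2,8,6,8,6,2],[4,7,4,7],[4,7,4,7],[([],261,[6,8,6,2]),([3,6,8],208,[]),([],52,[7])],[]),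
  ([2,9,7,9,7,2],[8,0,8,0],[8,0,8,0],[([2,9,7,9],276,[]),([2,9],89,[]),([2],203,[8,0]),([],277,[0,8,
  0])],[]),
  ([2,0,8,0,8,2],[7,9,7,9],[7,9,7,9],[([2,0,8,0],281,[]),([],34,[])],[]),
  ([3,11,1,11,1,3],[4,13,4,13],[4,13,4,13],[([3],220,[11,1,3]),([3,10],247,[1,3]),([3,10,1],138,[]),
  ([3],24,[]),([],284,[13,4,13])],[]),
  ([3,6,9,6,9,3],[2,5,2,5],[2,5,2,5],[([],105,[6,9,3]),([2,5],211,[9,3]),([2,5,2,0],287,[]),([2,5,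
  2],259,[])],[]),
  ([3,7,5,7,5,3],[5,7,5,7],[5,7,5,7],[([3,7,5,7],199,[]),([3,7,5],212,[9]),([],74,[6,9]),([4,6],105,
  []),([4],208,[5,7]),([],262,[7,5,7])],[]),
  ([3,8,6,8,6,3],[7,4,7,4],[7,4,7,4],[([],280,[6,8,6,3]),([2,6],150,[]),([2],197,[7,4]),([],275,[4,
  7,4])],[]),
  ([3,9,7,9,7,3],[0,8,0,8],[0,8,0,8],[([],284,[7,9,7,3]),([4,7,9],216,[]),([4],89,[8]),([],250,[8,0,
  8])],[]),
  ([3,0,8,0,8,3],[9,7,9,7],[9,7,9,7],[([3,0,8,0],255,[]),([],26,[])],[])]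

/-- targets, part 2 -/
def targ2 : List Line := [
  ([11,11,1,11,1,11],[1,11,1,11],[1,11,1,11],[([],314,[1,11,1,11])],[]),
  ([11,6,9,6,9,11],[9,6,9,6],[9,6,9,6],[([],242,[9,6,9,11]),([9],246,[6,9,11]),([9,6],242,[9,11]),
  ([9,6,9],246,[11]),([9,6,9,6],314,[])],[]),
  ([11,7,5,7,5,11],[5,7,5,7],[5,7,5,7],[([],290,[5,7,5,11]),([],291,[7,5,11]),([],238,[5,11]),([5],
  241,[11]),([5,7],239,[])],[]),
  ([11,8,6,8,6,11],[7,4,7,4],[7,4,7,4],[([],148,[8,6,11]),([7,5],210,[6,11]),([7],205,[14,6,11]),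
  ([7,4,1],231,[11]),([7,4,1,8],306,[]),([7,4,1],223,[]),([7,4],272,[4])],[]),
  ([11,9,7,9,7,11],[9,7,9,7],[9,7,9,7],[([],271,[7,9,7,11]),([],249,[9,7,11]),([9],248,[7,11]),([9,
  7],249,[11]),([9,7,9],304,[])],[]),
  ([11,0,8,0,8,11],[0,8,0,8],[0,8,0,8],[([],2,[11]),([0,8,0,8],314,[])],[]),
  ([1,4,1,4],[6,9,6,9,7,5,7,5],[1,4,1,4],[],[([6,9],184,[5,7,5]),([6],226,[5,5,7,5]),([],198,[2,5,5,
  7,5]),([1,5,2],315,[7,5]),([1,5],308,[5]),([1],201,[5]),([1,4],197,[])]),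
  ([2,0,2,0],[7,5,7,5,8,6,8,6],[2,0,2,0],[],[([7,5],172,[6,8,6]),([7],196,[6,6,8,6]),([],212,[3,6,6,
  8,6]),([2,6,3],316,[8,6]),([2,6],280,[6]),([2],208,[6]),([2,0],211,[])]),
  ([2,4,2,4],[6,9,6,9,2,0,2,0],[2,4,2,4],[],[([6,9,6],227,[0,2,0]),([6,9],198,[8,0,2,0]),([6],67,[0,
  2,0]),([],198,[2,4,6,0,2,0]),([1,5,2,4],270,[2,0]),([1,5,2,4],272,[0]),([],65,[0]),([2,4,2],264,
  [])]),
  ([1,9,1,9],[0,8,0,8,2,4,2,4],[1,9,1,9],[],[([0,8,0],281,[4,2,4]),([0,8,0],283,[2,4]),([0,8,0],227,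
  [4]),([0,8],259,[8,4]),([0,8,5],222,[]),([0],133,[9]),([],251,[9,1,9])]),
  ([3,0,3,0],[9,7,9,7,2,0,2,0],[3,0,3,0],[],[([9,7,9],276,[0,2,0]),([9,7,9],268,[2,0]),([9],178,[2,
  0]),([],203,[8,2,0]),([3,0],281,[0])]),
  ([2,5,2,5],[1,9,1,9,3,0,3,0],[2,5,2,5],[],[([1,9,1],287,[0,3,0]),([1,9,1],262,[3,0]),([1,9,1],199,
  [0]),([1,9],268,[9,0]),([1,9,6],202,[]),([1],112,[5]),([],260,[5,2,5])]),
  ([3,1,3,1],[8,6,8,6,9,7,9,7],[3,1,3,1],[],[([8,6],183,[7,9,7]),([8],197,[7,7,9,7]),([],228,[4,7,7,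
  9,7]),([3,7,4],309,[9,7]),([3,7],265,[7]),([3],216,[7]),([3,1],225,[])]),
  ([3,6,3,6],[2,5,2,5,4,1,4,1],[3,6,3,6],[],[([2,5,2],256,[1,4,1]),([2,5,2],266,[4,1]),([2,5,2],198,
  [1]),([2,5],275,[5,1]),([2,5,7],201,[]),([],47,[6])]),
  ([4,7,4,7],[0,8,0,8,3,1,3,1],[4,7,4,7],[],[([0,8,0],255,[1,3,1]),([0,8,0],275,[3,1]),([0,8,0],216,
  [1]),([0,8],266,[8,1]),([0,8,6],228,[]),([0],150,[7]),([],253,[7,4,7])]),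
  ([5,12,5,12],[8,6,8,6,0,8,0,8],[5,12,5,12],[],[([8,6,8],270,[8,0,8]),([8,6],228,[8,0,8]),([],150,
  [7,8,0,8]),([5,7,4],219,[0,8]),([5],61,[8]),([5,11,3,1],257,[]),([5,11,3],194,[]),([5],166,[12])]),
  ([6,10,6,10],[9,7,9,7,1,9,1,9],[6,10,6,10],[],[([9,7,9],274,[9,1,9]),([9,7],227,[9,1,9]),([],106,
  [8,9,1,9]),([6,8,0],223,[1,9]),([6],50,[9]),([6,10,0,2],302,[]),([6,10,0],247,[]),([6,10],266,
  [10])]),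
  ([7,13,7,13],[7,5,7,5,5,12,5,12],[7,13,7,13],[],[([7,5,7],315,[12,5,12]),([7],188,[5,12]),([7,14],
  203,[12]),([7],192,[0,12]),([7,13],119,[])]),
  ([8,5,8,5],[6,9,6,9,3,0,3,0],[8,5,8,5],[],[([6,9,6],287,[0,3,0]),([6,9],198,[0,3,0]),([6,9,1],264,
  [3,0]),([6,9,1],285,[0]),([6,9,1],202,[]),([],76,[5])]),
  ([8,11,8,11],[6,9,6,9,3,6,3,6],[8,11,8,11],[],[([6,9,6],287,[6,3,6]),([6,9],198,[6,3,6]),([6,9,1],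
  205,[3,6]),([6,9,1],53,[]),([],76,[12,5,12]),([8],155,[5,12]),([8,10],197,[12]),([8,10,1],232,[]),
  ([8],138,[11])]),
  ([9,14,9,14],[7,5,7,5,4,7,4,7],[9,14,9,14],[],[([7,5,7],256,[7,4,7]),([7,5],212,[7,4,7]),([7,5,2],
  200,[4,7]),([7],41,[7]),([7,14,9],151,[]),([7,14],226,[6,10]),([7],207,[2,6,10]),([],301,[0,2,6,
  10]),([],98,[6,10]),([9,13],211,[10]),([9],42,[])]),
  ([10,0,10,0],[11,1,11,1,2,4,2,4],[10,0,10,0],[],[([],220,[11,1,2,4,2,4]),([10],247,[1,2,4,2,4]),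
  ([10,1,10],272,[4,2,4]),([10,1],303,[4,2,4]),([10,1],167,[4]),([10],258,[14,4]),([10,0],207,[])]),
  ([10,3,10,3],[11,1,11,1,1,9,1,9],[10,3,10,3],[],[([],220,[11,1,1,9,1,9]),([10],247,[1,1,9,1,9]),
  ([10,1,10],313,[9,1,9]),([10,1],248,[1,9]),([10],260,[12,1,9]),([10,2],96,[]),([10],261,[10,3])]),
  ([11,0,11,0],[11,1,11,1,2,5,2,5],[11,0,11,0],[],[([],220,[11,1,2,5,2,5]),([10],247,[1,2,5,2,5]),
  ([10,1,10],272,[5,2,5]),([10,1],303,[5,2,5]),([10,1],241,[2,5]),([10],260,[14,2,5]),([10,2],209,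
  [5]),([10,2],101,[]),([],135,[11,0])]),
  ([11,3,11,3],[11,1,11,1,1,4,1,4],[11,3,11,3],[],[([],220,[11,1,1,4,1,4]),([10],247,[1,1,4,1,4]),
  ([10,1,10],313,[4,1,4]),([10,1],107,[4]),([],137,[12,4]),([11,3],236,[])]),
  ([12,0,12,0],[11,1,11,1,8,5,8,5],[12,0,12,0],[],[([],220,[11,1,8,5,8,5]),([10],247,[1,8,5,8,5]),
  ([10,1],137,[5,8,5]),([10,1],165,[8,5]),([10],195,[0,8,5]),([10,0],214,[8,5]),([10,0],128,[5]),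
  ([],110,[10,3,5]),([13],218,[3,5]),([],215,[11,3,5]),([12,0],165,[])]),
  ([12,2,12,2],[11,1,11,1,6,10,6,10],[12,2,12,2],[],[([],220,[11,1,6,10,6,10]),([10],247,[1,6,10,6,
  10]),([10,1,10],258,[10,6,10]),([10,1],18,[10]),([10],260,[12,2,12,10]),([10,2,12,2],244,[]),([10,
  2],115,[7]),([],135,[10,0,7]),([],17,[])]),
  ([13,2,13,2],[11,1,11,1,6,9,6,9],[13,2,13,2],[],[([],220,[11,1,6,9,6,9]),([10],247,[1,6,9,6,9]),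
  ([10,1,10],258,[9,6,9]),([10,1],110,[6,9]),([10],194,[2,6,9]),([10,0],122,[9]),([],110,[10,0,9]),
  ([13],218,[0,9]),([],215,[11,0,9]),([12,0],97,[]),([],126,[13,2])]),
  ([13,4,13,4],[6,9,6,9,11,0,11,0],[13,4,13,4],[],[([6,9,6],298,[0,11,0]),([6,9],295,[0,11,0]),([6,
  9],214,[11,0]),([6],294,[1,11,0]),([6],220,[11,0]),([6,10],247,[0]),([],35,[])]),
  ([14,1,14,1],[11,1,11,1,8,11,8,11],[14,1,14,1],[],[([],220,[11,1,8,11,8,11]),([10],247,[1,8,11,8,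
  11]),([10,1],137,[11,8,11]),([10],92,[11,8,11]),([10,0,13],233,[8,11]),([10,0,13,3],210,[11]),
  ([10,0],121,[14,11]),([10],253,[11,0,14,11]),([10],233,[0,14,11]),([10],104,[14,11]),([10,2,14,1],
  239,[]),([10,2],94,[7]),([10],261,[11,3,7]),([],10,[])])]

/-- targets, part 3 -/
def targ3 : List Line := [
  ([11,1,11,1,6,9,6,9],[6,9,6,9,11,1,11,1],[13,2,13,2],[([],220,[11,1,6,9,6,9]),([10],247,[1,6,9,6,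
  9]),([10,1,10],258,[9,6,9]),([10,1],110,[6,9]),([10],194,[2,6,9]),([10,0],122,[9]),([],110,[10,0,
  9]),([13],218,[0,9]),([],215,[11,0,9]),([12,0],97,[]),([],126,[13,2])],[([6,9,6],298,[1,11,1]),
  ([6,9],295,[1,11,1]),([6,9],215,[11,1]),([6],294,[0,11,1]),([6,11,0],220,[]),([],79,[2])]),
  ([11,1,11,1,7,5,7,5],[7,5,7,5,11,1,11,1],[11,0,8,11,8,0],[([],220,[11,1,7,5,7,5]),([10],247,[1,7,
  5,7,5]),([10,1,10],260,[5,7,5]),([10,1],95,[7,5]),([10,1,9,13],158,[]),([10,1,9],121,[8]),([10,1],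
  203,[11,0,8]),([],138,[0,11,0,8]),([11],6,[])],[([7,5,7,5],220,[11,1]),([7,5,7],289,[2,11,1]),([7,
  5,7],209,[11,1]),([7,5,7,13,3],220,[]),([],1,[])]),
  ([11,1,11,1,8,6,8,6],[8,6,8,6,11,1,11,1],[10,0,8,11,3,6],[([],220,[11,1,8,6,8,6]),([10],247,[1,8,
  6,8,6]),([10,1],137,[6,8,6]),([10],92,[6,8,6]),([10,0],99,[8,6]),([10,0,8],137,[6])],[([8,6],185,
  [1,11,1]),([8,6,14],130,[1]),([8,6],207,[8,10,1]),([],12,[1]),([10,0,8,12],201,[]),([10,0,8],236,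
  [6])]),
  ([11,1,11,1,9,7,9,7],[9,7,9,7,11,1,11,1],[9,7,12,1,10,1],[([],220,[11,1,9,7,9,7]),([10],247,[1,9,
  7,9,7]),([10,1,10],91,[9,7]),([10,1,10,0,8],196,[7]),([10,1],48,[3,7]),([],137,[6,10,6,3,7]),([11,
  3,6],44,[]),([11,3],200,[9,14,1]),([],166,[2,9,14,1]),([],39,[14,1]),([9,7,13],190,[1]),([9,7],
  214,[10,1])],[([9,7,9],273,[1,11,1]),([9,7],189,[11,1]),([9,7,12],247,[1])]),
  ([11,1,11,1,0,8,0,8],[0,8,0,8,11,1,11,1],[5,12,1,10,0,8],[([],220,[11,1,0,8,0,8]),([10],247,[1,0,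
  8,0,8]),([10,1,10],268,[8,0,8]),([],40,[8,0,8]),([5,13,4],267,[0,8]),([5,13],190,[0,8]),([5],214,
  [10,0,8])],[([0,8,0,8],220,[11,1]),([0],22,[2,11,1]),([0,3,7,12,5],247,[1]),([0,3,7,12],201,[10,
  1]),([0,3,7],236,[6,10,1]),([0,3],273,[3,6,10,1]),([0,3,10],43,[]),([],82,[11,0,8]),([5,12],247,
  [0,8])]),
  ([6,9,6,9,7,5,7,5],[7,5,7,5,6,9,6,9],[1,4,1,4],[([6,9],184,[5,7,5]),([6],226,[5,5,7,5]),([],198,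
  [2,5,5,7,5]),([1,5,2],315,[7,5]),([1,5],308,[5]),([1],201,[5]),([1,4],197,[])],[([7,5,7],205,[9,6,
  9]),([7,5],69,[6,9]),([7,5,11,8],242,[9]),([7,5,11],223,[13,9]),([7,5],221,[4,13,9]),([7],289,[1,
  4,13,9]),([7],93,[13,9]),([],219,[12,5,13,9]),([1,3],147,[9]),([1],284,[1,3,9]),([1,4,1],284,[])]),
  ([6,9,6,9,8,6,8,6],[8,6,8,6,6,9,6,9],[8,0,7,4,6,9],[([6,9,6],226,[6,8,6]),([6,9],198,[2,6,8,6]),
  ([6],3,[]),([],316,[8,0,7,4,6,9])],[([8,6,8],316,[9,6,9]),([8,6],223,[6,9]),([8],208,[4,6,9])]),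
  ([6,9,6,9,9,7,9,7],[9,7,9,7,6,9,6,9],[6,3,5,2,9,7],[([6,9,6],312,[7,9,7]),([6,9],200,[9,7]),([6],
  202,[2,9,7])],[([9,7,9],211,[9,6,9]),([9,7],227,[0,9,6,9]),([],106,[8,0,9,6,9]),([6,8,0],14,[]),
  ([6,8],251,[9,1,5,7]),([6],228,[9,1,5,7]),([6,3],89,[5,7]),([6,3,5,8],253,[7]),([6,3,5],222,[7])]),
  ([6,9,6,9,0,8,0,8],[0,8,0,8,6,9,6,9],[0,2,4,8,0,9],[([6,9,6],202,[8,0,8]),([6],112,[5,8,0,8]),([],
  200,[5,2,5,8,0,8]),([0,2,5],88,[0,8]),([0,2],201,[9,6,0,8]),([0,2,4,6,9],270,[8]),([0,2,4],75,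
  [])],[([0,8,0],183,[6,9]),([0,8],253,[7,6,9]),([0],222,[7,6,9]),([0,2,9],211,[9]),([0,2],227,[0,
  9])]),
  ([7,5,7,5,8,6,8,6],[8,6,8,6,7,5,7,5],[2,0,2,0],[([7,5],172,[6,8,6]),([7],196,[6,6,8,6]),([],212,
  [3,6,6,8,6]),([2,6,3],316,[8,6]),([2,6],280,[6]),([2],208,[6]),([2,0],211,[])],[([8,6,8],200,[5,7,
  5]),([8,6],77,[7,5]),([8,6,14,9],238,[5]),([8,6,14],203,[11,5]),([8,6],192,[0,11,5]),([8],296,[2,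
  0,11,5]),([8],118,[11,5]),([],223,[10,6,11,5]),([2],191,[6,11,5]),([2,0],231,[11,5]),([2,0,8],306,
  [5]),([2,0],223,[5]),([2,0,2],250,[])]),
  ([7,5,7,5,9,7,9,7],[9,7,9,7,7,5,7,5],[9,1,8,0,7,5],[([7,5,7],196,[7,9,7]),([7,5],212,[3,7,9,7]),
  ([],0,[])],[([9,7,9],309,[5,7,5]),([9,7],203,[7,5]),([9],216,[0,7,5])]),
  ([7,5,7,5,0,8,0,8],[0,8,0,8,7,5,7,5],[1,3,0,2,6,8],[([7,5,7],264,[8,0,8]),([],46,[8,0,8]),([1,3,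
  6],280,[0,8]),([1,3],208,[0,8]),([1,3,0],212,[8])],[([0,8,0],225,[5,7,5]),([0],36,[7,5]),([0,13,7,
  13],158,[]),([0],63,[6,8]),([],251,[3,0,2,6,8])]),
  ([8,6,8,6,9,7,9,7],[9,7,9,7,8,6,8,6],[3,1,3,1],[([8,6],183,[7,9,7]),([8],197,[7,7,9,7]),([],228,
  [4,7,7,9,7]),([3,7,4],309,[9,7]),([3,7],265,[7]),([3],216,[7]),([3,1],225,[])],[([9,7,9],219,[6,8,
  6]),([9],89,[3,6,8,6]),([],203,[8,0,3,6,8,6]),([3,0,8],71,[6]),([3,0],170,[5,6]),([3],251,[9,5,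
  6]),([3,1],203,[6]),([3,1,3],251,[])]),
  ([8,6,8,6,0,8,0,8],[0,8,0,8,8,6,8,6],[5,12,5,12],[([8,6,8],270,[8,0,8]),([8,6],228,[8,0,8]),([],
  150,[7,8,0,8]),([5,7,4],219,[0,8]),([5],61,[8]),([5,11,3,1],257,[]),([5,11,3],194,[]),([5],166,
  [12])],[([0,8,0],310,[6,8,6]),([0,8],251,[8,6]),([0],228,[8,6]),([0,3],219,[6]),([],13,[])]),
  ([9,7,9,7,0,8,0,8],[0,8,0,8,9,7,9,7],[0,2,0,2,9,14,9,14],[([9,7,9],212,[8,0,8]),([9,7],227,[6,8,0,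
  8]),([],106,[8,6,8,0,8]),([6],20,[8,0,8]),([],208,[9,7,9,8,0,8]),([0,7,9,7],226,[0,8]),([0,7],106,
  [2,0,8]),([0],211,[8,0,2,0,8]),([0,2,0],4,[])],[([0,8,0],223,[7,9,7]),([0],5,[9,7]),([0,2,6,14,9],
  151,[]),([0,2,6,14],226,[6,10]),([0,2,6],207,[2,6,10]),([0,2,6],11,[]),([0,2],200,[9,14,9,14])]),
  ([4,0,4,0],[],[],[([],262,[4,0]),([],256,[0]),([],318,[])],[]),
  ([4,1,4,1],[4,1,4,1],[4,1,4,1],[],[]),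
  ([4,2,4,2],[4,2,4,2],[4,2,4,2],[],[]),
  ([4,3,4,3],[],[],[([],285,[4,3]),([],288,[3]),([],311,[])],[]),
  ([4,11,4,11],[3,11,3,11],[3,11,3,11],[([],233,[4,11]),([3],236,[11])],[]),
  ([0,1,0,1],[],[],[([],266,[0,1]),([],270,[1]),([],313,[])],[]),
  ([0,2,0,2],[0,2,0,2],[0,2,0,2],[],[]),
  ([0,3,0,3],[0,3,0,3],[0,3,0,3],[],[]),
  ([0,11,0,11],[0,11,0,11],[0,11,0,11],[],[]),
  ([1,2,1,2],[],[],[([],272,[1,2]),([],274,[2]),([],317,[])],[]),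
  ([1,3,1,3],[1,3,1,3],[1,3,1,3],[],[]),
  ([1,11,1,11],[1,11,1,11],[1,11,1,11],[],[]),
  ([2,3,2,3],[],[],[([],277,[2,3]),([],281,[3]),([],311,[])],[]),
  ([2,11,2,11],[1,11,1,11],[1,10,1,10],[([],247,[2,11]),([1,10],247,[])],[([1],220,[11]),([1,10],
  247,[])]),
  ([3,11,3,11],[3,11,3,11],[3,11,3,11],[],[])]

end GIG.Pet
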