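import Pool.Agent.Lib.MP_262b4d_al.QDataA
import Pool.Agent.Lib.MP_262b4d_al.QDataB

/-!
# The certificate for the Petersen graph: the check
-/

namespace GIG.Pet

/-- the edges at the ten vertices of the Petersen graph -/
def stars : List (ℕ × ℕ × ℕ) :=
  [(0, 4, 5), (0, 1, 6), (1, 2, 7), (2, 3, 8), (3, 4, 9), (5, 10, 14), (6, 12, 13), (7, 10, 11),
    (8, 13, 14), (9, 11, 12)]

/-- all lemmas -/
def cert : List Line := cert1 ++ (cert2 ++ (cert3 ++ (cert4 ++ (cert5 ++ (cert6 ++ (cert7 ++ cert8))))))

/-- all targets -/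
def targ : List Line := targ1 ++ (targ2 ++ targ3)

/-- the final table -/
def tbl : List Eqn := ext cert (base 15 stars)

theorem cert_ok : chk cert (base 15 stars) = true := by decide +kernel

theorem targ_ok : cons tbl targ = true := by decide +kernel

end GIG.Pet
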