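import Pool.Agent.Lib.MP_262b4d_al.QRoots

/-!
# The uncoloured group of the Petersen graph embeds in the sixth power of the infinite dihedral group
-/

namespace GIG.Pet

open DihedralGroup Multiplicative

/-- the infinite dihedral group -/
abbrev D : Type := DihedralGroup 0

/-- table of the images of the edges in the sixth power of `D` -/
def imT : List (List ℕ) := [[1, 0, 1, 0, 2, 2], [1, 2, 0, 1, 0, 2], [1, 2, 2, 0, 1, 0],
  [1, 0, 2, 2, 0, 1], [1, 1, 0, 2, 2, 0], [0, 1, 1, 2, 0, 2], [0, 2, 1, 1, 2, 0],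
  [0, 0, 2, 1, 1, 2], [0, 2, 0, 2, 1, 1], [0, 1, 2, 0, 2, 1], [2, 1, 0, 0, 1, 2],
  [2, 1, 2, 1, 0, 0], [2, 0, 0, 1, 2, 1], [2, 2, 1, 0, 0, 1], [2, 0, 1, 2, 1, 0]]

/-- `1` and the two generating reflections -/
def cd : ℕ → D
  | 0 => 1
  | 1 => sr 0
  | _ => sr 1

/-- the image of the edge number `i` -/
def im (i : ℕ) (h : Fin 6) : D := cd ((imT.getD i []).getD h 0)

/-- the coordinates of the images of the six words -/
def bv : Fin 6 → Fin 6 → ℤ :=
  ![![-2, 2, 0, 0, 0, 0], ![0, -2, 2, 0, 0, 0], ![0, 0, -2, 2, 0, 0], ![0, 0, 0, -2, 2, 0],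
    ![0, 0, 0, 0, -2, 2], ![0, 0, 0, 0, -2, -2]]


/-- rotations -/
def rr (i : ℤ) : D := r i

theorem rr_add (i j : ℤ) : rr (i + j) = rr i * rr j := rfl

theorem rr_zero : rr 0 = 1 := rfl

theorem rr_inj {i j : ℤ} (h : rr i = rr j) : i = j := by
  unfold rr at h
  exact DihedralGroup.r.inj h

/-- reduction of the rotation numbers -/
def cm (m : ℕ) : ZMod 0 →+* ZMod m := ZMod.castHom (dvd_zero m) (ZMod m)

/-- reduction of the infinite dihedral group -/
def red (m : ℕ) : D →* DihedralGroup m where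
  toFun
    | r i => r (cm m i)
    | sr i => sr (cm m i)
  map_one' := by
    show r (cm m 0) = r 0
    rw [map_zero]
  map_mul' a b := by
    rcases a with i | i <;> rcases b with j | j
    · show r (cm m (i + j)) = r (cm m i) * r (cm m j)
      rw [map_add, r_mul_r]
    · show sr (cm m (j - i)) = r (cm m i) * sr (cm m j)
      rw [map_sub, r_mul_sr]
    · show sr (cm m (i + j)) = sr (cm m i) * r (cm m j)
      rw [map_add, sr_mul_r]
    · show r (cm m (j - i)) = sr (cm m i) * sr (cm m j)
      rw [map_sub, sr_mul_sr]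

/-- parity of the rotation number -/
def pr2 : DihedralGroup 2 →* Multiplicative (ZMod 2) where
  toFun
    | r i => ofAdd i
    | sr i => ofAdd i
  map_one' := rfl
  map_mul' := by decide

/-- reflection or rotation -/
def sg : D →* Multiplicative (ZMod 2) where
  toFun
    | r _ => 1
    | sr _ => ofAdd 1
  map_one' := rfl
  map_mul' a b := by
    rcases a with i | i <;> rcases b with j | j
    · rfl
    · rfl
    · rfl
    · show (1 : Multiplicative (ZMod 2)) = ofAdd 1 * ofAdd 1
      decide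

/-- parity of the rotation number -/
def pr : D →* Multiplicative (ZMod 2) := pr2.comp (red 2)

/-- coordinate functions -/
def cx (h : Fin 6) (b : Bool) : (Fin 6 → D) →* Multiplicative (ZMod 2) :=
  (if b then pr else sg).comp (Pi.evalMonoidHom (fun _ => D) h)

/-- a homomorphism to the sixth power of the group of order two -/
def sm : (Fin 6 → D) →* (Fin 6 → Multiplicative (ZMod 2)) :=
  MonoidHom.pi ![cx 0 false * cx 2 true * cx 5 true, cx 2 false * cx 2 true,
    cx 0 false * cx 1 false * cx 5 false, cx 4 false * cx 4 true, cx 5 false * cx 5 true, cx 0 true]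

theorem sm_gn : ∀ k : Fin 6, sm (im (gn k)) = Pi.mulSingle k (ofAdd 1) := by decide

theorem val_im : ∀ k h : Fin 6, val im (bw k) h = rr (bv k h) := by decide

/-- the universal property of a group of order two -/
def two {G : Type*} [Group G] (x : G) (h : x * x = 1) : Multiplicative (ZMod 2) →* G where
  toFun b := if b = 1 then 1 else x
  map_one' := if_pos rfl
  map_mul' a b := by
    have key : ∀ a b : Multiplicative (ZMod 2), (a = 1 ∨ a ≠ 1 ∧ b = 1) ∨
        (a ≠ 1 ∧ b ≠ 1 ∧ a * b = 1) := by decide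
    rcases key a b with (h1 | ⟨h1, h2⟩) | ⟨h1, h2, h3⟩
    · rw [h1, one_mul, if_pos rfl, one_mul]
    · rw [h2, mul_one, if_pos rfl, mul_one]
    · rw [h3, if_pos rfl, if_neg h1, if_neg h2, h]

theorem two_gen {G : Type*} [Group G] (x : G) (h : x * x = 1) : two x h (ofAdd 1) = x := by
  have h1 : (ofAdd 1 : Multiplicative (ZMod 2)) ≠ 1 := by decide
  show (if (ofAdd 1 : Multiplicative (ZMod 2)) = 1 then (1 : G) else x) = x
  rw [if_neg h1]

/-- generators and relations of the group -/
structure Pres {G : Type*} [Group G] (v : ℕ → G) : Prop where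
  sq : ∀ i, v i * v i = 1
  triv : ∀ i, 15 ≤ i → v i = 1
  st : ∀ s ∈ stars, v s.1 * v s.2.1 * v s.2.2 = 1 ∧ v s.1 * v s.2.1 = v s.2.1 * v s.1
  gen : Subgroup.closure (Set.range v) = ⊤

namespace Pres

variable {G : Type*} [Group G] {v : ℕ → G} (hv : Pres v)

include hv

theorem inv (i : ℕ) : (v i)⁻¹ = v i := inv_eq_of_mul_eq_one_left (hv.sq i)

theorem holds : Holds v eqs := by
  apply eqs_holds
  refine holds_base (fun i _ => hv.sq i) ?_
  intro s hs
  have hlt : ∀ s ∈ stars, s.1 < 15 ∧ s.2.1 < 15 ∧ s.2.2 < 15 := by decide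
  obtain ⟨h1, h2, h3⟩ := hlt s hs
  exact ⟨h1, h2, h3, hv.st s hs⟩

theorem third {H : Subgroup G} (a b c : ℕ) (hs : (a, b, c) ∈ stars) :
    (v a ∈ H → v b ∈ H → v c ∈ H) ∧ (v a ∈ H → v c ∈ H → v b ∈ H) ∧
      (v b ∈ H → v c ∈ H → v a ∈ H) := by
  have h := (hv.st _ hs).1
  dsimp only at h
  have hc : v c = (v a * v b)⁻¹ := (inv_eq_of_mul_eq_one_right h).symm
  refine ⟨fun ha hb => ?_, fun ha hc' => ?_, fun hb hc' => ?_⟩
  · rw [hc]; exact H.inv_mem (H.mul_mem ha hb)
  · have : v b = (v a)⁻¹ * (v c)⁻¹ := by rw [hc]; group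
    rw [this]; exact H.mul_mem (H.inv_mem ha) (H.inv_mem hc')
  · have : v a = (v c)⁻¹ * (v b)⁻¹ := by rw [hc]; group
    rw [this]; exact H.mul_mem (H.inv_mem hc') (H.inv_mem hb)

/-- six edges generate the group -/
theorem gen6 : Subgroup.closure (Set.range fun k => v (gn k)) = ⊤ := by
  rw [eq_top_iff, ← hv.gen, Subgroup.closure_le]
  set H := Subgroup.closure (Set.range fun k => v (gn k)) with hH
  have hk : ∀ k, v (gn k) ∈ H := fun k => Subgroup.subset_closure ⟨k, rfl⟩
  have m4 : v 4 ∈ H := hk 0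
  have m0 : v 0 ∈ H := hk 1
  have m1 : v 1 ∈ H := hk 2
  have m2 : v 2 ∈ H := hk 3
  have m3 : v 3 ∈ H := hk 4
  have m11 : v 11 ∈ H := hk 5
  have m5 : v 5 ∈ H := (hv.third (H := H) 0 4 5 (by decide)).1 m0 m4
  have m6 : v 6 ∈ H := (hv.third (H := H) 0 1 6 (by decide)).1 m0 m1
  have m7 : v 7 ∈ H := (hv.third (H := H) 1 2 7 (by decide)).1 m1 m2
  have m8 : v 8 ∈ H := (hv.third (H := H) 2 3 8 (by decide)).1 m2 m3
  have m9 : v 9 ∈ H := (hv.third (H := H) 3 4 9 (by decide)).1 m3 m4
  have m10 : v 10 ∈ H := (hv.third (H := H) 7 10 11 (by decide)).2.1 m7 m11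
  have m12 : v 12 ∈ H := (hv.third (H := H) 9 11 12 (by decide)).1 m9 m11
  have m14 : v 14 ∈ H := (hv.third (H := H) 5 10 14 (by decide)).1 m5 m10
  have m13 : v 13 ∈ H := (hv.third (H := H) 6 12 13 (by decide)).1 m6 m12
  rintro _ ⟨i, rfl⟩
  by_cases hi : 15 ≤ i
  · rw [hv.triv i hi]; exact H.one_mem
  · have hi' : i < 15 := not_le.mp hi
    interval_cases i <;> assumption

end Pres

/-- the subgroup generated by the six words -/
def A {G : Type*} [Group G] (v : ℕ → G) : Subgroup G :=
  Subgroup.closure (Set.range fun k => val v (bw k))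

namespace Pres

variable {G : Type*} [Group G] {v : ℕ → G} (hv : Pres v)

include hv

theorem mem_K1 : ∀ u ∈ K1, val v u ∈ A v := by
  apply mem_kn hv.sq hv.holds chn K0 memchk_ok
  intro u hu
  obtain ⟨k, -, hk⟩ := List.mem_flatMap.mp hu
  have h1 : val v (bw k) ∈ A v := Subgroup.subset_closure ⟨k, rfl⟩
  rcases List.mem_cons.mp hk with rfl | hk
  · exact h1
  · rw [List.mem_singleton.mp hk, val_reverse hv.sq]
    exact (A v).inv_mem h1

theorem conj_mem (i : Fin 6) {g : G} (hg : g ∈ A v) : v (gn i) * g * (v (gn i))⁻¹ ∈ A v := by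
  have h : A v ≤ (A v).comap (MulAut.conj (v (gn i))).toMonoidHom := by
    unfold A
    rw [Subgroup.closure_le]
    rintro _ ⟨k, rfl⟩
    obtain ⟨u, hu, he⟩ := conj_ok i k
    have h1 := hv.holds _ he
    dsimp only at h1
    rw [val_cons, val_append, val_cons, val_nil, mul_one] at h1
    show v (gn i) * val v (bw k) * (v (gn i))⁻¹ ∈ A v
    rw [hv.inv, mul_assoc, h1]
    exact hv.mem_K1 u hu
  exact h hg

theorem normal : (A v).Normal := by
  rw [← Subgroup.normalizer_eq_top_iff, eq_top_iff, ← hv.gen6, Subgroup.closure_le]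
  rintro _ ⟨i, rfl⟩
  rw [SetLike.mem_coe, Subgroup.mem_normalizer_iff]
  intro g
  refine ⟨fun h => hv.conj_mem i h, fun h => ?_⟩
  have := hv.conj_mem i h
  rw [hv.inv] at this
  have e : v (gn i) * (v (gn i) * g * v (gn i)) * v (gn i) = g := by
    have h1 := hv.sq (gn i)
    calc v (gn i) * (v (gn i) * g * v (gn i)) * v (gn i)
        = (v (gn i) * v (gn i)) * g * (v (gn i) * v (gn i)) := by group
      _ = g := by rw [h1]; group
  rwa [e] at this

/-- the six words commute -/
theorem comm_bw : Pairwise fun i k : Fin 6 => Commute (val v (bw i)) (val v (bw k)) := by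
  have h : ∀ i k : Fin 6, i < k → Commute (val v (bw i)) (val v (bw k)) := by
    intro i k hik
    have := hv.holds _ (comm_ok i k hik)
    dsimp only at this
    rwa [val_append, val_append] at this
  intro i k hik
  rcases lt_or_gt_of_ne hik with h1 | h1
  · exact h i k h1
  · exact (h k i h1).symm

theorem comm_F : Pairwise fun i k : Fin 6 => ∀ x y : Multiplicative ℤ,
    Commute (zpowersHom G (val v (bw i)) x) (zpowersHom G (val v (bw k)) y) := by
  intro i k hik x y
  rw [zpowersHom_apply, zpowersHom_apply]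
  exact (hv.comm_bw hik).zpow_zpow _ _

/-- the parametrisation of the abelian subgroup -/
noncomputable def F : (Fin 6 → Multiplicative ℤ) →* G :=
  MonoidHom.noncommPiCoprod (fun k => zpowersHom G (val v (bw k))) hv.comm_F

theorem F_single (k : Fin 6) : hv.F (Pi.mulSingle k (ofAdd 1)) = val v (bw k) := by
  unfold F
  rw [MonoidHom.noncommPiCoprod_mulSingle, zpowersHom_apply]
  exact zpow_one _

theorem range_F : hv.F.range = A v := by
  apply le_antisymm
  · unfold F
    rw [MonoidHom.noncommPiCoprod_range]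
    apply iSup_le
    rintro k _ ⟨x, rfl⟩
    rw [zpowersHom_apply]
    exact (A v).zpow_mem (Subgroup.subset_closure ⟨k, rfl⟩) _
  · unfold A
    rw [Subgroup.closure_le]
    rintro _ ⟨k, rfl⟩
    exact ⟨_, hv.F_single k⟩

end Pres

/-- the image of `n` in the sixth power of `D` -/
def Psi : (Fin 6 → Multiplicative ℤ) →* (Fin 6 → D) where
  toFun n h := rr (∑ k, toAdd (n k) * bv k h)
  map_one' := by
    funext h
    rw [Finset.sum_eq_zero (fun k _ => by simp), rr_zero, Pi.one_apply]
  map_mul' a b := by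
    funext h
    rw [Pi.mul_apply, ← rr_add, ← Finset.sum_add_distrib]
    congr 1
    apply Finset.sum_congr rfl
    intro k _
    rw [Pi.mul_apply, toAdd_mul, add_mul]

theorem Psi_single (k : Fin 6) : Psi (Pi.mulSingle k (ofAdd 1)) = val im (bw k) := by
  funext h
  rw [val_im]
  show rr (∑ j, toAdd ((Pi.mulSingle k (ofAdd 1) : Fin 6 → Multiplicative ℤ) j) * bv j h) = _
  congr 1
  rw [Finset.sum_eq_single k]
  · simp
  · intro j _ hj
    rw [Pi.mulSingle_eq_of_ne hj]; simp
  · intro h'; exact absurd (Finset.mem_univ k) h'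

theorem Psi_inj : Function.Injective Psi := by
  rw [injective_iff_map_eq_one]
  intro n hn
  have h : ∀ h : Fin 6, ∑ k, toAdd (n k) * bv k h = 0 := by
    intro h
    apply rr_inj
    rw [rr_zero]
    exact congrFun hn h
  have h0 := h 0
  have h1 := h 1
  have h2 := h 2
  have h3 := h 3
  have h4 := h 4
  have h5 := h 5
  simp only [Fin.sum_univ_six] at h0 h1 h2 h3 h4 h5
  generalize hn0 : toAdd (n 0) = n0 at *
  generalize hn1 : toAdd (n 1) = n1 at *
  generalize hn2 : toAdd (n 2) = n2 at *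
  generalize hn3 : toAdd (n 3) = n3 at *
  generalize hn4 : toAdd (n 4) = n4 at *
  generalize hn5 : toAdd (n 5) = n5 at *
  simp [bv] at h0 h1 h2 h3 h4 h5
  funext k
  have : toAdd (n k) = 0 := by
    fin_cases k
    · show toAdd (n 0) = 0
      omega
    · show toAdd (n 1) = 0
      omega
    · show toAdd (n 2) = 0
      omega
    · show toAdd (n 3) = 0
      omega
    · show toAdd (n 4) = 0
      omega
    · show toAdd (n 5) = 0
      omega
  exact this

end GIG.Pet
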