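import Pool.Agent.Lib.MP_262b4d_al.QRw

/-!
# The certificate for the Petersen graph: lemmas
-/

namespace GIG.Pet

/-- lemmas, part 1 -/
def cert1 : List Line := [
  ([0,0],[],[0,0],[],[([],0,[])]),
  ([2,2],[],[2,2],[],[([],3,[])]),
  ([6,6],[],[6,6],[],[([],8,[])]),
  ([5,5],[],[5,5],[],[([],8,[])]),
  ([11,11],[],[11,11],[],[([],15,[])]),
  ([1,1],[],[1,1],[],[([],6,[])]),
  ([9,9],[],[9,9],[],[([],15,[])]),
  ([3,3],[],[3,3],[],[([],10,[])]),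
  ([8,8],[],[8,8],[],[([],16,[])]),
  ([7,7],[],[7,7],[],[([],16,[])]),
  ([2,7],[1],[2,7],[],[([],40,[])]),
  ([11,10],[7],[11,10],[],[([],73,[])]),
  ([12,11],[9],[12,11],[],[([],86,[])]),
  ([11,12],[9],[11,12],[],[([],85,[])]),
  ([10,11],[7],[10,11],[],[([],74,[])]),
  ([10,7],[11],[10,7],[],[([],74,[])]),
  ([12,9],[11],[12,9],[],[([],89,[])]),
  ([7,10],[11],[7,10],[],[([],74,[])]),
  ([13,12],[6],[13,12],[],[([],74,[])]),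
  ([13,6],[12],[13,6],[],[([],74,[])]),
  ([9,11],[12],[9,11],[],[([],89,[])]),
  ([12,6],[13],[12,6],[],[([],74,[])]),
  ([6,13],[12],[6,13],[],[([],74,[])]),
  ([6,12],[13],[6,12],[],[([],74,[])]),
  ([9,12],[11],[9,12],[],[([],94,[])]),
  ([14,5],[10],[14,5],[],[([],74,[])]),
  ([10,14],[5],[10,14],[],[([],74,[])]),
  ([10,5],[14],[10,5],[],[([],74,[])]),
  ([11,7],[10],[11,7],[],[([],89,[])]),
  ([5,10],[14],[5,10],[],[([],74,[])]),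
  ([9,4],[3],[9,4],[],[([],74,[])]),
  ([9,3],[4],[9,3],[],[([],74,[])]),
  ([13,14],[8],[13,14],[],[([],98,[])]),
  ([4,3],[9],[4,3],[],[([],74,[])]),
  ([3,9],[4],[3,9],[],[([],74,[])]),
  ([3,4],[9],[3,4],[],[([],74,[])]),
  ([14,13],[8],[14,13],[],[([],104,[])]),
  ([8,2],[3],[8,2],[],[([],74,[])]),
  ([3,8],[2],[3,8],[],[([],74,[])]),
  ([3,2],[8],[3,2],[],[([],74,[])])]

/-- lemmas, part 2 -/
def cert2 : List Line := [
  ([8,13],[14],[8,13],[],[([],103,[])]),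
  ([2,3],[8],[2,3],[],[([],74,[])]),
  ([7,2],[1],[7,2],[],[([],74,[])]),
  ([2,1],[7],[2,1],[],[([],72,[])]),
  ([7,1],[2],[7,1],[],[([],75,[])]),
  ([7,11],[10],[7,11],[],[([],103,[])]),
  ([1,2],[7],[1,2],[],[([],73,[])]),
  ([11,9],[12],[11,9],[],[([],118,[])]),
  ([6,0],[1],[6,0],[],[([],73,[])]),
  ([14,10],[5],[14,10],[],[([],99,[])]),
  ([1,0],[6],[1,0],[],[([],73,[])]),
  ([13,8],[14],[13,8],[],[([],116,[])]),
  ([0,1],[6],[0,1],[],[([],73,[])]),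
  ([4,9],[3],[4,9],[],[([],95,[])]),
  ([5,0],[4],[5,0],[],[([],73,[])]),
  ([8,14],[13],[8,14],[],[([],119,[])]),
  ([4,0],[5],[4,0],[],[([],73,[])]),
  ([2,8],[3],[2,8],[],[([],91,[])]),
  ([1,7],[2],[1,7],[],[([],86,[])]),
  ([0,4],[5],[0,4],[],[([],74,[])]),
  ([1,6],[0],[1,6],[],[([],84,[])]),
  ([14,8],[13],[14,8],[],[([],128,[])]),
  ([5,4],[0],[5,4],[],[([],82,[])]),
  ([8,3],[2],[8,3],[],[([],101,[])]),
  ([6,1],[0],[6,1],[],[([],90,[])]),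
  ([0,5],[4],[0,5],[],[([],81,[])]),
  ([5,14],[10],[5,14],[],[([],112,[])]),
  ([0,6],[1],[0,6],[],[([],89,[])]),
  ([4,5],[0],[4,5],[],[([],86,[])]),
  ([12,7],[9,10],[12,11,10],[([12],57,[])],[([],56,[10])]),
  ([10,9],[7,12],[10,11,12],[([10],56,[])],[([],55,[12])]),
  ([2,11],[1,10],[2,7,10],[([2],53,[])],[([],60,[10])]),
  ([13,9],[6,11],[13,12,11],[([13],59,[])],[([],53,[11])]),
  ([13,11],[6,9],[13,12,9],[([13],56,[])],[([],54,[9])]),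
  ([12,10],[9,7],[9,11,10],[([],53,[10])],[([9],62,[])]),
  ([11,13],[9,6],[11,12,6],[([11],53,[])],[([],61,[6])]),
  ([11,6],[9,13],[9,12,6],[([],51,[6])],[([9],54,[])]),
  ([11,5],[7,14],[11,10,14],[([11],50,[])],[([],65,[14])]),
  ([11,14],[7,5],[7,10,14],[([],60,[14])],[([7],51,[])]),
  ([14,11],[5,7],[5,10,11],[([],49,[11])],[([5],64,[])])]

/-- lemmas, part 3 -/
def cert3 : List Line := [
  ([14,7],[5,11],[5,10,7],[([],50,[7])],[([5],64,[])]),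
  ([12,3],[11,4],[12,9,4],[([12],50,[])],[([],64,[4])]),
  ([12,4],[11,3],[12,9,3],[([12],50,[])],[([],65,[3])]),
  ([12,14],[6,8],[6,13,14],[([],60,[14])],[([6],50,[])]),
  ([13,10],[8,5],[13,14,5],[([13],58,[])],[([],51,[5])]),
  ([4,11],[3,12],[3,9,11],[([],50,[11])],[([3],64,[])]),
  ([4,12],[3,11],[3,9,12],[([],51,[12])],[([3],61,[])]),
  ([14,6],[8,12],[14,13,12],[([14],68,[])],[([],50,[12])]),
  ([14,12],[8,6],[14,13,6],[([14],68,[])],[([],51,[6])]),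
  ([10,8],[5,13],[10,14,13],[([10],52,[])],[([],62,[13])]),
  ([8,1],[3,7],[8,2,7],[([8],79,[])],[([],52,[7])]),
  ([9,2],[4,8],[9,3,8],[([9],52,[])],[([],59,[8])]),
  ([9,8],[4,2],[4,3,8],[([],58,[8])],[([4],53,[])]),
  ([8,7],[3,1],[3,2,7],[([],53,[7])],[([3],82,[])]),
  ([3,14],[2,13],[3,8,13],[([3],53,[])],[([],55,[13])]),
  ([8,9],[2,4],[2,3,9],[([],53,[9])],[([2],60,[])]),
  ([8,4],[2,9],[2,3,4],[([],54,[4])],[([2],60,[])]),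
  ([11,2],[10,1],[10,7,2],[([],81,[2])],[([10],54,[])]),
  ([11,1],[10,2],[11,7,2],[([11],55,[])],[([],69,[2])]),
  ([7,8],[1,3],[7,2,3],[([7],57,[])],[([],56,[3])]),
  ([2,10],[1,11],[2,7,11],[([2],54,[])],[([],89,[11])]),
  ([10,12],[7,9],[7,11,12],[([],55,[12])],[([7],87,[])]),
  ([7,3],[1,8],[1,2,3],[([],55,[3])],[([1],60,[])]),
  ([13,1],[12,0],[13,6,0],[([13],54,[])],[([],83,[0])]),
  ([13,0],[12,1],[12,6,0],[([],82,[0])],[([12],55,[])]),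
  ([13,5],[8,10],[13,14,10],[([13],55,[])],[([],72,[10])]),
  ([7,0],[2,6],[2,1,0],[([],62,[0])],[([2],55,[])]),
  ([7,6],[2,0],[7,1,0],[([7],56,[])],[([],62,[0])]),
  ([12,8],[6,14],[6,13,8],[([],85,[8])],[([6],56,[])]),
  ([14,2],[13,3],[13,8,2],[([],57,[2])],[([13],71,[])]),
  ([6,2],[0,7],[0,1,2],[([],57,[2])],[([0],63,[])]),
  ([14,4],[10,0],[14,5,0],[([14],56,[])],[([],85,[0])]),
  ([14,0],[10,4],[10,5,0],[([],84,[0])],[([10],57,[])]),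
  ([5,6],[4,1],[5,0,1],[([5],60,[])],[([],58,[1])]),
  ([3,13],[2,14],[3,8,14],[([3],58,[])],[([],75,[14])]),
  ([9,5],[3,0],[9,4,0],[([9],58,[])],[([],84,[0])]),
  ([9,0],[3,5],[3,4,0],[([],80,[0])],[([3],59,[])]),
  ([5,1],[4,6],[4,0,1],[([],60,[1])],[([4],64,[])]),
  ([6,7],[0,2],[0,1,7],[([],65,[7])],[([0],59,[])]),
  ([5,3],[0,9],[0,4,3],[([],59,[3])],[([0],85,[])])]

/-- lemmas, part 4 -/
def cert4 : List Line := [
  ([6,4],[1,5],[1,0,4],[([],69,[4])],[([1],60,[])]),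
  ([6,5],[1,4],[6,0,4],[([6],61,[])],[([],72,[4])]),
  ([5,9],[0,3],[0,4,9],[([],62,[9])],[([0],68,[])]),
  ([1,12],[0,13],[1,6,13],[([1],100,[])],[([],62,[13])]),
  ([1,13],[0,12],[1,6,12],[([1],100,[])],[([],63,[12])]),
  ([10,13],[5,8],[10,14,8],[([10],63,[])],[([],98,[8])]),
  ([14,3],[13,2],[14,8,2],[([14],88,[])],[([],64,[2])]),
  ([4,10],[0,14],[0,5,10],[([],61,[10])],[([0],97,[])]),
  ([4,14],[0,10],[0,5,14],[([],62,[14])],[([0],61,[])]),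
  ([9,10,1],[12,2],[12,7,1],[([],59,[1])],[([12],84,[])]),
  ([5,7,12],[14,9],[5,10,9],[([5],59,[])],[([],100,[9])]),
  ([3,1,10],[8,11],[3,2,11],[([3],59,[])],[([],91,[11])]),
  ([6,11,4],[13,3],[13,9,4],[([],59,[4])],[([13],101,[])]),
  ([8,6,11],[14,9],[8,13,9],[([8],60,[])],[([],92,[9])]),
  ([6,9,7],[8,5],[13,11,7],[([],60,[7])],[([13],105,[]),([],49,[])]),
  ([8,6,9],[5,7],[8,13,11],[([8],61,[])],[([],94,[11]),([],55,[])]),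
  ([9,7,14],[12,5],[12,10,14],[([],61,[14])],[([12],109,[])]),
  ([9,7,5],[6,8],[12,10,5],[([],62,[5])],[([12],109,[]),([],53,[])]),
  ([9,6,14],[11,8],[11,13,14],[([],62,[14])],[([11],105,[])]),
  ([9,6,8],[7,5],[11,13,8],[([],63,[8])],[([11],87,[]),([],60,[])]),
  ([7,9,6],[5,8],[7,11,13],[([7],64,[])],[([],94,[13]),([],14,[])]),
  ([2,9,6],[1,5,8],[2,11,13],[([2],65,[])],[([],69,[13]),([1],15,[])]),
  ([7,9,13],[10,6],[7,11,6],[([7],65,[])],[([],96,[6])]),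
  ([2,9,13],[1,10,6],[2,11,6],[([2],66,[])],[([],71,[6])]),
  ([13,7,14],[6,3,0],[13,11,5],[([13],66,[])],[([],70,[5]),([6],28,[])]),
  ([7,5,13],[11,8],[11,14,13],[([],66,[13])],[([11],108,[])]),
  ([7,5,8],[9,6],[11,14,8],[([],67,[8])],[([11],84,[]),([],70,[])]),
  ([5,7,9],[8,6],[14,11,9],[([],67,[9])],[([14],99,[]),([],58,[])]),
  ([8,5,7],[6,9],[8,14,11],[([8],68,[])],[([],92,[11]),([],74,[])]),
  ([14,9,13],[5,2,0],[14,11,6],[([14],72,[])],[([],69,[6]),([5],41,[])]),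
  ([11,4,8],[12,2],[12,3,8],[([],68,[8])],[([12],111,[])]),
  ([11,4,2],[6,14],[12,3,2],[([],69,[2])],[([12],111,[]),([],42,[])]),
  ([11,3,0],[12,5],[12,4,0],[([],69,[0])],[([12],95,[])]),
  ([11,3,5],[12,0],[12,4,5],[([],70,[5])],[([12],84,[])]),
  ([6,8,5],[9,7],[12,14,5],[([],70,[5])],[([12],128,[]),([],79,[])]),
  ([6,8,10],[12,5],[12,14,10],[([],71,[10])],[([12],105,[])]),
  ([12,5,11],[6,3,1],[12,14,7],[([12],75,[])],[([],72,[7]),([6],62,[])]),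
  ([12,5,7],[6,8,11],[12,14,11],[([12],77,[])],[([],73,[11])]),
  ([13,7,12],[8,0,3],[13,10,9],[([13],87,[])],[([],73,[9]),([8],35,[])]),
  ([4,7,14],[3,12,5],[4,11,5],[([4],81,[])],[([],73,[5])])]

/-- lemmas, part 5 -/
def cert5 : List Line := [
  ([4,7,5],[3,6,8],[4,11,14],[([4],81,[])],[([],74,[14]),([3],76,[])]),
  ([0,3,11],[5,12],[0,4,12],[([0],74,[])],[([],101,[12])]),
  ([8,12,0],[14,1],[14,6,0],[([],74,[0])],[([14],113,[])]),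
  ([5,8,12],[10,6],[5,14,6],[([5],75,[])],[([],96,[6])]),
  ([8,12,1],[10,4],[14,6,1],[([],76,[1])],[([14],99,[]),([],51,[])]),
  ([11,8,12],[7,4,1],[11,14,6],[([11],77,[])],[([],86,[6]),([7],51,[])]),
  ([5,8,6],[7,9],[5,14,12],[([5],77,[])],[([],99,[12]),([],64,[])]),
  ([14,9,7],[8,6,10],[14,12,10],[([14],92,[])],[([],78,[10])]),
  ([8,6,3],[5,7,4],[14,12,3],[([],79,[3])],[([14],86,[]),([],88,[4])]),
  ([14,9,10],[8,0,2],[14,12,7],[([14],99,[])],[([],80,[7]),([8],50,[])]),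
  ([11,8,6],[7,5,12],[11,14,12],[([11],81,[])],[([],91,[12])]),
  ([12,5,13],[9,1,3],[12,10,8],[([12],81,[])],[([],96,[8]),([9],71,[])]),
  ([13,3,7],[14,1],[13,8,1],[([13],81,[])],[([],120,[1])]),
  ([10,3,7],[5,12,0],[10,8,1],[([10],82,[])],[([],83,[1]),([5],69,[])]),
  ([10,4,8],[7,12,2],[10,9,2],[([10],82,[])],[([],103,[2])]),
  ([13,4,8],[6,10,1],[13,9,2],[([13],83,[])],[([],102,[2]),([6],77,[])]),
  ([12,2,13],[11,0,10],[12,3,14],[([12],81,[])],[([],94,[14]),([11],47,[])]),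
  ([13,2,4],[14,9],[13,8,9],[([13],81,[])],[([],125,[9])]),
  ([10,2,4],[4,1,11],[10,8,9],[([10],82,[])],[([],88,[9]),([5],105,[]),([],64,[11])]),
  ([10,2,9],[5,13,4],[10,8,4],[([10],82,[])],[([],89,[4])]),
  ([10,1,3],[11,8],[11,2,3],[([],82,[3])],[([11],138,[])]),
  ([10,1,8],[11,3],[11,2,8],[([],83,[8])],[([11],123,[])]),
  ([3,12,2],[0,14,1],[4,11,2],[([],96,[2])],[([4],84,[]),([],54,[1])]),
  ([10,2,6],[11,0],[11,1,6],[([],84,[6])],[([11],122,[])]),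
  ([3,12,1],[0,13,3],[4,11,1],[([],98,[1])],[([4],85,[]),([],56,[2]),([0],74,[])]),
  ([8,5,2],[6,9,1],[13,11,1],[([13],86,[]),([],100,[2])],[([],111,[1])]),
  ([14,1,3],[5,11,8],[14,7,8],[([14],86,[])],[([],105,[8])]),
  ([2,5,13],[1,11,8],[2,10,8],[([2],97,[])],[([],86,[8])]),
  ([9,1,11],[4,8,10],[9,2,10],[([9],87,[])],[([],96,[10])]),
  ([10,6,8],[7,9,14],[10,12,14],[([10],105,[])],[([],87,[14])]),
  ([12,1,8],[9,10,3],[12,7,3],[([12],87,[])],[([],120,[3])]),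
  ([14,1,8],[5,11,3],[14,7,3],[([14],88,[])],[([],110,[3])]),
  ([12,0,7],[13,2],[13,1,7],[([],88,[7])],[([13],133,[])]),
  ([12,1,5],[13,4],[13,0,5],[([],88,[5])],[([13],127,[])]),
  ([8,10,0],[13,4],[13,5,0],[([],88,[0])],[([13],139,[])]),
  ([11,8,10],[9,1,4],[11,13,5],[([11],89,[])],[([],119,[5]),([9],73,[])]),
  ([12,2,6],[9,10,0],[12,7,0],[([12],89,[])],[([],126,[0])]),
  ([13,3,6],[5,11,0],[14,7,0],[([14],90,[]),([],87,[6])],[([],116,[0])]),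
  ([2,0,13],[7,12],[7,6,13],[([],90,[13])],[([7],175,[])]),
  ([2,0,12],[7,13],[7,6,12],[([],91,[12])],[([7],175,[])])]

/-- lemmas, part 6 -/
def cert6 : List Line := [
  ([12,2,0],[9,10,6],[12,7,6],[([12],92,[])],[([],130,[6])]),
  ([4,6,14],[3,11,8],[4,12,8],[([4],92,[])],[([],114,[8])]),
  ([10,6,14],[7,4,2],[10,12,8],[([10],93,[])],[([],100,[8]),([7],109,[])]),
  ([12,2,9],[6,10,0],[12,8,4],[([12],106,[])],[([],94,[4]),([6],91,[])]),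
  ([12,2,4],[6,14,9],[12,8,9],[([12],108,[])],[([],95,[9])]),
  ([14,1,10],[13,3,11],[14,2,11],[([14],133,[])],[([],95,[11])]),
  ([9,6,3],[7,5,2],[11,14,2],[([11],96,[]),([],130,[3])],[([],127,[2])]),
  ([10,4,7],[8,12,2],[14,6,2],[([14],96,[]),([],94,[7])],[([],119,[2])]),
  ([10,0,9],[13,2],[14,4,9],[([],96,[9])],[([14],154,[]),([],81,[])]),
  ([4,8,6],[0,7,9],[12,14,4],[([12],97,[]),([],134,[0]),([9],102,[]),([],117,[6])],[([],125,[4]),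
  ([6],112,[]),([],98,[9])]),
  ([13,2,12],[10,0,11],[14,4,11],[([14],124,[]),([],83,[12])],[([],98,[11])]),
  ([10,4,1],[8,12],[14,0,1],[([],98,[1])],[([14],158,[]),([],123,[])]),
  ([9,7,4],[6,8,0],[12,14,0],[([12],99,[]),([],137,[4])],[([],128,[0])]),
  ([3,6,9],[2,5,7],[3,13,11],[([3],139,[])],[([],98,[11]),([2],133,[])]),
  ([3,12,0],[2,14,1],[3,13,1],[([3],110,[])],[([],99,[1])]),
  ([3,0,14],[9,10],[9,5,14],[([],99,[14])],[([9],148,[])]),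
  ([10,3,0],[7,12,5],[10,9,5],[([10],100,[])],[([],145,[5])]),
  ([13,3,5],[6,11,0],[13,9,0],[([13],100,[])],[([],144,[0])]),
  ([11,4,6],[7,14,1],[11,5,1],[([11],100,[])],[([],140,[1])]),
  ([13,4,6],[8,10,1],[13,5,1],[([13],101,[])],[([],113,[1])]),
  ([11,0,2],[9,13,7],[11,6,7],[([11],101,[])],[([],143,[7])]),
  ([11,0,9],[7,13,2],[11,5,3],[([11],101,[])],[([],143,[3]),([7],94,[])]),
  ([12,1,9],[8,10,3],[13,5,3],[([13],102,[]),([],117,[9])],[([],116,[3])]),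
  ([10,2,5],[9,13,4],[11,6,4],[([11],102,[]),([],124,[5])],[([],146,[4])]),
  ([14,1,5],[8,11,3],[14,6,4],[([14],103,[])],[([],136,[4]),([8],141,[])]),
  ([14,1,4],[8,12,5],[14,6,5],[([14],103,[])],[([],137,[5])]),
  ([1,11,3],[0,13,4],[1,12,4],[([1],143,[])],[([],102,[4])]),
  ([1,9,7],[0,8,5],[1,12,10],[([1],152,[])],[([],103,[10]),([0],142,[])]),
  ([8,0,13],[3,7,12],[8,1,12],[([8],104,[])],[([],137,[12])]),
  ([7,9,1],[5,8,0],[10,13,0],[([10],124,[]),([],127,[1])],[([],103,[0])]),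
  ([2,5,8],[1,9,6],[2,10,13],[([2],104,[])],[([],129,[13]),([1],154,[])]),
  ([4,7,12],[0,14,9],[4,10,9],[([4],160,[])],[([],103,[9])]),
  ([8,0,14],[2,9,10],[8,4,10],[([8],104,[])],[([],135,[10])]),
  ([4,7,9],[0,8,6],[4,10,12],[([4],131,[])],[([],105,[12]),([0],144,[])]),
  ([4,8,12],[0,10,6],[4,14,6],[([4],146,[])],[([],105,[6])]),
  ([9,10,0,13],[12,2,12],[9,10,1,12],[([9,10],111,[])],[([],105,[12])]),
  ([0,3,10,1],[5,12,2],[5,9,10,1],[([],113,[10,1])],[([5],106,[])]),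
  ([9,10,0,12],[11,0,10],[9,10,1,13],[([9,10],112,[])],[([],107,[13]),([],60,[])]),
  ([3,1,5,13],[8,11,8],[3,1,10,8],[([3,1],148,[])],[([],106,[8])]),
  ([6,11,0,10],[13,2,13],[6,11,4,14],[([6,11],110,[])],[([],106,[14]),([13],144,[])])]

/-- lemmas, part 7 -/
def cert7 : List Line := [
  ([4,2,6,11],[9,14,9],[9,8,6,11],[([],147,[6,11])],[([9],106,[])]),
  ([8,0,2,5],[14,9,14],[8,6,11,14],[([8,6],162,[]),([8],122,[5])],[([],107,[14])]),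
  ([6,9,1,3],[8,5,8],[6,9,7,8],[([6,9],142,[])],[([],107,[8])]),
  ([6,9,1,8],[8,0,9],[6,9,7,3],[([6,9],140,[])],[([],108,[3]),([8],123,[])]),
  ([3,7,5,2],[4,6,3],[8,6,9,8],[([8,6],151,[]),([8],123,[2]),([],153,[5,2])],[([],108,[8]),([5],144,
  []),([],126,[3])]),
  ([9,1,3,6],[12,5,12],[9,7,14,12],[([9,7],156,[]),([9],145,[6])],[([],108,[12])]),
  ([9,1,4,7],[11,8,11],[9,6,14,11],[([9,6],166,[]),([9],124,[7])],[([],107,[11])]),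
  ([0,3,6,8],[5,7,5],[5,9,6,8],[([],124,[6,8])],[([5],107,[])]),
  ([7,4,1,11],[10,1,4],[9,6,8,6,11],[([],108,[6,11]),([7],134,[11])],[([9,6],114,[]),([],109,[9]),
  ([11],152,[]),([],150,[4])]),
  ([7,4,1,9],[11,8,11],[9,6,8,6,9],[([],109,[6,9]),([7],135,[9])],[([9,6],113,[]),([9],127,[7]),([],
  2,[])]),
  ([7,4,2,5],[5,2,4,7],[7,9,6,9,7],[([7,9],115,[]),([7],157,[5])],[([],109,[9,7]),([5],154,[7])]),
  ([9,1,5,8],[4,2,4,6],[9,2,9,6],[([9],109,[])],[([],159,[9,6]),([4],155,[6])]),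
  ([10,1,9,6],[9,6,10,1],[11,2,9,6],[([],154,[9,6])],[([11],110,[]),([],153,[5,8]),([],28,[8]),([9],
  76,[])]),
  ([1,5,2,4,7],[2,4,2,5],[2,9,6,9,7],[([],111,[9,7]),([1,5],157,[7])],[([2,9],118,[]),([2],160,
  [5])]),
  ([5,2,4,7],[10,6,10],[7,9,13,10],[([7,9],169,[]),([7],161,[5]),([],3,[])],[([],111,[10])]),
  ([13,7,13,3],[6,3,0,2],[13,7,14,2],[([13,7],145,[])],[([],110,[2])]),
  ([7,5,12,0],[11,3,7],[7,5,13,1],[([7,5],152,[])],[([],110,[1]),([11],165,[])]),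
  ([7,4,1,3,0],[11,3,1,14],[7,5,13,7,14],[([7,5],112,[]),([7],143,[3,0])],[([],111,[7,14]),([11],
  163,[14])]),
  ([2,6,9,1],[3,5,2],[7,5,8,7],[([7,5],164,[]),([7],138,[1]),([],151,[9,1])],[([],111,[7]),([9],139,
  []),([],141,[2])]),
  ([7,5,2,9],[9,1,5],[7,5,8,4],[([7,5],162,[])],[([],112,[4]),([9],138,[])]),
  ([5,7,4,8],[8,0,7],[5,7,9,2],[([5,7],168,[])],[([],112,[2]),([8],149,[])]),
  ([12,5,2,0],[0,7,4,13],[12,14,9,13],[([12],111,[])],[([],177,[9,13]),([6],165,[13]),([],150,[4,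
  13])]),
  ([12,2,5,7],[7,14,1,9],[11,4,8,5,7],[([],111,[5,7])],[([11,4],113,[]),([],43,[9])]),
  ([6,8,0,3],[9,7,9],[6,8,5,9],[([6,8],140,[])],[([],108,[9])]),
  ([11,3,6,8],[6,8,11,3],[12,5,7,3],[([12,5],161,[]),([12],146,[8]),([],181,[6,8])],[([],106,[3])]),
  ([4,1,3,6],[3,12,5,12],[4,7,14,12],[([4,7],176,[]),([4],165,[6])],[([],105,[12])]),
  ([3,6,8,0],[4,7,4],[4,7,5,0],[([],105,[0])],[([4,7],211,[])]),
  ([8,12,5,12],[5,11,8,11],[8,12,0,3,11],[([8,12],105,[])],[([],104,[3,11]),([],80,[11])]),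
  ([8,0,2,4,1],[10,0,2,12],[8,6,11,8,12],[([8,6],102,[]),([8],149,[4,1])],[([],134,[8,12]),([14],
  175,[12]),([],156,[2,12])]),
  ([5,8,0,2],[7,9,7],[5,8,6,7],[([5,8],150,[])],[([],102,[7])]),
  ([10,0,8,0],[8,6,10,6],[14,9,7,6],[([14,9],162,[]),([14],178,[0]),([],158,[8,0])],[([],102,[6])]),
  ([2,5,7,4],[3,6,3],[2,8,6,3],[([2],102,[])],[([],213,[6,3])]),
  ([7,5,7,4],[1,3,6,3],[7,8,6,3],[([7],103,[])],[([],172,[6,3])]),
  ([11,8,0,2],[2,6,3,10],[11,14,9,10],[([11],103,[])],[([],194,[9,10]),([7],150,[10]),([],166,[3,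
  10])]),
  ([10,6,3,7],[7,9,14,1],[7,9,13,3,7],[([],131,[3,7])],[([7,9],101,[])]),
  ([3,6,10,1],[1,11,0,8],[3,13,4,8],[([3],99,[])],[([],160,[4,8]),([2],163,[8]),([],174,[0,8])]),
  ([13,2,0,10],[14,9,14],[13,2,4,14],[([13,2],147,[])],[([],98,[14])]),
  ([5,2,0,2,4],[14,9,14,9],[14,9,13,2,4],[([],127,[2,4])],[([14,9],99,[])]),
  ([10,1,10,6],[5,13,4,13],[10,2,9,13],[([10],134,[])],[([],98,[13])]),
  ([12,5,2,9],[9,7,13,4],[6,8,10,2,9],[([],123,[2,9])],[([6,8],99,[]),([],124,[13,4])])]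

/-- lemmas, part 8 -/
def cert8 : List Line := [
  ([9,6,9,1],[4,2,5,2],[9,8,5,2],[([9],94,[])],[([],187,[5,2])]),
  ([10,6,10,4],[7,4,2,0],[10,6,8,12,1],[([10,6],116,[])],[([],91,[12,1]),([7,9],192,[1]),([7],188,
  [6,1]),([7,4,2],216,[])]),
  ([8,0,3,1,5],[13,7,13,4],[13,7,12,1,5],[([],123,[1,5])],[([13,7],88,[])]),
  ([6,10,1,10,0],[13,4,13,4],[13,4,8,10,0],[([],107,[10,0])],[([13,4],88,[])]),
  ([2,0,8,0,3],[7,9,7,9],[2,0,13,7,12],[([2,0],125,[])],[([],85,[7,12]),([7],214,[12]),([7,9],182,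
  [])]),
  ([11,3,1,4,2],[9,1,3,11,8],[11,8,10,6,14],[([11,8],82,[]),([11],191,[4,2])],[([],89,[6,14]),([9,
  1],83,[])]),
  ([8,0,7,9],[2,4,2,6],[14,12,2,9],[([],197,[2,9]),([8],175,[9])],[([14],82,[]),([],198,[10,0]),
  ([8],211,[0]),([],190,[7,0]),([2,4],179,[])]),
  ([5,7,5,2],[0,3,6,3],[5,9,6,3],[([5],80,[])],[([],164,[6,3])]),
  ([10,0,2,12,2],[8,0,2,4,7],[14,9,10,4,7],[([14,9],80,[]),([14],195,[12,2]),([],176,[2,12,2])],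
  [([],118,[4,7])]),
  ([8,0,2,0,11],[5,2,0,2,12],[14,9,13,2,12],[([14,9],78,[]),([],119,[0,11])],[([],139,[2,12])]),
  ([8,6,8,0],[2,4,7,4],[8,9,7,4],[([8],77,[])],[([],194,[7,4])]),
  ([5,13,4,7,4],[11,0,8,0],[10,2,9,7,4],[([],111,[7,4])],[([10,2],78,[]),([],107,[8,0])]),
  ([3,0,8,0,2],[9,7,9,7],[3,0,14,9,10],[([3,0],122,[])],[([],76,[9,10]),([9],221,[10]),([9,7],217,
  [])]),
  ([7,5,11,3,10],[11,3,7,14],[11,4,6,8,10],[([],74,[8,10]),([7],101,[10])],[([11,4],137,[]),([11],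
  206,[5]),([11,3],215,[])]),
  ([10,1,11,8],[9,13,4,13],[10,2,5,13],[([10],106,[])],[([],70,[13])]),
  ([8,0,8,5],[3,7,9,7],[8,1,9,7],[([8],67,[])],[([],204,[9,7])]),
  ([8,0,8,10],[3,7,12,5],[8,0,13,5],[([8,0],190,[])],[([],67,[5])]),
  ([4,2,0,8],[0,14,9,14],[4,7,12,14],[([4,7],213,[]),([4],189,[8])],[([],65,[14])]),
  ([8,0,8,6],[2,9,7,9],[8,0,14,12],[([8,0],209,[])],[([],65,[12]),([2,9],196,[])]),
  ([4,7,4,8],[0,8,0,7],[4,7,9,2],[([4,7],207,[])],[([],65,[2]),([0,8],188,[])]),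
  ([10,0,10,6],[7,12,2,12],[10,4,8,12],[([10],65,[])],[([],125,[12])]),
  ([11,0,10,0,7],[12,2,12,2],[9,10,0,12,0,7],[([],63,[0,7])],[([9,10,0],108,[]),([],65,[2])]),
  ([3,1,5,12,1],[8,11,8,0],[3,1,5,13,0],[([3,1,5],197,[])],[([],63,[0])]),
  ([4,2,0,2,5],[9,14,9,14],[4,2,6,11,14],[([4,2,6],224,[]),([4,2],184,[5])],[([],62,[14])]),
  ([8,0,9,6,9],[6,9,1,5,7],[6,9,1,8,6,9],[([],60,[6,9])],[([6,9,1],168,[])]),
  ([0,3,1,3,6],[5,12,5,12],[5,9,1,3,6],[([],182,[1,3,6])],[([5],59,[])]),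
  ([8,6,10,0,8,10],[10,0,8,12,5],[10,4,7,4,1,11],[([],98,[4,1,11]),([8],101,[1,11]),([8,6,14],117,
  []),([8,6],194,[8,10])],[([10,4],57,[]),([10],178,[1,4]),([10,0],80,[])]),
  ([10,0,2,6,10],[7,9,14,9,14],[5,2,4,7,4,2,5],[([5,2,4],56,[]),([5,2],238,[2,4,7]),([],29,[7]),
  ([14,9],139,[]),([14],214,[6,10]),([],195,[2,6,10])],[([],52,[4,2,5]),([],25,[2,5]),([7],3,[])]),
  ([10,3,11,3,7],[14,1,14,1],[10,3,7,5,12,0],[([10,3],51,[])],[([],134,[5,12,0]),([5,12],242,[12,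
  0]),([5],225,[12,0]),([5,11],93,[]),([5],210,[14,1]),([],278,[1,14,1])]),
  ([7,5,2,6,8,0],[9,1,5,7,4],[7,5,2,9,7,4],[([7,5,2],96,[])],[([],49,[7,4])]),
  ([3,7,14,1,9],[0,8,11,3,7],[3,12,2,5,7],[([3],47,[])],[([],127,[5,7]),([0],85,[7])]),
  ([5,7,4,6,10],[0,3,1,5,12],[8,12,5,12,2,13],[([8,12,5],134,[]),([8],154,[0,10]),([],142,[1,0,10]),
  ([5,7,4],260,[10])],[([],43,[2,13]),([5,11,8],213,[13]),([5],115,[1,13]),([],188,[1,4,1,13]),([0,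
  3,1,4],186,[]),([0,3,1],254,[12])]),
  ([8,0,11,0,8],[0,8,11,8,0],[8,6,3,6,10,1],[([8,6],36,[]),([8],247,[11,0,8])],[([],143,[6,10,1]),
  ([],0,[1]),([0],9,[])]),
  ([8,0,2,4,7],[2,6,14,9,14],[10,6,10,4,8],[([10,6],138,[]),([10],194,[12,2]),([],24,[])],[([],31,
  [8]),([7],15,[]),([],206,[14,9,14])]),
  ([8,0,2,0,8],[2,9,14,9,14],[8,0,7,9,7,5],[([8,0,7],176,[]),([8,0],206,[8])],[([],27,[7,5]),([2,4,
  2],195,[5]),([2],10,[])]),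
  ([9,1,5,2,6,8,6],[6,8,0,7,4,6,9],[11,3,6,8,0,2,0,11],[([11,3,6],25,[]),([11,3],193,[2,0,2,12]),
  ([],29,[0,2,12]),([9,1,3],41,[12]),([9,1],275,[6,3,10,12]),([9,1],146,[10,12]),([9,1,5,7],187,
  [12]),([9,1,5],208,[14,12]),([9,1,5,2,6],226,[])],[([],50,[0,2,0,11]),([6,8],162,[2,0,11]),([6,8],
  53,[11]),([6,8,0,7,4],241,[])]),
  ([11,0,8,0,8],[0,8,0,8,11],[5,13,4,7,4,8],[([],24,[8])],[([5,13],16,[]),([5],211,[8,0,7]),([5],
  125,[0,7]),([],193,[10,3,0,7]),([0,3],99,[7]),([0,3,7],158,[]),([0,3],208,[8,11]),([0],276,[0,8,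
  11])]),
  ([7,5,7,13,3,10,2],[11,0,8,11,8,0],[7,5,11,3,10,1,9,6],[([7,5,11,3],64,[]),([7,5,11],282,[6,10,
  1]),([7,5],98,[10,1]),([7,5,7],111,[1]),([7,5,7,13,3],218,[])],[([],23,[1,9,6]),([11],6,[6]),([11,
  0,8,11,3],209,[]),([11,0,8,11],277,[0])]),
  ([7,5,2,6,3,7,9,7],[9,1,8,0,7,5],[7,5,2,6,8,0,8,5],[([7,5,2,6],22,[])],[([],8,[8,5]),([9,1],57,
  [5])])]

end GIG.Pet
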