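import Pool.Agent.Lib.MP_262b4d_al.Defs

/-!
# The Petersen graph
-/

namespace GIG

/-- The edges of the Petersen graph: a cycle `0 1 2 3 4`, the edges from `i` to `i + 5`, and the
edges from `i + 5` to `j + 5` for `j = i + 2` modulo `5`. -/
def petersen : List (ℕ × ℕ) :=
  [(0, 1), (1, 2), (2, 3), (3, 4), (4, 0), (0, 5), (1, 6), (2, 7), (3, 8), (4, 9),
    (5, 7), (7, 9), (9, 6), (6, 8), (8, 5)]

/-- the uncoloured group: the quotient of `Γ(G, b)` by the central subgroup generated by `J` (it does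
not depend on `b`) -/
abbrev GrpU (n : ℕ) (E : List (ℕ × ℕ)) (B : List ℕ) : Type :=
  Grp n E B ⧸ Subgroup.normalClosure {gJ n E B}

end GIG
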