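import Pool.Agent.Lib.MP_262b4d_al.QCore

/-!
# Injectivity
-/

namespace GIG.Pet

open DihedralGroup Multiplicative

theorem two_comm {G : Type*} [Group G] {x y : G} (hx : x * x = 1) (hy : y * y = 1)
    (h : Commute x y) (a b : Multiplicative (ZMod 2)) : Commute (two x hx a) (two y hy b) := by
  show Commute (if a = 1 then 1 else x) (if b = 1 then 1 else y)
  split_ifs
  · exact Commute.one_left _
  · exact Commute.one_left _
  · exact Commute.one_right _
  · exact h

theorem sm_bw : ∀ k : Fin 6, sm (val im (bw k)) = 1 := by decide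

namespace Pres

variable {G : Type*} [Group G] {v : ℕ → G} (hv : Pres v) {Φ : G →* (Fin 6 → D)}
  (hΦ : ∀ i, Φ (v i) = im i)

include hv in
/-- the six edges commute modulo the abelian subgroup -/
theorem comm_gn (i k : Fin 6) (hik : i < k) :
    v (gn i) * v (gn k) * (v (gn i))⁻¹ * (v (gn k))⁻¹ ∈ A v := by
  obtain ⟨u, hu, he⟩ := gcomm_ok i k hik
  have h1 := hv.holds _ he
  dsimp only at h1
  rw [val_cons, val_cons, val_cons, val_cons, val_nil, mul_one] at h1
  rw [hv.inv, hv.inv, mul_assoc, mul_assoc, h1]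
  rcases List.mem_cons.mp hu with rfl | hu
  · exact (A v).one_mem
  · exact hv.mem_K1 u hu

include hΦ in
omit hv in
theorem Phi_val (w : Wr) : Φ (val v w) = val im w := by
  unfold val
  rw [map_list_prod, List.map_map]
  congr 1
  apply List.map_congr_left
  intro i _
  exact hΦ i

include hΦ in
theorem Phi_F : Φ.comp hv.F = Psi := by
  apply (MonoidHom.noncommPiCoprodEquiv (N := fun _ : Fin 6 => Multiplicative ℤ)
    (M := Fin 6 → D)).symm.injective
  apply Subtype.ext
  funext k
  apply MonoidHom.ext_mint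
  show Φ (hv.F (Pi.mulSingle k (ofAdd 1))) = Psi (Pi.mulSingle k (ofAdd 1))
  rw [hv.F_single, Phi_val hΦ, Psi_single]

include hv hΦ in
theorem mem_A_of {g : G} (hg : sm (Φ g) = 1) : g ∈ A v := by
  haveI := hv.normal
  let q : G →* G ⧸ A v := QuotientGroup.mk' (A v)
  have hq : ∀ i, q (v i) * q (v i) = 1 := fun i => by rw [← map_mul, hv.sq, map_one]
  have hc : ∀ i k : Fin 6, i < k → Commute (q (v (gn i))) (q (v (gn k))) := by
    intro i k hik
    have h1 : q (v (gn i) * v (gn k) * (v (gn i))⁻¹ * (v (gn k))⁻¹) = 1 :=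
      (QuotientGroup.eq_one_iff _).mpr (hv.comm_gn i k hik)
    rw [map_mul, map_mul, map_mul, map_inv, map_inv, mul_inv_eq_one, mul_inv_eq_iff_eq_mul] at h1
    exact h1
  have hc' : Pairwise fun i k : Fin 6 => ∀ x y : Multiplicative (ZMod 2),
      Commute (two (q (v (gn i))) (hq _) x) (two (q (v (gn k))) (hq _) y) := by
    intro i k hik x y
    rcases lt_or_gt_of_ne hik with h1 | h1
    · exact two_comm _ _ (hc i k h1) x y
    · exact two_comm _ _ (hc k i h1).symm x y
  let C : (Fin 6 → Multiplicative (ZMod 2)) →* G ⧸ A v :=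
    MonoidHom.noncommPiCoprod (fun k => two (q (v (gn k))) (hq _)) hc'
  have heq : q = C.comp (sm.comp Φ) := by
    apply MonoidHom.eq_of_eqOn_dense hv.gen6
    rintro _ ⟨k, rfl⟩
    show q (v (gn k)) = C (sm (Φ (v (gn k))))
    rw [hΦ, sm_gn]
    show _ = MonoidHom.noncommPiCoprod (fun k => two (q (v (gn k))) (hq _)) hc'
      (Pi.mulSingle k (ofAdd 1))
    rw [MonoidHom.noncommPiCoprod_mulSingle, two_gen]
  have h1 : q g = 1 := by
    rw [heq]
    show C (sm (Φ g)) = 1
    rw [hg, map_one]
  exact (QuotientGroup.eq_one_iff _).mp h1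

include hv hΦ in
theorem mem_A_iff {g : G} : g ∈ A v ↔ sm (Φ g) = 1 := by
  refine ⟨fun h => ?_, fun h => hv.mem_A_of hΦ h⟩
  have h1 : A v ≤ (sm.comp Φ).ker := by
    unfold A
    rw [Subgroup.closure_le]
    rintro _ ⟨k, rfl⟩
    show sm (Φ (val v (bw k))) = 1
    rw [Phi_val hΦ, sm_bw]
  exact h1 h

include hv hΦ in
/-- the homomorphism to the sixth power of the infinite dihedral group is injective -/
theorem injective : Function.Injective Φ := by
  rw [injective_iff_map_eq_one]
  intro g hg
  have h1 : g ∈ A v := hv.mem_A_of hΦ (by rw [hg, map_one])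
  rw [← hv.range_F] at h1
  obtain ⟨n, rfl⟩ := h1
  have h2 : Psi n = 1 := by
    rw [← hv.Phi_F hΦ]
    exact hg
  have h3 : n = 1 := Psi_inj (by rw [h2, map_one])
  rw [h3, map_one]

include hv hΦ in
theorem F_inj : Function.Injective hv.F := by
  have h : Function.Injective (Φ ∘ hv.F) := by
    have := Psi_inj
    rwa [← hv.Phi_F hΦ] at this
  exact h.of_comp

include hv hΦ in
/-- the structure of the group -/
theorem structure' : (A v).Normal ∧ (A v).index = 64 ∧
    Nonempty (A v ≃* Multiplicative (Fin 6 → ℤ)) := by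
  refine ⟨hv.normal, ?_, ?_⟩
  · have hk : A v = (sm.comp Φ).ker := by
      ext g
      exact hv.mem_A_iff hΦ
    rw [hk, Subgroup.index_ker]
    have hs : (sm.comp Φ).range = ⊤ := by
      rw [eq_top_iff]
      intro e _
      have h1 : e = ∏ k, Pi.mulSingle k (e k) := (Finset.univ_prod_mulSingle e).symm
      rw [h1]
      apply Subgroup.prod_mem
      intro k _
      have h2 : ∀ x : Multiplicative (ZMod 2), x = 1 ∨ x = ofAdd 1 := by decide
      rcases h2 (e k) with h3 | h3
      · rw [h3, Pi.mulSingle_one]; exact Subgroup.one_mem _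
      · rw [h3]
        refine ⟨v (gn k), ?_⟩
        show sm (Φ (v (gn k))) = _
        rw [hΦ, sm_gn]
    rw [hs, Subgroup.card_top, Nat.card_eq_fintype_card, Fintype.card_pi]
    simp [Fintype.card_multiplicative]
  · have e1 : (Fin 6 → Multiplicative ℤ) ≃* hv.F.range := MonoidHom.ofInjective (hv.F_inj hΦ)
    rw [hv.range_F] at e1
    have e2 : Multiplicative (Fin 6 → ℤ) ≃* (Fin 6 → Multiplicative ℤ) :=
      { toFun := fun n k => ofAdd (toAdd n k)
        invFun := fun n => ofAdd fun k => toAdd (n k)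
        left_inv := fun _ => rfl
        right_inv := fun _ => rfl
        map_mul' := fun _ _ => rfl }
    exact ⟨(e2.trans e1).symm⟩

end Pres

end GIG.Pet
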