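import Pool.Agent.Lib.MP_262b4d_al.QPauli

/-!
# The word problem and the structure of the graph incidence groups of the Petersen graph
-/

namespace GIG

open Srch DihedralGroup

namespace Pet

variable {B : List ℕ}

theorem of_mk_eq_one {g : Grp 10 petersen B} (h : (QuotientGroup.mk g : GrpU 10 petersen B) = 1) :
    g = 1 ∨ g = gJ 10 petersen B := by
  have h1 : g ∈ Subgroup.normalClosure {gJ 10 petersen B} := (QuotientGroup.eq_one_iff _).mp h
  have hn : (Subgroup.zpowers (gJ 10 petersen B)).Normal := by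
    constructor
    rintro _ ⟨k, rfl⟩ a
    have h2 : a * gJ 10 petersen B ^ k * a⁻¹ = gJ 10 petersen B ^ k := by
      rw [((gJ_central a).zpow_right k).eq, mul_assoc, mul_inv_cancel, mul_one]
    show a * gJ 10 petersen B ^ k * a⁻¹ ∈ _
    rw [h2]
    exact ⟨k, rfl⟩
  have h3 : g ∈ Subgroup.zpowers (gJ 10 petersen B) :=
    Subgroup.normalClosure_le_normal (N := Subgroup.zpowers (gJ 10 petersen B))
      (Set.singleton_subset_iff.mpr (Subgroup.mem_zpowers _)) h1
  obtain ⟨k, rfl⟩ := h3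
  have h4 : gJ 10 petersen B ^ (2 : ℤ) = 1 := by
    rw [zpow_ofNat, pow_two, gJ_sq]
  rcases Int.even_or_odd' k with ⟨j, rfl | rfl⟩
  · left
    show gJ 10 petersen B ^ (2 * j) = 1
    rw [zpow_mul, h4, one_zpow]
  · right
    show gJ 10 petersen B ^ (2 * j + 1) = gJ 10 petersen B
    rw [zpow_add, zpow_mul, h4, one_zpow, one_mul, zpow_one]

/-- the embedding of the uncoloured group -/
theorem exists_emb (B : List ℕ) : ∃ (Φ : Grp 10 petersen B →* (Fin 6 → D))
    (Ψ : GrpU 10 petersen B →* (Fin 6 → D)), (∀ g, Ψ (QuotientGroup.mk g) = Φ g) ∧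
    ∀ i, Ψ (vq B i) = im i := by
  obtain ⟨Φ, h1, h2⟩ := exists_Phi (B := B)
  refine ⟨Φ, QuotientGroup.lift _ Φ ?_, fun _ => rfl, fun i => h2 i⟩
  intro g hg
  have h3 : Subgroup.normalClosure {gJ 10 petersen B} ≤ Φ.ker :=
    Subgroup.normalClosure_le_normal (Set.singleton_subset_iff.mpr h1)
  exact h3 hg

theorem cm_ne {i : ℤ} (hi : i ≠ 0) : cm (Int.natAbs i + 1) (i : ZMod 0) ≠ 0 := by
  intro h
  have h2 : (Int.cast i : ZMod (Int.natAbs i + 1)) = 0 := h
  rw [ZMod.intCast_zmod_eq_zero_iff_dvd] at h2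
  exact hi (Int.eq_zero_of_abs_lt_dvd h2 (by
    rw [Int.abs_eq_natAbs]; push_cast; omega))

theorem red_ne {x : D} (hx : x ≠ 1) : ∃ m : ℕ, 0 < m ∧ red m x ≠ 1 := by
  rcases x with i | i
  · refine ⟨Int.natAbs (i : ℤ) + 1, Nat.succ_pos _, ?_⟩
    intro h
    refine cm_ne (i := (i : ℤ)) ?_ (DihedralGroup.r.inj h)
    intro h3
    apply hx
    have h4 : i = (0 : ZMod 0) := h3
    rw [h4]; rfl
  · refine ⟨1, Nat.one_pos, fun h => ?_⟩
    have h1 : (sr (cm 1 i) : DihedralGroup 1) = r 0 := h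
    cases h1

/-- the groups are residually finite -/
theorem rfin (B : List ℕ) : RFin (Grp 10 petersen B) := by
  intro g hg
  obtain ⟨Φ, Ψ, h1, h2⟩ := exists_emb B
  by_cases h : Φ g = 1
  · have h3 : (QuotientGroup.mk g : GrpU 10 petersen B) = 1 := by
      apply (pres (B := B)).injective h2
      rw [h1, h, map_one]
    rcases of_mk_eq_one h3 with h4 | h4
    · exact absurd h4 hg
    · obtain ⟨ρ, hρ⟩ := exists_Pauli B
      exact ⟨8, ρ, by rw [h4]; exact hρ⟩
  · obtain ⟨k, hk⟩ : ∃ k, Φ g k ≠ 1 := by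
      by_contra hno
      push Not at hno
      exact h (funext hno)
    obtain ⟨m, hm, hr⟩ := red_ne hk
    have : NeZero m := ⟨hm.ne'⟩
    exact exists_fin_rep' (((red m).comp (Pi.evalMonoidHom (fun _ => D) k)).comp Φ) hr

/-- the word problem is decidable, uniformly in the colouring -/
theorem decidable : ∃ f : List ℕ × Wd → Bool, Computable f ∧
    ∀ (B : List ℕ) (w : Wd), (f (B, w) = true ↔ wval 10 petersen B w = 1) := by
  have hdom : ∀ p : List ℕ × Wd, (alg ((10, petersen, p.1), p.2)).Dom :=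
    fun p => alg_dom (rfin p.1) p.2
  refine ⟨fun p => (alg ((10, petersen, p.1), p.2)).get (hdom p), ?_, ?_⟩
  · have h1 : Partrec fun p : List ℕ × Wd => alg ((10, petersen, p.1), p.2) :=
      partrec_alg.comp (((Computable.const 10).pair ((Computable.const petersen).pair
        Computable.fst)).pair Computable.snd)
    exact h1.of_eq fun p => (Part.some_get (hdom p)).symm
  · intro B w
    exact alg_sound (Part.get_mem (hdom (B, w)))

theorem structure' (B : List ℕ) :
    (∃ A : Subgroup (GrpU 10 petersen B), A.Normal ∧ A.index = 64 ∧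
      Nonempty (A ≃* Multiplicative (Fin 6 → ℤ))) ∧
    ∃ Φ : GrpU 10 petersen B →* (Fin 6 → DihedralGroup 0), Function.Injective Φ := by
  obtain ⟨Φ, Ψ, h1, h2⟩ := exists_emb B
  exact ⟨⟨A (vq B), (pres (B := B)).structure' h2⟩, Ψ, (pres (B := B)).injective h2⟩

end Pet

end GIG
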