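import Pool.Agent.Lib.MP_262b4d_al.QRep

/-!
# `J ≠ 1` in the graph incidence groups of the Petersen graph

Signed permutations of four vectors (products of Pauli matrices): the magic square on a subdivision
of `K_{3,3}`.
-/

namespace GIG

open Srch

namespace Pet

/-- a table as a function -/
def pf (t : List ℕ) (x : Fin 8) : Fin 8 := Fin.ofNat 8 (t.getD x 0)

/-- a table as a permutation, if it is an involution -/
def ip (t : List ℕ) : Equiv.Perm (Fin 8) :=
  if h : ∀ x, pf t (pf t x) = x then ⟨pf t, pf t, h, h⟩ else 1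

/-- the image of `J` -/
def jp : Equiv.Perm (Fin 8) := ip [1, 0, 3, 2, 5, 4, 7, 6]

/-- the table of the images of the edges -/
def mt : List (List ℕ) := [[0, 1, 2, 3, 4, 5, 6, 7], [2, 3, 0, 1, 6, 7, 4, 5],
  [4, 5, 6, 7, 0, 1, 2, 3], [4, 5, 6, 7, 0, 1, 2, 3], [0, 1, 3, 2, 4, 5, 7, 6],
  [0, 1, 3, 2, 4, 5, 7, 6], [2, 3, 0, 1, 6, 7, 4, 5], [6, 7, 4, 5, 2, 3, 0, 1],
  [0, 1, 2, 3, 4, 5, 6, 7], [4, 5, 7, 6, 0, 1, 3, 2], [0, 1, 3, 2, 5, 4, 6, 7],
  [7, 6, 4, 5, 2, 3, 1, 0], [2, 3, 0, 1, 7, 6, 5, 4], [0, 1, 2, 3, 5, 4, 7, 6],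
  [0, 1, 2, 3, 5, 4, 7, 6]]

/-- the image of an edge; `c` is the sign, `l` is the parity of the colouring -/
def tt (c l : Bool) (i : ℕ) : Equiv.Perm (Fin 8) :=
  (if c then jp else 1) * (if l then ip (mt.getD i []) else 1)

/-- the sign of an edge -/
def cc (b : ℕ → Bool) (i : ℕ) : Bool :=
  (([[], [1], [3], [], [], [0], [], [1, 2, 3], [], [4], [0, 5, 8], [4, 6, 9], [6], [], [8]] :
    List (List ℕ)).getD i []).foldr (fun x y => xor (b x) y) false

/-- the parity of the colouring -/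
def ll (b : ℕ → Bool) : Bool := (List.range 10).foldr (fun x y => xor (b x) y) false

theorem parity (b : ℕ → Bool) : ∀ x < 10,
    xor (xor (cc b (stf x).1) (xor (cc b (stf x).2.1) (cc b (stf x).2.2))) (ll b && decide (x = 7)) =
      b x := by
  have key : ∀ b0 b1 b2 b3 b4 b5 b6 b7 b8 b9 : Bool, ∀ x < 10,
      xor (xor (cc (fun i => [b0, b1, b2, b3, b4, b5, b6, b7, b8, b9].getD i false) (stf x).1)
        (xor (cc (fun i => [b0, b1, b2, b3, b4, b5, b6, b7, b8, b9].getD i false) (stf x).2.1)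
          (cc (fun i => [b0, b1, b2, b3, b4, b5, b6, b7, b8, b9].getD i false) (stf x).2.2)))
        (ll (fun i => [b0, b1, b2, b3, b4, b5, b6, b7, b8, b9].getD i false) && decide (x = 7)) =
      [b0, b1, b2, b3, b4, b5, b6, b7, b8, b9].getD x false := by decide +kernel
  intro x hx
  have h := key (b 0) (b 1) (b 2) (b 3) (b 4) (b 5) (b 6) (b 7) (b 8) (b 9) x hx
  have h1 : ∀ i : ℕ, cc (fun i => [b 0, b 1, b 2, b 3, b 4, b 5, b 6, b 7, b 8, b 9].getD i false)
      (stf x).1 = cc b (stf x).1 := by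
    intro i
    interval_cases x <;> rfl
  have h2 : cc (fun i => [b 0, b 1, b 2, b 3, b 4, b 5, b 6, b 7, b 8, b 9].getD i false)
      (stf x).2.1 = cc b (stf x).2.1 := by
    interval_cases x <;> rfl
  have h3 : cc (fun i => [b 0, b 1, b 2, b 3, b 4, b 5, b 6, b 7, b 8, b 9].getD i false)
      (stf x).2.2 = cc b (stf x).2.2 := by
    interval_cases x <;> rfl
  have h4 : ll (fun i => [b 0, b 1, b 2, b 3, b 4, b 5, b 6, b 7, b 8, b 9].getD i false) = ll b :=
    rfl
  have h5 : [b 0, b 1, b 2, b 3, b 4, b 5, b 6, b 7, b 8, b 9].getD x false = b x := by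
    interval_cases x <;> rfl
  rw [h1 0, h2, h3, h4, h5] at h
  exact h

theorem tt_sq : ∀ c l : Bool, ∀ i < 15, tt c l i * tt c l i = 1 := by decide +kernel

theorem tt_J : ∀ c l : Bool, ∀ i < 15, tt c l i * (jp * (tt c l i * (jp * 1))) = 1 := by
  decide +kernel

theorem tt_comm : ∀ l : Bool, ∀ i < 15, ∀ k < 15,
    shB (ed (10, petersen, []) i) (ed (10, petersen, []) k) = true → ∀ c d : Bool,
      tt c l i * (tt d l k * (tt c l i * (tt d l k * 1))) = 1 := by decide +kernel

theorem tt_star : ∀ l : Bool, ∀ x < 10, ∀ c d e : Bool,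
    tt c l (stf x).1 * (tt d l (stf x).2.1 * (tt e l (stf x).2.2 * 1)) =
      (if xor (xor c (xor d e)) (l && decide (x = 7)) then jp else 1) := by decide +kernel

theorem jp_sq : jp * jp = 1 := by decide

theorem jp_ne : jp ≠ 1 := by decide

theorem exists_Pauli (B : List ℕ) : ∃ ρ : Grp 10 petersen B →* Equiv.Perm (Fin 8),
    ρ (gJ 10 petersen B) ≠ 1 := by
  let b : ℕ → Bool := fun x => decide (x ∈ B)
  let f : Option ℕ → Equiv.Perm (Fin 8) := fun s => match s with
    | none => jp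
    | some i => tt (cc b i) (ll b) i
  obtain ⟨F, hF⟩ := exists_hom (n := 10) (E := petersen) (B := B) f (by
    intro r hr
    rcases mem_rl.1 hr with rfl | h | h | h | h
    · show jp * (jp * 1) = 1
      rw [mul_one, jp_sq]
    · obtain ⟨i, hi, rfl⟩ := mem_rl2.1 h
      show tt (cc b i) (ll b) i * (tt (cc b i) (ll b) i * 1) = 1
      rw [mul_one]; exact tt_sq _ _ i hi
    · obtain ⟨i, hi, rfl⟩ := mem_rl3.1 h
      exact tt_J _ _ i hi
    · obtain ⟨i, hi, k, hk, hs, rfl⟩ := mem_rl4.1 h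
      exact tt_comm _ i hi k hk hs _ _
    · obtain ⟨x, hx, rfl⟩ := mem_rl5.1 h
      rw [star_pet hx, List.map_append, List.prod_append]
      have h0 : ([some (stf x).1, some (stf x).2.1, some (stf x).2.2].map f).prod =
        (if b x then jp else 1) := by
        have h1 := tt_star (ll b) x hx (cc b (stf x).1) (cc b (stf x).2.1) (cc b (stf x).2.2)
        rw [parity b x hx] at h1
        exact h1
      rw [h0]
      by_cases hb : x ∈ B
      · have h2 : b x = true := decide_eq_true hb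
        rw [h2, if_pos rfl, if_pos hb]
        show jp * (jp * 1) = 1
        rw [mul_one, jp_sq]
      · have h2 : b x = false := decide_eq_false hb
        rw [h2, if_neg hb]
        rfl)
  refine ⟨F, ?_⟩
  have h1 : F (gJ 10 petersen B) = jp := hF none vd_none
  rw [h1]
  exact jp_ne

end Pet

end GIG
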