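import Pool.Agent.Lib.MP_262b4d_al.QInj
import Pool.Agent.Lib.MP_262b4d_al.QDefs
import Pool.Agent.Lib.MP_262b4d_al.PCert
import Pool.Agent.Lib.MP_262b4d_al.PEmb

/-!
# The graph incidence groups of the Petersen graph
-/

namespace GIG

open Srch

namespace Pet

/-- the stars of the Petersen graph, as a function of the vertex -/
def stf (x : ℕ) : ℕ × ℕ × ℕ := stars.getD x (0, 0, 0)

theorem star_pet {B : List ℕ} {x : ℕ} (hx : x < 10) :
    star (10, petersen, B) x = [some (stf x).1, some (stf x).2.1, some (stf x).2.2] := by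
  show star (10, petersen, []) x = _
  revert x
  decide

theorem stf_mem {s : ℕ × ℕ × ℕ} (hs : s ∈ stars) : ∃ x < 10, s = stf x := by
  revert s
  decide

theorem shB_pet : ∀ s ∈ stars, shB (ed (10, petersen, []) s.1) (ed (10, petersen, []) s.2.1) = true ∧
    s.1 < 15 ∧ s.2.1 < 15 ∧ s.2.2 < 15 := by
  decide

variable (B : List ℕ)

/-- the generators of the uncoloured group -/
def vq (i : ℕ) : GrpU 10 petersen B := QuotientGroup.mk (gen 10 petersen B (some i))

variable {B}

theorem mk_J : (QuotientGroup.mk (gJ 10 petersen B) : GrpU 10 petersen B) = 1 :=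
  (QuotientGroup.eq_one_iff _).mpr (Subgroup.subset_normalClosure rfl)

theorem pres : Pres (vq B) where
  sq i := by
    show (QuotientGroup.mk (gen 10 petersen B (some i) * gen 10 petersen B (some i)) :
      GrpU 10 petersen B) = 1
    rw [gen_sq]; rfl
  triv i hi := by
    unfold vq
    rw [gen_not_vd (by rw [vd_some]; exact not_lt.mpr hi)]; rfl
  st s hs := by
    obtain ⟨h1, h2, h3, h4⟩ := shB_pet s hs
    constructor
    · obtain ⟨x, hx, rfl⟩ := stf_mem hs
      have h5 := vl_rl (n := 10) (E := petersen) (B := B)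
        (mem_rl.2 (Or.inr (Or.inr (Or.inr (Or.inr (mem_rl5.2 ⟨x, hx, rfl⟩))))))
      rw [star_pet hx] at h5
      have h6 := congrArg (QuotientGroup.mk : Grp 10 petersen B → GrpU 10 petersen B) h5
      by_cases hb : x ∈ B
      · rw [if_pos hb] at h6
        have h7 : vq B (stf x).1 * (vq B (stf x).2.1 * (vq B (stf x).2.2 *
          ((QuotientGroup.mk (gJ 10 petersen B) : GrpU 10 petersen B) * 1))) = 1 := h6
        rw [mk_J, mul_one, mul_one] at h7
        rw [mul_assoc]; exact h7
      · rw [if_neg hb] at h6
        have h7 : vq B (stf x).1 * (vq B (stf x).2.1 * (vq B (stf x).2.2 * 1)) = 1 := h6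
        rw [mul_one] at h7
        rw [mul_assoc]; exact h7
    · have h5 := vl_rl (n := 10) (E := petersen) (B := B) (mem_rl.2 (Or.inr (Or.inr (Or.inr (Or.inl
        (mem_rl4.2 ⟨s.1, h2, s.2.1, h3, h1, rfl⟩))))))
      have h6 : gen 10 petersen B (some s.1) * (gen 10 petersen B (some s.2.1) *
        (gen 10 petersen B (some s.1) * (gen 10 petersen B (some s.2.1) * 1))) = 1 := h5
      have h7 : gen 10 petersen B (some s.1) * gen 10 petersen B (some s.2.1) =
          gen 10 petersen B (some s.2.1) * gen 10 petersen B (some s.1) := by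
        have ha : (gen 10 petersen B (some s.1))⁻¹ = gen 10 petersen B (some s.1) :=
          inv_eq_of_mul_eq_one_left (gen_sq _)
        have hb : (gen 10 petersen B (some s.2.1))⁻¹ = gen 10 petersen B (some s.2.1) :=
          inv_eq_of_mul_eq_one_left (gen_sq _)
        rw [mul_one, ← mul_assoc] at h6
        have h8 := eq_inv_of_mul_eq_one_left h6
        rw [mul_inv_rev, ha, hb] at h8
        exact h8
      exact congrArg (QuotientGroup.mk : Grp 10 petersen B → GrpU 10 petersen B) h7
  gen := by
    rw [eq_top_iff]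
    intro g _
    obtain ⟨g, rfl⟩ := QuotientGroup.mk_surjective g
    refine grp_induction (p := fun g => (QuotientGroup.mk g : GrpU 10 petersen B) ∈
      Subgroup.closure (Set.range (vq B))) ?_ ?_ ?_ ?_ ?_ g
    · exact Subgroup.one_mem _
    · show (QuotientGroup.mk (gJ 10 petersen B) : GrpU 10 petersen B) ∈ _
      rw [mk_J]; exact Subgroup.one_mem _
    · intro i
      apply Subgroup.subset_closure
      refine ⟨i.val, ?_⟩
      unfold vq
      rw [gen_vd_some i.2]
    · intro a b ha hb
      exact Subgroup.mul_mem _ ha hb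
    · intro a ha
      exact Subgroup.inv_mem _ ha

/-- the homomorphism to the sixth power of the infinite dihedral group -/
theorem exists_Phi : ∃ Φ : Grp 10 petersen B →* (Fin 6 → D), Φ (gJ 10 petersen B) = 1 ∧
    ∀ i, Φ (gen 10 petersen B (some i)) = im i := by
  let f : Option ℕ → (Fin 6 → D) := fun s => match s with
    | none => 1
    | some i => im i
  have hsq : ∀ i < 15, im i * im i = 1 := by decide
  have hc : ∀ i < 15, ∀ k < 15, shB (ed (10, petersen, []) i) (ed (10, petersen, []) k) = true →
      im i * (im k * (im i * (im k * 1))) = 1 := by decide +kernel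
  have hst : ∀ x < 10, im (stf x).1 * (im (stf x).2.1 * (im (stf x).2.2 * 1)) = 1 := by decide
  obtain ⟨F, hF⟩ := exists_hom (n := 10) (E := petersen) (B := B) f (by
    intro r hr
    rcases mem_rl.1 hr with rfl | h | h | h | h
    · rfl
    · obtain ⟨i, hi, rfl⟩ := mem_rl2.1 h
      show im i * (im i * 1) = 1
      rw [mul_one]; exact hsq i hi
    · obtain ⟨i, hi, rfl⟩ := mem_rl3.1 h
      show im i * (1 * (im i * (1 * 1))) = 1
      rw [mul_one, mul_one, one_mul]; exact hsq i hi
    · obtain ⟨i, hi, k, hk, hs, rfl⟩ := mem_rl4.1 h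
      exact hc i hi k hk hs
    · obtain ⟨x, hx, rfl⟩ := mem_rl5.1 h
      rw [star_pet hx, List.map_append, List.prod_append]
      have h1 : (List.map f (if x ∈ B then [none] else [])).prod = 1 := by
        split_ifs <;> rfl
      rw [h1, mul_one]
      exact hst x hx)
  refine ⟨F, hF none vd_none, ?_⟩
  intro i
  by_cases hi : i < 15
  · exact hF (some i) (vd_some.2 hi)
  · rw [gen_not_vd (by rw [vd_some]; exact hi), map_one]
    funext h
    have h1 : imT.getD i [] = [] := List.getD_eq_default _ _ (not_lt.mp hi)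
    show 1 = cd ((imT.getD i []).getD h 0)
    rw [h1]
    rfl

end Pet

end GIG
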