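import Pool.Agent.Lib.MP_262b4d_al.QCheck

/-!
# The structure of the uncoloured graph incidence group of the Petersen graph
-/

namespace GIG.Pet

/-- six of the edges -/
def gn : Fin 6 → ℕ := ![4, 0, 1, 2, 3, 11]

/-- six words -/
def bw : Fin 6 → Wr :=
  ![[11, 1, 11, 1], [6, 9, 6, 9], [7, 5, 7, 5], [8, 6, 8, 6], [9, 7, 9, 7], [0, 8, 0, 8]]

/-- the words for the other positive roots, each a product of two words before it -/
def chn : List (Wr × Wr × Wr) := [
  ([1,4,1,4],[6,9,6,9],[7,5,7,5]),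
  ([2,0,2,0],[7,5,7,5],[8,6,8,6]),
  ([2,4,2,4],[6,9,6,9],[2,0,2,0]),
  ([1,9,1,9],[0,8,0,8],[2,4,2,4]),
  ([3,0,3,0],[9,7,9,7],[2,0,2,0]),
  ([2,5,2,5],[1,9,1,9],[3,0,3,0]),
  ([3,1,3,1],[8,6,8,6],[9,7,9,7]),
  ([3,6,3,6],[2,5,2,5],[4,1,4,1]),
  ([4,7,4,7],[0,8,0,8],[3,1,3,1]),
  ([5,12,5,12],[8,6,8,6],[0,8,0,8]),
  ([6,10,6,10],[9,7,9,7],[1,9,1,9]),
  ([7,13,7,13],[7,5,7,5],[5,12,5,12]),
  ([8,5,8,5],[6,9,6,9],[3,0,3,0]),
  ([8,11,8,11],[6,9,6,9],[3,6,3,6]),
  ([9,14,9,14],[7,5,7,5],[4,7,4,7]),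
  ([10,0,10,0],[11,1,11,1],[2,4,2,4]),
  ([10,3,10,3],[11,1,11,1],[1,9,1,9]),
  ([11,0,11,0],[11,1,11,1],[2,5,2,5]),
  ([11,3,11,3],[11,1,11,1],[1,4,1,4]),
  ([12,0,12,0],[11,1,11,1],[8,5,8,5]),
  ([12,2,12,2],[11,1,11,1],[6,10,6,10]),
  ([13,2,13,2],[11,1,11,1],[6,9,6,9]),
  ([13,4,13,4],[6,9,6,9],[11,0,11,0]),
  ([14,1,14,1],[11,1,11,1],[8,11,8,11])]

/-- test of a list of words -/
def memchk (Q : List Eqn) : List (Wr × Wr × Wr) → List Wr → Bool
  | [], _ => true
  | (l, b, w) :: L, K => decide ((l, b ++ w) ∈ Q) && (decide (b ∈ K) && (decide (w ∈ K) &&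
      memchk Q L (l :: l.reverse :: K)))

/-- the words of the list -/
def kn : List (Wr × Wr × Wr) → List Wr → List Wr
  | [], K => K
  | (l, _, _) :: L, K => kn L (l :: l.reverse :: K)

/-- the equations of the targets -/
def eqs : List Eqn := targ.map (fun e => (e.1, e.2.1))

/-- the six words and their inverses -/
def K0 : List Wr := (List.finRange 6).flatMap (fun k => [bw k, (bw k).reverse])

/-- the words for the sixty roots -/
def K1 : List Wr := kn chn K0

theorem memchk_ok : memchk eqs chn K0 = true := by decide +kernel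

theorem conj_ok : ∀ i k : Fin 6, ∃ u ∈ K1, (gn i :: (bw k ++ [gn i]), u) ∈ eqs := by decide +kernel

theorem comm_ok : ∀ i k : Fin 6, i < k → (bw i ++ bw k, bw k ++ bw i) ∈ eqs := by decide +kernel

theorem gcomm_ok : ∀ i k : Fin 6, i < k → ∃ u ∈ [] :: K1, ([gn i, gn k, gn i, gn k], u) ∈ eqs := by
  decide +kernel

section

variable {G : Type*} [Group G] {v : ℕ → G}

theorem eqs_holds (h : Holds v (base 15 stars)) : Holds v eqs := by
  intro e he
  obtain ⟨x, hx, rfl⟩ := List.mem_map.mp he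
  exact cons_sound (chk_sound cert _ h cert_ok) targ targ_ok x hx

theorem val_reverse (hsq : ∀ i, v i * v i = 1) (u : Wr) : val v u.reverse = (val v u)⁻¹ := by
  induction u with
  | nil => simp [val]
  | cons i u ih =>
    have hi : (v i)⁻¹ = v i := inv_eq_of_mul_eq_one_left (hsq i)
    rw [List.reverse_cons, val_append, ih, val_cons v i [], val_nil, mul_one, val_cons, mul_inv_rev, hi]

theorem mem_kn (hsq : ∀ i, v i * v i = 1) {Q : List Eqn} (hQ : Holds v Q) {A : Subgroup G} :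
    ∀ (L : List (Wr × Wr × Wr)) (K : List Wr), memchk Q L K = true → (∀ u ∈ K, val v u ∈ A) →
      ∀ u ∈ kn L K, val v u ∈ A
  | [], _, _, hK => hK
  | (l, b, w) :: L, K, h, hK => by
    have h1 := (Bool.and_eq_true _ _).mp h
    have h2 := (Bool.and_eq_true _ _).mp h1.2
    have h3 := (Bool.and_eq_true _ _).mp h2.2
    have hl : val v l ∈ A := by
      have := hQ _ (of_decide_eq_true h1.1)
      dsimp only at this
      rw [this, val_append]
      exact A.mul_mem (hK _ (of_decide_eq_true h2.1)) (hK _ (of_decide_eq_true h3.1))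
    refine mem_kn hsq hQ L _ h3.2 ?_
    intro u hu
    rcases List.mem_cons.mp hu with rfl | hu
    · exact hl
    rcases List.mem_cons.mp hu with rfl | hu
    · rw [val_reverse hsq]; exact A.inv_mem hl
    · exact hK u hu

end

end GIG.Pet
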