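import Mathlib

/-!
# Verified rewriting certificates

A certificate is a list of equations between words, each with two derivations from the equations
before it.
-/

namespace GIG.Pet

/-- words -/
abbrev Wr : Type := List ℕ

/-- equations between words -/
abbrev Eqn : Type := Wr × Wr

/-- derivations: each step replaces the left side of the equation number `k` between `p` and `q` by
the right side -/
abbrev Trace : Type := List (Wr × ℕ × Wr)

/-- the equation number `k` of a table (the trivial equation if there is none) -/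
def look : List Eqn → ℕ → Eqn
  | [], _ => ([], [])
  | e :: _, 0 => e
  | _ :: T, k + 1 => look T k

/-- the derivation leads from `a` to `b` -/
def ok (T : List Eqn) : Wr → Trace → Wr → Bool
  | a, [], b => decide (a = b)
  | a, (p, k, q) :: L, b => decide (a = p ++ ((look T k).1 ++ q)) && ok T (p ++ ((look T k).2 ++ q)) L b

/-- an equation with a word and two derivations -/
abbrev Line : Type := Wr × Wr × Wr × Trace × Trace

/-- test of a list of lemmas -/
def chk : List Line → List Eqn → Bool
  | [], _ => true
  | (l, r, w, s, t) :: L, T => ok T w s l && (ok T w t r && chk L ((l, r) :: T))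

/-- the table with the new lemmas -/
def ext : List Line → List Eqn → List Eqn
  | [], T => T
  | (l, r, _, _, _) :: L, T => ext L ((l, r) :: T)

/-- test of a list of consequences -/
def cons (T : List Eqn) : List Line → Bool
  | [] => true
  | (l, r, w, s, t) :: L => ok T l s w && (ok T r t w && cons T L)

variable {G : Type*} [Group G]

/-- the value of a word -/
def val (v : ℕ → G) (w : Wr) : G := (w.map v).prod

theorem val_nil (v : ℕ → G) : val v [] = 1 := rfl

theorem val_cons (v : ℕ → G) (i : ℕ) (w : Wr) : val v (i :: w) = v i * val v w := rfl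

theorem val_append (v : ℕ → G) (u w : Wr) : val v (u ++ w) = val v u * val v w := by
  unfold val
  rw [List.map_append, List.prod_append]

/-- all equations of the table hold -/
def Holds (v : ℕ → G) (T : List Eqn) : Prop := ∀ e ∈ T, val v e.1 = val v e.2

theorem look_holds {v : ℕ → G} : ∀ {T : List Eqn}, Holds v T → ∀ k,
    val v (look T k).1 = val v (look T k).2
  | [], _, _ => rfl
  | _ :: _, h, 0 => h _ List.mem_cons_self
  | _ :: T, h, k + 1 => look_holds (T := T) (fun e he => h e (List.mem_cons_of_mem _ he)) k

theorem ok_sound {v : ℕ → G} {T : List Eqn} (hT : Holds v T) : ∀ (L : Trace) (a b : Wr),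
    ok T a L b = true → val v a = val v b
  | [], a, b, h => by
    have : a = b := of_decide_eq_true h
    rw [this]
  | (p, k, q) :: L, a, b, h => by
    have h' := (Bool.and_eq_true _ _).mp h
    have h1 : a = p ++ ((look T k).1 ++ q) := of_decide_eq_true h'.1
    rw [← ok_sound hT L _ _ h'.2, h1]
    simp only [val_append, look_holds hT k]

theorem chk_sound {v : ℕ → G} : ∀ (L : List Line) (T : List Eqn), Holds v T → chk L T = true →
    Holds v (ext L T)
  | [], _, hT, _ => hT
  | (l, r, w, s, t) :: L, T, hT, h => by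
    have h' := (Bool.and_eq_true _ _).mp h
    have h'' := (Bool.and_eq_true _ _).mp h'.2
    refine chk_sound L ((l, r) :: T) ?_ h''.2
    intro e he
    rcases List.mem_cons.mp he with rfl | he
    · exact (ok_sound hT _ _ _ h'.1).symm.trans (ok_sound hT _ _ _ h''.1)
    · exact hT e he

theorem cons_sound {v : ℕ → G} {T : List Eqn} (hT : Holds v T) : ∀ (L : List Line),
    cons T L = true → ∀ e ∈ L, val v e.1 = val v e.2.1
  | [], _, _, he => absurd he (by simp)
  | (l, r, w, s, t) :: L, h, e, he => by
    have h' := (Bool.and_eq_true _ _).mp h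
    have h'' := (Bool.and_eq_true _ _).mp h'.2
    rcases List.mem_cons.mp he with rfl | he
    · exact (ok_sound hT _ _ _ h'.1).trans (ok_sound hT _ _ _ h''.1).symm
    · exact cons_sound hT L h''.2 e he

/-- the six orders of an equation `a * b * c = 1` between involutions -/
def six (s : ℕ × ℕ × ℕ) : List Eqn :=
  [([s.1, s.2.1], [s.2.2]), ([s.1, s.2.2], [s.2.1]), ([s.2.1, s.1], [s.2.2]),
    ([s.2.1, s.2.2], [s.1]), ([s.2.2, s.1], [s.2.1]), ([s.2.2, s.2.1], [s.1])]

/-- the relations of a cubic graph with `m` edges; `S` is the list of the stars -/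
def base (m : ℕ) (S : List (ℕ × ℕ × ℕ)) : List Eqn :=
  (List.range m).map (fun i => ([i, i], [])) ++ S.flatMap six

theorem holds_base {v : ℕ → G} {m : ℕ} {S : List (ℕ × ℕ × ℕ)} (h1 : ∀ i < m, v i * v i = 1)
    (h2 : ∀ s ∈ S, s.1 < m ∧ s.2.1 < m ∧ s.2.2 < m ∧ v s.1 * v s.2.1 * v s.2.2 = 1 ∧
      v s.1 * v s.2.1 = v s.2.1 * v s.1) : Holds v (base m S) := by
  intro e he
  rcases List.mem_append.mp he with he | he
  · obtain ⟨i, hi, rfl⟩ := List.mem_map.mp he
    have := h1 i (List.mem_range.mp hi)
    simpa [val] using this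
  · obtain ⟨s, hs, he⟩ := List.mem_flatMap.mp he
    obtain ⟨ha, hb, hc, h, hcomm⟩ := h2 s hs
    have ia := mul_eq_one_iff_eq_inv.mp (h1 _ ha)
    have ib := mul_eq_one_iff_eq_inv.mp (h1 _ hb)
    have ic := mul_eq_one_iff_eq_inv.mp (h1 _ hc)
    have e1 : v s.1 * v s.2.1 = v s.2.2 := by rw [ic]; exact mul_eq_one_iff_eq_inv.mp h
    have e2 : v s.2.1 * v s.1 = v s.2.2 := by rw [← hcomm, e1]
    have sa := h1 _ ha
    have sb := h1 _ hb
    have e3 : v s.1 * v s.2.2 = v s.2.1 := by rw [← e1, ← mul_assoc, sa, one_mul]
    have e4 : v s.2.1 * v s.2.2 = v s.1 := by rw [← e2, ← mul_assoc, sb, one_mul]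
    have e5 : v s.2.2 * v s.1 = v s.2.1 := by rw [← e2, mul_assoc, sa, mul_one]
    have e6 : v s.2.2 * v s.2.1 = v s.1 := by rw [← e1, mul_assoc, sb, mul_one]
    simp only [six, List.mem_cons, List.not_mem_nil, or_false] at he
    rcases he with rfl | rfl | rfl | rfl | rfl | rfl <;> simp [val, e1, e2, e3, e4, e5, e6]

end GIG.Pet
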