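import Pool.Agent.Lib.MP_262b4d_al.RPot

/-!
# The uncoloured group acts on the labelled states
-/

namespace GIG

open Function Forest

namespace Prj

/-! ### commuting elements -/

theorem comm_of_sq1 {K : Type*} [Group K] {p q : K} (hp : p * p = 1) (hq : q * q = 1)
    (h : (p⁻¹ * q) * (p⁻¹ * q) = 1) : Commute p q := by
  have hp' : p⁻¹ = p := inv_eq_of_mul_eq_one_left hp
  have hq' : q⁻¹ = q := inv_eq_of_mul_eq_one_left hq
  rw [hp'] at h
  have h1 : p * q = (p * q)⁻¹ := (inv_eq_of_mul_eq_one_left h).symm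
  rw [mul_inv_rev, hp', hq'] at h1
  exact h1

theorem comm_of_sq {K : Type*} [Group K] {a b c d : K} (hab : (a⁻¹ * b) * (a⁻¹ * b) = 1)
    (hac : (a⁻¹ * c) * (a⁻¹ * c) = 1) (had : (a⁻¹ * d) * (a⁻¹ * d) = 1)
    (hbc : (b⁻¹ * c) * (b⁻¹ * c) = 1) (hbd : (b⁻¹ * d) * (b⁻¹ * d) = 1) :
    Commute (a⁻¹ * b) (c⁻¹ * d) := by
  have h1 : Commute (a⁻¹ * b) (a⁻¹ * c) := by
    apply comm_of_sq1 hab hac
    have : (a⁻¹ * b)⁻¹ * (a⁻¹ * c) = b⁻¹ * c := by group
    rw [this, hbc]
  have h2 : Commute (a⁻¹ * b) (a⁻¹ * d) := by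
    apply comm_of_sq1 hab had
    have : (a⁻¹ * b)⁻¹ * (a⁻¹ * d) = b⁻¹ * d := by group
    rw [this, hbd]
  have h3 : c⁻¹ * d = (a⁻¹ * c)⁻¹ * (a⁻¹ * d) := by group
  rw [h3]
  exact h1.inv_right.mul_right h2

theorem prod_twist {D K : Type*} [Group K] {σ : Equiv.Perm D} {j : K} {c : D → ℕ} {z : D → K}
    (hj : ∀ d, Commute (z d) j) (d : D) (k : ℕ) :
    ((List.range k).map (fun i => j ^ c (σ^[i] d) * ((z (σ^[i] d))⁻¹ * z (σ (σ^[i] d))))).prod =
      j ^ ((List.range k).map (fun i => c (σ^[i] d))).sum * ((z d)⁻¹ * z (σ^[k] d)) := by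
  induction k with
  | zero => simp
  | succ k ih =>
    rw [List.range_succ, List.map_append, List.prod_append, ih, List.map_append, List.sum_append]
    simp only [List.map_cons, List.map_nil, List.prod_cons, List.prod_nil, mul_one, List.sum_cons,
      List.sum_nil, add_zero]
    rw [iterate_succ_apply', pow_add]
    have h1 : Commute ((z d)⁻¹ * z (σ^[k] d)) (j ^ c (σ^[k] d)) :=
      ((hj d).inv_left.mul_left (hj _)).pow_right _
    rw [mul_assoc, ← mul_assoc ((z d)⁻¹ * z (σ^[k] d)), h1.eq]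
    simp only [mul_assoc, mul_inv_cancel_left]

theorem cyc_twist {D K : Type*} [Group K] {σ : Equiv.Perm D} {j : K} {c : D → ℕ} {z : D → K}
    (hj : ∀ d, Commute (z d) j) (d : D) :
    cyc σ (fun d => j ^ c d * ((z d)⁻¹ * z (σ d))) d =
      j ^ ((List.range (minimalPeriod σ d)).map (fun i => c (σ^[i] d))).sum := by
  unfold cyc
  rw [prod_twist hj d (minimalPeriod σ d), iterate_minimalPeriod, inv_mul_cancel, mul_one]

end Prj

namespace ProjWide

open Prj

variable {n : ℕ} {E : List (ℕ × ℕ)} {B : List ℕ} {r : Equiv.Perm (Flag E)}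
  (hP : ProjWide n E r)
include hP

/-- homomorphisms from potentials -/
theorem exists_hom2 {K : Type*} [Group K] (j : K) (Z : LF r → K) (c : Flag E → ℕ)
    (hj : j * j = 1) (hjc : ∀ f, Commute (Z f) j)
    (hsq : ∀ f g, adj r f g → ((Z f)⁻¹ * Z g) * ((Z f)⁻¹ * Z g) = 1)
    (ha : ∀ x, j ^ c (fa E x) * ((Z (lf r (fa E x)))⁻¹ * Z (lf r (rv E (fa E x)))) =
      j ^ c x * ((Z (lf r x))⁻¹ * Z (lf r (rv E x))))
    (hr : ∀ x, j ^ c (rv E x) = j ^ c x)
    (hcol : ∀ x, j ^ ((List.range (minimalPeriod (r * fc E) x)).map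
      (fun i => c ((r * fc E)^[i] x))).sum = j ^ col B (fend E x))
    (hiso : ∀ v < n, (¬ ∃ d : Flag E, fend E d = v) → j ^ col B v = 1) :
    ∃ Θ : Grp n E B →* K, Θ (gJ n E B) = j ∧ ∀ x : Flag E, Θ (gx n E B x.1) =
      j ^ c x * ((Z (lf r x))⁻¹ * Z (lf r (rv E x))) := by
  have hu : ∀ f g, Commute ((Z f)⁻¹ * Z g) j := fun f g => (hjc f).inv_left.mul_left (hjc g)
  refine hP.exists_hom j (fun x => j ^ c x * ((Z (lf r x))⁻¹ * Z (lf r (rv E x)))) hj ?_ ?_ ha ?_ ?_
    ?_ hiso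
  · intro x
    exact ((Commute.refl j).pow_left _).mul_left (hu _ _)
  · intro x
    have h1 := ((hu (lf r x) (lf r (rv E x))).pow_right (c x))
    have h2 := hsq _ _ (adj_rv (r := r) x)
    show (j ^ c x * ((Z (lf r x))⁻¹ * Z (lf r (rv E x)))) *
      (j ^ c x * ((Z (lf r x))⁻¹ * Z (lf r (rv E x)))) = 1
    rw [Commute.mul_mul_mul_comm h1, h2, mul_one, ← pow_add, ← two_mul, pow_mul, pow_two, hj,
      one_pow]
  · intro x
    have h2 := hsq _ _ (adj_rv (r := r) x)
    show j ^ c (rv E x) * ((Z (lf r (rv E x)))⁻¹ * Z (lf r (rv E (rv E x)))) = _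
    rw [rv_rv, hr]
    congr 1
    have h3 := inv_eq_of_mul_eq_one_left h2
    rw [← h3]
    group
  · intro x y h
    have k1 : lf r (rv E x) = lf r ((r * fc E) x) := (lf_apply x).symm
    have k2 : lf r (rv E y) = lf r ((r * fc E) y) := (lf_apply y).symm
    have hc : Commute ((Z (lf r x))⁻¹ * Z (lf r (rv E x))) ((Z (lf r y))⁻¹ * Z (lf r (rv E y))) := by
      rw [k1, k2]
      apply comm_of_sq
      · exact hsq _ _ ⟨_, _, rfl, rfl, (lv_apply x).symm⟩
      · exact hsq _ _ ⟨_, _, rfl, rfl, h⟩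
      · exact hsq _ _ ⟨_, _, rfl, rfl, h.trans (lv_apply y).symm⟩
      · exact hsq _ _ ⟨_, _, rfl, rfl, (lv_apply x).trans h⟩
      · exact hsq _ _ ⟨_, _, rfl, rfl, (lv_apply x).trans (h.trans (lv_apply y).symm)⟩
    apply Commute.mul_left
    · apply Commute.mul_right
      · exact ((Commute.refl j).pow_left _).pow_right _
      · exact (hu _ _).symm.pow_left _
    · apply Commute.mul_right
      · exact (hu _ _).pow_right _
      · exact hc
  · intro x
    have h1 := cyc_twist (σ := r * fc E) (j := j) (c := c) (z := fun x => Z (lf r x))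
      (fun d => hjc _) x
    rw [hcol x] at h1
    rw [← h1]
    congr 1
    funext d
    rw [lf_apply]

end ProjWide

/-! ### the action -/

namespace Prj

variable {F : Type} {τ : F → F} {Adj : F → F → Prop} {rep : F → F}

/-- the permutation of a face on the states -/
noncomputable def RR (τ : F → F) (Adj : F → F → Prop) (rep : F → F) {Y : Type}
    (ρ : Racg.W (cms Adj rep) →* Equiv.Perm Y) (f : F) : Equiv.Perm (Y × (F → F → ZMod 2)) where
  toFun p := (ρ (Racg.y (cms Adj rep) (lam Adj rep f p.2)) p.1, p.2 + pp τ Adj rep f)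
  invFun p := (ρ (Racg.y (cms Adj rep) (lam Adj rep f (p.2 + pp τ Adj rep f))) p.1,
    p.2 + pp τ Adj rep f)
  left_inv p := by
    obtain ⟨j, m⟩ := p
    have h1 : m + pp τ Adj rep f + pp τ Adj rep f = m := by rw [add_assoc, m_add_self, add_zero]
    show (_, _) = (_, _)
    rw [h1, ← Equiv.Perm.mul_apply, ← map_mul, Racg.y_sq, map_one, Equiv.Perm.one_apply]
  right_inv p := by
    obtain ⟨j, m⟩ := p
    have h1 : m + pp τ Adj rep f + pp τ Adj rep f = m := by rw [add_assoc, m_add_self, add_zero]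
    show (_, _) = (_, _)
    rw [h1, ← Equiv.Perm.mul_apply, ← map_mul, Racg.y_sq, map_one, Equiv.Perm.one_apply]

variable {Y : Type} {ρ : Racg.W (cms Adj rep) →* Equiv.Perm Y}

theorem RR_apply (f : F) (j : Y) (m : F → F → ZMod 2) : RR τ Adj rep ρ f (j, m) =
    (ρ (Racg.y (cms Adj rep) (lam Adj rep f m)) j, m + pp τ Adj rep f) := rfl

theorem RR_inv_apply (f : F) (j : Y) (m : F → F → ZMod 2) : (RR τ Adj rep ρ f)⁻¹ (j, m) =
    (ρ (Racg.y (cms Adj rep) (lam Adj rep f (m + pp τ Adj rep f))) j, m + pp τ Adj rep f) := rfl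

theorem RR_pair (hW : Wide τ Adj) (hR : IsRep τ rep) {f g : F} (h : Adj f g) (j : Y)
    (m : F → F → ZMod 2) : ((RR τ Adj rep ρ f)⁻¹ * RR τ Adj rep ρ g) (j, m) =
    (ρ (Racg.y (cms Adj rep) (lam Adj rep f m)) (ρ (Racg.y (cms Adj rep) (lam Adj rep g m)) j),
      m + pp τ Adj rep f + pp τ Adj rep g) := by
  rw [Equiv.Perm.mul_apply, RR_apply, RR_inv_apply, add_right_comm m (pp τ Adj rep g),
    lam_inv hW hR h]

theorem RR_sq (hW : Wide τ Adj) (hR : IsRep τ rep) {f g : F} (h : Adj f g) :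
    ((RR τ Adj rep ρ f)⁻¹ * RR τ Adj rep ρ g) * ((RR τ Adj rep ρ f)⁻¹ * RR τ Adj rep ρ g) = 1 := by
  apply Equiv.ext
  rintro ⟨j, m⟩
  have hg : lam Adj rep g (m + pp τ Adj rep f + pp τ Adj rep g) = lam Adj rep g m := by
    rw [add_right_comm, lam_inv hW hR (hW.symm _ _ h)]
  rw [Equiv.Perm.mul_apply, RR_pair hW hR h, RR_pair hW hR h, lam_inv hW hR h, hg,
    Equiv.Perm.one_apply]
  have h1 : m + pp τ Adj rep f + pp τ Adj rep g + pp τ Adj rep f + pp τ Adj rep g = m := by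
    have h2 := m_add_self (pp τ Adj rep f)
    have h3 := m_add_self (pp τ Adj rep g)
    linear_combination h2 + h3
  rw [h1]
  congr 1
  have h4 : Commute (Racg.y (cms Adj rep) (lam Adj rep f m))
      (Racg.y (cms Adj rep) (lam Adj rep g m)) := Racg.y_comm _ (cms_adj h m)
  rw [← Equiv.Perm.mul_apply, ← Equiv.Perm.mul_apply, ← Equiv.Perm.mul_apply, ← map_mul, ← map_mul,
    ← map_mul, mul_assoc, h4.symm.mul_mul_mul_comm, Racg.y_sq, Racg.y_sq, one_mul, map_one,
    Equiv.Perm.one_apply]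

theorem RR_tau (hW : Wide τ Adj) (hR : IsRep τ rep) {f g : F} (h : Adj f g) :
    (RR τ Adj rep ρ (τ f))⁻¹ * RR τ Adj rep ρ (τ g) =
      (RR τ Adj rep ρ f)⁻¹ * RR τ Adj rep ρ g := by
  apply Equiv.ext
  rintro ⟨j, m⟩
  rw [RR_pair hW hR h, RR_pair hW hR (hW.tadj _ _ h), lam_tau hR, lam_tau hR, add_assoc, add_assoc,
    pp_tau hW hR]

theorem val_RR (m0 : F → F → ZMod 2) (j : Y) (C : List F) :
    val (RR τ Adj rep ρ) C (j, m0) =
      (ρ (((labs τ Adj rep m0 C).map (Racg.y (cms Adj rep))).prod) j, st τ Adj rep m0 C) := by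
  induction C with
  | nil =>
    show (j, m0) = (ρ 1 j, m0)
    rw [map_one, Equiv.Perm.one_apply]
  | cons c C ih =>
    rw [labs, List.map_cons, List.prod_cons, map_mul, Equiv.Perm.mul_apply]
    by_cases hC : Odd C.length
    · rw [val_odd _ hC, Equiv.Perm.mul_apply, ih, RR_inv_apply]
      unfold lab
      rw [if_pos hC]
      rfl
    · rw [val_even _ hC, Equiv.Perm.mul_apply, ih, RR_apply]
      unfold lab
      rw [if_neg hC]
      rfl

theorem val_append {G : Type*} [Group G] (Z : F → G) (C : List F) {C' : List F}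
    (h : Even C'.length) : val Z (C ++ C') = val Z C * val Z C' := by
  induction C with
  | nil => rw [List.nil_append, val, one_mul]
  | cons c C ih =>
    rw [List.cons_append, val, val, ih, mul_assoc, List.length_append]
    congr 2
    apply propext
    rw [Nat.odd_add]
    exact ⟨fun h1 => h1.2 h, fun h1 => ⟨fun _ => h, fun _ => h1⟩⟩

end Prj

namespace ProjWide

open Prj

variable {n : ℕ} {E : List (ℕ × ℕ)} {B : List ℕ} {r : Equiv.Perm (Flag E)}
  (hP : ProjWide n E r)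
include hP

omit hP in
theorem exists_word {Z : LF r → GrpU n E B}
    (hZ : ∀ x, Z (lf r (rv E x)) = Z (lf r x) * ux n E B x.1) (g : Grp n E B) :
    ∃ C : List (LF r), Even C.length ∧ val Z C = QuotientGroup.mk g := by
  have key : (∃ C : List (LF r), Even C.length ∧ val Z C = (QuotientGroup.mk g : GrpU n E B)) ∧
      (∃ C : List (LF r), Even C.length ∧ val Z C = (QuotientGroup.mk g : GrpU n E B)⁻¹) := by
    refine grp_induction (p := fun g =>
      (∃ C : List (LF r), Even C.length ∧ val Z C = (QuotientGroup.mk g : GrpU n E B)) ∧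
      (∃ C : List (LF r), Even C.length ∧ val Z C = (QuotientGroup.mk g : GrpU n E B)⁻¹))
      ?_ ?_ ?_ ?_ ?_ g
    · exact ⟨⟨[], ⟨0, rfl⟩, rfl⟩, ⟨[], ⟨0, rfl⟩, by
        rw [QuotientGroup.mk_one, inv_one]; rfl⟩⟩
    · exact ⟨⟨[], ⟨0, rfl⟩, by rw [mk_gJ]; rfl⟩, ⟨[], ⟨0, rfl⟩, by
        rw [mk_gJ, inv_one]; rfl⟩⟩
    · intro i
      have h1 : val Z [lf r (i, false, false), lf r (rv E (i, false, false))] = ux n E B i := by
        rw [val_odd Z ⟨0, rfl⟩, val_even Z (by simp), val, hZ, mul_one, inv_mul_cancel_left]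
      have h2 : (ux n E B i)⁻¹ = ux n E B i := inv_eq_of_mul_eq_one_left (ux_sq i)
      exact ⟨⟨_, ⟨1, rfl⟩, h1⟩, ⟨_, ⟨1, rfl⟩, h1.trans h2.symm⟩⟩
    · rintro a b ⟨⟨C1, e1, h1⟩, ⟨C2, e2, h2⟩⟩ ⟨⟨C3, e3, h3⟩, ⟨C4, e4, h4⟩⟩
      constructor
      · refine ⟨C1 ++ C3, ?_, ?_⟩
        · rw [List.length_append]
          exact e1.add e3
        · rw [val_append Z C1 e3, h1, h3]
          rfl
      · refine ⟨C4 ++ C2, ?_, ?_⟩
        · rw [List.length_append]
          exact e4.add e2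
        · rw [val_append Z C4 e2, h2, h4, QuotientGroup.mk_mul, mul_inv_rev]
    · rintro a ⟨h1, h2⟩
      rw [QuotientGroup.mk_inv, inv_inv]
      exact ⟨h2, h1⟩
  exact key.1

/-- elements which are non-trivial in the uncoloured group -/
theorem rfin1 {g : Grp n E B} (hg : (QuotientGroup.mk g : GrpU n E B) ≠ 1) :
    ∃ (N : ℕ) (ρ : Grp n E B →* Equiv.Perm (Fin N)), ρ g ≠ 1 := by
  classical
  obtain ⟨Z, hZ⟩ := hP.exists_Z (ξ := ux n E B) ux_sq (fun _ _ _ => ux_comm) (ux_prod hP.ends)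
  obtain ⟨t, hpot⟩ := hP.isPot ux_sq (fun _ _ _ => ux_comm) hZ
  have hW := hP.wide_adj
  obtain ⟨rep, hR⟩ := exists_rep hW.inv
  -- a shortest word
  have hex : ∃ k, ∃ C : List (LF r), C.length = k ∧ Even C.length ∧
      val Z C = (QuotientGroup.mk g : GrpU n E B) := by
    obtain ⟨C, h1, h2⟩ := exists_word hZ g
    exact ⟨_, C, rfl, h1, h2⟩
  obtain ⟨C, hC1, hC2, hC3⟩ := Nat.find_spec hex
  have hCne : C ≠ [] := by
    rintro rfl
    exact hg hC3.symm
  have hmin : ∀ C' : List (LF r), C'.length + 2 = C.length → val Z C' ≠ val Z C := by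
    intro C' h1 h2
    refine Nat.find_min hex (m := C'.length) (by omega) ⟨C', rfl, ?_, h2.trans hC3⟩
    rw [← h1, Nat.even_add] at hC2
    exact hC2.2 (by decide)
  obtain ⟨N, ρ, hρ⟩ := exists_rho hW hR hpot (m0 := 0) hCne hmin
  -- the homomorphism
  obtain ⟨Θ, hΘJ, hΘ⟩ := hP.exists_hom2 (B := B) (1 : Equiv.Perm (Fin N × (LF r → LF r → ZMod 2)))
    (RR (tau r) (adj r) rep ρ) (fun _ => 0) (one_mul 1) (fun _ => Commute.one_right _)
    (fun f g h => RR_sq hW hR h)
    (fun x => by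
      have h1 := RR_tau (ρ := ρ) hW hR (adj_rv (r := r) x)
      rw [hP.tau_lf, hP.tau_lf] at h1
      show _ * ((RR (tau r) (adj r) rep ρ (lf r (fa E x)))⁻¹ *
        RR (tau r) (adj r) rep ρ (lf r (fa E (rv E x)))) = _
      rw [h1])
    (fun x => rfl)
    (fun x => by rw [one_pow, one_pow])
    (fun v _ _ => one_pow _)
  have hker : ∀ a ∈ Subgroup.normalClosure {gJ n E B}, Θ a = 1 := by
    intro a ha
    have h3 : Subgroup.normalClosure {gJ n E B} ≤ Θ.ker :=
      Subgroup.normalClosure_le_normal (Set.singleton_subset_iff.mpr hΘJ)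
    exact h3 ha
  let Θ' : GrpU n E B →* Equiv.Perm (Fin N × (LF r → LF r → ZMod 2)) :=
    QuotientGroup.lift _ Θ hker
  have hmk : ∀ a, Θ' (QuotientGroup.mk a) = Θ a := fun _ => rfl
  have hpair : ∀ f g, Θ' ((Z f)⁻¹ * Z g) = (RR (tau r) (adj r) rep ρ f)⁻¹ *
      RR (tau r) (adj r) rep ρ g := by
    intro f g
    refine hP.face_ind (p := fun g => Θ' ((Z f)⁻¹ * Z g) = (RR (tau r) (adj r) rep ρ f)⁻¹ *
      RR (tau r) (adj r) rep ρ g) ?_ (f := f) (by rw [inv_mul_cancel, inv_mul_cancel, map_one]) g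
    intro x hx
    show Θ' ((Z f)⁻¹ * Z (lf r (rv E x))) = _
    have h1 : Θ' (ux n E B x.1) = (RR (tau r) (adj r) rep ρ (lf r x))⁻¹ *
        RR (tau r) (adj r) rep ρ (lf r (rv E x)) := by
      show Θ (gx n E B x.1) = _
      rw [hΘ, one_pow, one_mul]
    rw [hZ, ← mul_assoc, map_mul, hx, h1, mul_assoc, mul_inv_cancel_left]
  have hval : ∀ k, ∀ C : List (LF r), C.length = 2 * k →
      Θ' (val Z C) = val (RR (tau r) (adj r) rep ρ) C := by
    intro k
    induction k with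
    | zero =>
      intro C hC
      have : C = [] := List.length_eq_zero_iff.1 (by omega)
      subst this
      exact map_one _
    | succ k ih =>
      intro C hC
      rcases C with _ | ⟨c, _ | ⟨c', C⟩⟩
      · simp at hC
      · simp at hC
        omega
      · have h1 : C.length = 2 * k := by
          simp only [List.length_cons] at hC
          omega
        have h2 : ¬ Odd C.length := by
          rw [Nat.not_odd_iff_even, h1]
          exact even_two_mul k
        rw [val_odd _ (odd_cons h2), val_odd _ (odd_cons h2), val_even _ h2, val_even _ h2,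
          ← mul_assoc, ← mul_assoc, map_mul, hpair, ih C h1]
  have hfin : Θ g = val (RR (tau r) (adj r) rep ρ) C := by
    obtain ⟨k, hk⟩ := hC2.two_dvd
    rw [← hmk, ← hC3, hval k C hk]
  apply exists_fin_rep Θ
  intro h1
  apply hρ
  apply Equiv.ext
  intro j
  have h2 := val_RR (τ := tau r) (ρ := ρ) (0 : LF r → LF r → ZMod 2) j C
  rw [← hfin, h1, Equiv.Perm.one_apply] at h2
  exact (congrArg Prod.fst h2).symm

end ProjWide

end GIG
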