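import Pool.Agent.Lib.MP_262b4d_al.PRacg

/-!
# Words in the faces of a wide projective map, and their labels

`F` is the set of the faces of the universal cover (the sphere) of a map on the projective plane,
`τ` the deck transformation, `Adj` the relation of sharing a vertex. The map has face-width at least
four (`Wide.wide`). To a word in the faces we assign a word in the generators of a right-angled
Coxeter group; shortest words give reduced words.
-/

namespace GIG

namespace Prj

variable {F : Type} {τ : F → F} {Adj : F → F → Prop} {rep : F → F}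

/-- a wide map -/
structure Wide (τ : F → F) (Adj : F → F → Prop) : Prop where
  inv : ∀ f, τ (τ f) = f
  refl : ∀ f, Adj f f
  symm : ∀ f g, Adj f g → Adj g f
  tadj : ∀ f g, Adj f g → Adj (τ f) (τ g)
  wide : ∀ f g h, Adj h f → Adj f g → ¬ Adj g (τ h)

/-- a choice of representatives modulo `τ` -/
structure IsRep (τ : F → F) (rep : F → F) : Prop where
  or : ∀ f, rep f = f ∨ rep f = τ f
  tau : ∀ f, rep (τ f) = rep f

theorem exists_rep (hτ : ∀ f, τ (τ f) = f) : ∃ rep, IsRep τ rep := by
  let s : Setoid F :=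
    { r := fun f g => f = g ∨ f = τ g
      iseqv :=
        { refl := fun f => Or.inl rfl
          symm := by
            rintro f g (h | h)
            · exact Or.inl h.symm
            · right
              rw [h, hτ]
          trans := by
            rintro f g h (h1 | h1) (h2 | h2)
            · exact Or.inl (h1.trans h2)
            · exact Or.inr (h1.trans h2)
            · right
              rw [h1, h2]
            · left
              rw [h1, h2, hτ] } }
  refine ⟨fun f => (Quotient.mk s f).out, ?_, ?_⟩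
  · intro f
    exact Quotient.exact (Quotient.out_eq (Quotient.mk s f))
  · intro f
    have h : Quotient.mk s (τ f) = Quotient.mk s f := Quotient.sound (Or.inr rfl)
    show (Quotient.mk s (τ f)).out = (Quotient.mk s f).out
    rw [h]

theorem Wide.ne (hW : Wide τ Adj) (f : F) : τ f ≠ f := by
  intro h
  apply hW.wide f f f (hW.refl f) (hW.refl f)
  rw [h]
  exact hW.refl f

theorem rep_eq (hW : Wide τ Adj) (hR : IsRep τ rep) {a f : F} (h : rep a = rep f) :
    a = f ∨ a = τ f := by
  rcases hR.or a with h1 | h1 <;> rcases hR.or f with h2 | h2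
  · left; rw [← h1, ← h2, h]
  · right; rw [← h1, ← h2, h]
  · right
    rw [← hW.inv a, ← h1, h, h2]
  · left
    rw [← hW.inv a, ← h1, h, h2, hW.inv]

theorem excl (hW : Wide τ Adj) {a b h : F} (hab : Adj a b) (h1 : Adj a (τ h) ∨ Adj b (τ h))
    (h2 : Adj a h ∨ Adj b h) : False := by
  rcases h1 with h1 | h1 <;> rcases h2 with h2 | h2
  · exact hW.wide a a h (hW.symm _ _ h2) (hW.refl _) h1
  · exact hW.wide b a h (hW.symm _ _ h2) (hW.symm _ _ hab) h1
  · exact hW.wide a b h (hW.symm _ _ h2) hab h1
  · exact hW.wide b b h (hW.symm _ _ h2) (hW.refl _) h1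

open Classical in
/-- the change of the state -/
noncomputable def pp (τ : F → F) (Adj : F → F → Prop) (rep : F → F) (h : F) : F → F → ZMod 2 :=
  fun a b => if Adj a b then
    (if Adj a h ∨ Adj b h then 0 else if Adj a (τ h) ∨ Adj b (τ h) then 1 else
      if rep h = h then 0 else 1) else 0

theorem pp_zero {a b h : F} (hab : Adj a b) (h1 : Adj a h ∨ Adj b h) :
    pp τ Adj rep h a b = 0 := by
  unfold pp
  rw [if_pos hab, if_pos h1]

theorem pp_one (hW : Wide τ Adj) {a b h : F} (hab : Adj a b)
    (h1 : Adj a (τ h) ∨ Adj b (τ h)) : pp τ Adj rep h a b = 1 := by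
  unfold pp
  rw [if_pos hab, if_neg (fun h2 => excl hW hab h1 h2), if_pos h1]

theorem zmod2_add_self (a : ZMod 2) : a + a = 0 := by
  revert a; decide

theorem m_add_self (m : F → F → ZMod 2) : m + m = 0 := by
  funext a b
  exact zmod2_add_self _

open Classical in
theorem pp_tau1 (hW : Wide τ Adj) (hR : IsRep τ rep) (h a b : F) :
    pp τ Adj rep (τ h) a b = pp τ Adj rep h a b + if Adj a b then 1 else 0 := by
  by_cases hab : Adj a b
  · rw [if_pos hab]
    by_cases h1 : Adj a h ∨ Adj b h
    · rw [pp_zero hab h1, pp_one hW hab (by rw [hW.inv]; exact h1), zero_add]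
    · by_cases h2 : Adj a (τ h) ∨ Adj b (τ h)
      · rw [pp_one hW hab h2, pp_zero hab h2]
        exact (zmod2_add_self 1).symm
      · unfold pp
        rw [if_pos hab, if_pos hab, if_neg h1, if_neg h2, if_neg h2, hW.inv, if_neg h1, hR.tau]
        rcases hR.or h with h3 | h3
        · rw [if_pos h3, if_neg, zero_add]
          rw [h3]
          exact (hW.ne h).symm
        · rw [if_pos h3, if_neg]
          · exact (zmod2_add_self 1).symm
          · rw [h3]
            exact hW.ne h
  · unfold pp
    rw [if_neg hab, if_neg hab, if_neg hab, add_zero]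

theorem pp_tau (hW : Wide τ Adj) (hR : IsRep τ rep) (f g : F) :
    pp τ Adj rep (τ f) + pp τ Adj rep (τ g) = pp τ Adj rep f + pp τ Adj rep g := by
  classical
  funext a b
  show pp τ Adj rep (τ f) a b + pp τ Adj rep (τ g) a b = pp τ Adj rep f a b + pp τ Adj rep g a b
  rw [pp_tau1 hW hR, pp_tau1 hW hR]
  have := zmod2_add_self (if Adj a b then 1 else 0)
  linear_combination this

theorem pp_eq (hW : Wide τ Adj) (hR : IsRep τ rep) {a b f g : F} (hab : Adj a b)
    (hr : rep a = rep f ∨ rep b = rep f) (h : Adj f g) :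
    pp τ Adj rep f a b = pp τ Adj rep g a b := by
  rcases hr with hr | hr
  · rcases rep_eq hW hR hr with rfl | rfl
    · rw [pp_zero hab (Or.inl (hW.refl _)), pp_zero hab (Or.inl h)]
    · rw [pp_one hW hab (Or.inl (hW.refl _)), pp_one hW hab (Or.inl (hW.tadj _ _ h))]
  · rcases rep_eq hW hR hr with rfl | rfl
    · rw [pp_zero hab (Or.inr (hW.refl _)), pp_zero hab (Or.inr h)]
    · rw [pp_one hW hab (Or.inr (hW.refl _)), pp_one hW hab (Or.inr (hW.tadj _ _ h))]

open Classical in
/-- the label of a face in a state -/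
noncomputable def lam (Adj : F → F → Prop) (rep : F → F) (f : F) (m : F → F → ZMod 2) :
    F × (F → F → ZMod 2) :=
  (rep f, fun a b => if Adj a b ∧ (rep a = rep f ∨ rep b = rep f) then m a b else 0)

theorem lam_congr {f : F} {m m' : F → F → ZMod 2}
    (h : ∀ a b, Adj a b → (rep a = rep f ∨ rep b = rep f) → m a b = m' a b) :
    lam Adj rep f m = lam Adj rep f m' := by
  classical
  unfold lam
  congr 1
  funext a b
  by_cases hc : Adj a b ∧ (rep a = rep f ∨ rep b = rep f)
  · rw [if_pos hc, if_pos hc, h a b hc.1 hc.2]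
  · rw [if_neg hc, if_neg hc]

theorem lam_inv (hW : Wide τ Adj) (hR : IsRep τ rep) {f g : F} (h : Adj f g)
    (m : F → F → ZMod 2) :
    lam Adj rep f (m + pp τ Adj rep f + pp τ Adj rep g) = lam Adj rep f m := by
  apply lam_congr
  intro a b hab hr
  show m a b + pp τ Adj rep f a b + pp τ Adj rep g a b = m a b
  rw [pp_eq hW hR hab hr h, add_assoc, zmod2_add_self, add_zero]

theorem lam_tau (hR : IsRep τ rep) (f : F) (m : F → F → ZMod 2) :
    lam Adj rep (τ f) m = lam Adj rep f m := by
  unfold lam
  rw [hR.tau]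

theorem lam_snd {f : F} {m : F → F → ZMod 2} {a b : F} (hab : Adj a b)
    (hr : rep a = rep f ∨ rep b = rep f) : (lam Adj rep f m).2 a b = m a b := by
  classical
  unfold lam
  show (if _ then _ else _) = _
  rw [if_pos ⟨hab, hr⟩]

/-- one half of the commutation relation -/
def cmh (Adj : F → F → Prop) (rep : F → F) (s s' : F × (F → F → ZMod 2)) : Prop :=
  ∃ a b, rep a = s.1 ∧ rep b = s'.1 ∧ Adj a b ∧ s.2 a b = s'.2 a b

/-- the commutation relation -/
def cms (Adj : F → F → Prop) (rep : F → F) (s s' : F × (F → F → ZMod 2)) : Prop :=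
  cmh Adj rep s s' ∨ cmh Adj rep s' s

theorem cms_symm (s s' : F × (F → F → ZMod 2)) (h : cms Adj rep s s') : cms Adj rep s' s :=
  Or.symm h

theorem cms_adj {f g : F} (h : Adj f g) (m : F → F → ZMod 2) :
    cms Adj rep (lam Adj rep f m) (lam Adj rep g m) := by
  left
  refine ⟨f, g, rfl, rfl, h, ?_⟩
  rw [lam_snd h (Or.inl rfl), lam_snd h (Or.inr rfl)]

theorem adj_of_pp (hW : Wide τ Adj) (hR : IsRep τ rep) {a b c c' : F} (hab : Adj a b)
    (ha : rep a = rep c) (hb : rep b = rep c')
    (h : pp τ Adj rep c a b = pp τ Adj rep c' a b) : Adj c c' := by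
  have h01 : (0 : ZMod 2) ≠ 1 := by decide
  rcases rep_eq hW hR ha with rfl | rfl <;> rcases rep_eq hW hR hb with rfl | rfl
  · exact hab
  · exfalso
    rw [pp_zero hab (Or.inl (hW.refl _)), pp_one hW hab (Or.inr (hW.refl _))] at h
    exact h01 h
  · exfalso
    rw [pp_one hW hab (Or.inl (hW.refl _)), pp_zero hab (Or.inr (hW.refl _))] at h
    exact h01 h.symm
  · have := hW.tadj _ _ hab
    rwa [hW.inv, hW.inv] at this

theorem odd_adj (hW : Wide τ Adj) (hR : IsRep τ rep) {c c' : F} {m : F → F → ZMod 2}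
    (h : cms Adj rep (lam Adj rep c (m + pp τ Adj rep c' + pp τ Adj rep c))
      (lam Adj rep c' m)) : Adj c c' := by
  rcases h with ⟨a, b, ha, hb, hab, h⟩ | ⟨a, b, ha, hb, hab, h⟩
  · have ha' : rep a = rep c := ha
    have hb' : rep b = rep c' := hb
    rw [lam_snd hab (Or.inl ha'), lam_snd hab (Or.inr hb')] at h
    apply adj_of_pp hW hR hab ha' hb'
    have h2 : m a b + pp τ Adj rep c' a b + pp τ Adj rep c a b = m a b := h
    have h3 := zmod2_add_self (pp τ Adj rep c' a b)
    linear_combination h2 - h3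
  · have ha' : rep a = rep c' := ha
    have hb' : rep b = rep c := hb
    rw [lam_snd hab (Or.inl ha'), lam_snd hab (Or.inr hb')] at h
    apply hW.symm
    apply adj_of_pp hW hR hab ha' hb'
    have h2 : m a b = m a b + pp τ Adj rep c' a b + pp τ Adj rep c a b := h
    have h3 := zmod2_add_self (pp τ Adj rep c a b)
    linear_combination - h2 - h3

theorem even_adj (hW : Wide τ Adj) (hR : IsRep τ rep) {c c' : F} {m m' : F → F → ZMod 2}
    (h : cms Adj rep (lam Adj rep c m) (lam Adj rep c' m')) : Adj c c' ∨ Adj c (τ c') := by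
  have key : ∀ a b, rep a = rep c → rep b = rep c' → Adj a b → Adj c c' ∨ Adj c (τ c') := by
    intro a b ha hb hab
    rcases rep_eq hW hR ha with rfl | rfl <;> rcases rep_eq hW hR hb with rfl | rfl
    · exact Or.inl hab
    · exact Or.inr hab
    · right
      have := hW.tadj _ _ hab
      rwa [hW.inv] at this
    · left
      have := hW.tadj _ _ hab
      rwa [hW.inv, hW.inv] at this
  rcases h with ⟨a, b, ha, hb, hab, -⟩ | ⟨a, b, ha, hb, hab, -⟩
  · exact key a b ha hb hab
  · exact key b a hb ha (hW.symm _ _ hab)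

theorem odd_eq (hW : Wide τ Adj) (hR : IsRep τ rep) {c c' : F} {m : F → F → ZMod 2}
    (h : lam Adj rep c (m + pp τ Adj rep c' + pp τ Adj rep c) = lam Adj rep c' m) : c = c' := by
  have h1 : rep c = rep c' := congrArg Prod.fst h
  rcases rep_eq hW hR h1 with h2 | h2
  · exact h2
  · exfalso
    have h3 : (lam Adj rep c (m + pp τ Adj rep c' + pp τ Adj rep c)).2 c c =
        (lam Adj rep c' m).2 c c := by rw [h]
    rw [lam_snd (hW.refl _) (Or.inl rfl), lam_snd (hW.refl _) (Or.inl h1)] at h3
    have h4 : m c c + pp τ Adj rep c' c c + pp τ Adj rep c c c = m c c := h3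
    rw [pp_zero (h := c) (hW.refl _) (Or.inl (hW.refl _)),
      pp_one hW (h := c') (hW.refl _) (Or.inl (by rw [← h2]; exact hW.refl _)), add_zero] at h4
    have h5 : (1 : ZMod 2) = 0 := by linear_combination h4
    exact absurd h5 (by decide)

/-! ### words -/

/-- the value of a word -/
def val {G : Type*} [Group G] (Z : F → G) : List F → G
  | [] => 1
  | c :: r => (if Odd r.length then (Z c)⁻¹ else Z c) * val Z r

theorem val_even {G : Type*} [Group G] (Z : F → G) {c : F} {r : List F} (h : ¬ Odd r.length) :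
    val Z (c :: r) = Z c * val Z r := by
  rw [val, if_neg h]

theorem val_odd {G : Type*} [Group G] (Z : F → G) {c : F} {r : List F} (h : Odd r.length) :
    val Z (c :: r) = (Z c)⁻¹ * val Z r := by
  rw [val, if_pos h]

/-- the state reached by a word -/
noncomputable def st (τ : F → F) (Adj : F → F → Prop) (rep : F → F) (m0 : F → F → ZMod 2) :
    List F → F → F → ZMod 2
  | [] => m0
  | c :: r => st τ Adj rep m0 r + pp τ Adj rep c

/-- the label of a letter of a word -/
noncomputable def lab (τ : F → F) (Adj : F → F → Prop) (rep : F → F) (m0 : F → F → ZMod 2) (c : F)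
    (r : List F) : F × (F → F → ZMod 2) :=
  if Odd r.length then lam Adj rep c (st τ Adj rep m0 r + pp τ Adj rep c)
    else lam Adj rep c (st τ Adj rep m0 r)

/-- the labels of a word -/
noncomputable def labs (τ : F → F) (Adj : F → F → Prop) (rep : F → F) (m0 : F → F → ZMod 2) :
    List F → List (F × (F → F → ZMod 2))
  | [] => []
  | c :: r => lab τ Adj rep m0 c r :: labs τ Adj rep m0 r

theorem length_labs (m0 : F → F → ZMod 2) (C : List F) :
    (labs τ Adj rep m0 C).length = C.length := by
  induction C with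
  | nil => rfl
  | cons c r ih => rw [labs, List.length_cons, List.length_cons, ih]

theorem odd_cons {c : F} {r : List F} (h : ¬ Odd r.length) : Odd (c :: r).length := by
  rw [List.length_cons]
  rw [Nat.not_odd_iff_even] at h
  exact h.add_one

theorem not_odd_cons {c : F} {r : List F} (h : Odd r.length) : ¬ Odd (c :: r).length := by
  rw [List.length_cons, Nat.not_odd_iff_even]
  exact h.add_one

section

variable {G : Type*} [Group G] {Z : F → G} {t : G}

/-- the relations which the potential satisfies -/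
structure IsPot (τ : F → F) (Adj : F → F → Prop) (Z : F → G) (t : G) : Prop where
  adj : ∀ f g, Adj f g → (Z f)⁻¹ * Z g = (Z g)⁻¹ * Z f
  tau : ∀ f, Z (τ f) = t * Z f
  sq : t * t = 1

theorem IsPot.adj' (hZ : IsPot τ Adj Z t) {f g : F} (h : Adj f g) :
    Z f * (Z g)⁻¹ = Z g * (Z f)⁻¹ := by
  have h1 := hZ.adj f g h
  have h2 : Z g = Z f * ((Z g)⁻¹ * Z f) := by rw [← h1, mul_inv_cancel_left]
  calc Z f * (Z g)⁻¹ = Z f * ((Z g)⁻¹ * Z f) * (Z f)⁻¹ := by group
    _ = Z g * (Z f)⁻¹ := by rw [← h2]

theorem IsPot.inv (hZ : IsPot τ Adj Z t) : t⁻¹ = t := inv_eq_of_mul_eq_one_left hZ.sq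

theorem IsPot.swap (hZ : IsPot τ Adj Z t) {f g : F} (h : Adj f (τ g)) :
    Z (τ g) * (Z (τ f))⁻¹ = Z f * (Z g)⁻¹ := by
  have h1 := hZ.adj' h
  rw [hZ.tau g, mul_inv_rev, hZ.inv] at h1
  -- `Z f * ((Z g)⁻¹ * t) = t * Z g * (Z f)⁻¹`
  rw [hZ.tau g, hZ.tau f, mul_inv_rev, hZ.inv, ← mul_assoc, ← h1]
  rw [mul_assoc (Z f), mul_assoc, hZ.sq, mul_one]

theorem swap (hW : Wide τ Adj) (hR : IsRep τ rep) (hZ : IsPot τ Adj Z t)
    {m0 : F → F → ZMod 2} {c c' : F} {r : List F}
    (h : cms Adj rep (lab τ Adj rep m0 c (c' :: r)) (lab τ Adj rep m0 c' r)) :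
    ∃ d d', lab τ Adj rep m0 d' r = lab τ Adj rep m0 c (c' :: r) ∧
      val Z (d :: d' :: r) = val Z (c :: c' :: r) := by
  by_cases hr : Odd r.length
  · unfold lab at h
    rw [if_neg (not_odd_cons hr), if_pos hr] at h
    rcases even_adj hW hR h with h1 | h1
    · refine ⟨c', c, ?_, ?_⟩
      · unfold lab
        rw [if_neg (not_odd_cons hr), if_pos hr]
        have h2 := lam_inv hW hR h1 (st τ Adj rep m0 r + pp τ Adj rep c)
        rw [← h2]
        show lam Adj rep c _ = lam Adj rep c (st τ Adj rep m0 r + pp τ Adj rep c')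
        congr 1
        rw [add_assoc (st τ Adj rep m0 r), m_add_self, add_zero]
      · rw [val_even Z (not_odd_cons hr), val_even Z (not_odd_cons hr), val_odd Z hr,
          val_odd Z hr, ← mul_assoc, ← mul_assoc, hZ.adj' h1]
    · refine ⟨τ c', τ c, ?_, ?_⟩
      · unfold lab
        rw [if_neg (not_odd_cons hr), if_pos hr]
        have h3 : Adj (τ c) c' := by
          have := hW.tadj _ _ h1
          rwa [hW.inv] at this
        have h2 := lam_inv hW hR h3 (st τ Adj rep m0 r + pp τ Adj rep (τ c))
        rw [← h2, lam_tau hR]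
        show lam Adj rep c _ = lam Adj rep c (st τ Adj rep m0 r + pp τ Adj rep c')
        congr 1
        rw [add_assoc (st τ Adj rep m0 r), m_add_self, add_zero]
      · rw [val_even Z (not_odd_cons hr), val_even Z (not_odd_cons hr), val_odd Z hr,
          val_odd Z hr, ← mul_assoc, ← mul_assoc, hZ.swap h1]
  · unfold lab at h
    rw [if_pos (odd_cons hr), if_neg hr] at h
    have h1 : Adj c c' := odd_adj hW hR h
    refine ⟨c', c, ?_, ?_⟩
    · unfold lab
      rw [if_pos (odd_cons hr), if_neg hr]
      have h2 := lam_inv hW hR h1 (st τ Adj rep m0 r)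
      rw [← h2]
      show _ = lam Adj rep c (st τ Adj rep m0 r + pp τ Adj rep c' + pp τ Adj rep c)
      congr 1
      rw [add_right_comm]
    · rw [val_odd Z (odd_cons hr), val_odd Z (odd_cons hr), val_even Z hr, val_even Z hr,
        ← mul_assoc, ← mul_assoc, hZ.adj _ _ h1]

theorem cancel (hW : Wide τ Adj) (hR : IsRep τ rep) (hZ : IsPot τ Adj Z t)
    {m0 : F → F → ZMod 2} {c c' : F} {r : List F}
    (h : lab τ Adj rep m0 c (c' :: r) = lab τ Adj rep m0 c' r) :
    ∃ C : List F, C.length + 2 = (c :: c' :: r).length ∧ val Z C = val Z (c :: c' :: r) := by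
  by_cases hr : Odd r.length
  · unfold lab at h
    rw [if_neg (not_odd_cons hr), if_pos hr] at h
    have h1 : rep c = rep c' := congrArg Prod.fst h
    rcases rep_eq hW hR h1 with h2 | h2
    · subst h2
      refine ⟨r, rfl, ?_⟩
      rw [val_even Z (not_odd_cons hr), val_odd Z hr, mul_inv_cancel_left]
    · rcases r with _ | ⟨e, r⟩
      · simp at hr
      · have hr' : ¬ Odd r.length := by
          intro h3
          exact not_odd_cons h3 hr
        refine ⟨τ e :: r, rfl, ?_⟩
        rw [val_even Z (not_odd_cons hr), val_odd Z hr, val_even Z hr', val_even Z hr', h2,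
          hZ.tau, hZ.tau]
        group
  · unfold lab at h
    rw [if_pos (odd_cons hr), if_neg hr] at h
    have h1 : c = c' := odd_eq hW hR h
    subst h1
    refine ⟨r, rfl, ?_⟩
    rw [val_odd Z (odd_cons hr), val_even Z hr, inv_mul_cancel_left]

theorem val_cons_congr {C C' : List F} (h : val Z C' = val Z C) (hl : C'.length + 2 = C.length)
    (c : F) : val Z (c :: C') = val Z (c :: C) := by
  rw [val, val, h]
  congr 2
  apply propext
  rw [← hl]
  constructor
  · intro h1
    exact h1.add_even (by decide)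
  · intro h1
    rw [Nat.odd_add] at h1
    exact h1.2 (by decide)

theorem shorten1 (hW : Wide τ Adj) (hR : IsRep τ rep) (hZ : IsPot τ Adj Z t)
    {m0 : F → F → ZMod 2} : ∀ (mid : List (F × (F → F → ZMod 2))) (C : List F)
    (s : F × (F → F → ZMod 2)) (q : List (F × (F → F → ZMod 2))),
    labs τ Adj rep m0 C = s :: (mid ++ s :: q) → (∀ x ∈ mid, cms Adj rep s x) →
    ∃ C' : List F, C'.length + 2 = C.length ∧ val Z C' = val Z C := by
  intro mid
  induction mid with
  | nil =>
    intro C s q h _
    rcases C with _ | ⟨c, _ | ⟨c', r⟩⟩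
    · simp [labs] at h
    · simp [labs] at h
    · rw [labs, labs, List.nil_append, List.cons.injEq, List.cons.injEq] at h
      exact cancel hW hR hZ (h.1.trans h.2.1.symm)
  | cons x mid ih =>
    intro C s q h hm
    rcases C with _ | ⟨c, _ | ⟨c', r⟩⟩
    · simp [labs] at h
    · simp [labs] at h
    · rw [labs, labs, List.cons_append, List.cons.injEq, List.cons.injEq] at h
      obtain ⟨d, d', h1, h2⟩ := swap hW hR hZ (m0 := m0) (c := c) (c' := c') (r := r)
        (by rw [h.1, h.2.1]; exact hm x (by simp))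
      obtain ⟨C', h3, h4⟩ := ih (d' :: r) s q (by rw [labs, h1, h.1, h.2.2])
        (fun y hy => hm y (by simp [hy]))
      refine ⟨d :: C', ?_, ?_⟩
      · simp only [List.length_cons] at h3 ⊢
        omega
      · rw [← h2]
        exact val_cons_congr h4 h3 d

theorem shorten2 (hW : Wide τ Adj) (hR : IsRep τ rep) (hZ : IsPot τ Adj Z t)
    {m0 : F → F → ZMod 2} {mid q : List (F × (F → F → ZMod 2))} {s : F × (F → F → ZMod 2)}
    (hm : ∀ x ∈ mid, cms Adj rep s x) : ∀ (p : List (F × (F → F → ZMod 2))) (C : List F),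
    labs τ Adj rep m0 C = p ++ s :: (mid ++ s :: q) →
    ∃ C' : List F, C'.length + 2 = C.length ∧ val Z C' = val Z C := by
  intro p
  induction p with
  | nil =>
    intro C h
    exact shorten1 hW hR hZ mid C s q h hm
  | cons x p ih =>
    intro C h
    rcases C with _ | ⟨c, r⟩
    · simp [labs] at h
    · rw [labs, List.cons_append, List.cons.injEq] at h
      obtain ⟨C', h3, h4⟩ := ih r h.2
      refine ⟨c :: C', ?_, val_cons_congr h4 h3 c⟩
      simp only [List.length_cons]
      omega

/-- the labels of a shortest word are reduced -/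
theorem red_of_min (hW : Wide τ Adj) (hR : IsRep τ rep) (hZ : IsPot τ Adj Z t)
    {m0 : F → F → ZMod 2} {C : List F}
    (hmin : ∀ C' : List F, C'.length + 2 = C.length → val Z C' ≠ val Z C) :
    Racg.Red (cms Adj rep) (fun i : Fin (labs τ Adj rep m0 C).length =>
      (labs τ Adj rep m0 C)[i]) := by
  intro i j hij hs
  by_contra hno
  push Not at hno
  obtain ⟨p, m, q, h1, h2⟩ := Racg.list_split (labs τ Adj rep m0 C) (i := i) (j := j) hij j.2
  have hs' : (labs τ Adj rep m0 C)[(i : ℕ)] = (labs τ Adj rep m0 C)[(j : ℕ)] := hs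
  rw [← hs'] at h1
  obtain ⟨C', h3, h4⟩ := shorten2 hW hR hZ (q := q) (mid := m) (fun x hx => by
    obtain ⟨k, hk, hk1, hk2, rfl⟩ := h2 x hx
    exact cms_symm _ _ (hno ⟨k, hk⟩ hk1 hk2)) p C h1
  exact hmin C' h3 h4

theorem exists_rho (hW : Wide τ Adj) (hR : IsRep τ rep) (hZ : IsPot τ Adj Z t)
    {m0 : F → F → ZMod 2} {C : List F} (hC : C ≠ [])
    (hmin : ∀ C' : List F, C'.length + 2 = C.length → val Z C' ≠ val Z C) :
    ∃ (N : ℕ) (ρ : Racg.W (cms Adj rep) →* Equiv.Perm (Fin N)),
      ρ (((labs τ Adj rep m0 C).map (Racg.y (cms Adj rep))).prod) ≠ 1 := by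
  obtain ⟨N, ρ, hρ⟩ := Racg.red_ne_one (red_of_min hW hR hZ (m0 := m0) hmin) cms_symm
    (by rw [length_labs]; exact List.length_pos_iff.2 hC)
  refine ⟨N, ρ, ?_⟩
  have : List.ofFn (fun i : Fin (labs τ Adj rep m0 C).length => (labs τ Adj rep m0 C)[i]) =
    labs τ Adj rep m0 C := List.ofFn_getElem
  rw [this] at hρ
  exact hρ

end

end Prj

end GIG
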