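import Pool.Agent.Lib.MP_262b4d_al.PDefs

/-!
# Graphs with an embedding of face-width at least four in the projective plane

A cellular embedding of a graph in a closed surface is described by its flags.
-/

namespace GIG

/-- The flags `(i, s, t)` of an embedding of a graph with list of edges `E` in a surface: the edge
number `i`, one of its ends (`s = false`: the first end, `s = true`: the second end) and one of the
two sides `t` of the edge. -/
abbrev Flag (E : List (ℕ × ℕ)) : Type := Fin E.length × Bool × Bool

/-- the vertex of a flag -/
def fend (E : List (ℕ × ℕ)) (x : Flag E) : ℕ := if x.2.1 then (E.get x.1).2 else (E.get x.1).1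

/-- the flag at the other end of the edge, on the same side -/
def fa (E : List (ℕ × ℕ)) : Equiv.Perm (Flag E) where
  toFun x := (x.1, !x.2.1, x.2.2)
  invFun x := (x.1, !x.2.1, x.2.2)
  left_inv x := by simp
  right_inv x := by simp

/-- the flag at the same end of the edge, on the other side -/
def fc (E : List (ℕ × ℕ)) : Equiv.Perm (Flag E) where
  toFun x := (x.1, x.2.1, !x.2.2)
  invFun x := (x.1, x.2.1, !x.2.2)
  left_inv x := by simp
  right_inv x := by simp

/-- The graph with vertices `0, …, n - 1` and list of edges `E` has no loops and has an embedding in
the projective plane of face-width at least 4. The embedding is given by the involution `r` which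
takes a flag to the other flag of the same corner of its vertex; vertices, edges and faces are the
orbits of the groups generated by `r` and `fc`, by `fa` and `fc`, by `r` and `fa`.

`vert`: the orbits of `r` and `fc` are the sets of all flags at a vertex of the graph.
`euler`: Euler's formula `V - E + F = 1` (isolated vertices do not count).
`conn`: the group generated by `r * fc` and `fa * fc` is transitive on the flags, i.e. the surface is
connected and not orientable. These are the rotation and the turning of the darts of the orientation
double cover (the darts are the flags; its vertices are the cycles of `r * fc`, its faces are the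
cycles of `r * fa`; `x` and `fa x` lie in the two lifts of a face).
`width`: no one-sided closed curve meets the graph in at most three vertices: a curve through faces
and vertices of the double cover which starts in the face of `x₀`, passes through a vertex to the
face of `x₁`, through a vertex to the face of `x₃` and through a vertex to the face of `x₅` does not
end in the other lift of the face of `x₀`. -/
structure ProjWide (n : ℕ) (E : List (ℕ × ℕ)) (r : Equiv.Perm (Flag E)) : Prop where
  ends : ∀ e ∈ E, e.1 < n ∧ e.2 < n ∧ e.1 ≠ e.2
  invol : ∀ x, r (r x) = x
  vert : ∀ x y, fend E x = fend E y ↔ ∃ g ∈ Subgroup.closure {r, fc E}, g x = y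
  euler : numOrbits (Subgroup.closure {r, fc E}) + numOrbits (Subgroup.closure {r, fa E}) =
    E.length + 1
  conn : ∀ x y, ∃ g ∈ Subgroup.closure {r * fc E, fa E * fc E}, g x = y
  width : ∀ x₀ x₁ x₂ x₃ x₄ x₅, (r * fc E).SameCycle x₀ x₁ → (r * fa E).SameCycle x₁ x₂ →
    (r * fc E).SameCycle x₂ x₃ → (r * fa E).SameCycle x₃ x₄ → (r * fc E).SameCycle x₄ x₅ →
    ¬ (r * fa E).SameCycle x₅ (fa E x₀)

end GIG
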