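import Pool.Agent.Lib.MP_262b4d_al.RAct

/-!
# If `J` is not trivial then it is not trivial in a finite quotient
-/

namespace GIG

open Function Forest

namespace Prj

section Heis

variable {V : Type} [AddCommGroup V]

/-- additive in both arguments -/
structure Bi (β : V → V → ZMod 2) : Prop where
  l : ∀ u v w, β (u + v) w = β u w + β v w
  r : ∀ u v w, β u (v + w) = β u v + β u w

/-- translations of the Heisenberg group -/
def LL (β : V → V → ZMod 2) (u : V) : Equiv.Perm (V × ZMod 2) where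
  toFun p := (u + p.1, p.2 + β u p.1)
  invFun p := (-u + p.1, p.2 - β u (-u + p.1))
  left_inv p := by simp
  right_inv p := by simp

/-- the central translation -/
def jj (V : Type) : Equiv.Perm (V × ZMod 2) where
  toFun p := (p.1, p.2 + 1)
  invFun p := (p.1, p.2 - 1)
  left_inv p := by simp
  right_inv p := by simp

omit [AddCommGroup V] in
theorem jj_pow (m : ℕ) (p : V × ZMod 2) : (jj V ^ m) p = (p.1, p.2 + m) := by
  induction m with
  | zero => simp
  | succ m ih =>
    rw [pow_succ', Equiv.Perm.mul_apply, ih]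
    show (p.1, p.2 + (m : ZMod 2) + 1) = (p.1, p.2 + ((m + 1 : ℕ) : ZMod 2))
    rw [Nat.cast_add, Nat.cast_one, add_assoc]

omit [AddCommGroup V] in
theorem jj_sq : jj V * jj V = 1 := by
  apply Equiv.ext
  rintro ⟨x, w⟩
  show (x, w + 1 + 1) = (x, w)
  rw [add_assoc, zmod2_add_self, add_zero]

theorem pow_congr {K : Type*} [Group K] {j : K} (hj : j * j = 1) {a b : ℕ}
    (h : (a : ZMod 2) = b) : j ^ a = j ^ b := by
  have h1 : ∀ a : ℕ, j ^ a = j ^ (a % 2) := by
    intro a
    conv_lhs => rw [← Nat.div_add_mod a 2]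
    rw [pow_add, pow_mul, pow_two, hj, one_pow, one_mul]
  rw [h1 a, h1 b]
  congr 1
  exact (ZMod.natCast_eq_natCast_iff' a b 2).1 h

theorem parity_of_pow {K : Type*} [Group K] {j : K} (hj : j * j = 1) (hj1 : j ≠ 1) {a b : ℕ}
    (h : j ^ a = j ^ b) : (a : ZMod 2) = b := by
  have h1 : ∀ a : ℕ, j ^ a = j ^ (a % 2) := by
    intro a
    conv_lhs => rw [← Nat.div_add_mod a 2]
    rw [pow_add, pow_mul, pow_two, hj, one_pow, one_mul]
  rw [h1 a, h1 b] at h
  apply (ZMod.natCast_eq_natCast_iff' a b 2).2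
  rcases Nat.mod_two_eq_zero_or_one a with ha | ha <;>
    rcases Nat.mod_two_eq_zero_or_one b with hb | hb
  · rw [ha, hb]
  · rw [ha, hb, pow_zero, pow_one] at h
    exact absurd h.symm hj1
  · rw [ha, hb, pow_zero, pow_one] at h
    exact absurd h hj1
  · rw [ha, hb]

theorem LL_comm (β : V → V → ZMod 2) (u : V) : Commute (LL β u) (jj V) := by
  apply Equiv.ext
  rintro ⟨x, w⟩
  show (u + x, w + 1 + β u x) = (u + x, w + β u x + 1)
  rw [add_right_comm]

variable {β : V → V → ZMod 2}

theorem LL_mul (hβ : Bi β) (u v : V) :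
    LL β u * LL β v = jj V ^ (β u v).val * LL β (u + v) := by
  apply Equiv.ext
  rintro ⟨x, w⟩
  rw [Equiv.Perm.mul_apply, Equiv.Perm.mul_apply, jj_pow]
  show (u + (v + x), w + β v x + β u (v + x)) = (u + v + x, w + β (u + v) x + ((β u v).val : ZMod 2))
  rw [ZMod.natCast_zmod_val, hβ.l, hβ.r, add_assoc u v x]
  congr 1
  ring

theorem Bi.zero_left (hβ : Bi β) (v : V) : β 0 v = 0 := by
  have h := hβ.l 0 0 v
  rw [add_zero] at h
  exact left_eq_add.1 h

theorem LL_zero (hβ : Bi β) : LL β 0 = 1 := by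
  apply Equiv.ext
  rintro ⟨x, w⟩
  show (0 + x, w + β 0 x) = (x, w)
  rw [zero_add, hβ.zero_left, add_zero]

theorem LL_sq (hβ : Bi β) (hV : ∀ v : V, v + v = 0) (u : V) :
    LL β u * LL β u = jj V ^ (β u u).val := by
  rw [LL_mul hβ, hV, LL_zero hβ, mul_one]

theorem LL_pair (hβ : Bi β) (hV : ∀ v : V, v + v = 0) {u v : V} (h : β (u + v) (u + v) = 0) :
    ((LL β u)⁻¹ * LL β v) * ((LL β u)⁻¹ * LL β v) = 1 := by
  have h1 : (LL β u)⁻¹ * LL β v = jj V ^ ((β u u).val + (β u v).val) * LL β (u + v) := by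
    rw [inv_mul_eq_iff_eq_mul, pow_add, mul_assoc, ← LL_mul hβ u v]
    have h2 : LL β u * (jj V ^ (β u u).val * (LL β u * LL β v)) =
        jj V ^ (β u u).val * (LL β u * LL β u) * LL β v := by
      rw [← mul_assoc, ((LL_comm β u).pow_right _).eq]
      simp only [mul_assoc]
    rw [h2, LL_sq hβ hV, ← pow_add, ← two_mul, pow_mul, pow_two, jj_sq, one_pow, one_mul]
  rw [h1]
  generalize (β u u).val + (β u v).val = m
  have h3 : Commute (LL β (u + v)) (jj V ^ m) := (LL_comm β _).pow_right m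
  rw [Commute.mul_mul_mul_comm h3, LL_sq hβ hV, h, ← pow_add, ← two_mul, pow_mul, pow_two, jj_sq,
    one_pow, one_mul]
  rfl

end Heis

section Beta

variable {F : Type} [Fintype F] [DecidableEq F]

/-- the bilinear form -/
def bet (D : F → F → ZMod 2) (k : ZMod 2) (u v : (F → ZMod 2) × ZMod 2) : ZMod 2 :=
  ∑ a, ∑ b, D a b * (u.1 a * v.1 b) + k * (u.2 * v.2)

omit [DecidableEq F] in
theorem bi_bet (D : F → F → ZMod 2) (k : ZMod 2) : Bi (bet D k) where
  l u v w := by
    unfold bet
    simp only [Prod.fst_add, Prod.snd_add, Pi.add_apply, add_mul, mul_add,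
      Finset.sum_add_distrib]
    ring
  r u v w := by
    unfold bet
    simp only [Prod.fst_add, Prod.snd_add, Pi.add_apply, mul_add,
      Finset.sum_add_distrib]
    ring

theorem bet_single (D : F → F → ZMod 2) (k : ZMod 2) (a b : F) (s s' : ZMod 2) :
    bet D k (Pi.single a 1, s) (Pi.single b 1, s') = D a b + k * (s * s') := by
  unfold bet
  congr 1
  rw [Finset.sum_eq_single a, Finset.sum_eq_single b]
  · simp
  · intro c _ hc
    simp [Pi.single_eq_of_ne hc]
  · intro h
    exact absurd (Finset.mem_univ b) h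
  · intro c _ hc
    apply Finset.sum_eq_zero
    intro d _
    simp [Pi.single_eq_of_ne hc]
  · intro h
    exact absurd (Finset.mem_univ a) h

theorem bet_zero (D : F → F → ZMod 2) (k : ZMod 2) (b : F) (s s' : ZMod 2) :
    bet D k (0, s) (Pi.single b 1, s') = k * (s * s') := by
  unfold bet
  simp

omit [Fintype F] [DecidableEq F] in
theorem v_add_self (v : (F → ZMod 2) × ZMod 2) : v + v = 0 := by
  obtain ⟨a, b⟩ := v
  show (a + a, b + b) = 0
  rw [zmod2_add_self]
  have : a + a = 0 := by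
    funext x
    exact zmod2_add_self _
  rw [this]
  rfl

end Beta

section Hat

variable {F : Type} {τ : F → F} {Adj : F → F → Prop} {rep : F → F}

open Classical in
/-- the sign of a face -/
noncomputable def sgn (rep : F → F) (f : F) : ZMod 2 := if rep f = f then 0 else 1

theorem sgn_tau (hW : Wide τ Adj) (hR : IsRep τ rep) (f : F) :
    sgn rep (τ f) = 1 + sgn rep f := by
  classical
  unfold sgn
  rw [hR.tau]
  rcases hR.or f with h | h
  · rw [if_pos h, if_neg, add_zero]
    rw [h]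
    exact (hW.ne f).symm
  · rw [if_pos h, if_neg]
    · exact (zmod2_add_self 1).symm
    · rw [h]
      exact hW.ne f

open Classical in
/-- the coefficients of the form -/
noncomputable def DD (τ : F → F) (Adj : F → F → Prop) (e : F → ℕ) (k : ZMod 2) (a b : F) :
    ZMod 2 := if e a < e b ∧ Adj a (τ b) then k else 0

theorem DD_pair (hW : Wide τ Adj) (hR : IsRep τ rep) {e : F → ℕ} (he : Injective e) (k : ZMod 2)
    {f g : F} (h : Adj f g) : DD τ Adj e k (rep f) (rep g) + DD τ Adj e k (rep g) (rep f) =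
    k * ((sgn rep f + sgn rep g) * (sgn rep f + sgn rep g)) := by
  classical
  have hsw : ∀ a b, Adj a (τ b) → Adj b (τ a) := by
    intro a b hab
    have := hW.tadj _ _ (hW.symm _ _ hab)
    rwa [hW.inv] at this
  have hex : ∀ a b, Adj a b → ¬ Adj a (τ b) := fun a b hab =>
    hW.wide a a b (hW.symm _ _ hab) (hW.refl a)
  by_cases hab : rep f = rep g
  · have hfg : f = g := by
      rcases rep_eq hW hR hab with h1 | h1
      · exact h1
      · exfalso
        rw [h1] at h
        exact hW.wide g g g (hW.refl _) (hW.refl _) (hW.symm _ _ h)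
    subst hfg
    rw [zmod2_add_self, zmod2_add_self]
    ring
  · -- the sum of the two coefficients
    have hsum : DD τ Adj e k (rep f) (rep g) + DD τ Adj e k (rep g) (rep f) =
        if Adj (rep f) (τ (rep g)) then k else 0 := by
      unfold DD
      have hne : e (rep f) ≠ e (rep g) := fun h1 => hab (he h1)
      by_cases hA : Adj (rep f) (τ (rep g))
      · have hA' := hsw _ _ hA
        rw [if_pos hA]
        rcases lt_or_gt_of_ne hne with hlt | hlt
        · rw [if_pos ⟨hlt, hA⟩, if_neg (fun h1 => absurd h1.1 (not_lt.2 hlt.le)), add_zero]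
        · rw [if_neg (fun h1 => absurd h1.1 (not_lt.2 hlt.le)), if_pos ⟨hlt, hA'⟩, zero_add]
      · rw [if_neg hA, if_neg (fun h1 => hA h1.2), if_neg (fun h1 => hA (hsw _ _ h1.2)), add_zero]
    rw [hsum]
    have h11 : (1 : ZMod 2) + 1 = 0 := zmod2_add_self 1
    have s0 : ∀ f, rep f = f → sgn rep f = 0 := fun f h1 => by
      unfold sgn
      rw [if_pos h1]
    have s1 : ∀ f, rep f = τ f → sgn rep f = 1 := fun f h1 => by
      unfold sgn
      rw [if_neg (by rw [h1]; exact hW.ne f)]
    rcases hR.or f with h1 | h1 <;> rcases hR.or g with h2 | h2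
    · rw [s0 f h1, s0 g h2, h1, h2, if_neg (hex _ _ h)]
      ring
    · rw [s0 f h1, s1 g h2, h1, h2, hW.inv, if_pos h]
      ring
    · rw [s1 f h1, s0 g h2, h1, h2, if_pos (hW.tadj _ _ h)]
      ring
    · rw [s1 f h1, s1 g h2, h1, h2, if_neg (hex _ _ (hW.tadj _ _ h)), h11]
      ring

/-- twisted potentials -/
theorem twist {K : Type*} [Group K] {j T : K} {Z : F → K} {c : F → ℕ} (hj : j * j = 1)
    (hZ : ∀ f, Commute (Z f) j) (hT : Commute T j)
    (h : ∀ f, Z (τ f) = j ^ c f * (T * Z f)) (f g : F) :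
    (Z (τ f))⁻¹ * Z (τ g) = j ^ (c f + c g) * ((Z f)⁻¹ * Z g) := by
  have hinv : ∀ m, (j ^ m)⁻¹ = j ^ m := fun m => by
    apply inv_eq_of_mul_eq_one_left
    rw [← pow_add, ← two_mul, pow_mul, pow_two, hj, one_pow]
  have h1 : Commute ((T * Z f)⁻¹) (j ^ c f) := ((hT.mul_left (hZ f)).pow_right _).inv_left
  have h2 : Commute ((T * Z f)⁻¹) (j ^ c g) := ((hT.mul_left (hZ f)).pow_right _).inv_left
  rw [h f, h g, mul_inv_rev, hinv, h1.eq, mul_assoc, ← mul_assoc ((T * Z f)⁻¹), h2.eq, pow_add]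
  group

end Hat

end Prj

namespace ProjWide

open Prj

variable {n : ℕ} {E : List (ℕ × ℕ)} {B : List ℕ} {r : Equiv.Perm (Flag E)}
  (hP : ProjWide n E r)
include hP

theorem exists_data (B : List ℕ) {rep : LF r → LF r} (hR : IsRep (tau r) rep) :
    ∃ (Z : LF r → Grp n E B) (T : Grp n E B) (k : ℕ) (c : Flag E → ℕ),
    (∀ x, gx n E B x.1 = gJ n E B ^ c x * ((Z (lf r x))⁻¹ * Z (lf r (rv E x)))) ∧
    ∀ f, Z (tau r f) = gJ n E B ^ (k * (sgn rep f).val) * (T * Z f) := by
  classical
  obtain ⟨Z0, hZ0⟩ := hP.exists_Z (ξ := ux n E B) ux_sq (fun _ _ _ => ux_comm) (ux_prod hP.ends)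
  obtain ⟨t0, hpot⟩ := hP.isPot ux_sq (fun _ _ _ => ux_comm) hZ0
  have hW := hP.wide_adj
  have hsurj : ∀ q : GrpU n E B, ∃ g : Grp n E B, (QuotientGroup.mk g : GrpU n E B) = q :=
    QuotientGroup.mk_surjective
  choose lft hlft using hsurj
  have hker : ∀ a b : Grp n E B, (QuotientGroup.mk a : GrpU n E B) = QuotientGroup.mk b →
      ∃ m : ℕ, a = gJ n E B ^ m * b := by
    intro a b hab
    have h1 : (QuotientGroup.mk (a * b⁻¹) : GrpU n E B) = 1 := by
      rw [QuotientGroup.mk_mul, QuotientGroup.mk_inv, hab, mul_inv_cancel]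
    rcases of_mk_eq_one h1 with h2 | h2
    · exact ⟨0, by rw [pow_zero, one_mul]; exact mul_inv_eq_one.1 h2⟩
    · exact ⟨1, by rw [pow_one, ← h2, inv_mul_cancel_right]⟩
  let T := lft t0
  have hT : (QuotientGroup.mk T : GrpU n E B) = t0 := hlft t0
  obtain ⟨k, hk⟩ := hker (T * T) 1 (by
    rw [QuotientGroup.mk_mul, hT, hpot.sq]
    rfl)
  rw [mul_one] at hk
  let Z : LF r → Grp n E B := fun f => if rep f = f then lft (Z0 f) else T * lft (Z0 (rep f))
  have hZmk : ∀ f, (QuotientGroup.mk (Z f) : GrpU n E B) = Z0 f := by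
    intro f
    show (QuotientGroup.mk (if rep f = f then lft (Z0 f) else T * lft (Z0 (rep f))) :
      GrpU n E B) = Z0 f
    by_cases h : rep f = f
    · rw [if_pos h, hlft]
    · rw [if_neg h, QuotientGroup.mk_mul, hT, hlft]
      rcases hR.or f with h1 | h1
      · exact absurd h1 h
      · rw [h1, ← hpot.tau, hW.inv]
  have hc : ∀ x : Flag E, ∃ m : ℕ,
      gx n E B x.1 = gJ n E B ^ m * ((Z (lf r x))⁻¹ * Z (lf r (rv E x))) := by
    intro x
    apply hker
    rw [QuotientGroup.mk_mul, QuotientGroup.mk_inv, hZmk, hZmk, hZ0, inv_mul_cancel_left]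
    rfl
  choose c hc using hc
  refine ⟨Z, T, k, c, hc, ?_⟩
  intro f
  show (if rep (tau r f) = tau r f then lft (Z0 (tau r f)) else T * lft (Z0 (rep (tau r f)))) =
    gJ n E B ^ (k * (sgn rep f).val) *
      (T * (if rep f = f then lft (Z0 f) else T * lft (Z0 (rep f))))
  rw [hR.tau]
  unfold sgn
  rcases hR.or f with h1 | h1
  · have h2 : rep f ≠ tau r f := by
      rw [h1]
      exact (hW.ne f).symm
    rw [if_neg h2, if_pos h1, if_pos h1, h1, ZMod.val_zero, mul_zero, pow_zero, one_mul]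
  · have h2 : rep f ≠ f := by
      rw [h1]
      exact hW.ne f
    have h3 : (1 : ZMod 2).val = 1 := rfl
    rw [if_pos h1, if_neg h2, if_neg h2, h3, mul_one, ← mul_assoc T T, hk, ← mul_assoc,
      ← pow_add, ← two_mul, pow_mul, pow_two, gJ_sq, one_pow, one_mul, h1]

/-- if `J` is not trivial then it is not trivial in a finite quotient -/
theorem rfinJ (hJ : gJ n E B ≠ 1) :
    ∃ (N : ℕ) (ρ : Grp n E B →* Equiv.Perm (Fin N)), ρ (gJ n E B) ≠ 1 := by
  classical
  have hW := hP.wide_adj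
  obtain ⟨rep, hR⟩ := exists_rep hW.inv
  obtain ⟨Z, T, k, c, hZ, hτ⟩ := hP.exists_data B hR
  have : Fintype (LF r) := Fintype.ofFinite _
  obtain ⟨N, ⟨e⟩⟩ := Finite.exists_equiv_fin (LF r)
  let ε : LF r → ℕ := fun f => (e f : ℕ)
  have hε : Injective ε := fun a b h => e.injective (Fin.ext h)
  let β := bet (DD (tau r) (adj r) ε (k : ZMod 2)) (k : ZMod 2)
  have hβ : Bi β := bi_bet _ _
  let u : LF r → (LF r → ZMod 2) × ZMod 2 := fun f => (Pi.single (rep f) 1, sgn rep f)
  let Zh : LF r → Equiv.Perm (((LF r → ZMod 2) × ZMod 2) × ZMod 2) := fun f => LL β (u f)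
  -- the relations of the hats
  have hsq : ∀ f g, adj r f g → ((Zh f)⁻¹ * Zh g) * ((Zh f)⁻¹ * Zh g) = 1 := by
    intro f g hfg
    apply LL_pair hβ v_add_self
    rw [hβ.l, hβ.r, hβ.r]
    show bet _ _ (Pi.single (rep f) 1, sgn rep f) (Pi.single (rep f) 1, sgn rep f) +
      bet _ _ (Pi.single (rep f) 1, sgn rep f) (Pi.single (rep g) 1, sgn rep g) +
      (bet _ _ (Pi.single (rep g) 1, sgn rep g) (Pi.single (rep f) 1, sgn rep f) +
      bet _ _ (Pi.single (rep g) 1, sgn rep g) (Pi.single (rep g) 1, sgn rep g)) = 0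
    rw [bet_single, bet_single, bet_single, bet_single]
    have h1 := DD_pair hW hR hε (k : ZMod 2) hfg
    have h2 : ∀ a, DD (tau r) (adj r) ε (k : ZMod 2) a a = 0 := by
      intro a
      unfold DD
      rw [if_neg (fun h => lt_irrefl _ h.1)]
    rw [h2, h2]
    have h3 := zmod2_add_self ((k : ZMod 2) * ((sgn rep f + sgn rep g) * (sgn rep f + sgn rep g)))
    linear_combination h1 + h3
  have hτh : ∀ f, Zh (tau r f) = jj _ ^ (k * (sgn rep f).val) * (LL β (0, 1) * Zh f) := by
    intro f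
    show LL β (Pi.single (rep (tau r f)) 1, sgn rep (tau r f)) =
      jj _ ^ (k * (sgn rep f).val) * (LL β (0, 1) * LL β (Pi.single (rep f) 1, sgn rep f))
    have h1 : ((0, 1) : (LF r → ZMod 2) × ZMod 2) + (Pi.single (rep f) 1, sgn rep f) =
        (Pi.single (rep f) 1, 1 + sgn rep f) := by
      rw [Prod.mk_add_mk, zero_add]
    rw [LL_mul hβ, h1, hR.tau, sgn_tau hW hR, ← mul_assoc, ← pow_add]
    have h2 : jj ((LF r → ZMod 2) × ZMod 2) ^ (k * (sgn rep f).val +
        (β (0, 1) (Pi.single (rep f) 1, sgn rep f)).val) = jj _ ^ 0 := by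
      apply pow_congr jj_sq
      show _ = ((0 : ℕ) : ZMod 2)
      have h3 : β (0, 1) (Pi.single (rep f) 1, sgn rep f) = (k : ZMod 2) * (1 * sgn rep f) :=
        bet_zero _ _ _ _ _
      rw [h3, Nat.cast_add, Nat.cast_mul, ZMod.natCast_zmod_val, ZMod.natCast_zmod_val, one_mul,
        Nat.cast_zero]
      exact zmod2_add_self _
    rw [h2, pow_zero, one_mul]
  have hcJ : ∀ g : Grp n E B, Commute g (gJ n E B) := gJ_central
  -- transfer of exponents
  have tr : ∀ a b : ℕ, gJ n E B ^ a = gJ n E B ^ b →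
      jj ((LF r → ZMod 2) × ZMod 2) ^ a = jj ((LF r → ZMod 2) × ZMod 2) ^ b := fun a b h =>
    pow_congr jj_sq (parity_of_pow gJ_sq hJ h)
  have hu2 : ∀ x : Flag E, ((Z (lf r x))⁻¹ * Z (lf r (rv E x)))⁻¹ =
      (Z (lf r x))⁻¹ * Z (lf r (rv E x)) := by
    intro x
    have h1 : (Z (lf r x))⁻¹ * Z (lf r (rv E x)) = gJ n E B ^ c x * gx n E B x.1 := by
      rw [hZ x, ← mul_assoc, gJ_pow_sq, one_mul]
    rw [h1]
    exact xx_inv (c := fun _ => c x) x.1
  obtain ⟨Θ, hΘ, -⟩ := hP.exists_hom2 (B := B) (jj ((LF r → ZMod 2) × ZMod 2)) Zh c jj_sq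
    (fun f => LL_comm β _) hsq
    (fun x => by
      have h1 := twist (F := LF r) (τ := tau r) (j := gJ n E B) gJ_sq
        (fun f => hcJ _) (hcJ T) hτ (lf r x) (lf r (rv E x))
      have h2 := twist (F := LF r) (τ := tau r) (j := jj ((LF r → ZMod 2) × ZMod 2)) jj_sq
        (fun f => LL_comm β _) (LL_comm β _) hτh (lf r x) (lf r (rv E x))
      have h3 : fa E (rv E x) = rv E (fa E x) := rfl
      rw [hP.tau_lf, hP.tau_lf, h3] at h1 h2
      have h4 := hZ (fa E x)
      have h5 : gx n E B (fa E x).1 = gx n E B x.1 := rfl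
      rw [h5, h1, hZ x] at h4
      have h4' := h4.trans (mul_assoc _ _ _).symm
      rw [← pow_add] at h4'
      have h6 := tr _ _ (mul_right_cancel h4')
      rw [h2, ← mul_assoc, ← pow_add, ← h6])
    (fun x => by
      have h4 := hZ (rv E x)
      have h5 : gx n E B (rv E x).1 = gx n E B x.1 := rfl
      have h6 : (Z (lf r (rv E x)))⁻¹ * Z (lf r x) = (Z (lf r x))⁻¹ * Z (lf r (rv E x)) := by
        rw [← hu2 x]
        group
      rw [h5, rv_rv, h6, hZ x] at h4
      exact (tr _ _ (mul_right_cancel h4)).symm)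
    (fun x => by
      apply tr
      have h1 := cyc_twist (σ := r * fc E) (j := gJ n E B) (c := c) (z := fun x => Z (lf r x))
        (fun d => hcJ _) x
      rw [← h1, ← gx_prod (fend_lt hP.ends x), ← hP.cyc_eq_prod' (gx n E B) x
        (fun i k hi hk => gx_comm hi hk)]
      congr 1
      funext d
      rw [lf_apply, hZ d])
    (fun v hv hd => by
      have h2 : (List.finRange E.length).filter (fun i => Inc v (E.get i)) = [] := by
        rw [List.filter_eq_nil_iff]
        intro i _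
        rw [decide_eq_true_iff, inc_iff']
        rintro ⟨d, -, h⟩
        exact hd ⟨d, h⟩
      have h1 := gx_prod (n := n) (E := E) (B := B) hv
      rw [h2, List.map_nil, List.prod_nil] at h1
      have h3 := tr (col B v) 0 (by rw [← h1, pow_zero])
      rw [h3, pow_zero])
  apply exists_fin_rep Θ
  rw [hΘ]
  intro h
  have h1 : (jj ((LF r → ZMod 2) × ZMod 2)) (0, 0) = (0, 0) := by rw [h]; rfl
  have h2 : (0 : ZMod 2) + 1 = 0 := congrArg Prod.snd h1
  exact absurd h2 (by decide)

/-- **Graph incidence groups of graphs with an embedding of face-width at least four in the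
projective plane are residually finite.** -/
theorem rfin (B : List ℕ) : RFin (Grp n E B) := by
  intro g hg
  by_cases h : (QuotientGroup.mk g : GrpU n E B) = 1
  · rcases of_mk_eq_one h with h1 | h1
    · exact absurd h1 hg
    · subst h1
      exact hP.rfinJ hg
  · exact hP.rfin1 h

end ProjWide

end GIG
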