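import Pool.Agent.Lib.MP_262b4d_al.RDefs
import Pool.Agent.Lib.MP_262b4d_al.RComb
import Pool.Agent.Lib.MP_262b4d_al.PRot

/-!
# The orientation double cover of a wide projective embedding
-/

namespace GIG

open Function Forest

section Dih

variable {α : Type} {r c : Equiv.Perm α}

theorem flip_c (hr : r * r = 1) (hc : c * c = 1) {x y : α} (h : (r * c).SameCycle x y) :
    (r * c).SameCycle (c x) (c y) := by
  have h1 := h.conj (g := c)
  have h2 : c * (r * c) * c⁻¹ = (r * c)⁻¹ := by
    rw [mul_inv_rev, inv_eq_of_mul_eq_one_left hc, inv_eq_of_mul_eq_one_left hr, mul_assoc,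
      mul_assoc r, hc, mul_one]
  rw [h2, Equiv.Perm.sameCycle_inv] at h1
  exact h1

theorem flip_r (hr : r * r = 1) (hc : c * c = 1) {x y : α} (h : (r * c).SameCycle x y) :
    (r * c).SameCycle (r x) (r y) := by
  have h1 := flip_c hr hc h
  have h2 : ∀ z, r z = (r * c) (c z) := by
    intro z
    have h3 : c (c z) = z := by
      rw [← Equiv.Perm.mul_apply, hc, Equiv.Perm.one_apply]
    rw [Equiv.Perm.mul_apply, h3]
  rw [h2 x, h2 y, Equiv.Perm.sameCycle_apply_left, Equiv.Perm.sameCycle_apply_right]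
  exact h1

theorem dih_iff [Finite α] (hr : r * r = 1) (hc : c * c = 1) {x y : α} :
    (∃ g ∈ Subgroup.closure {r, c}, g x = y) ↔
      (r * c).SameCycle x y ∨ (r * c).SameCycle (c x) y := by
  have hcc : ∀ z, c (c z) = z := fun z => by
    rw [← Equiv.Perm.mul_apply, hc, Equiv.Perm.one_apply]
  have hrz : ∀ z, r z = (r * c) (c z) := fun z => by
    rw [Equiv.Perm.mul_apply, hcc]
  have hmem : r * c ∈ Subgroup.closure {r, c} :=
    mul_mem (Subgroup.subset_closure (by simp)) (Subgroup.subset_closure (by simp))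
  constructor
  · rintro ⟨g, hg, rfl⟩
    refine (closure_inv (p := fun z => (r * c).SameCycle x z ∨ (r * c).SameCycle (c x) z)
      (S := {r, c}) ?_ hg x).1 (Or.inl (Equiv.Perm.SameCycle.refl _ _))
    have hstep : ∀ z, (r * c).SameCycle x z ∨ (r * c).SameCycle (c x) z →
        (r * c).SameCycle x (c z) ∨ (r * c).SameCycle (c x) (c z) := by
      rintro z (h | h)
      · exact Or.inr (flip_c hr hc h)
      · left
        have := flip_c hr hc h
        rwa [hcc] at this
    rintro s (rfl | hs) z hz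
    · rw [hrz z, Equiv.Perm.sameCycle_apply_right, Equiv.Perm.sameCycle_apply_right]
      exact hstep z hz
    · rw [Set.mem_singleton_iff.1 hs]
      exact hstep z hz
  · rintro (⟨k, hk⟩ | ⟨k, hk⟩)
    · exact ⟨(r * c) ^ k, zpow_mem hmem k, hk⟩
    · exact ⟨(r * c) ^ k * c, mul_mem (zpow_mem hmem k) (Subgroup.subset_closure (by simp)), hk⟩

theorem dbl [Finite α] (hr : r * r = 1) (hc : c * c = 1)
    (hn : ∀ x, ¬ (r * c).SameCycle x (c x)) :
    numOrbits (Subgroup.zpowers (r * c)) = 2 * numOrbits (Subgroup.closure {r, c}) := by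
  have hcc : ∀ z, c (c z) = z := fun z => by
    rw [← Equiv.Perm.mul_apply, hc, Equiv.Perm.one_apply]
  let K := Subgroup.closure {r, c}
  let ψ : MulAction.orbitRel.Quotient K α × Bool →
      MulAction.orbitRel.Quotient (Subgroup.zpowers (r * c)) α :=
    fun p => orb _ (if p.2 then c p.1.out else p.1.out)
  have hout : ∀ q : MulAction.orbitRel.Quotient K α, orb K q.out = q := fun q =>
    Quotient.out_eq' q
  have hsame : ∀ p : MulAction.orbitRel.Quotient K α × Bool,
      orb K (if p.2 then c p.1.out else p.1.out) = p.1 := by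
    rintro ⟨q, b⟩
    cases b
    · exact hout q
    · refine Eq.trans ?_ (hout q)
      rw [orb_eq]
      exact ⟨c, Subgroup.subset_closure (by simp), rfl⟩
  have hK : ∀ x y : α, (r * c).SameCycle x y → orb K y = orb K x := by
    intro x y h
    rw [orb_eq]
    exact (dih_iff hr hc).2 (Or.inl h)
  have hb : Bijective ψ := by
    constructor
    · intro p p' h
      have h1 := orb_zpowers.1 h
      have h2 := hK _ _ h1
      rw [hsame, hsame] at h2
      obtain ⟨q, b⟩ := p
      obtain ⟨q', b'⟩ := p'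
      have h3 : q = q' := h2
      subst h3
      cases b <;> cases b'
      · rfl
      · exact absurd h1.symm (hn q.out)
      · exact absurd h1 (hn q.out)
      · rfl
    · intro q
      obtain ⟨x, rfl⟩ := orb_surj _ q
      have h1 : orb K x = orb K (orb K x).out := (hout _).symm
      rw [orb_eq, dih_iff hr hc] at h1
      rcases h1 with h1 | h1
      · exact ⟨(orb K x, false), orb_zpowers.2 h1.symm⟩
      · exact ⟨(orb K x, true), orb_zpowers.2 h1.symm⟩
  unfold numOrbits
  rw [← Nat.card_congr (Equiv.ofBijective ψ hb), Nat.card_prod]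
  have : Nat.card Bool = 2 := by simp
  rw [this, mul_comm]

end Dih

namespace Prj

variable {n : ℕ} {E : List (ℕ × ℕ)} {B : List ℕ} {r : Equiv.Perm (Flag E)}

@[simp] theorem fa_fa (x : Flag E) : fa E (fa E x) = x := by
  obtain ⟨i, a, b⟩ := x
  simp [fa]

@[simp] theorem fc_fc (x : Flag E) : fc E (fc E x) = x := by
  obtain ⟨i, a, b⟩ := x
  simp [fc]

theorem fa_fc (x : Flag E) : fa E (fc E x) = fc E (fa E x) := rfl

theorem fa_mul : fa E * fa E = 1 := Equiv.ext fa_fa

theorem fc_mul : fc E * fc E = 1 := Equiv.ext fc_fc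

/-- turning a dart of the double cover -/
def rv (E : List (ℕ × ℕ)) (x : Flag E) : Flag E := fa E (fc E x)

@[simp] theorem rv_rv (x : Flag E) : rv E (rv E x) = x := by
  unfold rv
  rw [fa_fc (fa E (fc E x)), fa_fa, fc_fc]

/-- the vertex of a flag in the double cover -/
def lv (r : Equiv.Perm (Flag E)) (x : Flag E) :
    MulAction.orbitRel.Quotient (Subgroup.zpowers (r * fc E)) (Flag E) := orb _ x

/-- the faces of the double cover -/
abbrev LF (r : Equiv.Perm (Flag E)) : Type :=
  MulAction.orbitRel.Quotient (Subgroup.zpowers (r * fa E)) (Flag E)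

/-- the face of a flag in the double cover -/
def lf (r : Equiv.Perm (Flag E)) (x : Flag E) : LF r := orb _ x

theorem lv_eq {x y : Flag E} : lv r x = lv r y ↔ (r * fc E).SameCycle x y := by
  unfold lv
  rw [orb_zpowers]
  exact ⟨fun h => h.symm, fun h => h.symm⟩

theorem lf_eq {x y : Flag E} : lf r x = lf r y ↔ (r * fa E).SameCycle x y := by
  unfold lf
  rw [orb_zpowers]
  exact ⟨fun h => h.symm, fun h => h.symm⟩

theorem lf_surj (f : LF r) : ∃ x, lf r x = f := orb_surj _ f

theorem lv_apply (x : Flag E) : lv r ((r * fc E) x) = lv r x :=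
  lv_eq.2 (Equiv.Perm.sameCycle_apply_left.2 (Equiv.Perm.SameCycle.refl _ _))

theorem lf_r (x : Flag E) : lf r (r x) = lf r (fa E x) := by
  rw [lf_eq]
  have h : r x = (r * fa E) (fa E x) := by rw [Equiv.Perm.mul_apply, fa_fa]
  rw [h, Equiv.Perm.sameCycle_apply_left]

theorem lf_apply (x : Flag E) : lf r ((r * fc E) x) = lf r (rv E x) := by
  rw [Equiv.Perm.mul_apply, lf_r]
  rfl

theorem inc_iff' {v : ℕ} {i : Fin E.length} : Inc v (E.get i) ↔ ∃ d : Flag E, d.1 = i ∧
    fend E d = v := by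
  constructor
  · rintro (h | h)
    · exact ⟨(i, false, false), rfl, h⟩
    · exact ⟨(i, true, false), rfl, h⟩
  · rintro ⟨⟨k, b, b'⟩, rfl, rfl⟩
    rcases b with _ | _
    · exact Or.inl rfl
    · exact Or.inr rfl

theorem flag_ext (hE : ∀ e ∈ E, e.1 ≠ e.2) {d d' : Flag E} (h1 : d.1 = d'.1)
    (h2 : fend E d = fend E d') : d = d' ∨ d = fc E d' := by
  obtain ⟨i, b, s⟩ := d
  obtain ⟨k, b', s'⟩ := d'
  dsimp only at h1
  subst h1
  have h3 := hE _ (List.get_mem E i)
  have h4 : b = b' := by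
    unfold fend at h2
    rcases b with _ | _ <;> rcases b' with _ | _
    · rfl
    · exact absurd h2 h3
    · exact absurd h2.symm h3
    · rfl
  subst h4
  rcases s with _ | _ <;> rcases s' with _ | _
  · exact Or.inl rfl
  · exact Or.inr rfl
  · exact Or.inr rfl
  · exact Or.inl rfl

end Prj

namespace ProjWide

open Prj

variable {n : ℕ} {E : List (ℕ × ℕ)} {B : List ℕ} {r : Equiv.Perm (Flag E)}
  (hP : ProjWide n E r)
include hP

theorem ne : ∀ e ∈ E, e.1 ≠ e.2 := fun e he => (hP.ends e he).2.2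

theorem rr : r * r = 1 := Equiv.ext hP.invol

theorem lv_fc {x y : Flag E} (h : lv r x = lv r y) : lv r (fc E x) = lv r (fc E y) :=
  lv_eq.2 (flip_c hP.rr fc_mul (lv_eq.1 h))

theorem lv_r {x y : Flag E} (h : lv r x = lv r y) : lv r (r x) = lv r (r y) :=
  lv_eq.2 (flip_r hP.rr fc_mul (lv_eq.1 h))

theorem lf_fa {x y : Flag E} (h : lf r x = lf r y) : lf r (fa E x) = lf r (fa E y) :=
  lf_eq.2 (flip_c hP.rr fa_mul (lf_eq.1 h))

theorem wide' {x₀ x₁ x₂ x₃ x₄ x₅ : Flag E} (h1 : lv r x₀ = lv r x₁) (h2 : lf r x₁ = lf r x₂)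
    (h3 : lv r x₂ = lv r x₃) (h4 : lf r x₃ = lf r x₄) (h5 : lv r x₄ = lv r x₅) :
    lf r x₅ ≠ lf r (fa E x₀) := fun h6 =>
  hP.width _ _ _ _ _ _ (lv_eq.1 h1) (lf_eq.1 h2) (lv_eq.1 h3) (lf_eq.1 h4) (lv_eq.1 h5)
    (lf_eq.1 h6)

theorem lf_ne (x : Flag E) : lf r x ≠ lf r (fa E x) := hP.wide' rfl rfl rfl rfl rfl

theorem lv_ne (x : Flag E) : lv r x ≠ lv r (fc E x) := by
  intro h
  refine hP.wide' (x₀ := fc E x) (x₁ := x) (x₂ := x) (x₃ := x) (x₄ := x)
    (x₅ := (r * fc E) x) h.symm rfl rfl rfl (lv_apply x).symm ?_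
  rw [lf_apply]
  rfl

theorem fend_iff {x y : Flag E} : fend E x = fend E y ↔ lv r x = lv r y ∨ lv r (fc E x) = lv r y := by
  rw [hP.vert, dih_iff hP.rr fc_mul, lv_eq, lv_eq]

theorem euler2 : numOrbits (Subgroup.zpowers (r * fc E)) + numOrbits (Subgroup.zpowers (r * fa E)) =
    2 * E.length + 2 := by
  rw [dbl hP.rr fc_mul (fun x h => hP.lv_ne x (lv_eq.2 h)),
    dbl hP.rr fa_mul (fun x h => hP.lf_ne x (lf_eq.2 h))]
  have := hP.euler
  omega

theorem ind {p : Flag E → Prop} (h1 : ∀ x, p x → p ((r * fc E) x)) (h2 : ∀ x, p x → p (rv E x))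
    {x : Flag E} (hx : p x) (y : Flag E) : p y := by
  obtain ⟨g, hg, rfl⟩ := hP.conn x y
  refine (closure_inv (p := p) (S := {r * fc E, fa E * fc E}) ?_ hg x).1 hx
  rintro s (rfl | hs) a ha
  · exact h1 a ha
  · rw [Set.mem_singleton_iff.1 hs]
    exact h2 a ha

theorem face_ind {p : LF r → Prop} (h : ∀ x, p (lf r x) → p (lf r (rv E x))) {f : LF r}
    (hf : p f) (g : LF r) : p g := by
  obtain ⟨x, rfl⟩ := lf_surj f
  obtain ⟨y, rfl⟩ := lf_surj g
  refine hP.ind (p := fun z => p (lf r z)) ?_ h hf y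
  intro z hz
  show p (lf r ((r * fc E) z))
  rw [lf_apply]
  exact h z hz

theorem pmap : PMap (lv r) (lf r) (fun _ => ()) (r * fc E) (rv E) where
  rv_rv := rv_rv
  tlV_σ := lv_apply
  tlF_σ := lf_apply
  surjV := orb_surj _
  surjF := orb_surj _
  conn := fun _ h1 h2 _ d' _ h => hP.ind h1 h2 h d'
  euler := by
    have h1 : Nat.card (Flag E) = 4 * E.length := by
      unfold Flag
      rw [Nat.card_prod, Nat.card_prod]
      simp
      ring
    have h2 : Nat.card (MulAction.orbitRel.Quotient (Subgroup.zpowers (r * fc E)) (Flag E)) +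
        Nat.card (LF r) = 2 * E.length + 2 := hP.euler2
    have h3 : Nat.card Unit = 1 := by simp
    rw [h1, h3]
    omega

/-! ### products around a vertex -/

omit hP in
theorem lv_iterate (d : Flag E) (k : ℕ) : lv r ((r * fc E)^[k] d) = lv r d := by
  induction k with
  | zero => rfl
  | succ k ih => rw [iterate_succ_apply', lv_apply, ih]

theorem fend_of_lv {x y : Flag E} (h : lv r x = lv r y) : fend E x = fend E y :=
  hP.fend_iff.2 (Or.inl h)

omit hP in
theorem exists_iterate' {d d' : Flag E} (h : lv r d = lv r d') :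
    ∃ k < minimalPeriod (r * fc E) d, (r * fc E)^[k] d = d' := by
  obtain ⟨k, hk⟩ := (lv_eq.1 h).exists_nat_pow_eq
  refine ⟨k % minimalPeriod (r * fc E) d, Nat.mod_lt _ (minimalPeriod_pos _ d), ?_⟩
  rw [iterate_mod_minimalPeriod_eq]
  exact hk

theorem perm_cycle' (d : Flag E) :
    ((List.range (minimalPeriod (r * fc E) d)).map (fun i => ((r * fc E)^[i] d).1)).Perm
      ((List.finRange E.length).filter (fun i => Inc (fend E d) (E.get i))) := by
  rw [List.perm_ext_iff_of_nodup]
  · intro i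
    rw [List.mem_map, List.mem_filter, decide_eq_true_iff, inc_iff']
    constructor
    · rintro ⟨k, _, rfl⟩
      exact ⟨List.mem_finRange _, _, rfl, hP.fend_of_lv (lv_iterate d k)⟩
    · rintro ⟨_, d', rfl, h⟩
      rcases hP.fend_iff.1 h.symm with h | h
      · obtain ⟨k, hk, rfl⟩ := exists_iterate' h
        exact ⟨k, List.mem_range.2 hk, rfl⟩
      · have h1 := hP.lv_fc h
        rw [fc_fc] at h1
        obtain ⟨k, hk, h2⟩ := exists_iterate' h1
        exact ⟨k, List.mem_range.2 hk, by rw [h2]; rfl⟩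
  · rw [List.nodup_map_iff_inj_on List.nodup_range]
    intro i hi k hk h
    rw [List.mem_range] at hi hk
    rcases flag_ext hP.ne h (hP.fend_of_lv ((lv_iterate d i).trans (lv_iterate d k).symm))
      with h1 | h1
    · exact iterate_injOn_Iio_minimalPeriod hi hk h1
    · exfalso
      apply hP.lv_ne ((r * fc E)^[k] d)
      rw [← h1, lv_iterate, lv_iterate]
  · exact (List.nodup_finRange _).filter _

theorem cyc_eq_prod' {H : Type*} [Group H] (ξ : Fin E.length → H) (d : Flag E)
    (hc : ∀ i k, Inc (fend E d) (E.get i) → Inc (fend E d) (E.get k) → Commute (ξ i) (ξ k)) :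
    cyc (r * fc E) (fun d => ξ d.1) d =
      (((List.finRange E.length).filter (fun i => Inc (fend E d) (E.get i))).map ξ).prod := by
  unfold cyc
  have h1 : (List.range (minimalPeriod (r * fc E) d)).map (fun i => ξ ((r * fc E)^[i] d).1) =
      ((List.range (minimalPeriod (r * fc E) d)).map (fun i => ((r * fc E)^[i] d).1)).map ξ := by
    rw [List.map_map]; rfl
  rw [h1]
  refine ((hP.perm_cycle' d).map ξ).prod_eq' ?_
  rw [List.pairwise_map]
  rw [List.pairwise_map]
  apply List.Pairwise.imp_of_mem _ (List.pairwise_of_forall (R := fun _ _ => True) (fun _ _ => trivial))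
  intro i k _ _ _
  apply hc
  · rw [inc_iff']
    exact ⟨_, rfl, hP.fend_of_lv (lv_iterate d i)⟩
  · rw [inc_iff']
    exact ⟨_, rfl, hP.fend_of_lv (lv_iterate d k)⟩

end ProjWide

end GIG
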