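import Pool.Agent.Lib.MP_262b4d_al.RMap
import Pool.Agent.Lib.MP_262b4d_al.PRes
import Pool.Agent.Lib.MP_262b4d_al.QDefs

/-!
# The potential on the faces of the double cover, and homomorphisms from the group
-/

namespace GIG

open Function Forest

namespace Prj

variable {n : ℕ} {E : List (ℕ × ℕ)} {B : List ℕ} {r : Equiv.Perm (Flag E)}

/-- the deck transformation -/
noncomputable def tau (r : Equiv.Perm (Flag E)) (f : LF r) : LF r := lf r (fa E f.out)

/-- faces of the double cover which share a vertex -/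
def adj (r : Equiv.Perm (Flag E)) (f g : LF r) : Prop :=
  ∃ x y, lf r x = f ∧ lf r y = g ∧ lv r x = lv r y

/-- the generator in the uncoloured group -/
def ux (n : ℕ) (E : List (ℕ × ℕ)) (B : List ℕ) (i : Fin E.length) : GrpU n E B :=
  QuotientGroup.mk (gx n E B i)

theorem mk_gJ : (QuotientGroup.mk (gJ n E B) : GrpU n E B) = 1 :=
  (QuotientGroup.eq_one_iff _).2 (Subgroup.subset_normalClosure rfl)

theorem of_mk_eq_one {g : Grp n E B} (h : (QuotientGroup.mk g : GrpU n E B) = 1) :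
    g = 1 ∨ g = gJ n E B := by
  have h1 : g ∈ Subgroup.normalClosure {gJ n E B} := (QuotientGroup.eq_one_iff _).mp h
  have hn : (Subgroup.zpowers (gJ n E B)).Normal := by
    constructor
    rintro _ ⟨k, rfl⟩ a
    have h2 : a * gJ n E B ^ k * a⁻¹ = gJ n E B ^ k := by
      rw [((gJ_central a).zpow_right k).eq, mul_assoc, mul_inv_cancel, mul_one]
    show a * gJ n E B ^ k * a⁻¹ ∈ _
    rw [h2]
    exact ⟨k, rfl⟩
  have h3 : g ∈ Subgroup.zpowers (gJ n E B) :=
    Subgroup.normalClosure_le_normal (N := Subgroup.zpowers (gJ n E B))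
      (Set.singleton_subset_iff.mpr (Subgroup.mem_zpowers _)) h1
  obtain ⟨k, rfl⟩ := h3
  have h4 : gJ n E B ^ (2 : ℤ) = 1 := by
    rw [zpow_ofNat, pow_two, gJ_sq]
  rcases Int.even_or_odd' k with ⟨j, rfl | rfl⟩
  · left
    show gJ n E B ^ (2 * j) = 1
    rw [zpow_mul, h4, one_zpow]
  · right
    show gJ n E B ^ (2 * j + 1) = gJ n E B
    rw [zpow_add, zpow_mul, h4, one_zpow, one_mul, zpow_one]

theorem ux_sq (i : Fin E.length) : ux n E B i * ux n E B i = 1 := by
  unfold ux
  rw [← QuotientGroup.mk_mul, gx_sq]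
  rfl

theorem ux_comm {v : ℕ} {i k : Fin E.length} (hi : Inc v (E.get i)) (hk : Inc v (E.get k)) :
    Commute (ux n E B i) (ux n E B k) := by
  show ux n E B i * ux n E B k = ux n E B k * ux n E B i
  unfold ux
  rw [← QuotientGroup.mk_mul, (gx_comm hi hk).eq, QuotientGroup.mk_mul]

theorem fend_lt (hE : ∀ e ∈ E, e.1 < n ∧ e.2 < n ∧ e.1 ≠ e.2) (d : Flag E) : fend E d < n := by
  obtain ⟨i, b, s⟩ := d
  have h := hE _ (List.get_mem E i)
  cases b
  · exact h.1
  · exact h.2.1

theorem ux_prod (hE : ∀ e ∈ E, e.1 < n ∧ e.2 < n ∧ e.1 ≠ e.2) (d : Flag E) :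
    (((List.finRange E.length).filter (fun i => Inc (fend E d) (E.get i))).map
      (ux n E B)).prod = 1 := by
  have h1 : (((List.finRange E.length).filter (fun i => Inc (fend E d) (E.get i))).map
      (ux n E B)) = (((List.finRange E.length).filter (fun i => Inc (fend E d) (E.get i))).map
      (gx n E B)).map (QuotientGroup.mk' (Subgroup.normalClosure {gJ n E B})) := by
    rw [List.map_map]; rfl
  rw [h1, ← map_list_prod, gx_prod (fend_lt hE d), map_pow]
  have h2 : (QuotientGroup.mk' (Subgroup.normalClosure {gJ n E B})) (gJ n E B) = 1 := mk_gJ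
  rw [h2, one_pow]

end Prj

namespace ProjWide

open Prj

variable {n : ℕ} {E : List (ℕ × ℕ)} {B : List ℕ} {r : Equiv.Perm (Flag E)}
  (hP : ProjWide n E r)
include hP

theorem tau_lf (x : Flag E) : tau r (lf r x) = lf r (fa E x) := by
  unfold tau
  apply hP.lf_fa
  exact Quotient.out_eq' (lf r x)

theorem wide_adj : Wide (tau r) (adj r) where
  inv := by
    intro f
    obtain ⟨x, rfl⟩ := lf_surj f
    rw [hP.tau_lf, hP.tau_lf, fa_fa]
  refl := by
    intro f
    obtain ⟨x, rfl⟩ := lf_surj f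
    exact ⟨x, x, rfl, rfl, rfl⟩
  symm := by
    rintro f g ⟨x, y, hx, hy, h⟩
    exact ⟨y, x, hy, hx, h.symm⟩
  tadj := by
    rintro f g ⟨x, y, rfl, rfl, h⟩
    exact ⟨r x, r y, by rw [hP.tau_lf, lf_r], by rw [hP.tau_lf, lf_r], hP.lv_r h⟩
  wide := by
    rintro f g h ⟨x0, x1, h0, h1, h01⟩ ⟨x2, x3, h2, h3, h23⟩ ⟨x4, x5, h4, h5, h45⟩
    subst h0
    refine hP.wide' h01 (h1.trans h2.symm) h23 (h3.trans h4.symm) h45 ?_
    rw [h5, hP.tau_lf]

omit hP in
theorem adj_rv (x : Flag E) : adj r (lf r x) (lf r (rv E x)) :=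
  ⟨x, (r * fc E) x, rfl, lf_apply x, (lv_apply x).symm⟩

section Pot

variable {A : Type*} [Group A] {ξ : Fin E.length → A}

theorem exists_Z (h1 : ∀ i, ξ i * ξ i = 1)
    (h2 : ∀ v i k, Inc v (E.get i) → Inc v (E.get k) → Commute (ξ i) (ξ k))
    (h3 : ∀ d : Flag E, (((List.finRange E.length).filter
      (fun i => Inc (fend E d) (E.get i))).map ξ).prod = 1) :
    ∃ Z : LF r → A, ∀ x, Z (lf r (rv E x)) = Z (lf r x) * ξ x.1 := by
  obtain ⟨dep, par, hF⟩ := exists_forest (lv r) (rv E) Set.univ rv_rv (fun _ _ => trivial)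
  refine potential hP.pmap hF (fun d => ξ d.1) ?_ ?_
  · intro d
    show ξ d.1 = (ξ d.1)⁻¹
    exact (inv_eq_of_mul_eq_one_left (h1 d.1)).symm
  · intro v d _
    rw [hP.cyc_eq_prod' ξ d (fun i k hi hk => h2 _ i k hi hk)]
    exact h3 d

omit hP in
theorem quot' (h1 : ∀ i, ξ i * ξ i = 1)
    (h2 : ∀ v i k, Inc v (E.get i) → Inc v (E.get k) → Commute (ξ i) (ξ k))
    (hf : ∀ x y : Flag E, lv r x = lv r y → fend E x = fend E y)
    {Z : LF r → A} (hZ : ∀ x, Z (lf r (rv E x)) = Z (lf r x) * ξ x.1) {x y : Flag E}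
    (h : lv r x = lv r y) : ∃ q : A, Z (lf r y) = Z (lf r x) * q ∧ q * q = 1 := by
  obtain ⟨k, hk, rfl⟩ := exists_iterate' h
  have h3 := telescope (σ := r * fc E) (z := fun d => Z (lf r d)) (y := fun d => ξ d.1)
    (fun d => by rw [lf_apply, hZ]) x k
  have hinc : ∀ i, Inc (fend E x) (E.get ((r * fc E)^[i] x).1) := fun i =>
    inc_iff'.2 ⟨_, rfl, hf _ _ (lv_iterate x i)⟩
  refine ⟨_, h3, ?_⟩
  rw [← prod_mul_comm]
  · apply List.prod_eq_one
    intro z hz
    obtain ⟨i, -, rfl⟩ := List.mem_map.1 hz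
    exact h1 _
  · intro i j
    exact h2 _ _ _ (hinc i) (hinc j)

theorem isPot (h1 : ∀ i, ξ i * ξ i = 1)
    (h2 : ∀ v i k, Inc v (E.get i) → Inc v (E.get k) → Commute (ξ i) (ξ k))
    {Z : LF r → A} (hZ : ∀ x, Z (lf r (rv E x)) = Z (lf r x) * ξ x.1) :
    ∃ t : A, IsPot (tau r) (adj r) Z t := by
  have hadj : ∀ f g, adj r f g → (Z f)⁻¹ * Z g = (Z g)⁻¹ * Z f := by
    rintro f g ⟨x, y, rfl, rfl, h⟩
    obtain ⟨q, hq, hqq⟩ := quot' h1 h2 (fun _ _ h => hP.fend_of_lv h) hZ h
    rw [hq, inv_mul_cancel_left, mul_inv_rev, inv_mul_cancel_right]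
    exact (inv_eq_of_mul_eq_one_left hqq).symm
  by_cases hne : Nonempty (LF r)
  · obtain ⟨f0⟩ := hne
    obtain ⟨t, ht⟩ : ∃ t, ∀ f, Z (tau r f) = t * Z f := by
      refine ⟨Z (tau r f0) * (Z f0)⁻¹, fun f => ?_⟩
      refine hP.face_ind (p := fun f => Z (tau r f) = (Z (tau r f0) * (Z f0)⁻¹) * Z f) ?_
        (f := f0) (by rw [inv_mul_cancel_right]) f
      intro x hx
      show Z (tau r (lf r (rv E x))) = (Z (tau r f0) * (Z f0)⁻¹) * Z (lf r (rv E x))
      rw [hP.tau_lf]
      have h3 : fa E (rv E x) = rv E (fa E x) := rfl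
      rw [h3, hZ, hZ, ← mul_assoc, ← hx, hP.tau_lf]
      rfl
    refine ⟨t, hadj, ht, ?_⟩
    have h4 := ht (tau r f0)
    rw [hP.wide_adj.inv, ht f0, ← mul_assoc] at h4
    exact (mul_eq_right.1 h4.symm)
  · exact ⟨1, hadj, fun f => absurd ⟨f⟩ hne, one_mul 1⟩

end Pot

/-- homomorphisms from the group -/
theorem exists_hom {K : Type*} [Group K] (j : K) (W : Flag E → K) (hj : j * j = 1)
    (hWj : ∀ x, Commute (W x) j) (hW2 : ∀ x, W x * W x = 1) (hWa : ∀ x, W (fa E x) = W x)
    (hWr : ∀ x, W (rv E x) = W x) (hWc : ∀ x y, lv r x = lv r y → Commute (W x) (W y))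
    (hcyc : ∀ x, cyc (r * fc E) W x = j ^ col B (fend E x))
    (hiso : ∀ v < n, (¬ ∃ d : Flag E, fend E d = v) → j ^ col B v = 1) :
    ∃ Θ : Grp n E B →* K, Θ (gJ n E B) = j ∧ ∀ x : Flag E, Θ (gx n E B x.1) = W x := by
  have hWf : ∀ x : Flag E, W (fc E x) = W x := by
    intro x
    have h : fc E x = fa E (rv E x) := by
      unfold rv
      rw [fa_fa]
    rw [h, hWa, hWr]
  have hWe : ∀ x : Flag E, W (x.1, false, false) = W x := by
    rintro ⟨i, b, s⟩
    cases b <;> cases s
    · rfl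
    · exact (hWf (i, false, false)).symm
    · exact (hWa (i, false, false)).symm
    · exact (hWr (i, false, false)).symm
  let gen : Option (Fin E.length) → K := fun o => o.elim j (fun i => W (i, false, false))
  have hcomm : ∀ v (i k : Fin E.length), Inc v (E.get i) → Inc v (E.get k) →
      Commute (W (i, false, false)) (W (k, false, false)) := by
    intro v i k hi hk
    obtain ⟨x, rfl, rfl⟩ := inc_iff'.1 hi
    obtain ⟨y, rfl, hy⟩ := inc_iff'.1 hk
    rw [hWe, hWe]
    rcases hP.fend_iff.1 hy.symm with h | h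
    · exact hWc _ _ h
    · rw [← hWf x]
      exact hWc _ _ h
  have hrels : ∀ w ∈ Rels n E B, FreeGroup.lift gen w = 1 := by
    intro w hr
    unfold Rels at hr
    rcases hr with (((hr | ⟨i, rfl⟩) | ⟨i, rfl⟩) | ⟨v, i, k, hi, hk, rfl⟩) | ⟨v, hv, rfl⟩
    · rw [Set.mem_ofPred_eq] at hr
      subst hr
      rw [map_mul, FreeGroup.lift_apply_of]
      exact hj
    · rw [map_mul, FreeGroup.lift_apply_of]
      exact hW2 _
    · rw [map_mul, map_mul, map_mul, map_inv, map_inv, FreeGroup.lift_apply_of,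
        FreeGroup.lift_apply_of]
      show W (i, false, false) * j * (W (i, false, false))⁻¹ * j⁻¹ = 1
      rw [(hWj _).eq, mul_inv_cancel_right, mul_inv_cancel]
    · rw [map_mul, map_mul, map_mul, map_inv, map_inv, FreeGroup.lift_apply_of,
        FreeGroup.lift_apply_of]
      show W (i, false, false) * W (k, false, false) * (W (i, false, false))⁻¹ *
        (W (k, false, false))⁻¹ = 1
      rw [(hcomm v i k hi hk).eq, mul_inv_cancel_right, mul_inv_cancel]
    · rw [map_mul, map_inv, map_pow, map_list_prod, List.map_map, FreeGroup.lift_apply_of,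
        mul_inv_eq_one]
      have h1 : ((FreeGroup.lift gen) ∘ fun i => FreeGroup.of (some i)) =
          fun i => W (i, false, false) := by
        funext i
        rw [Function.comp_apply, FreeGroup.lift_apply_of]
        rfl
      rw [h1]
      show _ = j ^ col B v
      by_cases hd : ∃ d : Flag E, fend E d = v
      · obtain ⟨d, rfl⟩ := hd
        rw [← hcyc d, ← hP.cyc_eq_prod' (fun i => W (i, false, false)) d
          (fun i k hi hk => hcomm _ i k hi hk)]
        congr 1
        funext x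
        exact hWe x
      · have h2 : (List.finRange E.length).filter (fun i => Inc v (E.get i)) = [] := by
          rw [List.filter_eq_nil_iff]
          intro i _
          rw [decide_eq_true_iff, inc_iff']
          rintro ⟨d, -, h⟩
          exact hd ⟨d, h⟩
        rw [h2, hiso v hv hd]
        rfl
  refine ⟨PresentedGroup.toGroup hrels, PresentedGroup.toGroup.of hrels, fun x => ?_⟩
  rw [← hWe x]
  exact PresentedGroup.toGroup.of hrels

end ProjWide

end GIG
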