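import Pool.Agent.Lib.MP_262b4d_al.Alg2

/-!
# The initial state of a word, and the saturation of the set of reachable states
-/

namespace GIG

/-! ### The initial state -/

def il (c : Code) (s : Option ℕ × Bool) : CWord :=
  match s.1 with
  | none => []
  | some i => if i < c.2.1.length then [((c.2.1.getD i (0, 0)).1, uvec c i)] else []

def iw (c : Code) (w : Wd) : CWord := w.flatMap (il c)

def iz (w : Wd) : Bool := w.foldr (fun s z => xor (decide (s.1 = none)) z) false

section Init

variable {n : ℕ} {E : List (ℕ × ℕ)} {B : List ℕ}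

def al (E : List (ℕ × ℕ)) (s : Option ℕ × Bool) : List (ℕ × Vec E) :=
  match s.1 with
  | none => []
  | some i => if h : i < E.length then [((E.get ⟨i, h⟩).1, xe ⟨i, h⟩)] else []

def aw (E : List (ℕ × ℕ)) (w : Wd) : List (ℕ × Vec E) := w.flatMap (al E)

theorem uvec_length (c : Code) (e : ℕ) : (uvec c e).length = c.2.1.length + 1 := by
  unfold uvec
  rw [List.length_map, List.length_range]

theorem conc_al (s : Option ℕ × Bool) : conc (al E s) = il (n, E, B) s := by
  obtain ⟨o, ε⟩ := s
  rcases o with _ | i
  · rfl
  · unfold al il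
    by_cases h : i < E.length
    · simp only
      rw [dif_pos h, if_pos h, conc_cons]
      have h1 : ofM (xe (⟨i, h⟩ : Fin E.length)) = uvec (n, E, B) i := by
        refine toM_inj (E := E) (ofM_length _) (uvec_length (n, E, B) i) ?_
        rw [toM_ofM]
        exact (toM_uvec_some (n := n) (B := B) ⟨i, h⟩).symm
      have h2 := getD_get (E := E) ⟨i, h⟩
      simp only at h2
      rw [h1, h2]; rfl
    · simp only
      rw [dif_neg h, if_neg h]; rfl

theorem conc_append (r r' : List (ℕ × Vec E)) : conc (r ++ r') = conc r ++ conc r' := by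
  unfold conc
  rw [List.map_append]

theorem conc_aw : ∀ w : Wd, conc (aw E w) = iw (n, E, B) w
  | [] => rfl
  | s :: w => by
    unfold aw iw
    rw [List.flatMap_cons, List.flatMap_cons, conc_append, conc_al (n := n) (B := B)]
    congr 1
    exact conc_aw w

theorem phi_xe {v : ℕ} {i : Fin E.length} (hi : Inc v (E.get i)) :
    phi n E B v (xe i) = gx n E B i := by
  unfold phi
  have h1 : ∀ l : List (Fin E.length), l.Nodup →
      (l.map (fac n E B v (xe i))).prod = if i ∈ l then gx n E B i else 1 := by
    intro l
    induction l with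
    | nil => intro _; simp
    | cons k l ih =>
      intro h
      rw [List.nodup_cons] at h
      rw [List.map_cons, List.prod_cons, ih h.2]
      by_cases hk : k = i
      · subst hk
        rw [if_neg h.1, mul_one, if_pos List.mem_cons_self]
        unfold fac xe
        rw [if_pos ⟨hi, by rw [Pi.single_eq_same]; decide⟩]
      · have h2 : fac n E B v (xe i) k = 1 := by
          unfold fac xe
          rw [if_neg]
          rintro ⟨-, h⟩
          rw [Pi.single_apply, if_neg (by simpa using hk)] at h
          exact h rfl
        rw [h2, one_mul]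
        by_cases h3 : i ∈ l
        · rw [if_pos h3, if_pos (List.mem_cons_of_mem _ h3)]
        · rw [if_neg h3, if_neg]
          rintro h
          rcases List.mem_cons.1 h with h | h
          · exact hk h.symm
          · exact h3 h
  rw [h1 _ (List.nodup_finRange _), if_pos (List.mem_finRange i)]
  unfold facJ xe
  rw [Pi.single_apply, if_neg (by simp), mul_one]

theorem lval_append (r r' : List (ℕ × Vec E)) :
    lval n E B (r ++ r') = lval n E B r * lval n E B r' := by
  unfold lval
  rw [List.map_append, List.prod_append]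

theorem gJ_inv : (gJ n E B)⁻¹ = gJ n E B := inv_eq_of_mul_eq_one_left gJ_sq

theorem gx_inv (i : Fin E.length) : (gx n E B i)⁻¹ = gx n E B i :=
  inv_eq_of_mul_eq_one_left (gx_sq i)

theorem wval_aw : ∀ w : Wd, wval n E B w = Jp n E B (iz w) * lval n E B (aw E w)
  | [] => by
    unfold wval aw lval iz Jp
    simp
  | (o, ε) :: w => by
    have ih := wval_aw w
    have h1 : wval n E B ((o, ε) :: w) = gen n E B o * wval n E B w := by
      unfold wval
      rw [List.map_cons, List.prod_cons]
      congr 1
      rcases o with _ | i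
      · unfold gen
        cases ε
        · simp [gJ_inv]
        · simp
      · unfold gen
        by_cases h : i < E.length
        · cases ε
          · simp [h, gx_inv]
          · simp [h]
        · cases ε <;> simp [h]
    rw [h1, ih]
    have h2 : aw E ((o, ε) :: w) = al E (o, ε) ++ aw E w := by
      unfold aw; rw [List.flatMap_cons]
    have h3 : iz ((o, ε) :: w) = xor (decide (o = none)) (iz w) := rfl
    rw [h2, h3, lval_append]
    rcases o with _ | i
    · rw [Jp_xor]
      unfold gen al
      simp only [decide_true]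
      show gJ n E B * _ = gJ n E B * _ * (lval n E B [] * _)
      have : lval n E B ([] : List (ℕ × Vec E)) = 1 := rfl
      rw [this, one_mul, mul_assoc]
    · have h4 : decide ((some i : Option ℕ) = none) = false := by simp
      rw [h4, Bool.false_xor]
      unfold gen al
      by_cases h : i < E.length
      · simp only
        rw [dif_pos h, dif_pos h, lval_cons]
        have e1 : lval n E B ([] : List (ℕ × Vec E)) = 1 := rfl
        rw [e1, mul_one, phi_xe (Or.inl rfl), ← mul_assoc, ← mul_assoc]
        congr 1
        rw [← phi_xe (n := n) (B := B) (v := (E.get ⟨i, h⟩).1) (i := ⟨i, h⟩) (Or.inl rfl)]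
        exact ((Jp_comm_phi (iz w) _ _).eq).symm
      · simp only
        rw [dif_neg h, dif_neg h]
        have e1 : lval n E B ([] : List (ℕ × Vec E)) = 1 := rfl
        rw [e1, one_mul, one_mul]

theorem supp_aw (hG : Good n E) (w : Wd) : Supp n E (aw E w) := by
  intro l hl
  unfold aw at hl
  rw [List.mem_flatMap] at hl
  obtain ⟨⟨o, ε⟩, -, hl⟩ := hl
  rcases o with _ | i
  · simp [al] at hl
  · unfold al at hl
    by_cases h : i < E.length
    · simp only at hl
      rw [dif_pos h, List.mem_singleton] at hl
      subst hl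
      refine ⟨(hG.ends _ (List.get_mem E _)).1, ?_⟩
      intro k hk
      have := (xe_mem_C hG ⟨i, h⟩).2.2 k hk
      exact this.1
    · simp only at hl
      rw [dif_neg h] at hl
      exact absurd hl List.not_mem_nil

/-- The word problem in a good graph is reachability. -/
theorem wval_iff (hG : Good n E) (w : Wd) :
    wval n E B w = 1 ↔ RR (n, E, B) (iw (n, E, B) w) [] (iz w) := by
  rw [wval_aw, lval_iff hG (supp_aw hG w), conc_aw (n := n) (B := B)]

end Init

/-! ### Saturation -/

def stepL (c : Code) (S : List (Bool × CWord)) : List (Bool × CWord) :=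
  S ++ S.flatMap fun p => (mv c p.2).map fun q => (xor p.1 q.1, q.2)

def Lk (c : Code) (W : CWord) : ℕ → List (Bool × CWord)
  | 0 => [(false, W)]
  | k + 1 => stepL c (Lk c W k)

theorem mem_Lk_RR {c : Code} {W : CWord} : ∀ {k : ℕ} {p : Bool × CWord}, p ∈ Lk c W k →
    RR c W p.2 p.1
  | 0, p, h => by
    rw [Lk, List.mem_singleton] at h
    subst h
    exact RR.refl _
  | k + 1, p, h => by
    rw [Lk, stepL, List.mem_append] at h
    rcases h with h | h
    · exact mem_Lk_RR h
    · rw [List.mem_flatMap] at h
      obtain ⟨q, hq, h⟩ := h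
      obtain ⟨q', hq', rfl⟩ := List.mem_map.1 h
      exact RR.step (mem_Lk_RR hq) hq'

theorem RR_mem_Lk {c : Code} {W W' : CWord} {y : Bool} (h : RR c W W' y) :
    ∃ k, (y, W') ∈ Lk c W k := by
  induction h with
  | refl => exact ⟨0, List.mem_singleton.2 rfl⟩
  | @step W1 W2 y y' _ h2 ih =>
    obtain ⟨k, hk⟩ := ih
    refine ⟨k + 1, ?_⟩
    rw [Lk, stepL, List.mem_append]
    exact Or.inr (List.mem_flatMap.2 ⟨_, hk, List.mem_map.2 ⟨_, h2, rfl⟩⟩)

theorem Lk_mono {c : Code} {W : CWord} {k : ℕ} : Lk c W k ⊆ Lk c W (k + 1) := by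
  intro x hx
  rw [Lk, stepL]
  exact List.mem_append_left _ hx

theorem stepL_mono {c : Code} {S S' : List (Bool × CWord)} (h : S ⊆ S') :
    stepL c S ⊆ stepL c S' := by
  intro x hx
  unfold stepL at hx ⊢
  rw [List.mem_append] at hx ⊢
  rcases hx with hx | hx
  · exact Or.inl (h hx)
  · rw [List.mem_flatMap] at hx ⊢
    obtain ⟨p, hp, hx⟩ := hx
    exact Or.inr ⟨p, h hp, hx⟩

theorem Lk_sat {c : Code} {W : CWord} {k : ℕ} (h : ∀ x ∈ Lk c W (k + 1), x ∈ Lk c W k) :
    ∀ j, Lk c W j ⊆ Lk c W k := by
  have h1 : ∀ j, Lk c W (k + j) ⊆ Lk c W k := by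
    intro j
    induction j with
    | zero => exact List.Subset.refl _
    | succ j ih =>
      intro x hx
      have h2 : x ∈ stepL c (Lk c W (k + j)) := hx
      exact h x (stepL_mono ih h2)
  have h2 : ∀ j i, Lk c W j ⊆ Lk c W (j + i) := by
    intro j i
    induction i with
    | zero => exact List.Subset.refl _
    | succ i ih => exact List.Subset.trans ih Lk_mono
  intro j
  exact List.Subset.trans (h2 j k) (by rw [Nat.add_comm]; exact h1 j)

/-- finite set of words -/
def ls (A : Finset (ℕ × List Bool)) : ℕ → Finset CWord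
  | 0 => {[]}
  | k + 1 => insert [] ((A ×ˢ ls A k).image fun p => p.1 :: p.2)

theorem mem_ls {A : Finset (ℕ × List Bool)} : ∀ {k : ℕ} {W : CWord}, W.length ≤ k →
    (∀ l ∈ W, l ∈ A) → W ∈ ls A k
  | 0, W, h, _ => by
    have : W = [] := List.length_eq_zero_iff.1 (by omega)
    subst this
    exact Finset.mem_singleton_self _
  | k + 1, [], _, _ => Finset.mem_insert_self _ _
  | k + 1, l :: W, h, h' => by
    rw [ls, Finset.mem_insert]
    right
    rw [Finset.mem_image]
    refine ⟨(l, W), ?_, rfl⟩
    rw [Finset.mem_product]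
    exact ⟨h' l List.mem_cons_self, mem_ls (by simpa using h)
      (fun x hx => h' x (List.mem_cons_of_mem _ hx))⟩

/-- words of bounded length with letters in a finite set -/
def Bd (c : Code) (Vs : Finset ℕ) (N : ℕ) (W : CWord) : Prop :=
  W.length ≤ N ∧ ∀ l ∈ W, l.1 ∈ Vs ∧ l.2.length = c.2.1.length + 1

theorem mv_Bd {c : Code} {Vs : Finset ℕ} (hV : ∀ w < c.1, w ∈ Vs) : ∀ {W : CWord} {N : ℕ}
    {p : Bool × CWord}, Bd c Vs N W → p ∈ mv c W → Bd c Vs N p.2
  | [], _, p, _, hp => by simp [mv] at hp
  | l :: W, N, p, h, hp => by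
    have hl := h.2 l List.mem_cons_self
    have hW : ∀ x ∈ W, x.1 ∈ Vs ∧ x.2.length = c.2.1.length + 1 := fun x hx =>
      h.2 x (List.mem_cons_of_mem _ hx)
    have hN : W.length + 1 ≤ N := h.1
    have key : ∀ (l' : ℕ × List Bool), l'.1 ∈ Vs → l'.2.length = c.2.1.length + 1 →
        Bd c Vs N (l' :: W) := fun l' h1 h2 => ⟨hN, fun x hx => by
      rcases List.mem_cons.1 hx with rfl | hx
      · exact ⟨h1, h2⟩
      · exact hW x hx⟩
    rw [mv] at hp
    rcases List.mem_append.1 hp with hp | hp
    · rcases List.mem_append.1 hp with hp | hp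
      · rcases List.mem_append.1 hp with hp | hp
        · unfold hd1 at hp
          rcases List.mem_cons.1 hp with rfl | hp
          · exact key _ hl.1 (xr_length _ _ _)
          · rw [List.mem_singleton] at hp
            subst hp
            exact key _ hl.1 (xr_length _ _ _)
        · unfold hd2 at hp
          rw [List.mem_flatMap] at hp
          obtain ⟨w, hw, hp⟩ := hp
          split_ifs at hp with h
          · rw [List.mem_singleton] at hp
            subst hp
            exact key _ (hV w (List.mem_range.1 hw)) hl.2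
          · exact absurd hp List.not_mem_nil
      · rcases List.mem_append.1 hp with hp | hp
        · unfold hd3 at hp
          split_ifs at hp with h
          · rw [List.mem_singleton] at hp
            subst hp
            exact ⟨by show W.length ≤ N; omega, hW⟩
          · exact absurd hp List.not_mem_nil
        · rcases W with _ | ⟨l', W⟩
          · simp [hd45] at hp
          · rw [hd45] at hp
            have hl' := hW l' List.mem_cons_self
            have hN' : W.length + 1 + 1 ≤ N := hN
            rcases List.mem_append.1 hp with hp | hp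
            · unfold hd4 at hp
              split_ifs at hp with h
              · rw [List.mem_singleton] at hp
                subst hp
                refine ⟨by show W.length + 1 ≤ N; omega, fun x hx => ?_⟩
                rcases List.mem_cons.1 hx with rfl | hx
                · exact ⟨hl.1, xr_length _ _ _⟩
                · exact hW x (List.mem_cons_of_mem _ hx)
              · exact absurd hp List.not_mem_nil
            · unfold hd5 at hp
              rw [List.mem_flatMap] at hp
              obtain ⟨u, -, hp⟩ := hp
              split_ifs at hp with h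
              · rw [List.mem_singleton] at hp
                subst hp
                refine ⟨by show W.length + 1 + 1 ≤ N; omega, fun x hx => ?_⟩
                rcases List.mem_cons.1 hx with rfl | hx
                · exact ⟨hl.1, xr_length _ _ _⟩
                · rcases List.mem_cons.1 hx with rfl | hx
                  · exact ⟨hl'.1, xr_length _ _ _⟩
                  · exact hW x (List.mem_cons_of_mem _ hx)
              · exact absurd hp List.not_mem_nil
    · obtain ⟨q, hq, rfl⟩ := List.mem_map.1 hp
      have h1 : Bd c Vs (N - 1) W := ⟨by omega, hW⟩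
      have h2 := mv_Bd hV h1 hq
      refine ⟨?_, fun x hx => ?_⟩
      · have := h2.1
        show q.2.length + 1 ≤ N
        omega
      · rcases List.mem_cons.1 hx with rfl | hx
        · exact hl
        · exact h2.2 x hx

theorem RR_Bd {c : Code} {Vs : Finset ℕ} (hV : ∀ w < c.1, w ∈ Vs) {W W' : CWord} {N : ℕ}
    {y : Bool} (h : RR c W W' y) (hW : Bd c Vs N W) : Bd c Vs N W' := by
  induction h with
  | refl => exact hW
  | step _ h2 ih => exact mv_Bd hV ih h2

theorem exists_sat {c : Code} {Vs : Finset ℕ} (hV : ∀ w < c.1, w ∈ Vs) {W : CWord} {N : ℕ}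
    (hW : Bd c Vs N W) : ∃ k, ∀ x ∈ Lk c W (k + 1), x ∈ Lk c W k := by
  classical
  by_contra hcon
  push Not at hcon
  let F : Finset (Bool × CWord) :=
    Finset.univ ×ˢ ls (Vs ×ˢ (allvecs (c.2.1.length + 1)).toFinset) N
  have hF : ∀ k, (Lk c W k).toFinset ⊆ F := by
    intro k x hx
    rw [List.mem_toFinset] at hx
    have h1 := RR_Bd hV (mem_Lk_RR hx) hW
    rw [Finset.mem_product]
    refine ⟨Finset.mem_univ _, mem_ls h1.1 ?_⟩
    intro l hl
    have h2 := h1.2 l hl
    rw [Finset.mem_product, List.mem_toFinset]
    exact ⟨h2.1, mem_allvecs _ _ h2.2⟩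
  have hc : ∀ k, k ≤ (Lk c W k).toFinset.card := by
    intro k
    induction k with
    | zero => exact Nat.zero_le _
    | succ k ih =>
      obtain ⟨x, hx, hx'⟩ := hcon k
      have h1 : (Lk c W k).toFinset ⊂ (Lk c W (k + 1)).toFinset := by
        rw [Finset.ssubset_iff_of_subset]
        · exact ⟨x, List.mem_toFinset.2 hx, fun h => hx' (List.mem_toFinset.1 h)⟩
        · intro z hz
          rw [List.mem_toFinset] at hz ⊢
          exact Lk_mono hz
      have := Finset.card_lt_card h1
      omega
  have h1 := hc (F.card + 1)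
  have h2 := Finset.card_le_card (hF (F.card + 1))
  omega

theorem il_Bd (c : Code) (s : Option ℕ × Bool) : ∀ l ∈ il c s,
    l.1 ∈ Finset.range c.1 ∪ (c.2.1.map Prod.fst).toFinset ∧ l.2.length = c.2.1.length + 1 := by
  intro l hl
  obtain ⟨o, ε⟩ := s
  rcases o with _ | i
  · simp [il] at hl
  · unfold il at hl
    by_cases h : i < c.2.1.length
    · simp only at hl
      rw [if_pos h, List.mem_singleton] at hl
      subst hl
      refine ⟨?_, uvec_length _ _⟩
      rw [Finset.mem_union, List.mem_toFinset]
      right
      rw [List.mem_map]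
      refine ⟨c.2.1.getD i (0, 0), ?_, rfl⟩
      rw [List.getD_eq_getElem?_getD, List.getElem?_eq_getElem h]
      exact List.getElem_mem h
    · simp only at hl
      rw [if_neg h] at hl
      exact absurd hl List.not_mem_nil

theorem sat_iw (c : Code) (w : Wd) :
    ∃ k, ∀ x ∈ Lk c (iw c w) (k + 1), x ∈ Lk c (iw c w) k := by
  refine exists_sat (Vs := Finset.range c.1 ∪ (c.2.1.map Prod.fst).toFinset)
    (N := (iw c w).length) ?_ ⟨le_rfl, ?_⟩
  · intro v hv
    exact Finset.mem_union_left _ (Finset.mem_range.2 hv)
  · intro l hl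
    unfold iw at hl
    rw [List.mem_flatMap] at hl
    obtain ⟨s, -, hl⟩ := hl
    exact il_Bd c s l hl

theorem RR_iff_sat {c : Code} {W W' : CWord} {y : Bool} {k : ℕ}
    (h : ∀ x ∈ Lk c W (k + 1), x ∈ Lk c W k) : RR c W W' y ↔ (y, W') ∈ Lk c W k := by
  constructor
  · intro h1
    obtain ⟨j, hj⟩ := RR_mem_Lk h1
    exact Lk_sat h j hj
  · intro h1
    exact mem_Lk_RR h1

end GIG
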