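import Pool.Agent.Lib.MP_262b4d_al.Prim

/-!
# The decision procedure is computable
-/

namespace GIG

open Primrec

variable {α : Type*} [Primcodable α]

theorem pc_stepL {c : α → Code} {L : α → List (Bool × CWord)} (hc : Primrec c) (hL : Primrec L) :
    Primrec fun p => stepL (c p) (L p) := by
  unfold stepL
  have hm : Primrec fun q : α × (Bool × CWord) => mv (c q.1) q.2.2 :=
    pc_mv (hc.comp fst) (snd.comp snd)
  have hx : Primrec₂ fun (q : α × (Bool × CWord)) (r : Bool × CWord) => (xor q.2.1 r.1, r.2) := by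
    have h1 : Primrec fun s : (α × (Bool × CWord)) × (Bool × CWord) => xor s.1.2.1 s.2.1 :=
      pc_xor (fst.comp (snd.comp fst)) (fst.comp snd)
    exact h1.pair (snd.comp snd)
  have hg : Primrec₂ fun (p : α) (q : Bool × CWord) =>
      (mv (c p) q.2).map fun r => (xor q.1 r.1, r.2) := list_map hm hx
  exact list_append.comp hL (list_flatMap hL hg)

theorem pc_Lk {c : α → Code} {W : α → CWord} {k : α → ℕ} (hc : Primrec c) (hW : Primrec W)
    (hk : Primrec k) : Primrec fun p => Lk (c p) (W p) (k p) := by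
  have h1 : Primrec fun p : α => [(false, W p)] :=
    list_cons.comp ((const false).pair hW) (const [])
  have h2 : Primrec₂ fun (p : α) (q : ℕ × List (Bool × CWord)) => stepL (c p) q.2 :=
    pc_stepL (hc.comp fst) (snd.comp snd)
  have h3 := nat_rec' hk h1 h2
  refine Primrec.of_eq h3 fun p => ?_
  generalize k p = j
  induction j with
  | zero => rfl
  | succ j ih => rw [Lk, ← ih]

theorem pc_il {c : α → Code} {s : α → Option ℕ × Bool} (hc : Primrec c) (hs : Primrec s) :
    Primrec fun p => il (c p) (s p) := by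
  have h : Primrec₂ fun (p : α) (i : ℕ) =>
      (if i < (c p).2.1.length then [(((c p).2.1.getD i (0, 0)).1, uvec (c p) i)] else [] :
        CWord) := by
    have hc' : PrimrecPred fun q : α × ℕ => q.2 < (c q.1).2.1.length :=
      nat_lt.comp snd (pc_len (hc.comp fst))
    have y : Primrec fun q : α × ℕ =>
        ([(((c q.1).2.1.getD q.2 (0, 0)).1, uvec (c q.1) q.2)] : CWord) :=
      list_cons.comp ((fst.comp (pc_edge (hc.comp fst) snd)).pair
        (pc_uvec (hc.comp fst) snd)) (const [])
    exact Primrec.ite hc' y (const [])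
  have h2 := option_casesOn (fst.comp hs) (const ([] : CWord)) h
  refine Primrec.of_eq h2 fun p => ?_
  unfold il
  rcases (s p).1 with _ | i <;> rfl

theorem pc_iw {c : α → Code} {w : α → Wd} (hc : Primrec c) (hw : Primrec w) :
    Primrec fun p => iw (c p) (w p) := by
  have hg : Primrec₂ fun (p : α) (s : Option ℕ × Bool) => il (c p) s := pc_il (hc.comp fst) snd
  unfold iw
  exact list_flatMap hw hg

theorem pc_iz {w : α → Wd} (hw : Primrec w) : Primrec fun p => iz (w p) := by
  have h1 : Primrec fun q : α × ((Option ℕ × Bool) × Bool) => decide (q.2.1.1 = none) :=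
    (Primrec.eq.comp (fst.comp (fst.comp snd)) (const none)).decide
  have h : Primrec₂ fun (_ : α) (q : (Option ℕ × Bool) × Bool) =>
      xor (decide (q.1.1 = none)) q.2 := pc_xor h1 (snd.comp snd)
  unfold iz
  exact list_foldr hw (const false) h

/-- the search predicate -/
def satB (p : Code × Wd) (k : ℕ) : Bool :=
  decide (∀ x ∈ Lk p.1 (iw p.1 p.2) (Nat.succ k), x ∈ Lk p.1 (iw p.1 p.2) k)

/-- the test after the search -/
def testB (p : Code × Wd) (k : ℕ) : Bool :=
  decide ((iz p.2, ([] : CWord)) ∈ Lk p.1 (iw p.1 p.2) k)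

theorem prim_satB : Primrec₂ satB := by
  have hR : PrimrecRel fun (x : Bool × CWord) (p : (Code × Wd) × ℕ) =>
      x ∈ Lk p.1.1 (iw p.1.1 p.1.2) p.2 := by
    have hL : Primrec fun q : (Bool × CWord) × ((Code × Wd) × ℕ) =>
        Lk q.2.1.1 (iw q.2.1.1 q.2.1.2) q.2.2 :=
      pc_Lk (fst.comp (fst.comp snd)) (pc_iw (fst.comp (fst.comp snd)) (snd.comp (fst.comp snd)))
        (snd.comp snd)
    exact primrel_mem.comp fst hL
  have hL : Primrec fun p : (Code × Wd) × ℕ => Lk p.1.1 (iw p.1.1 p.1.2) (Nat.succ p.2) :=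
    pc_Lk (fst.comp fst) (pc_iw (fst.comp fst) (snd.comp fst)) (Primrec.succ.comp snd)
  have h := (hR.forall_mem_list.comp hL Primrec.id).decide
  exact h

theorem prim_testB : Primrec₂ testB := by
  have hL : Primrec fun p : (Code × Wd) × ℕ => Lk p.1.1 (iw p.1.1 p.1.2) p.2 :=
    pc_Lk (fst.comp fst) (pc_iw (fst.comp fst) (snd.comp fst)) snd
  have hz : Primrec fun p : (Code × Wd) × ℕ => (iz p.1.2, ([] : CWord)) :=
    (pc_iz (snd.comp fst)).pair (const [])
  have h := (primrel_mem.comp hz hL).decide
  exact h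

theorem exists_satB (p : Code × Wd) : ∃ k, satB p k = true := by
  obtain ⟨k, hk⟩ := sat_iw p.1 p.2
  exact ⟨k, decide_eq_true hk⟩

/-- the decision procedure -/
def solve (p : Code × Wd) : Bool := testB p (Nat.find (exists_satB p))

theorem computable_solve : Computable solve := by
  have h1 : Partrec fun p : Code × Wd => Nat.rfind fun k => Part.some (satB p k) :=
    Partrec.rfind (prim_satB.to_comp.partrec₂)
  have h2 : Partrec fun p : Code × Wd =>
      (Nat.rfind fun k => Part.some (satB p k)).map fun k => testB p k :=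
    Partrec.map h1 prim_testB.to_comp
  refine Partrec.of_eq_tot h2 fun p => ?_
  refine (Part.mem_map_iff _).2 ⟨Nat.find (exists_satB p), ?_, rfl⟩
  refine Nat.mem_rfind.2 ⟨?_, fun {m} hm => ?_⟩
  · exact Part.mem_some_iff.2 (Nat.find_spec (exists_satB p)).symm
  · have := Nat.find_min (exists_satB p) hm
    rw [Bool.not_eq_true] at this
    exact Part.mem_some_iff.2 this.symm

theorem solve_iff (c : Code) (w : Wd) : solve (c, w) = true ↔ RR c (iw c w) [] (iz w) := by
  have h := Nat.find_spec (exists_satB (c, w))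
  unfold satB at h
  rw [decide_eq_true_iff] at h
  unfold solve testB
  rw [decide_eq_true_iff]
  exact (RR_iff_sat h).symm

/-- **Main theorem.** -/
theorem main : ∃ f : Code × Wd → Bool, Computable f ∧
    ∀ (n : ℕ) (E : List (ℕ × ℕ)) (B : List ℕ), Good n E → ∀ w : Wd,
      (f ((n, E, B), w) = true ↔ wval n E B w = 1) :=
  ⟨solve, computable_solve, fun n E B hG w => by rw [solve_iff, wval_iff hG w]⟩

end GIG
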