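import Mathlib

/-!
# Graph incidence groups: words, flips, and the relation between last letters

`Sys V M` is the abstract data: `M` is an elementary abelian 2-group of formal vectors, `Z` the
central subgroup, `K v` the relations at the vertex `v`, `C v w` the set of nontrivial common
elements of the vertex groups at `v` and `w`.
-/

namespace GIG

theorem ch2_aux {M : Type*} [AddCommGroup M] [Module (ZMod 2) M] {a b : M}
    (h : (1 : ZMod 2) • a = (1 : ZMod 2) • b) : a = b := by simpa using h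

theorem kmem_aux {M : Type*} [AddCommGroup M] [Module (ZMod 2) M] {K : AddSubgroup M} {a b : M}
    (hb : b ∈ K) (h : (1 : ZMod 2) • a = (1 : ZMod 2) • b) : a ∈ K := by
  rw [ch2_aux h]; exact hb

/-- `v` has three neighbours `w`, `u`, `y` with dependent common elements -/
def CubP {V M : Type*} [AddCommGroup M] (K : V → AddSubgroup M) (C : V → V → Set M) (v : V) :
    Prop :=
  ∃ w u y c d e, c ∈ C v w ∧ d ∈ C v u ∧ e ∈ C v y ∧ w ≠ u ∧ c + d + e ∈ K v

structure Sys (V M : Type*) [AddCommGroup M] [Module (ZMod 2) M] where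
  Z : AddSubgroup M
  K : V → AddSubgroup M
  C : V → V → Set M
  symm : ∀ {v w c}, c ∈ C v w → c ∈ C w v
  irr : ∀ {v c}, c ∉ C v v
  addZ : ∀ {v w c ζ}, c ∈ C v w → ζ ∈ Z → c + ζ ∈ C v w
  addC : ∀ {v w c d}, c ∈ C v w → d ∈ C v w → c + d ∈ C v w ∨ c + d ∈ Z
  ZK : ∀ {v ζ}, ζ ∈ Z → ζ ∈ K v → ζ = 0
  Ca : ∀ {v w c}, c ∈ C v w → c ∉ K v
  Cb : ∀ {v w u c d}, c ∈ C v w → d ∈ C v u → c + d ∈ K v → w = u
  tri : ∀ {v w u c d e}, c ∈ C v w → d ∈ C w u → e ∈ C u v → False
  /-- no 4-cycle `v w p u` through a vertex `v` with three dependent neighbours -/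
  Cd4 : ∀ {v w u p c d c' d'}, CubP K C v → c ∈ C v w → d ∈ C v u → w ≠ u →
    c' ∈ C w p → d' ∈ C p u → p = v
  /-- no 5-cycle `v w p q u` where `v`, `w`, `q` have three dependent neighbours -/
  Cd5 : ∀ {v w u p q c d c' d' e'}, CubP K C v → CubP K C w → CubP K C q → c ∈ C v w →
    d ∈ C v u → w ≠ u → c' ∈ C w p → d' ∈ C p q → e' ∈ C q u → p ≠ v → q ≠ v → False

variable {V M : Type*} [AddCommGroup M] [Module (ZMod 2) M]

namespace Sys

variable (S : Sys V M)

/-- length preserving moves: `R r r' ζ` means `r = ζ r'` -/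
inductive R : List (V × M) → List (V × M) → M → Prop
  | nil : R [] [] 0
  | symm {r r' ζ} : R r r' ζ → R r' r ζ
  | trans {r r' r'' ζ ζ'} : R r r' ζ → R r' r'' ζ' → R r r'' (ζ + ζ')
  | cons {v a a' r r' ζ ζ'} : R r r' ζ → ζ' ∈ S.Z → a + a' + ζ + ζ' ∈ S.K v →
      R ((v, a) :: r) ((v, a') :: r') ζ'
  | F1 {v w c r} : c ∈ S.C v w → R ((v, c) :: r) ((w, c) :: r) 0
  | F2 {v w a b c r} : c ∈ S.C v w →
      R ((w, b) :: (v, a) :: r) ((w, b + c) :: (v, a + c) :: r) 0

variable {S}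

theorem R.refl : ∀ r : List (V × M), S.R r r 0
  | [] => R.nil
  | (v, a) :: r => R.cons (R.refl r) S.Z.zero_mem (by
      exact kmem_aux (S.K v).zero_mem (by match_scalars <;> rfl))

theorem R.congr {r r' : List (V × M)} {ζ ζ' : M} (h : S.R r r' ζ) (e : ζ' = ζ) : S.R r r' ζ' := by
  rw [e]; exact h

theorem R.memZ {r r' : List (V × M)} {ζ : M} (h : S.R r r' ζ) : ζ ∈ S.Z := by
  induction h with
  | nil => exact S.Z.zero_mem
  | symm _ ih => exact ih
  | trans _ _ ih1 ih2 => exact S.Z.add_mem ih1 ih2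
  | cons _ h _ _ => exact h
  | F1 _ => exact S.Z.zero_mem
  | F2 _ => exact S.Z.zero_mem

theorem R.length {r r' : List (V × M)} {ζ : M} (h : S.R r r' ζ) : r.length = r'.length := by
  induction h with
  | nil => rfl
  | symm _ ih => exact ih.symm
  | trans _ _ ih1 ih2 => exact ih1.trans ih2
  | cons _ _ _ ih => simp [ih]
  | F1 _ => rfl
  | F2 _ => rfl

/-- change of the letter by a central element -/
theorem R.absorb {v : V} {a : M} {r s : List (V × M)} {ζ : M} (h : S.R r ((v, a) :: s) ζ) :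
    S.R r ((v, a + ζ) :: s) 0 := by
  have hz := h.memZ
  have h2 : S.R ((v, a) :: s) ((v, a + ζ) :: s) ζ :=
    R.cons (R.refl s) hz (by exact kmem_aux (S.K v).zero_mem (by match_scalars <;> rfl))
  exact (R.trans h h2).congr (by exact ch2_aux (by match_scalars <;> rfl))

/-- same tail, congruent letters -/
theorem R.letter {v : V} {a a' : M} {s : List (V × M)} (h : a + a' ∈ S.K v) :
    S.R ((v, a) :: s) ((v, a') :: s) 0 :=
  R.cons (R.refl s) S.Z.zero_mem (by exact kmem_aux h (by match_scalars <;> rfl))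

theorem R.cons' {v : V} {a : M} {r r' : List (V × M)} {ζ : M} (h : S.R r r' ζ) :
    S.R ((v, a) :: r) ((v, a) :: r') ζ :=
  R.cons h h.memZ (by exact kmem_aux (S.K v).zero_mem (by match_scalars <;> rfl))

/-- last vertices -/
def D (S : Sys V M) (r : List (V × M)) (v : V) : Prop := ∃ a s, S.R r ((v, a) :: s) 0

theorem D.of_R {r r' : List (V × M)} {ζ : M} {v : V} (h : S.R r r' ζ) (hd : S.D r v) :
    S.D r' v := by
  obtain ⟨a, s, hs⟩ := hd
  exact ⟨_, _, (R.trans h.symm hs).absorb⟩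

theorem D.of_R' {r s : List (V × M)} {ζ a : M} {v : V} (h : S.R r ((v, a) :: s) ζ) :
    S.D r v := ⟨_, _, h.absorb⟩

theorem D.cons (v : V) (a : M) (r : List (V × M)) : S.D ((v, a) :: r) v := ⟨a, r, R.refl _⟩

/-- `δ · r = r'` at the vertex `v`, with `r`, `r'` of the same length -/
def H (S : Sys V M) (v : V) (r r' : List (V × M)) (δ : M) : Prop :=
  (∃ ζ, S.R r r' ζ ∧ δ + ζ ∈ S.K v) ∨
  (∃ w c a s, c ∈ S.C v w ∧ S.R r ((w, a) :: s) 0 ∧ S.R r' ((w, a + c) :: s) 0 ∧ δ + c ∈ S.K v)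

theorem H.symm {v : V} {r r' : List (V × M)} {δ : M} (h : S.H v r r' δ) : S.H v r' r δ := by
  rcases h with ⟨ζ, h1, h2⟩ | ⟨w, c, a, s, hc, h1, h2, h3⟩
  · exact Or.inl ⟨ζ, h1.symm, h2⟩
  · refine Or.inr ⟨w, c, a + c, s, hc, h2, ?_, h3⟩
    have : a + c + c = a := by exact ch2_aux (by match_scalars <;> rfl)
    rw [this]; exact h1

theorem H.congr {v : V} {r r' : List (V × M)} {δ δ' : M} (h : S.H v r r' δ)
    (e : δ + δ' ∈ S.K v) : S.H v r r' δ' := by
  rcases h with ⟨ζ, h1, h2⟩ | ⟨w, c, a, s, hc, h1, h2, h3⟩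
  · exact Or.inl ⟨ζ, h1, by exact kmem_aux ((S.K v).add_mem e h2) (by match_scalars <;> rfl)⟩
  · exact Or.inr ⟨w, c, a, s, hc, h1, h2, by exact kmem_aux ((S.K v).add_mem e h3) (by match_scalars <;> rfl)⟩

theorem H.congr' {v : V} {r r' : List (V × M)} {δ δ' : M} (h : S.H v r r' δ)
    (e : δ' = δ) : S.H v r r' δ' := by rw [e]; exact h

theorem H.of_R {v : V} {r r' : List (V × M)} {δ ζ : M} (h : S.R r r' ζ)
    (e : δ + ζ ∈ S.K v) : S.H v r r' δ := Or.inl ⟨ζ, h, e⟩

theorem H.refl (v : V) (r : List (V × M)) {δ : M} (e : δ = 0) : S.H v r r δ :=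
  Or.inl ⟨0, R.refl r, by rw [e, add_zero]; exact (S.K v).zero_mem⟩

/-- composition with an `R` on the right -/
theorem H.trans_R {v : V} {r r' r'' : List (V × M)} {δ ζ : M} (h : S.H v r r' δ)
    (h' : S.R r' r'' ζ) : S.H v r r'' (δ + ζ) := by
  rcases h with ⟨ζ1, h1, h2⟩ | ⟨w, c, a, s, hc, h1, h2, h3⟩
  · exact Or.inl ⟨ζ1 + ζ, h1.trans h', by exact kmem_aux h2 (by match_scalars <;> rfl)⟩
  · refine Or.inr ⟨w, c + ζ, a, s, S.addZ hc h'.memZ, h1, ?_, by exact kmem_aux h3 (by match_scalars <;> rfl)⟩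
    have := (h'.symm.trans h2).absorb
    exact (by have e : a + c + (ζ + 0) = a + (c + ζ) := by exact ch2_aux (by match_scalars <;> rfl)
              rw [← e]; exact this)

theorem H.R_trans {v : V} {r r' r'' : List (V × M)} {δ ζ : M} (h : S.R r r' ζ)
    (h' : S.H v r' r'' δ) : S.H v r r'' (δ + ζ) := (h'.symm.trans_R h.symm).symm

/-- from `H` to `R` -/
theorem H.toR {v : V} {r r' : List (V × M)} {δ a b ζ : M} (h : S.H v r r' δ)
    (hz : ζ ∈ S.Z) (e : a + b + ζ + δ ∈ S.K v) : S.R ((v, a) :: r) ((v, b) :: r') ζ := by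
  rcases h with ⟨ζ1, h1, h2⟩ | ⟨w, c, α, s, hc, h1, h2, h3⟩
  · exact R.cons h1 hz (by exact kmem_aux ((S.K v).add_mem e h2) (by match_scalars <;> rfl))
  · have A : S.R ((v, a) :: r) ((v, a) :: (w, α) :: s) 0 := h1.cons'
    have B : S.R ((v, a) :: (w, α) :: s) ((v, a + c) :: (w, α + c) :: s) 0 := R.F2 (S.symm hc)
    have D : S.R ((v, a + c) :: (w, α + c) :: s) ((v, b) :: r') ζ :=
      R.cons h2.symm hz (by exact kmem_aux ((S.K v).add_mem e h3) (by match_scalars <;> rfl))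
    exact ((A.trans B).trans D).congr (by exact ch2_aux (by match_scalars <;> rfl))

theorem H.toR0 {v : V} {r r' : List (V × M)} {δ : M} (h : S.H v r r' δ) (a : M) :
    S.R ((v, a) :: r) ((v, a + δ) :: r') 0 :=
  h.toR S.Z.zero_mem (by exact kmem_aux (S.K v).zero_mem (by match_scalars <;> rfl))

theorem H.length {v : V} {r r' : List (V × M)} {δ : M} (h : S.H v r r' δ) :
    r.length = r'.length := by
  have := (h.toR0 0).length
  simpa using this

/-- an `H` with central difference is an `R` -/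
theorem H.central {v : V} {r r' : List (V × M)} {δ : M} (h : S.H v r r' δ) (hz : δ ∈ S.Z) :
    S.R r r' δ := by
  rcases h with ⟨ζ1, h1, h2⟩ | ⟨w, c, α, s, hc, h1, h2, h3⟩
  · have e := S.ZK (S.Z.add_mem hz h1.memZ) h2
    have : δ = ζ1 := by
      have : δ + ζ1 + ζ1 = 0 + ζ1 := by rw [e]
      rw [← (show δ + ζ1 + ζ1 = δ by exact ch2_aux (by match_scalars <;> rfl)), this]; exact ch2_aux (by match_scalars <;> rfl)
    rw [this]; exact h1
  · exact absurd (by exact kmem_aux h3 (by match_scalars <;> rfl) : c + δ ∈ S.K v) (S.Ca (S.addZ hc hz))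

/-- the letter is trivial in the vertex group modulo the centre -/
def triv (S : Sys V M) (v : V) (a : M) : Prop := ∃ ζ ∈ S.Z, a + ζ ∈ S.K v

theorem not_triv_C {v w : V} {c : M} (hc : c ∈ S.C v w) : ¬ S.triv v c := by
  rintro ⟨ζ, hz, h⟩
  exact S.Ca (S.addZ hc hz) h

theorem triv.congr {v : V} {a b ζ : M} (h : S.triv v a) (hz : ζ ∈ S.Z)
    (e : a + b + ζ ∈ S.K v) : S.triv v b := by
  obtain ⟨ζ1, h1, h2⟩ := h
  exact ⟨ζ1 + ζ, S.Z.add_mem h1 hz, by exact kmem_aux ((S.K v).add_mem h2 e) (by match_scalars <;> rfl)⟩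

/-- reduced words, recursively -/
def Red (S : Sys V M) : List (V × M) → Prop
  | [] => True
  | (v, a) :: r => Red S r ∧ ¬ S.D r v ∧ ¬ S.triv v a ∧
      ∀ w c, c ∈ S.C v w → S.D r w → a + c ∉ S.K v

end Sys

end GIG
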