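import Pool.Agent.Lib.MP_262b4d_al.Grp

/-!
# Values of reduced words
-/

namespace GIG

variable {n : ℕ} {E : List (ℕ × ℕ)} {B : List ℕ}

/-- all letters are supported at their vertices -/
def Supp (n : ℕ) (E : List (ℕ × ℕ)) (r : List (ℕ × Vec E)) : Prop :=
  ∀ l ∈ r, SuppL n E l.1 l.2

theorem Supp.tail {l : ℕ × Vec E} {r : List (ℕ × Vec E)} (h : Supp n E (l :: r)) : Supp n E r :=
  fun x hx => h x (List.mem_cons_of_mem _ hx)

theorem Supp.head {l : ℕ × Vec E} {r : List (ℕ × Vec E)} (h : Supp n E (l :: r)) :
    SuppL n E l.1 l.2 := h l List.mem_cons_self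

section Rep

variable (hG : Good n E)

theorem rep_fac {v : ℕ} {a : Vec E} (h : SuppL n E v a) (i : Fin E.length) :
    rep (B := B) hG (fac n E B v a i) =
      Sys.actP (S := sysOf n E B hG) v (Pi.single (some i) (a (some i))) := by
  rcases zmod2_cases (a (some i)) with ha | ha
  · unfold fac
    rw [if_neg (fun h' => h'.2 ha), ha, Pi.single_zero, Sys.actP_zero, map_one]
  · have h1 : a (some i) ≠ 0 := by rw [ha]; decide
    have h2 := h.2 i h1
    rw [fac_pos h2, if_pos h1, ha]
    exact rep_x hG h2

theorem rep_facJ (v : ℕ) (a : Vec E) :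
    rep (B := B) hG (facJ n E B a) =
      Sys.actP (S := sysOf n E B hG) v (Pi.single none (a none)) := by
  unfold facJ
  rcases zmod2_cases (a none) with ha | ha
  · rw [if_neg (not_not.2 ha), ha, Pi.single_zero, Sys.actP_zero, map_one]
  · rw [if_pos (by rw [ha]; decide), ha]
    exact rep_J hG v

theorem sum_single_none (a : Vec E) (l : List (Fin E.length)) :
    ((l.map (fun i => (Pi.single (some i) (a (some i)) : Vec E))).sum) none = 0 := by
  induction l with
  | nil => rfl
  | cons i l ih =>
    rw [List.map_cons, List.sum_cons, Pi.add_apply, ih, add_zero, Pi.single_apply,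
      if_neg (by simp)]

theorem sum_single_some (a : Vec E) (k : Fin E.length) : ∀ (l : List (Fin E.length)), l.Nodup →
    ((l.map (fun i => (Pi.single (some i) (a (some i)) : Vec E))).sum) (some k) =
      if k ∈ l then a (some k) else 0
  | [], _ => by simp
  | i :: l, h => by
    rw [List.nodup_cons] at h
    rw [List.map_cons, List.sum_cons, Pi.add_apply, sum_single_some a k l h.2, Pi.single_apply]
    by_cases hk : k = i
    · subst hk
      simp [h.1]
    · simp [hk]

theorem sum_single (a : Vec E) :
    ((List.finRange E.length).map (fun i => (Pi.single (some i) (a (some i)) : Vec E))).sum +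
      Pi.single none (a none) = a := by
  funext o
  rw [Pi.add_apply]
  rcases o with _ | k
  · rw [sum_single_none, zero_add, Pi.single_eq_same]
  · rw [sum_single_some a k _ (List.nodup_finRange _), if_pos (List.mem_finRange k),
      Pi.single_apply, if_neg (by simp), add_zero]

theorem rep_phi {v : ℕ} {a : Vec E} (h : SuppL n E v a) :
    rep (B := B) hG (phi n E B v a) = Sys.actP (S := sysOf n E B hG) v a := by
  unfold phi
  rw [map_mul, map_list_prod, List.map_map, rep_facJ hG v]
  have h1 : (List.finRange E.length).map ((rep (B := B) hG) ∘ fac n E B v a) =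
      (List.finRange E.length).map (fun i => Sys.actP (S := sysOf n E B hG) v
        (Pi.single (some i) (a (some i)))) := by
    apply List.map_congr_left
    intro i _
    rw [Function.comp_apply, rep_fac hG h]
  rw [h1, actP_list, ← Sys.actP_add, sum_single]

theorem rep_lval : ∀ (r : List (ℕ × Vec E)) (_ : Supp n E r) (hr : (sysOf n E B hG).Red r),
    rep (B := B) hG (lval n E B r) (Sys.Om.base (sysOf n E B hG)) =
      Sys.Om.mk r 0 hr (sysOf n E B hG).Z.zero_mem
  | [], _, _ => by
    unfold lval
    rw [List.map_nil, List.prod_nil, map_one]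
    rfl
  | (v, a) :: r, hs, hr => by
    have ih := rep_lval r hs.tail hr.1
    unfold lval at ih ⊢
    rw [List.map_cons, List.prod_cons, map_mul, Equiv.Perm.mul_apply, ih, rep_phi hG hs.head,
      Sys.actP_apply]
    exact Sys.act_cons hr _

/-- A reduced word with value `1` or `J` is empty, and `J ≠ 1`. -/
theorem red_value {r : List (ℕ × Vec E)} (hs : Supp n E r) (hr : (sysOf n E B hG).Red r)
    {z : Vec E} (hz : z ∈ ZZ E) (h : facJ n E B z * lval n E B r = 1) : r = [] ∧ z = 0 := by
  have h1 := congrArg (fun g => rep (B := B) hG g (Sys.Om.base (sysOf n E B hG))) h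
  simp only [map_mul, map_one, Equiv.Perm.mul_apply, Equiv.Perm.one_apply] at h1
  rw [rep_lval hG r hs hr, rep_facJ hG 0, Sys.actP_apply] at h1
  have h2 : (Pi.single none (z none) : Vec E) = z := by
    funext o
    rcases o with _ | k
    · rw [Pi.single_eq_same]
    · rw [Pi.single_apply, if_neg (by simp)]
      exact (hz k).symm
  rw [h2, Sys.act_Z (S := sysOf n E B hG) hz] at h1
  obtain ⟨h3, h4⟩ := Sys.Om.eq_base h1
  rw [zero_add] at h4
  exact ⟨h3, h4⟩

end Rep

end GIG
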